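import Pool.Agent.RNK.StA

set_option autoImplicit false

/-!
# RNK [A1]: theta series
-/

namespace Pool.Agent.RNK

section

variable {D : ℕ} {Λ : Type} [AddCommGroup Λ] {h : Λ → ℝ}

private theorem A1_zero (hE : EL D h) : h 0 = 0 := by
  have := hE.par 0 0
  simp only [add_zero, sub_zero] at this
  linarith

private theorem A1_two (hE : EL D h) (u : Λ) : h (u + u) = 4 * h u := by
  have := hE.par u u
  rw [sub_self, A1_zero hE] at this
  linarith

private theorem A1_geom (x : ℝ) (h0 : 0 ≤ x) (h1 : x ≤ 1) (N : ℕ) :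
    (∑ k ∈ Finset.range N, ((k : ℝ) + 1) * x ^ k) * (1 - x) ^ 2 ≤ 1 := by
  have key : ∀ N : ℕ, (∑ k ∈ Finset.range N, ((k : ℝ) + 1) * x ^ k) * (1 - x) ^ 2 =
      1 - ((N : ℝ) + 1) * x ^ N + N * x ^ (N + 1) := by
    intro N
    induction N with
    | zero => simp
    | succ n ih =>
      rw [Finset.sum_range_succ, add_mul, ih]
      push_cast
      ring
  rw [key N]
  have h2 : (N : ℝ) * x ^ (N + 1) ≤ N * x ^ N := by
    apply mul_le_mul_of_nonneg_left _ (Nat.cast_nonneg N)
    rw [pow_succ]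
    calc x ^ N * x ≤ x ^ N * 1 := mul_le_mul_of_nonneg_left h1 (pow_nonneg h0 N)
      _ = x ^ N := mul_one _
  have h3 : 0 ≤ x ^ N := pow_nonneg h0 N
  nlinarith

private theorem A1_pow {ι : Type} (s : Finset ι) (b : ι → ℝ) (hb : ∀ i, 0 ≤ b i) (hD : 1 ≤ D) :
    ∑ i ∈ s, b i ^ D ≤ (∑ i ∈ s, b i) ^ D := by
  classical
  induction s using Finset.induction_on with
  | empty =>
    simp only [Finset.sum_empty]
    exact pow_nonneg le_rfl D
  | insert a s ha ih =>
    rw [Finset.sum_insert ha, Finset.sum_insert ha]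
    calc b a ^ D + ∑ i ∈ s, b i ^ D ≤ b a ^ D + (∑ i ∈ s, b i) ^ D := by linarith
      _ ≤ (b a + ∑ i ∈ s, b i) ^ D :=
        pow_add_pow_le (hb a) (Finset.sum_nonneg fun i _ => hb i) (by omega)

private theorem A1_x : Real.exp (-(1 / 2)) ≤ 61 / 100 := by
  have h1 : (2.7182818283 : ℝ) < Real.exp 1 := Real.exp_one_gt_d9
  have h2 : Real.exp (1 / 2) * Real.exp (1 / 2) = Real.exp 1 := by
    rw [← Real.exp_add]
    norm_num
  have h3 : 0 < Real.exp (1 / 2) := Real.exp_pos _
  have h4 : (164 : ℝ) / 100 ≤ Real.exp (1 / 2) := by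
    by_contra hcon
    rw [not_le] at hcon
    nlinarith
  rw [Real.exp_neg, inv_eq_one_div, div_le_iff₀ h3]
  nlinarith

private theorem A1_sum (hD : 1 ≤ D) (hE : EL D h) (ρ : ℝ) (hρ : 1 ≤ ρ) (Y : Finset Λ) :
    ∑ y ∈ Y, Real.exp (-(h y) / (2 * ρ)) ≤ (120 * ρ) ^ D := by
  classical
  have hρ0 : 0 < ρ := by linarith
  have hD0 : (0 : ℝ) < D := by exact_mod_cast hD
  have hρD : 0 < ρ * D := mul_pos hρ0 hD0
  set k : Λ → ℕ := fun y => ⌊h y / (ρ * D)⌋₊ with hk
  set N : ℕ := Y.sup k + 1 with hN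
  set x : ℝ := Real.exp (-(1 / 2)) with hx
  have hx0 : 0 < x := Real.exp_pos _
  have hx1 : x ≤ 61 / 100 := A1_x
  have hmaps : ∀ y ∈ Y, k y ∈ Finset.range N := by
    intro y hy
    rw [Finset.mem_range, hN]
    exact Nat.lt_succ_of_le (Finset.le_sup hy)
  rw [← Finset.sum_fiberwise_of_maps_to hmaps]
  have hfib : ∀ j ∈ Finset.range N,
      ∑ y ∈ Y with k y = j, Real.exp (-(h y) / (2 * ρ)) ≤ (18 * ρ * (((j : ℝ) + 1) * x ^ j)) ^ D := by
    intro j _
    have hterm : ∀ y ∈ Y.filter (fun y => k y = j), Real.exp (-(h y) / (2 * ρ)) ≤ (x ^ j) ^ D := by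
      intro y hy
      have hky : k y = j := (Finset.mem_filter.1 hy).2
      have h1 : (j : ℝ) ≤ h y / (ρ * D) := by
        rw [← hky]
        exact Nat.floor_le (div_nonneg (hE.nonneg y) hρD.le)
      rw [le_div_iff₀ hρD] at h1
      rw [hx, ← Real.exp_nat_mul, ← Real.exp_nat_mul, Real.exp_le_exp]
      rw [div_le_iff₀ (by linarith)]
      nlinarith
    have hcard : ((Y.filter (fun y => k y = j)).card : ℝ) ≤ (18 * ρ * ((j : ℝ) + 1)) ^ D := by
      obtain ⟨hf1, hf2⟩ := hE.fin (((j : ℝ) + 1) * ρ) (by positivity)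
      have hsub : ((Y.filter (fun y => k y = j) : Finset Λ) : Set Λ) ⊆
          {y | h y ≤ ((j : ℝ) + 1) * ρ * D} := by
        intro y hy
        rw [Finset.mem_coe, Finset.mem_filter] at hy
        have h2 := Nat.lt_floor_add_one (h y / (ρ * D))
        have h3 : ((⌊h y / (ρ * D)⌋₊ : ℕ) : ℝ) = j := by exact_mod_cast hy.2
        rw [h3, div_lt_iff₀ hρD] at h2
        show h y ≤ ((j : ℝ) + 1) * ρ * D
        nlinarith
      have h4 : (Y.filter (fun y => k y = j)).card ≤ {y | h y ≤ ((j : ℝ) + 1) * ρ * D}.ncard := by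
        rw [← Set.ncard_coe_finset]
        exact Set.ncard_le_ncard hsub hf1
      calc ((Y.filter (fun y => k y = j)).card : ℝ)
          ≤ ({y | h y ≤ ((j : ℝ) + 1) * ρ * D}.ncard : ℝ) := by exact_mod_cast h4
        _ ≤ (16 * (((j : ℝ) + 1) * ρ) + 2) ^ D := hf2
        _ ≤ (18 * ρ * ((j : ℝ) + 1)) ^ D := by
          apply pow_le_pow_left₀ (by positivity)
          have : (1 : ℝ) ≤ ((j : ℝ) + 1) * ρ := by
            have hj : (0 : ℝ) ≤ j := Nat.cast_nonneg j
            nlinarith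
          nlinarith
    calc ∑ y ∈ Y with k y = j, Real.exp (-(h y) / (2 * ρ))
        ≤ ∑ y ∈ Y with k y = j, (x ^ j) ^ D := Finset.sum_le_sum hterm
      _ = ((Y.filter (fun y => k y = j)).card : ℝ) * (x ^ j) ^ D := by
          rw [Finset.sum_const, nsmul_eq_mul]
      _ ≤ (18 * ρ * ((j : ℝ) + 1)) ^ D * (x ^ j) ^ D :=
          mul_le_mul_of_nonneg_right hcard (by positivity)
      _ = (18 * ρ * (((j : ℝ) + 1) * x ^ j)) ^ D := by
          rw [← mul_pow]
          ring
  calc ∑ j ∈ Finset.range N, ∑ y ∈ Y with k y = j, Real.exp (-(h y) / (2 * ρ))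
      ≤ ∑ j ∈ Finset.range N, (18 * ρ * (((j : ℝ) + 1) * x ^ j)) ^ D := Finset.sum_le_sum hfib
    _ ≤ (∑ j ∈ Finset.range N, 18 * ρ * (((j : ℝ) + 1) * x ^ j)) ^ D :=
        A1_pow _ _ (fun j => by positivity) hD
    _ ≤ (120 * ρ) ^ D := by
        apply pow_le_pow_left₀ (Finset.sum_nonneg fun j _ => by positivity)
        rw [← Finset.mul_sum]
        have h5 := A1_geom x hx0.le (by linarith) N
        set G : ℝ := ∑ k ∈ Finset.range N, ((k : ℝ) + 1) * x ^ k with hG
        have hG0 : 0 ≤ G := Finset.sum_nonneg fun j _ => by positivity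
        have h6 : (39 / 100 : ℝ) ^ 2 ≤ (1 - x) ^ 2 := by
          apply pow_le_pow_left₀ (by norm_num)
          linarith
        have h7 : G * (39 / 100 : ℝ) ^ 2 ≤ 1 := by
          calc G * (39 / 100 : ℝ) ^ 2 ≤ G * (1 - x) ^ 2 := mul_le_mul_of_nonneg_left h6 hG0
            _ ≤ 1 := h5
        nlinarith

private theorem A1_summ (hD : 1 ≤ D) (hE : EL D h) (a : ℝ) (ha : 0 < a) :
    Summable (fun y => Real.exp (-(a * h y))) := by
  set ρ : ℝ := max 1 (1 / (2 * a)) with hρ
  have hρ1 : 1 ≤ ρ := le_max_left _ _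
  have hρ2 : 1 / (2 * a) ≤ ρ := le_max_right _ _
  have h1 : Summable (fun y => Real.exp (-(h y) / (2 * ρ))) :=
    summable_of_sum_le (fun y => (Real.exp_pos _).le) (A1_sum hD hE ρ hρ1)
  refine Summable.of_nonneg_of_le (fun y => (Real.exp_pos _).le) (fun y => ?_) h1
  rw [Real.exp_le_exp, neg_div, neg_le_neg_iff, div_le_iff₀ (by linarith)]
  have h2 : 1 ≤ a * (2 * ρ) := by
    rw [div_le_iff₀ (by linarith)] at hρ2
    linarith
  have h3 := hE.nonneg y
  nlinarith

private theorem A1_half (hD : 1 ≤ D) (hE : EL D h) (a : ℝ) (ha : 0 < a) :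
    ∑' y, Real.exp (-(a / 2 * h y)) ≤ 2 ^ D * ∑' y, Real.exp (-(a * h y)) := by
  classical
  obtain ⟨c, hc⟩ := hE.cls
  set g : Λ → ℝ := fun s => Real.exp (-(a / 2 * h s)) with hg
  have hg0 : ∀ s, 0 ≤ g s := fun s => (Real.exp_pos _).le
  have hgs : Summable g := A1_summ hD hE (a / 2) (by linarith)
  set f : Λ → ℝ := fun s => Real.exp (-(a * h s)) with hf
  have hf0 : ∀ s, 0 ≤ f s := fun s => (Real.exp_pos _).le
  have hfs : Summable f := A1_summ hD hE a ha
  set gk : Fin (4 ^ D) → Λ → ℝ := fun k s => if c s = k then g s else 0 with hgk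
  have hgk0 : ∀ k s, 0 ≤ gk k s := by
    intro k s
    show 0 ≤ (if c s = k then g s else 0)
    split_ifs
    · exact hg0 s
    · exact le_rfl
  have hgks : ∀ k, Summable (gk k) := by
    intro k
    refine Summable.of_nonneg_of_le (hgk0 k) (fun s => ?_) hgs
    show (if c s = k then g s else 0) ≤ g s
    split_ifs
    · exact le_rfl
    · exact hg0 s
  set T : Fin (4 ^ D) → ℝ := fun k => ∑' s, gk k s with hT
  have hsum1 : ∑' s, g s = ∑ k, T k := by
    rw [hT, ← Summable.tsum_finsetSum (fun k _ => hgks k)]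
    refine tsum_congr fun s => ?_
    show g s = ∑ k, (if c s = k then g s else 0)
    rw [Finset.sum_ite_eq, if_pos (Finset.mem_univ _)]
  have hnorm : ∀ k, Summable fun s => ‖gk k s‖ := by
    intro k
    have : (fun s => ‖gk k s‖) = gk k := by
      funext s
      rw [Real.norm_eq_abs, abs_of_nonneg (hgk0 k s)]
    rw [this]
    exact hgks k
  have hfn : Summable fun s => ‖f s‖ := by
    have : (fun s => ‖f s‖) = f := by
      funext s
      rw [Real.norm_eq_abs, abs_of_nonneg (hf0 s)]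
    rw [this]
    exact hfs
  have hsum2 : ∑ k, T k ^ 2 = ∑' p : Λ × Λ, (if c p.1 = c p.2 then g p.1 * g p.2 else 0) := by
    have h1 : ∀ k, T k ^ 2 = ∑' p : Λ × Λ, gk k p.1 * gk k p.2 := by
      intro k
      rw [sq]
      exact tsum_mul_tsum_of_summable_norm (hnorm k) (hnorm k)
    have h2 : ∀ k, Summable fun p : Λ × Λ => gk k p.1 * gk k p.2 :=
      fun k => summable_mul_of_summable_norm (hnorm k) (hnorm k)
    rw [Finset.sum_congr rfl fun k _ => h1 k, ← Summable.tsum_finsetSum (fun k _ => h2 k)]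
    refine tsum_congr fun p => ?_
    show ∑ k, (if c p.1 = k then g p.1 else 0) * (if c p.2 = k then g p.2 else 0) = _
    have h3 : ∀ k, (if c p.1 = k then g p.1 else 0) * (if c p.2 = k then g p.2 else 0) =
        if c p.1 = k then (if c p.1 = c p.2 then g p.1 * g p.2 else 0) else 0 := by
      intro k
      by_cases h4 : c p.1 = k
      · rw [if_pos h4, if_pos h4]
        by_cases h5 : c p.2 = k
        · rw [if_pos h5, if_pos (h4.trans h5.symm)]
        · rw [if_neg h5, mul_zero, if_neg]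
          intro h6
          exact h5 (h6.symm.trans h4)
      · rw [if_neg h4, if_neg h4, zero_mul]
    rw [Finset.sum_congr rfl fun k _ => h3 k, Finset.sum_ite_eq, if_pos (Finset.mem_univ _)]
  set φ : Λ × Λ → Λ × Λ := fun p => (p.1 + p.2, p.1 - p.2) with hφ
  have hinj : Function.Injective φ := by
    rintro ⟨y, z⟩ ⟨y', z'⟩ hyz
    have e1 : y + z = y' + z' := congrArg Prod.fst hyz
    have e2 : y - z = y' - z' := congrArg Prod.snd hyz
    have e3 : (y - y') + (y - y') = 0 := by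
      have : (y - y') + (y - y') = ((y + z) - (y' + z')) + ((y - z) - (y' - z')) := by abel
      rw [this, e1, e2, sub_self, sub_self, add_zero]
    have e4 : h (y - y') = 0 := by
      have := A1_two hE (y - y')
      rw [e3, A1_zero hE] at this
      linarith
    have e5 : y = y' := sub_eq_zero.1 (hE.pos _ e4)
    subst e5
    have e6 : z = z' := add_left_cancel e1
    rw [e6]
  have hsum3 : (∑' s, f s) ^ 2 = ∑' p : Λ × Λ, (if c p.1 = c p.2 then g p.1 * g p.2 else 0) := by
    rw [sq, tsum_mul_tsum_of_summable_norm hfn hfn]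
    rw [← hinj.tsum_eq (f := fun p : Λ × Λ => if c p.1 = c p.2 then g p.1 * g p.2 else 0)]
    · refine tsum_congr fun p => ?_
      show f p.1 * f p.2 = if c (p.1 + p.2) = c (p.1 - p.2) then g (p.1 + p.2) * g (p.1 - p.2)
        else 0
      rw [if_pos]
      · show Real.exp (-(a * h p.1)) * Real.exp (-(a * h p.2)) =
          Real.exp (-(a / 2 * h (p.1 + p.2))) * Real.exp (-(a / 2 * h (p.1 - p.2)))
        rw [← Real.exp_add, ← Real.exp_add]
        congr 1
        have := hE.par p.1 p.2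
        linear_combination (a / 2) * this
      · rw [hc]
        exact ⟨p.2, by rw [two_nsmul]; abel⟩
    · intro p hp
      have hp' : c p.1 = c p.2 := by
        by_contra hcon
        exact hp (if_neg hcon)
      obtain ⟨u, hu⟩ := (hc p.1 p.2).1 hp'
      refine ⟨(p.1 - u, u), ?_⟩
      show (p.1 - u + u, p.1 - u - u) = p
      have e1 : p.1 - u + u = p.1 := sub_add_cancel _ _
      have e2 : p.1 - u - u = p.2 := by
        have : p.1 - u - u = p.1 - 2 • u := by rw [two_nsmul]; abel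
        rw [this, ← hu]
        abel
      rw [e1, e2]
  have hcs : (∑ k, T k) ^ 2 ≤ (4 : ℝ) ^ D * ∑ k, T k ^ 2 := by
    have := sq_sum_le_card_mul_sum_sq (s := (Finset.univ : Finset (Fin (4 ^ D)))) (f := T)
    rw [Finset.card_univ, Fintype.card_fin] at this
    push_cast at this
    exact this
  rw [hsum2, ← hsum3, ← hsum1] at hcs
  have h4 : (4 : ℝ) ^ D * (∑' s, f s) ^ 2 = (2 ^ D * ∑' s, f s) ^ 2 := by
    rw [mul_pow, ← pow_mul, mul_comm D 2, pow_mul]
    norm_num
  rw [h4] at hcs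
  have h5 : 0 ≤ 2 ^ D * ∑' s, f s := mul_nonneg (by positivity) (tsum_nonneg hf0)
  have h6 : 0 ≤ ∑' s, g s := tsum_nonneg hg0
  exact (pow_le_pow_iff_left₀ h6 h5 two_ne_zero).1 hcs

end

theorem thm_A1 : St_A1 := by
  intro D Λ _ h hD hE
  refine ⟨fun a ha => ⟨A1_summ hD hE a ha, A1_half hD hE a ha, fun v => ?_⟩, fun ρ hρ => ?_⟩
  · have h1 : ∀ y, Real.exp (-(a * h y)) * Real.exp (-(a * h (y + 2 • v))) =
        Real.exp (-(2 * a * h v)) * Real.exp (-(2 * a * h (y + v))) := by
      intro y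
      rw [← Real.exp_add, ← Real.exp_add]
      congr 1
      have h2 := hE.par (y + v) v
      have e1 : y + v + v = y + 2 • v := by rw [two_nsmul]; abel
      have e2 : y + v - v = y := add_sub_cancel_right _ _
      rw [e1, e2] at h2
      linear_combination (-a) * h2
    rw [tsum_congr h1, tsum_mul_left]
    congr 1
    exact (Equiv.addRight v).tsum_eq (fun y => Real.exp (-(2 * a * h y)))
  · have h1 : Summable (fun y => Real.exp (-(h y) / (2 * ρ))) :=
      summable_of_sum_le (fun y => (Real.exp_pos _).le) (A1_sum hD hE ρ hρ)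
    exact h1.tsum_le_of_sum_le (A1_sum hD hE ρ hρ)

end Pool.Agent.RNK
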