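import Pool.Agent.RNK.StA

set_option autoImplicit false

/-!
# RNK [A2]: truncation of pair sums
-/

namespace Pool.Agent.RNK

theorem thm_A2 (hA1 : St_A1) : St_A2 := by
  intro D Λ _ _ h ρ Lc S Y hD hEL hρ hLc hS hY
  have hρ0 : 0 < ρ := by linarith
  obtain ⟨hA, -⟩ := hA1 D Λ h hD hEL
  set a : ℝ := 1 / (4 * ρ) with ha
  have ha0 : 0 < a := by positivity
  have h2a0 : 0 < 2 * a := by positivity
  obtain ⟨hs, hhalf, htr⟩ := hA a ha0
  obtain ⟨hs2, hhalf2, -⟩ := hA (2 * a) h2a0
  obtain ⟨hsE, -, -⟩ := hA (a / 2) (by positivity)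
  have e4 : ∀ y, Real.exp (-(h y) / (4 * ρ)) = Real.exp (-(a * h y)) := by
    intro y
    congr 1
    rw [ha]
    field_simp
  have e2 : ∀ y, Real.exp (-(h y) / (2 * ρ)) = Real.exp (-(2 * a * h y)) := by
    intro y
    congr 1
    rw [ha]
    field_simp
    ring
  have hS' : S = ∑' y, Real.exp (-(2 * a * h y)) := by
    rw [hS]
    exact tsum_congr e2
  have hG1 : ∀ y, Real.exp (-(a * h y)) ≤ 1 := by
    intro y
    rw [Real.exp_le_one_iff]
    have := mul_nonneg ha0.le (hEL.nonneg y)
    linarith
  have hG0 : ∀ y, 0 ≤ Real.exp (-(a * h y)) := fun y => (Real.exp_pos _).le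
  have hhalf2' : ∑' y, Real.exp (-(a * h y)) ≤ 2 ^ D * S := by
    rw [hS']
    have h1 : ∀ y, Real.exp (-(2 * a / 2 * h y)) = Real.exp (-(a * h y)) := by
      intro y
      congr 1
      ring
    rw [← tsum_congr h1]
    exact hhalf2
  have hE : ∑' y, Real.exp (-(a / 2 * h y)) ≤ 4 ^ D * S := by
    refine hhalf.trans ?_
    calc (2 : ℝ) ^ D * ∑' y, Real.exp (-(a * h y)) ≤ 2 ^ D * (2 ^ D * S) :=
          mul_le_mul_of_nonneg_left hhalf2' (by positivity)
      _ = 4 ^ D * S := by
          rw [← mul_assoc, ← mul_pow]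
          norm_num
  refine ⟨?_, ?_⟩
  · intro v
    set Q : Λ → ℝ := fun y => Real.exp (-(a * h y)) * Real.exp (-(a * h (y + 2 • v))) with hQ
    have hQ0 : ∀ y, 0 ≤ Q y := fun y => mul_nonneg (hG0 _) (hG0 _)
    have hQs : Summable Q := by
      refine Summable.of_nonneg_of_le hQ0 (fun y => ?_) hs
      calc Q y ≤ Real.exp (-(a * h y)) * 1 := mul_le_mul_of_nonneg_left (hG1 _) (hG0 _)
        _ = _ := mul_one _
    have hQt : ∑' y, Q y = Real.exp (-(h v) / (2 * ρ)) * S := by
      rw [e2 v, hS']
      exact htr v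
    set F := Y.filter (fun y => y + 2 • v ∈ Y) with hF
    have hsumF : ∑ y ∈ F, Real.exp (-(h y) / (4 * ρ)) * Real.exp (-(h (y + 2 • v)) / (4 * ρ)) =
        ∑ y ∈ F, Q y := by
      refine Finset.sum_congr rfl fun y _ => ?_
      rw [e4, e4]
    rw [hsumF]
    refine ⟨?_, ?_⟩
    · rw [← hQt]
      exact hQs.sum_le_tsum F (fun y _ => hQ0 y)
    · set e : ℝ := Real.exp (-(Lc * D / 8)) with he
      set E : Λ → ℝ := fun y => Real.exp (-(a / 2 * h y)) with hEdef
      have hE0 : ∀ y, 0 ≤ E y := fun y => (Real.exp_pos _).le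
      have hout : ∀ z, z ∉ Y → Real.exp (-(a * h z)) ≤ e * E z := by
        intro z hz
        rw [hY, not_le] at hz
        rw [he, hEdef, ← Real.exp_add]
        refine Real.exp_le_exp.2 ?_
        have h1 : a / 2 * (Lc * ρ * D) = Lc * D / 8 := by
          rw [ha]
          field_simp
          ring
        have h2 : a / 2 * (Lc * ρ * D) ≤ a / 2 * h z :=
          mul_le_mul_of_nonneg_left hz.le (by positivity)
        rw [h1] at h2
        linarith
      have he0 : 0 ≤ e := (Real.exp_pos _).le
      set R : Λ → ℝ := fun y => if y ∈ F then Q y else 0 with hR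
      have hRsum : HasSum R (∑ y ∈ F, Q y) := by
        have h1 : HasSum R (∑ y ∈ F, R y) := hasSum_sum_of_ne_finset_zero (fun y hy => by
          rw [hR]
          simp only [if_neg hy])
        have h2 : ∑ y ∈ F, R y = ∑ y ∈ F, Q y := by
          refine Finset.sum_congr rfl fun y hy => ?_
          rw [hR]
          simp only [if_pos hy]
        rwa [h2] at h1
      have hEs : Summable E := hsE
      have hEsh : Summable (fun y => E (y + 2 • v)) :=
        (Equiv.addRight (2 • v)).summable_iff.2 hEs
      have hEsht : ∑' y, E (y + 2 • v) = ∑' y, E y :=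
        (Equiv.addRight (2 • v)).tsum_eq E
      have hle : ∀ y, Q y ≤ R y + e * (E y + E (y + 2 • v)) := by
        intro y
        by_cases hy : y ∈ F
        · have h1 : R y = Q y := by
            rw [hR]
            simp only [if_pos hy]
          rw [h1]
          have := mul_nonneg he0 (add_nonneg (hE0 y) (hE0 (y + 2 • v)))
          linarith
        · have h1 : R y = 0 := by
            rw [hR]
            simp only [if_neg hy]
          rw [h1, zero_add, mul_add]
          rw [hF, Finset.mem_filter, not_and_or] at hy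
          rcases hy with hy | hy
          · calc Q y ≤ Real.exp (-(a * h y)) * 1 :=
                  mul_le_mul_of_nonneg_left (hG1 _) (hG0 _)
              _ ≤ e * E y := by
                  rw [mul_one]
                  exact hout y hy
              _ ≤ e * E y + e * E (y + 2 • v) :=
                  le_add_of_nonneg_right (mul_nonneg he0 (hE0 _))
          · calc Q y ≤ 1 * Real.exp (-(a * h (y + 2 • v))) :=
                  mul_le_mul_of_nonneg_right (hG1 _) (hG0 _)
              _ ≤ e * E (y + 2 • v) := by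
                  rw [one_mul]
                  exact hout _ hy
              _ ≤ e * E y + e * E (y + 2 • v) :=
                  le_add_of_nonneg_left (mul_nonneg he0 (hE0 _))
      have hsr : Summable (fun y => e * (E y + E (y + 2 • v))) := (hEs.add hEsh).mul_left e
      have htot : ∑' y, Q y ≤ ∑ y ∈ F, Q y + e * (2 * ∑' y, E y) := by
        calc ∑' y, Q y ≤ ∑' y, (R y + e * (E y + E (y + 2 • v))) :=
              hQs.tsum_le_tsum hle (hRsum.summable.add hsr)
          _ = ∑' y, R y + ∑' y, e * (E y + E (y + 2 • v)) :=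
              hRsum.summable.tsum_add hsr
          _ = ∑ y ∈ F, Q y + e * (2 * ∑' y, E y) := by
              rw [hRsum.tsum_eq, tsum_mul_left, hEs.tsum_add hEsh, hEsht]
              ring
      have hfin : e * (2 * ∑' y, E y) ≤ 2 * 4 ^ D * e * S := by
        calc e * (2 * ∑' y, E y) ≤ e * (2 * (4 ^ D * S)) := by
              refine mul_le_mul_of_nonneg_left ?_ he0
              exact mul_le_mul_of_nonneg_left hE (by norm_num)
          _ = _ := by ring
      rw [← hQt]
      linarith
  · have h1 : ∑ y ∈ Y, Real.exp (-(h y) / (4 * ρ)) = ∑ y ∈ Y, Real.exp (-(a * h y)) :=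
      Finset.sum_congr rfl fun y _ => e4 y
    rw [h1]
    exact (hs.sum_le_tsum Y (fun y _ => hG0 y)).trans hhalf2'

end Pool.Agent.RNK
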