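import Pool.Agent.RNK.StA

/-!
# RNK / B1: planar sets from a configuration
-/

set_option autoImplicit false

namespace Pool.Agent.RNK

open NumberField Pool.Agent.QCF Pool.Agent.Helper53.Generic Pool.Agent.Helper60.Gap

section lattice

variable {D : ℕ} {Λ : Type} [AddCommGroup Λ] {h : Λ → ℝ}

private theorem B1_zero (el : EL D h) : h 0 = 0 := by
  have := el.par 0 0
  rw [add_zero, sub_zero] at this
  linarith

private theorem B1_two (el : EL D h) (v : Λ) : h (2 • v) = 4 * h v := by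
  have := el.par v v
  rw [sub_self, B1_zero el, ← two_nsmul] at this
  linarith

private theorem B1_inj2 (el : EL D h) {u v : Λ} (huv : 2 • u = 2 • v) : u = v := by
  have h1 : 2 • (u - v) = 0 := by rw [smul_sub, huv, sub_self]
  have h2 := B1_two el (u - v)
  rw [h1, B1_zero el] at h2
  exact sub_eq_zero.1 (el.pos _ (by linarith))

private theorem B1_le (el : EL D h) {y z v : Λ} {H : ℝ} (hv : z - y = 2 • v) (hy : h y ≤ H)
    (hz : h z ≤ H) : h v ≤ H := by
  have h1 := el.par z y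
  rw [hv, B1_two el] at h1
  have h2 := el.nonneg (z + y)
  linarith

variable [DecidableEq Λ] {Γ : Type}

/-- the pairs at a given distance -/
private theorem B1_pairs (el : EL D h) {m : ℕ} (cc : Λ → Fin m)
    (hcc : ∀ y z, cc y = cc z ↔ ∃ u, y - z = 2 • u) (E : Λ → Plane)
    (hE : Function.Injective E) (lab : Λ → Γ) (δ : Γ → ℝ) (hδ : Function.Injective δ)
    (hd : ∀ y v : Λ, v ≠ 0 → dist (E (y + 2 • v)) (E y) = δ (lab v)) (Y : Finset Λ)
    (γ : Γ) (V : Finset Λ) (hV : ∀ v, v ∈ V ↔ v ≠ 0 ∧ lab v = γ) (g : Plane → ℝ) :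
    ∑ k : Fin m, ∑ e ∈ (((Y.filter (fun y => cc y = k)).image E).offDiag).filter
        (fun e => dist e.1 e.2 = δ γ), g e.1 * g e.2 =
      ∑ v ∈ V, ∑ y ∈ Y.filter (fun y => y + 2 • v ∈ Y), g (E y) * g (E (y + 2 • v)) := by
  classical
  have key : ∀ k : Fin m, ∑ e ∈ (((Y.filter (fun y => cc y = k)).image E).offDiag).filter
        (fun e => dist e.1 e.2 = δ γ), g e.1 * g e.2 =
      ∑ q ∈ ((V ×ˢ Y).filter (fun q => q.2 + 2 • q.1 ∈ Y)).filter (fun q => cc q.2 = k),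
        g (E q.2) * g (E (q.2 + 2 • q.1)) := by
    intro k
    symm
    refine Finset.sum_bij (fun q _ => (E q.2, E (q.2 + 2 • q.1))) ?_ ?_ ?_ ?_
    · rintro ⟨v, y⟩ hq
      simp only [Finset.mem_filter, Finset.mem_product] at hq
      obtain ⟨⟨⟨hv, hy⟩, hyv⟩, hk⟩ := hq
      obtain ⟨hv0, hvl⟩ := (hV v).1 hv
      have hne : y ≠ y + 2 • v := by
        intro h1
        have h2 : 2 • v = 0 := by
          have h3 : y + 0 = y + 2 • v := by rw [add_zero]; exact h1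
          exact (add_left_cancel h3).symm
        exact hv0 (B1_inj2 el (by rw [h2, smul_zero]))
      simp only [Finset.mem_filter, Finset.mem_offDiag, Finset.mem_image]
      refine ⟨⟨⟨y, ⟨hy, hk⟩, rfl⟩, ⟨y + 2 • v, ⟨hyv, ?_⟩, rfl⟩, fun h1 => hne (hE h1)⟩, ?_⟩
      · rw [← hk, hcc]
        exact ⟨v, by abel⟩
      · rw [dist_comm, hd y v hv0, hvl]
    · rintro ⟨v, y⟩ hq ⟨v', y'⟩ hq' heq
      have h1 : E y = E y' := (Prod.ext_iff.1 heq).1
      have h2 : E (y + 2 • v) = E (y' + 2 • v') := (Prod.ext_iff.1 heq).2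
      have h3 := hE h1
      subst h3
      have h4 := add_left_cancel (hE h2)
      rw [B1_inj2 el h4]
    · rintro ⟨a, b⟩ hab
      simp only [Finset.mem_filter, Finset.mem_offDiag, Finset.mem_image] at hab
      obtain ⟨⟨⟨y, ⟨hy, hyk⟩, rfl⟩, ⟨z, ⟨hz, hzk⟩, rfl⟩, hne⟩, hdist⟩ := hab
      obtain ⟨v, hv⟩ := (hcc z y).1 (by rw [hzk, hyk])
      have hzv : z = y + 2 • v := by rw [← hv]; abel
      have hv0 : v ≠ 0 := by
        intro h0
        rw [h0, smul_zero, add_zero] at hzv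
        exact hne (by rw [hzv])
      have hl : lab v = γ := by
        apply hδ
        rw [← hd y v hv0, ← hzv, dist_comm]
        exact hdist
      refine ⟨(v, y), ?_, ?_⟩
      · simp only [Finset.mem_filter, Finset.mem_product]
        exact ⟨⟨⟨(hV v).2 ⟨hv0, hl⟩, hy⟩, hzv ▸ hz⟩, hyk⟩
      · show (E y, E (y + 2 • v)) = (E y, E z)
        rw [← hzv]
    · rintro ⟨v, y⟩ hq
      rfl
  rw [Finset.sum_congr rfl fun k _ => key k, Finset.sum_fiberwise, Finset.sum_filter,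
    Finset.sum_product]
  refine Finset.sum_congr rfl fun v _ => ?_
  rw [Finset.sum_filter]

/-- all distances are labels -/
private theorem B1_dist {m : ℕ} (cc : Λ → Fin m)
    (hcc : ∀ y z, cc y = cc z ↔ ∃ u, y - z = 2 • u) (E : Λ → Plane) (lab : Λ → Γ) (δ : Γ → ℝ)
    (hd : ∀ y v : Λ, v ≠ 0 → dist (E (y + 2 • v)) (E y) = δ (lab v)) {y z : Λ}
    (hyz : cc z = cc y) (hne : E y ≠ E z) :
    ∃ v, v ≠ 0 ∧ z = y + 2 • v ∧ dist (E y) (E z) = δ (lab v) := by
  obtain ⟨v, hv⟩ := (hcc z y).1 hyz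
  have hzv : z = y + 2 • v := by rw [← hv]; abel
  have hv0 : v ≠ 0 := by
    intro h0
    rw [h0, smul_zero, add_zero] at hzv
    exact hne (by rw [hzv])
  exact ⟨v, hv0, hzv, by rw [dist_comm, hzv, hd y v hv0]⟩

/-- few points at a given distance -/
private theorem B1_few (el : EL D h) {m : ℕ} (cc : Λ → Fin m)
    (hcc : ∀ y z, cc y = cc z ↔ ∃ u, y - z = 2 • u) (E : Λ → Plane)
    (hE : Function.Injective E) (lab : Λ → Γ) (δ : Γ → ℝ) (hδ : Function.Injective δ)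
    (hd : ∀ y v : Λ, v ≠ 0 → dist (E (y + 2 • v)) (E y) = δ (lab v)) (Y : Finset Λ)
    (H : ℝ) (hY : ∀ y, y ∈ Y ↔ h y ≤ H) (B : ℝ) (hB0 : 0 ≤ B)
    (hB : ∀ γ, (∃ v, v ≠ 0 ∧ lab v = γ ∧ h v ≤ H) →
      {v : Λ | v ≠ 0 ∧ lab v = γ}.Finite ∧ ({v : Λ | v ≠ 0 ∧ lab v = γ}.ncard : ℝ) ≤ B)
    (k : Fin m) (x : Plane) (hx : x ∈ (Y.filter (fun y => cc y = k)).image E) (d : ℝ) :
    ((((Y.filter (fun y => cc y = k)).image E).filter (fun y => y ≠ x ∧ dist x y = d)).card : ℝ)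
      ≤ B := by
  classical
  rw [Finset.mem_image] at hx
  obtain ⟨y, hy, rfl⟩ := hx
  rw [Finset.mem_filter] at hy
  obtain ⟨hy, hyk⟩ := hy
  by_cases hem : (((Y.filter (fun y => cc y = k)).image E).filter
      (fun z => z ≠ E y ∧ dist (E y) z = d)) = ∅
  · rw [hem]
    simpa using hB0
  obtain ⟨w, hw⟩ := Finset.nonempty_iff_ne_empty.2 hem
  have hstep : ∀ w ∈ (((Y.filter (fun y => cc y = k)).image E).filter
      (fun z => z ≠ E y ∧ dist (E y) z = d)), ∃ v : Λ, v ≠ 0 ∧ w = E (y + 2 • v) ∧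
        δ (lab v) = d ∧ h v ≤ H := by
    intro w hw
    rw [Finset.mem_filter, Finset.mem_image] at hw
    obtain ⟨⟨z, hz, rfl⟩, hne, hdz⟩ := hw
    rw [Finset.mem_filter] at hz
    obtain ⟨v, hv0, hzv, hdv⟩ := B1_dist cc hcc E lab δ hd (y := y) (z := z)
      (by rw [hz.2, hyk]) hne.symm
    refine ⟨v, hv0, by rw [← hzv], by rw [← hdv]; exact hdz, ?_⟩
    exact B1_le el (y := y) (z := z) (by rw [hzv]; abel) ((hY y).1 hy) ((hY z).1 hz.1)
  obtain ⟨v, hv0, -, hvd, hvh⟩ := hstep w hw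
  obtain ⟨hf, hB'⟩ := hB (lab v) ⟨v, hv0, rfl, hvh⟩
  refine le_trans ?_ hB'
  rw [Set.ncard_eq_toFinset_card _ hf]
  have : (((Y.filter (fun y => cc y = k)).image E).filter
      (fun z => z ≠ E y ∧ dist (E y) z = d)) ⊆ hf.toFinset.image (fun v => E (y + 2 • v)) := by
    intro w hw
    obtain ⟨v', hv0', hwv', hvd', -⟩ := hstep w hw
    rw [Finset.mem_image]
    refine ⟨v', ?_, hwv'.symm⟩
    rw [Set.Finite.mem_toFinset]
    exact ⟨hv0', hδ (by rw [hvd', hvd])⟩
  exact_mod_cast (Finset.card_le_card this).trans Finset.card_image_le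

end lattice

theorem thm_B1 (_hA1 : St_A1) (hA2 : St_A2) (hS1 : St_S1) : St_B1 := by
  classical
  intro D ι Γ _ C ρ Lc κ M₀ c N hD hι hρ hLc hκ hM hc hW hS hcnt hN
  have hρ0 : 0 < ρ := by linarith
  have hLc0 : 0 ≤ Lc := by linarith
  have hW1 : (1 : ℝ) ≤ C.W := by exact_mod_cast hW
  have hfin : ∀ i, {y : C.Λ i | C.h i y ≤ Lc * ρ * D}.Finite := fun i =>
    ((C.el i).fin (Lc * ρ) (by positivity)).1
  let Y : ∀ i, Finset (C.Λ i) := fun i => (hfin i).toFinset
  have hY : ∀ i y, y ∈ Y i ↔ C.h i y ≤ Lc * ρ * D := fun i y => (hfin i).mem_toFinset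
  have hcls : ∀ i, ∃ c : C.Λ i → Fin (4 ^ D), ∀ y z, c y = c z ↔ ∃ u, y - z = 2 • u := fun i =>
    (C.el i).cls
  choose cc hcc using hcls
  let e : ℂ → Plane := fun z => Complex.orthonormalBasisOneI.repr z
  have he : ∀ a b, dist (e a) (e b) = dist a b := fun a b =>
    Complex.orthonormalBasisOneI.repr.dist_map a b
  have hei : Function.Injective e := Complex.orthonormalBasisOneI.repr.injective
  let E : ∀ i, C.Λ i → Plane := fun i y => e (C.pt i y)
  have hE : ∀ i, Function.Injective (E i) := fun i => hei.comp (C.inj i)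
  have hd : ∀ i (y v : C.Λ i), v ≠ 0 → dist (E i (y + 2 • v)) (E i y) = C.δ (C.lab i v) := by
    intro i y v hv
    show dist (e _) (e _) = _
    rw [he, C.dist_eq i y v hv]
  -- finiteness of the label classes
  have hVfin : ∀ i γ, {v : C.Λ i | v ≠ 0 ∧ C.lab i v = γ}.Finite := by
    intro i γ
    refine ((C.el i).fin (max (C.t γ) 0) (le_max_right _ _)).1.subset ?_
    rintro v ⟨hv0, hl⟩
    show C.h i v ≤ max (C.t γ) 0 * D
    rw [C.h_eq i v hv0, hl]
    have h1 : (1 : ℝ) ≤ D := by exact_mod_cast hD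
    have h2 : 0 ≤ max (C.t γ) 0 := le_max_right _ _
    have h3 : C.t γ ≤ max (C.t γ) 0 := le_max_left _ _
    nlinarith
  let V : ∀ i, Γ → Finset (C.Λ i) := fun i γ => (hVfin i γ).toFinset
  have hV : ∀ i γ v, v ∈ V i γ ↔ v ≠ 0 ∧ C.lab i v = γ := fun i γ v =>
    (hVfin i γ).mem_toFinset
  have hVcard : ∀ γ, ∑ i, ((V i γ).card : ℝ) = C.W * C.cnt γ := by
    intro γ
    have h1 := C.sum_cnt γ
    have h2 : ∀ i, {v : C.Λ i | v ≠ 0 ∧ C.lab i v = γ}.ncard = (V i γ).card := fun i =>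
      Set.ncard_eq_toFinset_card _ (hVfin i γ)
    rw [Finset.sum_congr rfl fun i _ => h2 i] at h1
    exact_mod_cast h1
  -- the weights
  let S : ι → ℝ := fun i => ∑' y, Real.exp (-(C.h i y) / (2 * ρ))
  have hSκ : ∀ i, κ ≤ S i := fun i => (hS i).1
  have hSM : ∀ i, S i ≤ M₀ * κ := fun i => (hS i).2
  have hS0 : ∀ i, 0 < S i := fun i => lt_of_lt_of_le hκ (hSκ i)
  let α : ι → ℝ := fun i => √(κ / S i)
  have hα0 : ∀ i, 0 ≤ α i := fun i => Real.sqrt_nonneg _
  have hα1 : ∀ i, α i ≤ 1 := by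
    intro i
    show √(κ / S i) ≤ 1
    rw [Real.sqrt_le_one, div_le_one (hS0 i)]
    exact hSκ i
  have hα2 : ∀ i, α i * α i * S i = κ := by
    intro i
    have h1 : α i * α i = κ / S i := Real.mul_self_sqrt (div_nonneg hκ.le (hS0 i).le)
    rw [h1, div_mul_cancel₀ _ (hS0 i).ne']
  let w : ∀ i, C.Λ i → ℝ := fun i y => α i * Real.exp (-(C.h i y) / (4 * ρ))
  let G : ι → Plane → ℝ := fun i x => if hx : ∃ y, E i y = x then w i hx.choose else 0
  have hG : ∀ i y, G i (E i y) = w i y := by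
    intro i y
    have hx : ∃ z, E i z = E i y := ⟨y, rfl⟩
    show (if hx : ∃ z, E i z = E i y then w i hx.choose else 0) = _
    rw [dif_pos hx]
    congr 1
    exact hE i hx.choose_spec
  have hw : ∀ i y, 0 ≤ w i y ∧ w i y ≤ 1 := by
    intro i y
    refine ⟨mul_nonneg (hα0 i) (Real.exp_pos _).le, mul_le_one₀ (hα1 i) (Real.exp_pos _).le ?_⟩
    rw [Real.exp_le_one_iff]
    exact div_nonpos_of_nonpos_of_nonneg (neg_nonpos.2 ((C.el i).nonneg y)) (by positivity)
  have hG01 : ∀ i x, 0 ≤ G i x ∧ G i x ≤ 1 := by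
    intro i x
    show 0 ≤ (if hx : ∃ z, E i z = x then w i hx.choose else 0) ∧
      (if hx : ∃ z, E i z = x then w i hx.choose else 0) ≤ 1
    split_ifs with hx
    · exact hw i _
    · exact ⟨le_rfl, zero_le_one⟩
  let X : ι × Fin (4 ^ D) → Finset Plane := fun j =>
    ((Y j.1).filter (fun y => cc j.1 y = j.2)).image (E j.1)
  -- the hypotheses of S1
  have hWc : 1 ≤ (C.W : ℝ) * c := by nlinarith
  have hcardι : (1 : ℝ) ≤ Fintype.card ι := by exact_mod_cast Fintype.card_pos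
  have hpow : (1 : ℝ) ≤ (16 * (Lc * ρ) + 2) ^ D := one_le_pow₀ (by
    have : 0 ≤ Lc * ρ := by positivity
    linarith)
  have hN1 : 1 ≤ N := by
    rw [hN]
    nlinarith
  have hfew : ∀ j, ∀ x ∈ X j, ∀ d : ℝ,
      (((X j).filter (fun y => y ≠ x ∧ dist x y = d)).card : ℝ) ≤ C.W * c := by
    rintro ⟨i, k⟩ x hx d
    refine B1_few (C.el i) (cc i) (hcc i) (E i) (hE i) (C.lab i) C.δ C.δinj (hd i) (Y i)
      (Lc * ρ * D) (hY i) (C.W * c) (by linarith) ?_ k x hx d
    rintro γ ⟨v, hv0, hvl, hvh⟩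
    refine ⟨hVfin i γ, ?_⟩
    rw [C.h_eq i v hv0, hvl] at hvh
    rw [Set.ncard_eq_toFinset_card _ (hVfin i γ)]
    have h1 : ((V i γ).card : ℝ) ≤ ∑ i, ((V i γ).card : ℝ) :=
      Finset.single_le_sum (f := fun i => ((V i γ).card : ℝ)) (fun _ _ => Nat.cast_nonneg _)
        (Finset.mem_univ i)
    rw [hVcard] at h1
    exact h1.trans (mul_le_mul_of_nonneg_left (hcnt γ hvh) (by linarith))
  have hXN : (∑ j, ((X j).card : ℝ)) ≤ N := by
    rw [Fintype.sum_prod_type]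
    have h1 : ∀ i, ∑ k, ((X (i, k)).card : ℝ) ≤ (16 * (Lc * ρ) + 2) ^ D := by
      intro i
      have h2 : ∑ k : Fin (4 ^ D), ((X (i, k)).card : ℝ) ≤ ((Y i).card : ℝ) := by
        have h3 : (Y i).card = ∑ k : Fin (4 ^ D), ((Y i).filter (fun y => cc i y = k)).card :=
          Finset.card_eq_sum_card_fiberwise fun _ _ => Finset.mem_coe.2 (Finset.mem_univ _)
        rw [h3]
        push_cast
        refine Finset.sum_le_sum fun k _ => ?_
        exact_mod_cast Finset.card_image_le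
      refine h2.trans ?_
      have h4 := ((C.el i).fin (Lc * ρ) (by positivity)).2
      rw [Set.ncard_eq_toFinset_card _ (hfin i)] at h4
      exact h4
    calc ∑ i, ∑ k, ((X (i, k)).card : ℝ) ≤ ∑ _i : ι, (16 * (Lc * ρ) + 2) ^ D :=
          Finset.sum_le_sum fun i _ => h1 i
      _ = N := by rw [Finset.sum_const, Finset.card_univ, nsmul_eq_mul, hN]
  obtain ⟨A, hA, hA1, hA2'⟩ := hS1 (ι × Fin (4 ^ D)) X (fun j => G j.1) (C.W * c) N
    (fun j x => hG01 j.1 x) hWc hN1 hfew hXN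
  obtain ⟨U, hU, hUP⟩ := family3 (Finset.univ : Finset (ι × Fin (4 ^ D))) A
  -- truncation
  have htr := fun i => hA2 D (C.Λ i) (C.h i) ρ Lc (S i) (Y i) hD (C.el i) hρ hLc0 rfl (hY i)
  -- the main term
  have hmain : ∀ γ, ∑ j : ι × Fin (4 ^ D),
      ∑ e ∈ (X j).offDiag.filter (fun e => dist e.1 e.2 = C.δ γ), G j.1 e.1 * G j.1 e.2 =
      ∑ i, ∑ v ∈ V i γ, α i * α i * ∑ y ∈ (Y i).filter (fun y => y + 2 • v ∈ Y i),
        Real.exp (-(C.h i y) / (4 * ρ)) * Real.exp (-(C.h i (y + 2 • v)) / (4 * ρ)) := by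
    intro γ
    rw [Fintype.sum_prod_type]
    refine Finset.sum_congr rfl fun i _ => ?_
    have h1 := B1_pairs (C.el i) (cc i) (hcc i) (E i) (hE i) (C.lab i) C.δ C.δinj (hd i) (Y i) γ
      (V i γ) (hV i γ) (G i)
    refine h1.trans (Finset.sum_congr rfl fun v _ => ?_)
    rw [Finset.mul_sum]
    refine Finset.sum_congr rfl fun y _ => ?_
    rw [hG, hG]
    show α i * _ * (α i * _) = _
    ring
  have hup : ∀ γ, ∑ j : ι × Fin (4 ^ D),
      ∑ e ∈ (X j).offDiag.filter (fun e => dist e.1 e.2 = C.δ γ), G j.1 e.1 * G j.1 e.2 ≤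
      κ * C.W * (C.cnt γ * Real.exp (-(C.t γ) / (2 * ρ))) := by
    intro γ
    rw [hmain]
    calc _ ≤ ∑ i, ∑ v ∈ V i γ, κ * Real.exp (-(C.t γ) / (2 * ρ)) := by
          refine Finset.sum_le_sum fun i _ => Finset.sum_le_sum fun v hv => ?_
          obtain ⟨hv0, hvl⟩ := (hV i γ v).1 hv
          have h1 := ((htr i).1 v).1
          rw [C.h_eq i v hv0, hvl] at h1
          calc _ ≤ α i * α i * (Real.exp (-(C.t γ) / (2 * ρ)) * S i) :=
                mul_le_mul_of_nonneg_left h1 (mul_nonneg (hα0 i) (hα0 i))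
            _ = (α i * α i * S i) * Real.exp (-(C.t γ) / (2 * ρ)) := by ring
            _ = κ * Real.exp (-(C.t γ) / (2 * ρ)) := by rw [hα2]
      _ = (∑ i, ((V i γ).card : ℝ)) * (κ * Real.exp (-(C.t γ) / (2 * ρ))) := by
          rw [Finset.sum_mul]
          refine Finset.sum_congr rfl fun i _ => ?_
          rw [Finset.sum_const, nsmul_eq_mul]
      _ = κ * C.W * (C.cnt γ * Real.exp (-(C.t γ) / (2 * ρ))) := by
          rw [hVcard]
          ring
  have hlow : ∀ γ, κ * C.W * (C.cnt γ * (Real.exp (-(C.t γ) / (2 * ρ)) -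
      2 * 4 ^ D * Real.exp (-(Lc * D / 8)))) ≤ ∑ j : ι × Fin (4 ^ D),
      ∑ e ∈ (X j).offDiag.filter (fun e => dist e.1 e.2 = C.δ γ), G j.1 e.1 * G j.1 e.2 := by
    intro γ
    rw [hmain]
    calc κ * C.W * (C.cnt γ * (Real.exp (-(C.t γ) / (2 * ρ)) -
        2 * 4 ^ D * Real.exp (-(Lc * D / 8))))
        = (∑ i, ((V i γ).card : ℝ)) * (κ * (Real.exp (-(C.t γ) / (2 * ρ)) -
          2 * 4 ^ D * Real.exp (-(Lc * D / 8)))) := by
          rw [hVcard]
          ring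
      _ = ∑ i, ∑ v ∈ V i γ, κ * (Real.exp (-(C.t γ) / (2 * ρ)) -
          2 * 4 ^ D * Real.exp (-(Lc * D / 8))) := by
          rw [Finset.sum_mul]
          refine Finset.sum_congr rfl fun i _ => ?_
          rw [Finset.sum_const, nsmul_eq_mul]
      _ ≤ _ := by
          refine Finset.sum_le_sum fun i _ => Finset.sum_le_sum fun v hv => ?_
          obtain ⟨hv0, hvl⟩ := (hV i γ v).1 hv
          have h1 := ((htr i).1 v).2
          rw [C.h_eq i v hv0, hvl] at h1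
          calc κ * (Real.exp (-(C.t γ) / (2 * ρ)) - 2 * 4 ^ D * Real.exp (-(Lc * D / 8)))
              = (α i * α i * S i) * (Real.exp (-(C.t γ) / (2 * ρ)) -
                2 * 4 ^ D * Real.exp (-(Lc * D / 8))) := by rw [hα2]
            _ = α i * α i * (Real.exp (-(C.t γ) / (2 * ρ)) * S i -
                2 * 4 ^ D * Real.exp (-(Lc * D / 8)) * S i) := by ring
            _ ≤ _ := mul_le_mul_of_nonneg_left h1 (mul_nonneg (hα0 i) (hα0 i))
  -- the number of points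
  have hpts : ∑ j : ι × Fin (4 ^ D), ∑ x ∈ X j, G j.1 x ≤
      2 ^ D * Fintype.card ι * M₀ * κ := by
    rw [Fintype.sum_prod_type]
    have h1 : ∀ i, ∑ k : Fin (4 ^ D), ∑ x ∈ X (i, k), G i x ≤ 2 ^ D * (M₀ * κ) := by
      intro i
      have h2 : ∀ k : Fin (4 ^ D), ∑ x ∈ X (i, k), G i x =
          ∑ y ∈ (Y i).filter (fun y => cc i y = k), w i y := by
        intro k
        show ∑ x ∈ ((Y i).filter (fun y => cc i y = k)).image (E i), G i x = _
        rw [Finset.sum_image fun a _ b _ hab => hE i hab]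
        exact Finset.sum_congr rfl fun y _ => hG i y
      rw [Finset.sum_congr rfl fun k _ => h2 k, Finset.sum_fiberwise]
      calc ∑ y ∈ Y i, w i y = α i * ∑ y ∈ Y i, Real.exp (-(C.h i y) / (4 * ρ)) := by
            rw [Finset.mul_sum]
        _ ≤ α i * (2 ^ D * S i) := mul_le_mul_of_nonneg_left (htr i).2 (hα0 i)
        _ ≤ 1 * (2 ^ D * S i) := mul_le_mul_of_nonneg_right (hα1 i) (by
            have := hS0 i
            positivity)
        _ = 2 ^ D * S i := one_mul _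
        _ ≤ 2 ^ D * (M₀ * κ) := mul_le_mul_of_nonneg_left (hSM i) (by positivity)
    calc ∑ i, ∑ k : Fin (4 ^ D), ∑ x ∈ X (i, k), G i x ≤ ∑ _i : ι, 2 ^ D * (M₀ * κ) :=
          Finset.sum_le_sum fun i _ => h1 i
      _ = 2 ^ D * Fintype.card ι * M₀ * κ := by
          rw [Finset.sum_const, Finset.card_univ, nsmul_eq_mul]
          ring
  have hUP' : ∀ d, (∑ j, (P (A j) d : ℝ)) ≤ P U d ∧
      (P U d : ℝ) ≤ (∑ j, (P (A j) d : ℝ)) + 2 := by
    intro d
    obtain ⟨h1, h2⟩ := hUP d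
    constructor
    · exact_mod_cast h1
    · have h3 : P U d ≤ (∑ j, P (A j) d) + 2 := h2.trans (max_le (by omega) (by omega))
      exact_mod_cast h3
  refine ⟨U, ?_, ?_, ?_, ?_⟩
  · have h1 : (U.card : ℝ) = ∑ j, ((A j).card : ℝ) := by exact_mod_cast hU
    rw [h1]
    linarith
  · intro γ
    have h1 := abs_le.1 (hA1 (C.δ γ))
    have h2 := (hUP' (C.δ γ)).2
    have h3 := hup γ
    linarith [h1.2]
  · intro γ
    have h1 := abs_le.1 (hA1 (C.δ γ))
    have h2 := (hUP' (C.δ γ)).1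
    have h3 := hlow γ
    linarith [h1.1]
  · intro d hdγ
    have h1 : ∑ j, P (A j) d = 0 := by
      refine Finset.sum_eq_zero fun j _ => ?_
      unfold P
      rw [Finset.card_eq_zero, Finset.filter_eq_empty_iff]
      rintro ⟨a, b⟩ hab hdist
      rw [Finset.mem_offDiag] at hab
      obtain ⟨ha, hb, hne⟩ := hab
      obtain ⟨y, hy, rfl⟩ := Finset.mem_image.1 (hA j ha)
      obtain ⟨z, hz, rfl⟩ := Finset.mem_image.1 (hA j hb)
      rw [Finset.mem_filter] at hy hz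
      obtain ⟨v, -, -, hv⟩ := B1_dist (cc j.1) (hcc j.1) (E j.1) (C.lab j.1) C.δ (hd j.1)
        (y := y) (z := z) (by rw [hy.2, hz.2]) hne
      exact hdγ (C.lab j.1 v) (by rw [← hv]; exact hdist.symm)
    have h2 := (hUP d).2
    rw [h1] at h2
    exact h2.trans (by simp)

end Pool.Agent.RNK
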