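import Pool.Agent.RNK.StD

set_option autoImplicit false

namespace Pool.Agent.RNK

open IsDedekindDomain NumberField Pool.Agent.QCF Pool.Agent.UDT

section

variable {L K : Type} [Field L] [NumberField L] [Field K] [NumberField K] [Algebra L K]

/-- the label of a nonzero vector -/
theorem B2_lab (q : QE L K (-1 : L)) (h0 : St_N0a) {P D : ℕ} {T : Finset ℕ} (h0b : St_N0b)
    (hRF : RF P T D L) (p : Ideal (𝓞 K) × 𝓞 L) (hp : UL q p) (v : 𝓞 K) (hv : v ∈ p.1)
    (hv0 : v ≠ 0) : ∃ x : 𝓞 L, nm q v = x * p.2 ∧ TP x := by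
  obtain ⟨hmul, hone, hzero, -, -, hdvd, -, -, hspan, hmem, -, -⟩ := h0 L K q
  have hTP := (h0b P D T L K q hRF).2.2.2.2.2.2.2.2.2.1
  obtain ⟨hsol, hTPp⟩ := hp
  have h1 := hmem p.1 v hv
  have h2 : p.1 * bar q p.1 = Ideal.span {algebraMap (𝓞 L) (𝓞 K) p.2} := hsol
  rw [h2, Ideal.mem_span_singleton] at h1
  obtain ⟨x, hx⟩ := hdvd _ _ h1
  refine ⟨x, by rw [hx, mul_comm], ?_⟩
  intro τ
  have h3 := hTP v hv0 τ
  have h4 : τ (nm q v : L) = τ (p.2 : L) * τ (x : L) := by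
    rw [hx, ← map_mul]
    rfl
  rw [h4] at h3
  exact (mul_pos_iff_of_pos_left (hTPp τ)).mp h3

end

theorem thm_B2 : St_N0a → St_N0b → St_N4 → St_G3 → St_B2 := by
  intro h0a h0b hN4 hG3 P D T L K _ _ _ _ _ q hRF s hs τ₀ R hR
  classical
  have hτφ := (h0b P D T L K q hRF).2.2.2.2.2.2.2.2.1
  obtain ⟨hmul, hone, hzero, -, -, hdvd, -, -, hspan, hmem, -, -⟩ := h0a L K q
  obtain ⟨φ, -, hφ⟩ := hτφ τ₀
  have hlab : ∀ (p : R) (v : p.1.1), v ≠ 0 → ∃ x : 𝓞 L, nm q (v : 𝓞 K) = x * p.1.2 ∧ TP x :=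
    fun p v hv => B2_lab q h0a h0b hRF p.1 (hR.1 p.1 p.2) v v.2
      (fun h => hv (Subtype.ext h))
  choose! lb hlb1 hlb2 using hlab
  have hTPone : TP (1 : 𝓞 L) := fun τ => by simp
  have hb0 : ∀ p : R, p.1.2 ≠ 0 := by
    intro p h
    have := (hR.1 p.1 p.2).2 τ₀
    rw [h] at this
    simp at this
  have hbτ : ∀ (p : R) (τ : L →+* ℝ), 0 < τ (p.1.2 : L) := fun p => (hR.1 p.1 p.2).2
  have hmulτ : ∀ (τ : L →+* ℝ) (x y : 𝓞 L), τ ((x * y : 𝓞 L) : L) = τ (x : L) * τ (y : L) := by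
    intro τ x y
    rw [← map_mul]
    rfl
  set lab : ∀ p : R, p.1.1 → {x : 𝓞 L // TP x} := fun p v =>
    if h : v = 0 then ⟨1, hTPone⟩ else ⟨lb p v, hlb2 p v h⟩ with hlabdef
  have hlab1 : ∀ (p : R) (v : p.1.1), v ≠ 0 → nm q (v : 𝓞 K) = (lab p v).1 * p.1.2 := by
    intro p v hv
    rw [hlabdef]
    simp only [dif_neg hv]
    exact hlb1 p v hv
  let C : Conf D R {x : 𝓞 L // TP x} :=
    { Λ := fun p => p.1.1
      grp := fun p => inferInstance
      h := fun p y => hh q s p.1.2 (y : 𝓞 K)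
      el := fun p => hG3 P D T L K q hRF s hs p.1 (hR.1 p.1 p.2)
      pt := fun p y => φ ((y : 𝓞 K) : K) / ((2 * √(τ₀ (p.1.2 : L)) : ℝ) : ℂ)
      inj := by
        intro p y z hyz
        have h1 : (((2 * √(τ₀ (p.1.2 : L)) : ℝ)) : ℂ) ≠ 0 := by
          rw [Complex.ofReal_ne_zero]
          have := Real.sqrt_pos.mpr (hbτ p τ₀)
          positivity
        have h2 : φ ((y : 𝓞 K) : K) = φ ((z : 𝓞 K) : K) := by
          have h3 : φ ((y : 𝓞 K) : K) / ((2 * √(τ₀ (p.1.2 : L)) : ℝ) : ℂ) =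
            φ ((z : 𝓞 K) : K) / ((2 * √(τ₀ (p.1.2 : L)) : ℝ) : ℂ) := hyz
          rwa [div_left_inj' h1] at h3
        exact Subtype.ext (RingOfIntegers.ext (φ.injective h2))
      lab := lab
      δ := fun x => √(τ₀ (x.1 : L))
      δinj := by
        intro x y hxy
        have h1 : √(τ₀ (x.1 : L)) = √(τ₀ (y.1 : L)) := hxy
        rw [Real.sqrt_inj (x.2 τ₀).le (y.2 τ₀).le] at h1
        exact Subtype.ext (RingOfIntegers.ext (τ₀.injective h1))
      t := fun x => tR (s * (x.1 : L))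
      cnt := fun x => dd q x.1
      W := WW q
      dist_eq := by
        intro p y v hv
        have h1 : nm q (v : 𝓞 K) = (lab p v).1 * p.1.2 := hlab1 p v hv
        have h2 : τ₀ ((lab p v).1 : L) * τ₀ (p.1.2 : L) = ‖φ ((v : 𝓞 K) : K)‖ ^ 2 := by
          rw [← hφ, h1, hmulτ]
        have h3 : 0 < √(τ₀ (p.1.2 : L)) := Real.sqrt_pos.mpr (hbτ p τ₀)
        have h4 : ‖φ ((v : 𝓞 K) : K)‖ = √(τ₀ ((lab p v).1 : L)) * √(τ₀ (p.1.2 : L)) := by
          rw [← Real.sqrt_mul ((lab p v).2 τ₀).le, h2, Real.sqrt_sq (norm_nonneg _)]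
        rw [dist_eq_norm, ← sub_div, ← map_sub]
        have h5 : (((y + 2 • v : p.1.1) : 𝓞 K) : K) - ((y : 𝓞 K) : K) =
            2 * ((v : 𝓞 K) : K) := by
          have : ((y + 2 • v : p.1.1) : 𝓞 K) = (y : 𝓞 K) + 2 * (v : 𝓞 K) := by
            rw [Submodule.coe_add, two_nsmul, Submodule.coe_add, two_mul]
          have e3 : algebraMap (𝓞 K) K ((y : 𝓞 K) + 2 * (v : 𝓞 K)) =
              algebraMap (𝓞 K) K (y : 𝓞 K) + 2 * algebraMap (𝓞 K) K (v : 𝓞 K) := by
            rw [map_add, map_mul, map_ofNat]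
          rw [this]
          exact sub_eq_of_eq_add' e3
        rw [h5, map_mul, norm_div, norm_mul, map_ofNat, Complex.norm_ofNat, Complex.norm_real,
          Real.norm_of_nonneg (by positivity), h4]
        field_simp
      h_eq := by
        intro p v hv
        have h1 : nm q (v : 𝓞 K) = (lab p v).1 * p.1.2 := hlab1 p v hv
        change hh q s p.1.2 (v : 𝓞 K) = tR (s * ((lab p v).1 : L))
        rw [hh, tR]
        apply Finset.sum_congr rfl
        intro τ _
        rw [h1, hmulτ, map_mul]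
        have := (hbτ p τ).ne'
        field_simp
      sum_cnt := by
        intro x
        rw [← hN4 P D T L K q hRF R hR x.1 x.2, ← Finset.sum_coe_sort R]
        apply Finset.sum_congr rfl
        intro p _
        rw [← Set.ncard_image_of_injective _ (Subtype.val_injective (p := (· ∈ p.1.1)))]
        congr 1
        ext y
        constructor
        · rintro ⟨v, ⟨hv, hvx⟩, rfl⟩
          refine ⟨v.2, ?_⟩
          have h1 : nm q (v : 𝓞 K) = (lab p v).1 * p.1.2 := hlab1 p v hv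
          rw [← hvx]
          exact h1
        · rintro ⟨hy, hyx⟩
          have hv : (⟨y, hy⟩ : p.1.1) ≠ 0 := by
            intro h
            have h1 : y = 0 := congrArg Subtype.val h
            rw [h1, (hzero 0).mpr rfl] at hyx
            rcases mul_eq_zero.mp hyx.symm with h2 | h2
            · have := x.2 τ₀
              rw [h2] at this
              simp at this
            · exact hb0 p h2
          refine ⟨⟨y, hy⟩, ⟨hv, ?_⟩, rfl⟩
          have h1 : nm q y = (lab p ⟨y, hy⟩).1 * p.1.2 := hlab1 p ⟨y, hy⟩ hv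
          rw [h1] at hyx
          exact Subtype.ext (mul_right_cancel₀ (hb0 p) hyx) }
  exact ⟨C, fun x => rfl, fun x => rfl, rfl, fun x => rfl, fun p ρ => rfl⟩

end Pool.Agent.RNK
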