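import Pool.Agent.RNK.StA

set_option autoImplicit false

open Finset
open scoped Classical

namespace Pool.Agent.RNK

private theorem C1_ncard {Q : Type} [Fintype Q] (p : Q → Prop) :
    {x | p x}.ncard = (univ.filter p).card := by
  rw [← Set.ncard_coe_finset]
  congr 1
  ext x
  simp

private theorem C1_quantile {Q : Type} [Fintype Q] (F : Q → ℝ) (r : ℕ) (hr : 1 ≤ r)
    (hrQ : r ≤ Fintype.card Q) :
    ∃ t, (univ.filter fun x => F x < t).card < r ∧ r ≤ (univ.filter fun x => F x ≤ t).card := by
  have hne : Nonempty Q := by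
    rw [← Fintype.card_pos_iff]; omega
  set V : Finset ℝ := (univ.image F).filter fun v => r ≤ (univ.filter fun x => F x ≤ v).card
    with hV
  have hVne : V.Nonempty := by
    obtain ⟨x, -, hx⟩ := exists_max_image (univ : Finset Q) F univ_nonempty
    refine ⟨F x, ?_⟩
    rw [hV, mem_filter]
    refine ⟨mem_image_of_mem F (mem_univ x), ?_⟩
    rw [filter_true_of_mem (fun y _ => hx y (mem_univ y))]
    rwa [card_univ]
  obtain ⟨t, htV, ht⟩ := exists_min_image V id hVne
  rw [hV, mem_filter] at htV
  refine ⟨t, ?_, htV.2⟩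
  by_contra hcon
  push Not at hcon
  have hne2 : (univ.filter fun x => F x < t).Nonempty := by
    rw [← card_pos]; omega
  obtain ⟨z, hz, hzmax⟩ := exists_max_image _ F hne2
  rw [mem_filter] at hz
  have hzV : F z ∈ V := by
    rw [hV, mem_filter]
    refine ⟨mem_image_of_mem F (mem_univ z), hcon.trans (card_le_card ?_)⟩
    intro y hy
    rw [mem_filter]
    exact ⟨mem_univ y, hzmax y hy⟩
  have := ht _ hzV
  simp only [id] at this
  linarith [hz.2]

private theorem C1_mono {Q : Type} [Fintype Q] (F F' : Q → ℝ) (r : ℕ) (t t' u : ℝ)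
    (h : ∀ x, F' x ≤ F x + u) (h1 : r ≤ (univ.filter fun x => F x ≤ t).card)
    (h2 : (univ.filter fun x => F' x < t').card < r) : t' ≤ t + u := by
  by_contra hcon
  push Not at hcon
  have : (univ.filter fun x => F x ≤ t).card ≤ (univ.filter fun x => F' x < t').card := by
    apply card_le_card
    intro x hx
    rw [mem_filter] at hx ⊢
    refine ⟨mem_univ x, ?_⟩
    have := h x
    linarith [hx.2]
  omega

theorem thm_C1 : St_C1 := by
  intro D r J Q _ φ c η B hr hrQ hη hB hφ hinj hJ
  set F : (Fin D → ℕ) → Q → ℝ := fun j x => c x + η * ∑ i, (j i : ℝ) * φ i x with hF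
  have hq : ∀ j : Fin D → ℕ, ∃ t, (univ.filter fun x => F j x < t).card < r ∧
      r ≤ (univ.filter fun x => F j x ≤ t).card := fun j => C1_quantile (F j) r hr hrQ
  choose T hT1 hT2 using hq
  set Grid : Finset (Fin D → ℕ) := Fintype.piFinset (fun _ => range (2 * J + 1)) with hGrid
  have hmem : ∀ j : Fin D → ℕ, j ∈ Grid ↔ ∀ i, j i ≤ 2 * J := by
    intro j
    rw [hGrid, Fintype.mem_piFinset]
    constructor
    · intro h i; have := h i; rw [mem_range] at this; omega
    · intro h i; rw [mem_range]; have := h i; omega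
  have hGne : Grid.Nonempty := ⟨fun _ => 0, (hmem _).2 (fun _ => Nat.zero_le _)⟩
  set Ψ : (Fin D → ℕ) → ℝ := fun j => T j + η / 8 * ∑ i, ((j i : ℝ) - J) ^ 2 with hΨ
  obtain ⟨j, hjG, hjmin⟩ := exists_min_image Grid Ψ hGne
  rw [hmem] at hjG
  have hJ0 : (0 : ℝ) < J := by linarith
  have hJ1 : 1 ≤ J := by exact_mod_cast hJ0
  -- the effect of a change of one coordinate
  have hFu : ∀ (i : Fin D) (a : ℕ) (x : Q),
      F (Function.update j i a) x = F j x + η * (((a : ℝ) - j i) * φ i x) := by
    intro i a x
    simp only [hF]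
    have h1 : ∑ k, ((Function.update j i a k : ℕ) : ℝ) * φ k x =
        ∑ k, (j k : ℝ) * φ k x + ((a : ℝ) - j i) * φ i x := by
      rw [← Finset.sum_erase_add _ _ (mem_univ i), ← Finset.sum_erase_add (univ : Finset (Fin D))
        (fun k => (j k : ℝ) * φ k x) (mem_univ i)]
      rw [Function.update_self]
      have h2 : ∑ k ∈ univ.erase i, ((Function.update j i a k : ℕ) : ℝ) * φ k x =
          ∑ k ∈ univ.erase i, (j k : ℝ) * φ k x := by
        apply sum_congr rfl
        intro k hk
        rw [Function.update_of_ne (ne_of_mem_erase hk)]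
      rw [h2]
      ring
    rw [h1]
    ring
  have hSu : ∀ (i : Fin D) (a : ℕ), ∑ k, (((Function.update j i a k : ℕ) : ℝ) - J) ^ 2 =
      ∑ k, ((j k : ℝ) - J) ^ 2 + (((a : ℝ) - J) ^ 2 - ((j i : ℝ) - J) ^ 2) := by
    intro i a
    rw [← Finset.sum_erase_add _ _ (mem_univ i), ← Finset.sum_erase_add (univ : Finset (Fin D))
      (fun k => ((j k : ℝ) - J) ^ 2) (mem_univ i)]
    rw [Function.update_self]
    have h2 : ∑ k ∈ univ.erase i, (((Function.update j i a k : ℕ) : ℝ) - J) ^ 2 =
        ∑ k ∈ univ.erase i, ((j k : ℝ) - J) ^ 2 := by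
      apply sum_congr rfl
      intro k hk
      rw [Function.update_of_ne (ne_of_mem_erase hk)]
    rw [h2]
    ring
  have hupG : ∀ (i : Fin D) (a : ℕ), a ≤ 2 * J → Function.update j i a ∈ Grid := by
    intro i a ha
    rw [hmem]
    intro k
    by_cases hk : k = i
    · subst hk; rw [Function.update_self]; exact ha
    · rw [Function.update_of_ne hk]; exact hjG k
  -- interior
  have hint : ∀ i, 1 ≤ j i ∧ j i ≤ 2 * J - 1 := by
    intro i
    by_contra hcon
    have hsq : ((j i : ℝ) - J) ^ 2 = (J : ℝ) ^ 2 ∧ |(J : ℝ) - j i| = J := by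
      have hji := hjG i
      have : j i = 0 ∨ j i = 2 * J := by omega
      rcases this with h0 | h0
      · rw [h0]
        constructor
        · push_cast; ring
        · push_cast; rw [sub_zero, abs_of_pos hJ0]
      · rw [h0]
        constructor
        · push_cast; ring
        · push_cast
          have : (J : ℝ) - 2 * J = -J := by ring
          rw [this, abs_neg, abs_of_pos hJ0]
    have h1 := hjmin _ (hupG i J (by omega))
    have h2 : T (Function.update j i J) ≤ T j + η * (J * B) := by
      apply C1_mono (F j) (F (Function.update j i J)) r _ _ _ _ (hT2 j) (hT1 _)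
      intro x
      rw [hFu]
      have h3 : ((J : ℝ) - j i) * φ i x ≤ J * B := by
        calc ((J : ℝ) - j i) * φ i x ≤ |((J : ℝ) - j i) * φ i x| := le_abs_self _
          _ = |(J : ℝ) - j i| * |(φ i x : ℝ)| := abs_mul _ _
          _ ≤ J * B := by rw [hsq.2]; exact mul_le_mul_of_nonneg_left (hφ i x) hJ0.le
      have := mul_le_mul_of_nonneg_left h3 hη.le
      linarith
    simp only [hΨ] at h1
    rw [hSu, hsq.1] at h1
    have h4 : η * (J * B) < η / 8 * (J : ℝ) ^ 2 := by
      have : J * B < (J : ℝ) ^ 2 / 8 := by nlinarith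
      have := mul_lt_mul_of_pos_left this hη
      linarith
    have h5 : η / 8 * (∑ k, ((j k : ℝ) - J) ^ 2 + (((J : ℝ) - J) ^ 2 - (J : ℝ) ^ 2)) =
        η / 8 * ∑ k, ((j k : ℝ) - J) ^ 2 - η / 8 * (J : ℝ) ^ 2 := by ring
    rw [h5] at h1
    linarith
  have hconv : ∀ i, 2 * T j - T (Function.update j i (j i + 1)) -
      T (Function.update j i (j i - 1)) ≤ η / 4 := by
    intro i
    have hi := hint i
    have h1 := hjmin _ (hupG i (j i + 1) (by omega))
    have h2 := hjmin _ (hupG i (j i - 1) (by omega))
    simp only [hΨ] at h1 h2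
    rw [hSu] at h1 h2
    have hc : ((j i - 1 : ℕ) : ℝ) = (j i : ℝ) - 1 := by
      rw [Nat.cast_sub hi.1]; norm_num
    rw [hc] at h2
    push_cast at h1
    nlinarith
  refine ⟨j, T j, hjG, ?_, ?_, ?_⟩
  · rw [C1_ncard]; exact hT1 j
  · rw [C1_ncard]; exact hT2 j
  · rw [C1_ncard]
    change (univ.filter fun x => F j x ≤ T j + η / 4).card ≤ _
    by_contra hcon
    push Not at hcon
    set nb : Fin D × Bool → (Fin D → ℕ) := fun p =>
      Function.update j p.1 (if p.2 then j p.1 + 1 else j p.1 - 1) with hnb
    set R : Finset Q := univ.biUnion fun p : Fin D × Bool =>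
      univ.filter fun x => F (nb p) x < T (nb p) with hR
    have hRc : R.card ≤ 2 * D * (r - 1) := by
      calc R.card ≤ ∑ p : Fin D × Bool, (univ.filter fun x => F (nb p) x < T (nb p)).card :=
            card_biUnion_le
        _ ≤ ∑ p : Fin D × Bool, (r - 1) := by
            apply sum_le_sum
            intro p _
            have := hT1 (nb p)
            omega
        _ = 2 * D * (r - 1) := by
            rw [sum_const, card_univ, Fintype.card_prod, Fintype.card_fin, Fintype.card_bool,
              smul_eq_mul]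
            ring
    have h1 : 1 < ((univ.filter fun x => F j x ≤ T j + η / 4) \ R).card := by
      have := le_card_sdiff R (univ.filter fun x => F j x ≤ T j + η / 4)
      omega
    obtain ⟨x, hx, y, hy, hxy⟩ := one_lt_card.1 h1
    have hprop : ∀ z ∈ (univ.filter fun x => F j x ≤ T j + η / 4) \ R, ∀ i,
        T (Function.update j i (j i + 1)) - T j - η / 4 ≤ η * φ i z ∧
        η * φ i z ≤ T j + η / 4 - T (Function.update j i (j i - 1)) := by
      intro z hz i
      rw [mem_sdiff, mem_filter] at hz
      obtain ⟨⟨-, hz1⟩, hz2⟩ := hz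
      rw [hR, mem_biUnion] at hz2
      push Not at hz2
      have a1 := hz2 (i, true) (mem_univ _)
      have a2 := hz2 (i, false) (mem_univ _)
      rw [mem_filter] at a1 a2
      have b1 : T (nb (i, true)) ≤ F (nb (i, true)) z := by
        by_contra hb
        push Not at hb
        exact a1 ⟨mem_univ _, hb⟩
      have b2 : T (nb (i, false)) ≤ F (nb (i, false)) z := by
        by_contra hb
        push Not at hb
        exact a2 ⟨mem_univ _, hb⟩
      have e1 : nb (i, true) = Function.update j i (j i + 1) := by simp [hnb]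
      have e2 : nb (i, false) = Function.update j i (j i - 1) := by simp [hnb]
      rw [e1, hFu] at b1
      rw [e2, hFu] at b2
      have hi := hint i
      have hc : ((j i - 1 : ℕ) : ℝ) = (j i : ℝ) - 1 := by
        rw [Nat.cast_sub hi.1]; norm_num
      rw [hc] at b2
      push_cast at b1
      constructor
      · have : η * (((j i : ℝ) + 1 - j i) * φ i z) = η * φ i z := by ring
        rw [this] at b1
        linarith
      · have : η * (((j i : ℝ) - 1 - j i) * φ i z) = -(η * φ i z) := by ring
        rw [this] at b2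
        linarith
    obtain ⟨i, hi⟩ := hinj x y hxy
    have p1 := hprop x hx i
    have p2 := hprop y hy i
    have p3 := hconv i
    have p4 : |η * (φ i x : ℝ) - η * φ i y| ≤ 3 * η / 4 := by
      rw [abs_le]
      constructor <;> linarith [p1.1, p1.2, p2.1, p2.2]
    have p5 : (1 : ℝ) ≤ |(φ i x : ℝ) - φ i y| := by
      have : (1 : ℤ) ≤ |φ i x - φ i y| := Int.one_le_abs (sub_ne_zero.2 hi)
      exact_mod_cast this
    rw [← mul_sub, abs_mul, abs_of_pos hη] at p4
    nlinarith

end Pool.Agent.RNK
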