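import Pool.Agent.RNK.StA

set_option autoImplicit false

/-!
# RNK [C2]: a gap
-/

namespace Pool.Agent.RNK

theorem thm_C2 : St_C2 := by
  classical
  intro Q _ F k e f η t V hη he hF ht
  obtain ⟨x₀, hx₀⟩ := ht
  have hV : 0 < V.card := Finset.card_pos.2 ⟨e x₀, he x₀⟩
  have hV' : (0 : ℝ) < V.card := by exact_mod_cast hV
  set g : ℝ := η / (4 * V.card) with hg
  have hg0 : 0 < g := by positivity
  have hgV : (V.card : ℝ) * g = η / 4 := by
    rw [hg]
    field_simp
  -- the values in the short interval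
  set Sx : Finset Q := Finset.univ.filter fun x => t ≤ F x ∧ F x ≤ t + η / 4 with hSx
  set A : Finset ℝ := Sx.image F with hA
  have hmemA : ∀ x, t ≤ F x → F x ≤ t + η / 4 → F x ∈ A := by
    intro x h1 h2
    rw [hA, Finset.mem_image]
    exact ⟨x, by rw [hSx, Finset.mem_filter]; exact ⟨Finset.mem_univ _, h1, h2⟩, rfl⟩
  have hcard : A.card ≤ V.card := by
    -- choose a preimage
    have hpre : ∀ a ∈ A, ∃ x, t ≤ F x ∧ F x ≤ t + η / 4 ∧ F x = a := by
      intro a ha
      rw [hA, Finset.mem_image] at ha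
      obtain ⟨x, hx, hxa⟩ := ha
      rw [hSx, Finset.mem_filter] at hx
      exact ⟨x, hx.2.1, hx.2.2, hxa⟩
    haveI : Nonempty Q := ⟨x₀⟩
    choose! p hp1 hp2 hp3 using hpre
    refine Finset.card_le_card_of_injOn (fun a => e (p a)) (fun a _ => he _) ?_
    intro a ha b hb hab
    have hab' : e (p a) = e (p b) := hab
    have ha' : a ∈ A := ha
    have hb' : b ∈ A := hb
    have e1 : a = η * k (p a) - f (e (p a)) := by rw [← hF, hp3 a ha']
    have e2 : b = η * k (p b) - f (e (p a)) := by rw [hab', ← hF, hp3 b hb']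
    have b1 := hp1 a ha'
    have b2 := hp2 a ha'
    have b3 := hp1 b hb'
    have b4 := hp2 b hb'
    rw [hp3 a ha'] at b1 b2
    rw [hp3 b hb'] at b3 b4
    have e3 : a - b = η * ((k (p a) - k (p b) : ℤ) : ℝ) := by
      push_cast
      linarith
    have e4 : |η * ((k (p a) - k (p b) : ℤ) : ℝ)| < η := by
      rw [← e3, abs_lt]
      constructor <;> linarith
    rw [abs_mul, abs_of_pos hη] at e4
    have e5 : |((k (p a) - k (p b) : ℤ) : ℝ)| < 1 := by
      by_contra hcon
      have := mul_le_mul_of_nonneg_left (not_lt.1 hcon) hη.le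
      linarith
    have e6 : k (p a) - k (p b) = 0 := by
      rw [← Int.abs_lt_one_iff]
      exact_mod_cast e5
    rw [e6] at e3
    simp only [Int.cast_zero, mul_zero] at e3
    linarith
  by_contra hcon
  push Not at hcon
  -- a chain of values
  have chain : ∀ i : ℕ, i ≤ V.card → ∃ (B : Finset ℝ) (τ : ℝ), B ⊆ A ∧ B.card = i + 1 ∧ τ ∈ B ∧
      (∀ b ∈ B, b ≤ τ) ∧ t ≤ τ ∧ τ ≤ t + i * g ∧ ∃ x, F x = τ := by
    intro i
    induction i with
    | zero =>
      intro _
      refine ⟨{t}, t, ?_, by simp, by simp, by simp, le_rfl, by simp, x₀, hx₀⟩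
      intro b hb
      rw [Finset.mem_singleton] at hb
      rw [hb, ← hx₀]
      exact hmemA x₀ (by rw [hx₀]) (by rw [hx₀]; linarith)
    | succ i ih =>
      intro hi
      obtain ⟨B, τ, h1, h2, h3, h4, h5, h6, h7⟩ := ih (by omega)
      have hi1 : ((i : ℝ) + 1) * g ≤ η / 4 := by
        rw [← hgV]
        refine mul_le_mul_of_nonneg_right ?_ hg0.le
        exact_mod_cast hi
      have hτ : τ ≤ t + η / 4 := by nlinarith
      obtain ⟨x, hx1, hx2⟩ := hcon τ h5 hτ h7
      have hx3 : F x ≤ t + ((i : ℝ) + 1) * g := by nlinarith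
      refine ⟨insert (F x) B, F x, ?_, ?_, Finset.mem_insert_self _ _, ?_, by linarith,
        by push_cast; exact hx3, x, rfl⟩
      · intro b hb
        rcases Finset.mem_insert.1 hb with rfl | hb
        · exact hmemA x (by linarith) (by linarith)
        · exact h1 hb
      · rw [Finset.card_insert_of_notMem, h2]
        intro hb
        have := h4 _ hb
        linarith
      · intro b hb
        rcases Finset.mem_insert.1 hb with rfl | hb
        · exact le_rfl
        · have := h4 b hb
          linarith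
  obtain ⟨B, τ, h1, h2, -⟩ := chain V.card le_rfl
  have h3 := Finset.card_le_card h1
  omega

end Pool.Agent.RNK
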