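import Pool.Agent.RNK.StD

set_option autoImplicit false

/-!
# RNK / D1: blocks, assembly
-/

namespace Pool.Agent.RNK

open IsDedekindDomain NumberField Pool.Agent.QCF Pool.Agent.UDT
open Pool.Agent.Helper53.Generic Pool.Agent.Helper60.Gap

/-- the final inequalities -/
private theorem D1_ab {κ W E c tr dv w ρ θ a b : ℝ} (hκ : 0 < κ) (hW : 1 ≤ W) (hE : 1 ≤ E)
    (hc : 0 ≤ c) (htr : 0 ≤ tr) (hdv : 0 ≤ dv) (hw0 : 0 < w) (hw : w ≤ 1) (hρ : 32 ≤ ρ)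
    (hθ : θ ≤ w / (8 * ρ)) (h1 : 2 * dv + 2 + κ * W * (c * tr) ≤ κ * W * (w / (8 * ρ)))
    (ha : a = κ * W * (E - c * tr) - dv)
    (hb : b = κ * W * (E * Real.exp (-w / (2 * ρ))) + dv + 2) :
    b ≤ (1 - θ) * a ∧ κ * W * E / 2 ≤ a ∧ a ≤ κ * W * E ∧ 0 < a := by
  have hρ0 : 0 < ρ := by linarith
  have hk : 0 < κ * W := by positivity
  have hkE : κ * W ≤ κ * W * E := by nlinarith
  have hkE0 : 0 < κ * W * E := by positivity
  have hct : 0 ≤ κ * W * (c * tr) := by positivity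
  have hx1 : w / (8 * ρ) ≤ 1 / 2 := by
    rw [div_le_iff₀ (by positivity)]
    linarith
  have hx0 : 0 < w / (8 * ρ) := by positivity
  have hxe : w / (2 * ρ) = 4 * (w / (8 * ρ)) := by
    field_simp
    norm_num
  obtain ⟨x, hx⟩ : ∃ x, x = w / (8 * ρ) := ⟨_, rfl⟩
  rw [← hx] at hx1 hx0 h1 hθ hxe
  have hx4 : 4 * x ≤ 1 / 2 := by
    rw [hx, mul_div_assoc', div_le_iff₀ (by positivity)]
    linarith
  have hexp : Real.exp (-w / (2 * ρ)) ≤ 1 - 2 * x := by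
    rw [neg_div, hxe]
    have h2 : Real.exp (-(4 * x)) ≤ 1 - 4 * x / 2 := by
      have h3 := Real.abs_exp_sub_one_sub_id_le (x := -(4 * x)) (by
        rw [abs_neg, abs_of_nonneg (by positivity)]
        linarith)
      have h4 := (abs_le.1 h3).2
      nlinarith
    linarith
  have ha1 : a ≤ κ * W * E := by
    rw [ha]
    have : κ * W * (E - c * tr) = κ * W * E - κ * W * (c * tr) := by ring
    linarith
  have ha2 : κ * W * E / 2 ≤ a := by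
    rw [ha]
    have h2 : κ * W * (E - c * tr) = κ * W * E - κ * W * (c * tr) := by ring
    have h3 : κ * W * x ≤ κ * W * E / 2 := by nlinarith
    linarith
  have hb1 : b ≤ κ * W * E * (1 - 2 * x) + dv + 2 := by
    rw [hb]
    have h2 : κ * W * (E * Real.exp (-w / (2 * ρ))) = κ * W * E * Real.exp (-w / (2 * ρ)) := by
      ring
    rw [h2]
    have := mul_le_mul_of_nonneg_left hexp hkE0.le
    linarith
  refine ⟨?_, ha2, ha1, by linarith⟩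
  have h2 : a - b ≥ κ * W * E * x := by
    have h3 : κ * W * (E - c * tr) = κ * W * E - κ * W * (c * tr) := by ring
    have h4 : κ * W * x ≤ κ * W * E * x := mul_le_mul_of_nonneg_right hkE hx0.le
    have h5 : κ * W * E * (1 - 2 * x) = κ * W * E - 2 * (κ * W * E * x) := by ring
    rw [ha] at ha1 ha2 ⊢
    linarith
  have h3 : θ * a ≤ κ * W * E * x := by
    have ha0 : 0 < a := by linarith
    calc θ * a ≤ x * a := mul_le_mul_of_nonneg_right hθ ha0.le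
      _ ≤ x * (κ * W * E) := mul_le_mul_of_nonneg_left ha1 hx0.le
      _ = κ * W * E * x := by ring
  linarith

/-- the size of the planar set -/
private theorem D1_card {u dv κ W E a : ℝ} {P D t n : ℕ} (hP : 1 ≤ P) (hD : 1 ≤ D)
    (hκ : 0 < κ) (hW : 1 ≤ W) (hn : (n : ℝ) ≤ (10 * (P : ℝ) ^ 2) ^ D)
    (hPT : 2560 * P ^ 4 ≤ 2 ^ t) (ht : 1 ≤ t)
    (hu : u ≤ 2 ^ D * n * (4 * (P : ℝ)) ^ D * κ + dv) (hdv : dv ≤ κ * W)
    (hE : ((2 : ℝ) ^ (t - 1)) ^ D / 2 ≤ E) (ha : κ * W * E / 2 ≤ a) : 2 ^ D * u ≤ a := by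
  have hPR : (1 : ℝ) ≤ P := by exact_mod_cast hP
  have hP0 : (0 : ℝ) < P := by linarith
  have h1 : (1280 : ℝ) * P ^ 4 ≤ 2 ^ (t - 1) := by
    have h2 : (2560 : ℝ) * P ^ 4 ≤ 2 ^ t := by exact_mod_cast hPT
    have h3 : (2 : ℝ) ^ t = 2 * 2 ^ (t - 1) := by
      rw [← pow_succ']
      congr 1
      omega
    linarith
  have h2 : (8 : ℝ) * (160 * P ^ 3) ≤ 2 ^ (t - 1) := by
    refine le_trans ?_ h1
    have : (P : ℝ) ^ 3 ≤ P ^ 4 := pow_le_pow_right₀ hPR (by norm_num)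
    linarith
  have h3 : (8 : ℝ) * (160 * (P : ℝ) ^ 3) ^ D ≤ ((2 : ℝ) ^ (t - 1)) ^ D := by
    calc (8 : ℝ) * (160 * (P : ℝ) ^ 3) ^ D ≤ 8 ^ D * (160 * (P : ℝ) ^ 3) ^ D := by
          have : (8 : ℝ) ≤ 8 ^ D := le_self_pow₀ (by norm_num) (by omega)
          exact mul_le_mul_of_nonneg_right this (by positivity)
      _ = (8 * (160 * (P : ℝ) ^ 3)) ^ D := (mul_pow _ _ _).symm
      _ ≤ ((2 : ℝ) ^ (t - 1)) ^ D := pow_le_pow_left₀ (by positivity) h2 D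
  have h4 : 4 * (160 * (P : ℝ) ^ 3) ^ D ≤ E := by linarith
  have h5 : (1 : ℝ) ≤ (80 * (P : ℝ) ^ 3) ^ D := by
    apply one_le_pow₀
    have : (1 : ℝ) ≤ P ^ 3 := one_le_pow₀ hPR
    linarith
  have h6 : u ≤ 2 * (80 * (P : ℝ) ^ 3) ^ D * (κ * W) := by
    refine hu.trans ?_
    have h7 : (2 : ℝ) ^ D * n * (4 * (P : ℝ)) ^ D * κ ≤ (80 * (P : ℝ) ^ 3) ^ D * (κ * W) := by
      calc (2 : ℝ) ^ D * n * (4 * (P : ℝ)) ^ D * κ ≤
          2 ^ D * (10 * (P : ℝ) ^ 2) ^ D * (4 * (P : ℝ)) ^ D * κ := by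
            apply mul_le_mul_of_nonneg_right _ hκ.le
            apply mul_le_mul_of_nonneg_right _ (by positivity)
            exact mul_le_mul_of_nonneg_left hn (by positivity)
        _ = (80 * (P : ℝ) ^ 3) ^ D * (κ * 1) := by
            rw [← mul_pow, ← mul_pow, mul_one]
            congr 2
            ring
        _ ≤ (80 * (P : ℝ) ^ 3) ^ D * (κ * W) := by
            apply mul_le_mul_of_nonneg_left _ (by positivity)
            exact mul_le_mul_of_nonneg_left hW hκ.le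
    have h8 : κ * W ≤ (80 * (P : ℝ) ^ 3) ^ D * (κ * W) :=
      le_mul_of_one_le_left (by positivity) h5
    linarith
  calc 2 ^ D * u ≤ 2 ^ D * (2 * (80 * (P : ℝ) ^ 3) ^ D * (κ * W)) :=
        mul_le_mul_of_nonneg_left h6 (by positivity)
    _ = (4 * (160 * (P : ℝ) ^ 3) ^ D) * (κ * W) / 2 := by
        have : (160 * (P : ℝ) ^ 3) ^ D = 2 ^ D * (80 * (P : ℝ) ^ 3) ^ D := by
          rw [← mul_pow]
          congr 1
          ring
        rw [this]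
        ring
    _ ≤ E * (κ * W) / 2 := by
        have := mul_le_mul_of_nonneg_right h4 (show 0 ≤ κ * W by positivity)
        linarith
    _ ≤ a := by linarith

/-- the size of `E` -/
private theorem D1_E {τ₁ ρ : ℝ} {t D : ℕ} (ht : 1 ≤ t) (hρ : 32 ≤ ρ)
    (h : τ₁ ≤ -(2 * ρ * ((t : ℝ) - 1) * D * Real.log 2) + 1) :
    ((2 : ℝ) ^ (t - 1)) ^ D / 2 ≤ Real.exp (-τ₁ / (2 * ρ)) := by
  have hρ0 : 0 < ρ := by linarith
  have h1 : ((t - 1 : ℕ) : ℝ) = (t : ℝ) - 1 := by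
    rw [Nat.cast_sub ht]
    simp
  have h2 : ((2 : ℝ) ^ (t - 1)) ^ D = Real.exp (((t : ℝ) - 1) * D * Real.log 2) := by
    rw [← pow_mul, ← Real.rpow_natCast, Real.rpow_def_of_pos (by norm_num)]
    congr 1
    push_cast
    rw [h1]
    ring
  have h3 : (1 : ℝ) / 2 ≤ Real.exp (-(1 / (2 * ρ))) := by
    have h4 := Real.add_one_le_exp (-(1 / (2 * ρ)))
    have h5 : 1 / (2 * ρ) ≤ 1 / 2 := by
      apply one_div_le_one_div_of_le (by norm_num)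
      linarith
    linarith
  have h6 : ((t : ℝ) - 1) * D * Real.log 2 + -(1 / (2 * ρ)) ≤ -τ₁ / (2 * ρ) := by
    rw [le_div_iff₀ (by positivity)]
    have h7 : (((t : ℝ) - 1) * D * Real.log 2 + -(1 / (2 * ρ))) * (2 * ρ) =
        2 * ρ * ((t : ℝ) - 1) * D * Real.log 2 - 1 := by
      field_simp
      ring
    rw [h7]
    linarith
  calc ((2 : ℝ) ^ (t - 1)) ^ D / 2 = Real.exp (((t : ℝ) - 1) * D * Real.log 2) * (1 / 2) := by
        rw [h2]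
        ring
    _ ≤ Real.exp (((t : ℝ) - 1) * D * Real.log 2) * Real.exp (-(1 / (2 * ρ))) :=
        mul_le_mul_of_nonneg_left h3 (Real.exp_pos _).le
    _ = Real.exp (((t : ℝ) - 1) * D * Real.log 2 + -(1 / (2 * ρ))) := (Real.exp_add _ _).symm
    _ ≤ Real.exp (-τ₁ / (2 * ρ)) := Real.exp_le_exp.2 h6

/-- the divisor bound -/
private theorem D1_c {Cε ρ ε N : ℝ} {D : ℕ} (hC : 1 ≤ Cε) (hρ : 1 ≤ ρ) (hε : 0 < ε)
    (hN0 : 0 ≤ N) (hN : N ≤ (ρ ^ 2) ^ D) : Cε ^ D * N ^ ε ≤ (Cε * ρ ^ (2 * ε)) ^ D := by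
  have hρ0 : 0 < ρ := by linarith
  rw [mul_pow]
  apply mul_le_mul_of_nonneg_left _ (by positivity)
  calc N ^ ε ≤ ((ρ ^ 2) ^ D) ^ ε := Real.rpow_le_rpow hN0 hN hε.le
    _ = (ρ ^ (2 * ε)) ^ D := by
        rw [← pow_mul, ← Real.rpow_natCast, ← Real.rpow_mul hρ0.le, ← Real.rpow_natCast,
          ← Real.rpow_mul hρ0.le]
        congr 1
        push_cast
        ring

/-- level function and weights -/
private theorem D1_F {dd t ρ : ℝ} (hd : 1 ≤ dd) (hρ : 0 < ρ) :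
    dd * Real.exp (-t / (2 * ρ)) = Real.exp (-(t - 2 * ρ * Real.log dd) / (2 * ρ)) := by
  have h1 : -(t - 2 * ρ * Real.log dd) / (2 * ρ) = Real.log dd + -t / (2 * ρ) := by
    field_simp
    ring
  rw [h1, Real.exp_add, Real.exp_log (by linarith)]

theorem thm_D1 : St_N0b → St_N3 → St_N7 → St_N8 → St_G4 → St_A1 → St_B1 → St_B2 → St_D1a →
    St_D1b → St_Dn → St_D1 := by
  intro hN0b hN3 hN7 hN8 hG4 hA1 hB1 hB2 hD1a hD1b hDn P T hPT hP hT ε hε hε2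
  obtain ⟨Cε, hCε, hN7⟩ := hN7 ε hε
  have hQ : 1 ≤ ∏ l ∈ T, l := Nat.succ_le_of_lt
    (Finset.prod_pos (fun l hl => Nat.lt_of_lt_of_le Nat.zero_lt_one (hT l hl)))
  obtain ⟨C, ρ₁, hC, hρ₁, hDn⟩ := hDn P (∏ l ∈ T, l) ε Cε hP hQ hε hε2 hCε
  refine ⟨C, ρ₁, hC, by linarith, fun ρ₂ hρ₂ => ?_⟩
  obtain ⟨m₀, hDn⟩ := hDn ρ₂ hρ₂
  refine ⟨m₀, ?_⟩
  intro m L _ _ hm hRF ρ hρa hρb R hR r₀ hr1 hrR
  obtain ⟨D, hD⟩ : ∃ D : ℕ, D = 2 ^ (m + 1) := ⟨_, rfl⟩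
  rw [← hD] at hRF hR ⊢
  have hD1 : 1 ≤ D := hRF.pos
  have hDR : (1 : ℝ) ≤ D := by exact_mod_cast hD1
  have hD0 : (0 : ℝ) < D := by linarith
  have hρ32 : 32 ≤ ρ := by linarith
  have hρ1 : 1 ≤ ρ := by linarith
  have hρ0 : 0 < ρ := by linarith
  -- the field `K`
  obtain ⟨w₀⟩ : Nonempty (InfinitePlace L) := inferInstance
  obtain ⟨τ₀⟩ : Nonempty (L →+* ℝ) :=
    ⟨InfinitePlace.embedding_of_isReal (hRF.real w₀)⟩
  have hns : ¬ IsSquare ((-1 : Lˣ) : L) := by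
    rintro ⟨r, hr⟩
    have h1 : τ₀ ((-1 : Lˣ) : L) = τ₀ r * τ₀ r := by rw [hr, map_mul]
    rw [Units.val_neg, Units.val_one, map_neg, map_one] at h1
    nlinarith [mul_self_nonneg (τ₀ r)]
  obtain ⟨K, _, _, _, ⟨q'⟩⟩ := st_N5 L (-1) hns
  obtain ⟨q⟩ : Nonempty (QE L K (-1 : L)) := ⟨q'⟩
  obtain ⟨hcard, -, -, -, -, -, hAM, -, -, -, -, -, hW1, hW2⟩ := hN0b P D T L K q hRF
  -- numbers
  obtain ⟨c, hc⟩ : ∃ c : ℝ, c = (Cε * ρ ^ (2 * ε)) ^ D := ⟨_, rfl⟩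
  obtain ⟨Lc, hLc⟩ : ∃ Lc : ℝ, Lc = 8 * (3 + Real.log Cε + 2 * ε * Real.log ρ) := ⟨_, rfl⟩
  obtain ⟨hLc1, hLc2, hc1, ⟨m', hm', hDn1⟩, hDn2, hDn3⟩ := hDn m hm ρ hρa hρb D c Lc hD hc hLc
  have hTP0 : ∀ x : 𝓞 L, TP x → x ≠ 0 := by
    rintro x hx rfl
    have := hx τ₀
    simp at this
  have hfactA : ∀ x : 𝓞 L, TP x → tR (x : L) ≤ ρ ^ 2 * D → (dd q x : ℝ) ≤ c := by
    intro x hx ht
    have h1 := hN7 L K q x (hTP0 x hx)
    rw [hRF.deg] at h1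
    rw [hc]
    refine h1.trans (D1_c hCε hρ1 hε (Nat.cast_nonneg _) ((hAM x hx).trans ?_))
    apply pow_le_pow_left₀
    · apply div_nonneg _ hD0.le
      exact Finset.sum_nonneg fun τ _ => (hx τ).le
    · rw [div_le_iff₀ hD0]
      exact ht
  have hρsq : ρ ≤ ρ ^ 2 := by nlinarith
  obtain ⟨X, hX, hXc⟩ := hD1a P D T L K q hRF ρ c hρ1 (fun x hx hτ => hfactA x hx (by
    unfold tR
    calc ∑ τ : L →+* ℝ, τ (x : L) ≤ ∑ _τ : L →+* ℝ, ρ := Finset.sum_le_sum fun τ _ => hτ τ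
      _ = ρ * D := by
          rw [Finset.sum_const, Finset.card_univ, hcard, nsmul_eq_mul, mul_comm]
      _ ≤ ρ ^ 2 * D := mul_le_mul_of_nonneg_right hρsq hD0.le))
  have hRX : R ≤ X.card := by
    have h1 := hDn2 X.card (by exact_mod_cast hXc)
    exact_mod_cast hR.trans h1
  obtain ⟨V, hV1, hV2⟩ := hN8 m'
  have hV0 : 1 ≤ V.card := by
    apply Finset.card_pos.2
    refine ⟨_, hV2 L K q 1 one_ne_zero ?_⟩
    rw [Ideal.span_singleton_one, Ideal.absNorm_top]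
    exact Nat.one_le_two_pow
  have hT12 : 3 ≤ T.card := by
    by_contra hcon
    have h1 : T.card ≤ 2 := by omega
    have h2 : 2 ^ T.card ≤ 2 ^ 2 := Nat.pow_le_pow_right (by norm_num) h1
    have h3 : 1 ≤ P ^ 4 := Nat.one_le_pow _ _ hP
    omega
  obtain ⟨s, τ₁, Top, hs, hTop1, hTop2, hTop3, ⟨x₁, hx₁, hFx₁⟩, hgap, hτ₁⟩ :=
    hD1b P D T L K q hRF hT12 ρ hρ32 X hX m' V hm' (fun x hx hN => hV2 L K q x hx hN) r₀ hr1
      (hrR.trans hRX)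
  obtain ⟨R', hReps, hR'ne, hR'c⟩ := hN3 P D T L K q hRF
  obtain ⟨Cf, hCt, hCcnt, hCW, hCδ, hCθ⟩ := hB2 P D T L K q hRF s hs τ₀ R' hReps
  obtain ⟨p₀, hp₀, hmin⟩ := Finset.exists_min_image R' (fun p => SS q s ρ p) hR'ne
  obtain ⟨hκlow, hκup⟩ := hG4 P D T L K q hRF s hs ρ hρ1 p₀ (hReps.1 p₀ hp₀)
  obtain ⟨κ, hκ⟩ : ∃ κ : ℝ, κ = SS q s ρ p₀ := ⟨_, rfl⟩
  rw [← hκ] at hκlow
  have hPR : (1 : ℝ) ≤ P := by exact_mod_cast hP
  have hP0 : (0 : ℝ) < P := by linarith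
  have hκ0 : 0 < κ := lt_of_lt_of_le (by positivity) hκlow
  obtain ⟨N, hN⟩ : ∃ N : ℝ, N = Fintype.card R' * (16 * (Lc * ρ) + 2) ^ D := ⟨_, rfl⟩
  have hcardR : Fintype.card R' = R'.card := Fintype.card_coe R'
  have hW1R : (1 : ℝ) ≤ WW q := by exact_mod_cast hW1
  have hLρ : 1 ≤ 16 * (Lc * ρ) + 2 := by
    have : 0 ≤ Lc * ρ := by positivity
    linarith
  have hR'1 : (1 : ℝ) ≤ Fintype.card R' := by
    rw [hcardR]
    exact_mod_cast Finset.card_pos.2 hR'ne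
  have hR'10 : (Fintype.card R' : ℝ) ≤ (10 * (P : ℝ) ^ 2) ^ D := by
    rw [hcardR]
    exact_mod_cast hR'c
  have hN1 : 1 ≤ N := by
    rw [hN]
    have : (1 : ℝ) ≤ (16 * (Lc * ρ) + 2) ^ D := one_le_pow₀ hLρ
    nlinarith
  have hN2 : N ≤ (10 * (P : ℝ) ^ 2) ^ D * (16 * (Lc * ρ) + 2) ^ D := by
    rw [hN]
    exact mul_le_mul_of_nonneg_right hR'10 (by positivity)
  have htR : ∀ x : 𝓞 L, TP x → tR (x : L) ≤ 2 * tR (s * (x : L)) := by
    intro x hx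
    unfold tR
    rw [Finset.mul_sum]
    refine Finset.sum_le_sum fun τ _ => ?_
    rw [map_mul]
    have h1 := (hs τ).1
    have h2 := hx τ
    nlinarith
  have hCcW : 1 ≤ Cf.W := by
    rw [hCW]
    exact hW1
  have : Nonempty R' := ⟨⟨p₀, hp₀⟩⟩
  obtain ⟨U, hU1, hU2, hU3, hU4⟩ := hB1 D R' {x : 𝓞 L // TP x} Cf ρ Lc κ ((4 * (P : ℝ)) ^ D) c N
    hD1 inferInstance hρ1 hLc1 hκ0 (one_le_pow₀ (by linarith)) hc1 hCcW
    (fun p => by
      rw [hCθ p ρ, hκ]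
      refine ⟨hmin p.1 p.2, ?_⟩
      exact (hG4 P D T L K q hRF s hs ρ hρ1 p.1 (hReps.1 _ p.2)).2 p₀ (hReps.1 p₀ hp₀))
    (fun x hx => by
      rw [hCcnt]
      apply hfactA x.1 x.2
      rw [hCt] at hx
      refine (htR x.1 x.2).trans ?_
      have h1 : 2 * (Lc * ρ * D) ≤ ρ ^ 2 * D := by
        have h2 : 2 * Lc * ρ ≤ ρ * ρ := mul_le_mul_of_nonneg_right hLc2 hρ0.le
        have h3 := mul_le_mul_of_nonneg_right h2 hD0.le
        nlinarith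
      linarith)
    hN
  rw [hCW] at hU1 hU2 hU3
  obtain ⟨dv, hdv⟩ : ∃ dv : ℝ, dv = dev (WW q * c) N := ⟨_, rfl⟩
  obtain ⟨w, hw⟩ : ∃ w : ℝ, w = 1 / (256 * P ^ 4 * D * (128 * P ^ 4 * ρ ^ 2 * D + 1) * V.card) :=
    ⟨_, rfl⟩
  obtain ⟨hd1, hd2, hd3, hd4⟩ := hDn1 V.card N κ (WW q) w hV0 hV1 hN1 hN2 hκlow hW1R hw
  rw [← hdv] at hU1 hU2 hU3 hd1 hd4
  rw [← hw] at hgap
  have hw0 : 0 < w := by
    rw [hw]
    have : (0 : ℝ) < V.card := by exact_mod_cast hV0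
    positivity
  have hdv0 : 0 ≤ dv := by
    rw [hdv]
    unfold dev
    have : 0 ≤ (WW q : ℝ) * c := by positivity
    positivity
  obtain ⟨E, hE⟩ : ∃ E : ℝ, E = Real.exp (-τ₁ / (2 * ρ)) := ⟨_, rfl⟩
  obtain ⟨tr, htr⟩ : ∃ tr : ℝ, tr = 2 * 4 ^ D * Real.exp (-(Lc * D / 8)) := ⟨_, rfl⟩
  have htr0 : 0 ≤ tr := by
    rw [htr]
    positivity
  rw [← htr] at hd1 hU3
  have hElow := D1_E (D := D) (by omega : 1 ≤ T.card) hρ32 hτ₁
  rw [← hE] at hElow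
  have hE1 : 1 ≤ E := by
    have h1 : (2 : ℝ) ≤ ((2 : ℝ) ^ (T.card - 1)) ^ D := by
      rw [← pow_mul]
      exact le_self_pow₀ (by norm_num) (Nat.mul_ne_zero (by omega) (by omega))
    linarith
  obtain ⟨a, ha⟩ : ∃ a : ℝ, a = κ * WW q * (E - c * tr) - dv := ⟨_, rfl⟩
  obtain ⟨b, hb⟩ : ∃ b : ℝ, b = κ * WW q * (E * Real.exp (-w / (2 * ρ))) + dv + 2 := ⟨_, rfl⟩
  obtain ⟨r1, r2, r3, r4⟩ := D1_ab hκ0 hW1R hE1 (by linarith : 0 ≤ c) htr0 hdv0 hw0 hd3 hρ32 hd2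
    hd1 ha hb
  have hkW : 0 < κ * WW q := by positivity
  -- weights of the labels
  have hweight : ∀ x : {x : 𝓞 L // TP x}, 1 ≤ dd q x.1 →
      (Cf.cnt x : ℝ) * Real.exp (-(Cf.t x) / (2 * ρ)) =
        Real.exp (-(FF q s ρ x.1) / (2 * ρ)) := by
    intro x hx
    rw [hCcnt, hCt]
    unfold FF
    exact D1_F (by exact_mod_cast hx) hρ0
  refine ⟨U, Top.card, hTop1, hTop2, Top.image (fun x : 𝓞 L => √(τ₀ (x : L))), a, b, ?_, ?_, ?_,
    r1, ?_, r4, ?_⟩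
  · refine Finset.card_image_of_injOn fun x hx y hy hxy => ?_
    have h1 : Cf.δ ⟨x, (hTop3 x hx).1⟩ = Cf.δ ⟨y, (hTop3 y hy).1⟩ := by
      rw [hCδ, hCδ]
      exact hxy
    exact congrArg Subtype.val (Cf.δinj h1)
  · intro d hd
    obtain ⟨x, hx, rfl⟩ := Finset.mem_image.1 hd
    obtain ⟨hx1, hx2, hx3, hx4⟩ := hTop3 x hx
    have h1 := hU3 ⟨x, hx1⟩
    rw [hCδ] at h1
    refine le_trans ?_ h1
    rw [ha]
    apply sub_le_sub_right
    apply mul_le_mul_of_nonneg_left _ hkW.le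
    rw [mul_sub, hweight ⟨x, hx1⟩ hx2, hCcnt]
    have h2 : (dd q x : ℝ) * tr ≤ c * tr := mul_le_mul_of_nonneg_right (hfactA x hx1 hx3) htr0
    have h3 : E ≤ Real.exp (-(FF q s ρ x) / (2 * ρ)) := by
      rw [hE]
      apply Real.exp_le_exp.2
      apply div_le_div_of_nonneg_right _ (by positivity)
      linarith
    exact sub_le_sub h3 h2
  · intro d hd
    by_cases hex : ∃ x : {x : 𝓞 L // TP x}, d = Cf.δ x
    · obtain ⟨x, rfl⟩ := hex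
      have hxT : x.1 ∉ Top := by
        intro hx
        apply hd
        rw [hCδ]
        exact Finset.mem_image.2 ⟨x.1, hx, rfl⟩
      refine (hU2 x).trans ?_
      rw [hb]
      have hle : (Cf.cnt x : ℝ) * Real.exp (-(Cf.t x) / (2 * ρ)) ≤
          E * Real.exp (-w / (2 * ρ)) := by
        rcases Nat.eq_zero_or_pos (dd q x.1) with h0 | h0
        · rw [hCcnt, h0, Nat.cast_zero, zero_mul]
          positivity
        · rw [hweight x h0, hE, ← Real.exp_add]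
          apply Real.exp_le_exp.2
          rw [← add_div]
          apply div_le_div_of_nonneg_right _ (by positivity)
          have := hgap x.1 x.2 h0 hxT
          linarith
      have := mul_le_mul_of_nonneg_left hle hkW.le
      linarith
    · have h1 := hU4 d (fun x hx => hex ⟨x, hx⟩)
      have h2 : (Pool.Agent.Helper53.Generic.P U d : ℝ) ≤ 2 := by exact_mod_cast h1
      refine h2.trans ?_
      rw [hb]
      have : 0 ≤ κ * WW q * (E * Real.exp (-w / (2 * ρ))) := by positivity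
      linarith
  · exact D1_card hP hD1 hκ0 hW1R hR'10 hPT (by omega) hU1 hd4 hElow r2
  · refine r3.trans ?_
    have hκ120 : κ ≤ (120 * ρ) ^ D := by
      have h1 := (@hA1 D (Cf.Λ ⟨p₀, hp₀⟩) (Cf.grp ⟨p₀, hp₀⟩) (Cf.h ⟨p₀, hp₀⟩) hD1
        (Cf.el ⟨p₀, hp₀⟩)).2 ρ hρ1
      rw [hCθ ⟨p₀, hp₀⟩ ρ] at h1
      rw [hκ]
      exact h1
    have hW625 : (WW q : ℝ) ≤ 625 ^ D := by exact_mod_cast hW2
    have hEc : E ≤ c := by
      obtain ⟨y1, y2, y3, y4⟩ := hTop3 x₁ hx₁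
      have h1 := hweight ⟨x₁, y1⟩ y2
      simp only at h1
      rw [hFx₁, ← hE, hCcnt, hCt] at h1
      rw [← h1]
      have h2 : Real.exp (-(tR (s * (x₁ : L))) / (2 * ρ)) ≤ 1 := by
        apply Real.exp_le_one_iff.2
        apply div_nonpos_of_nonpos_of_nonneg _ (by positivity)
        have h3 := htR x₁ y1
        have h4 : 0 ≤ tR (x₁ : L) := Finset.sum_nonneg fun τ _ => (y1 τ).le
        linarith
      calc (dd q x₁ : ℝ) * Real.exp (-(tR (s * (x₁ : L))) / (2 * ρ)) ≤ dd q x₁ * 1 :=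
            mul_le_mul_of_nonneg_left h2 (Nat.cast_nonneg _)
        _ = dd q x₁ := mul_one _
        _ ≤ c := hfactA x₁ y1 y3
    calc κ * WW q * E ≤ (120 * ρ) ^ D * 625 ^ D * c := by
          apply mul_le_mul _ hEc (by linarith) (by positivity)
          exact mul_le_mul hκ120 hW625 (by linarith) (by positivity)
      _ ≤ (C * ρ ^ (1 + 4 * ε)) ^ D := hDn3

end Pool.Agent.RNK
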