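import Pool.Agent.RNK.StD

set_option autoImplicit false

namespace Pool.Agent.RNK

open IsDedekindDomain NumberField Pool.Agent.QCF Pool.Agent.UDT

/-- an integer of norm one is a unit times; two integers with the same ideal and the same norm -/
theorem D1a_fibre {L K : Type} [Field L] [NumberField L] [Field K] [NumberField K] [Algebra L K]
    (q : QE L K (-1 : L)) (h0 : St_N0a) (z : 𝓞 L) (hz : z ≠ 0) (F : Finset (𝓞 K))
    (hF : ∀ y ∈ F, nm q y = z) (hfin : (sol q z).Finite) (hW : {y : 𝓞 K | nm q y = 1}.Finite) :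
    F.card ≤ dd q z * WW q := by
  classical
  obtain ⟨hmul, hone, hzero, -, -, -, -, -, hspan, -, -, -⟩ := h0 L K q
  -- the map to ideals
  set I : 𝓞 K → Ideal (𝓞 K) := fun y => Ideal.span {y} with hI
  have hmaps : ∀ y ∈ F, I y ∈ hfin.toFinset := by
    intro y hy
    rw [Set.Finite.mem_toFinset]
    change Ideal.span {y} * bar q (Ideal.span {y}) = _
    rw [hspan y, hF y hy]
  have hcard : hfin.toFinset.card = dd q z := by
    rw [dd, Set.ncard_eq_toFinset_card _ hfin]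
  have hWcard : hW.toFinset.card = WW q := by
    rw [WW, Set.ncard_eq_toFinset_card _ hW]
  rw [← hcard, ← hWcard, mul_comm]
  refine Finset.card_le_mul_card_image_of_maps_to hmaps _ ?_
  intro J hJ
  rcases (F.filter (fun y => I y = J)).eq_empty_or_nonempty with he | ⟨y₀, hy₀⟩
  · rw [he]; simp
  rw [Finset.mem_filter] at hy₀
  have hy₀0 : y₀ ≠ 0 := by
    intro h
    apply hz
    rw [← hF y₀ hy₀.1, h, hzero]
  -- every y is y₀ times a unit of norm one
  have hu : ∀ y ∈ F.filter (fun y => I y = J), ∃ u : 𝓞 K, y = y₀ * u ∧ nm q u = 1 := by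
    intro y hy
    rw [Finset.mem_filter] at hy
    have h1 : Ideal.span {y₀} = Ideal.span {y} := hy₀.2.trans hy.2.symm
    rw [Ideal.span_singleton_eq_span_singleton] at h1
    obtain ⟨u, hu⟩ := h1
    refine ⟨u, hu.symm, ?_⟩
    have h2 := hmul y₀ u
    rw [hu, hF y hy.1, hF y₀ hy₀.1] at h2
    have h3 : z * (nm q (u : 𝓞 K) - 1) = 0 := by
      rw [mul_sub, mul_one, ← h2, sub_self]
    rcases mul_eq_zero.mp h3 with h4 | h4
    · exact absurd h4 hz
    · exact sub_eq_zero.mp h4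
  choose! g hg1 hg2 using hu
  apply Finset.card_le_card_of_injOn g
  · intro y hy
    rw [Finset.mem_coe] at hy
    rw [Finset.mem_coe, Set.Finite.mem_toFinset]
    exact hg2 y hy
  · intro y hy y' hy' h
    rw [Finset.mem_coe] at hy hy'
    rw [hg1 y hy, hg1 y' hy', h]

theorem thm_D1a : St_N0a → St_N0b → St_N2 → St_N6 → St_G1 → St_D1a := by
  intro h0a h0b h2 h6 hG1 P D T L K _ _ _ _ _ q hRF ρ c hρ hc
  classical
  obtain ⟨hcardτ, -, -, -, -, -, -, hφτ, -, hTP, hfinnm, -, hW1, hW2⟩ := h0b P D T L K q hRF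
  obtain ⟨hmul, hone, hzero, -, -, -, -, -, hspan, -, -, -⟩ := h0a L K q
  obtain ⟨hcardτ', -⟩ := h0b P D T L K q hRF
  have hτφ := (h0b P D T L K q hRF).2.2.2.2.2.2.2.2.1
  have hP1 : (1 : ℝ) ≤ P := by exact_mod_cast hRF.one_le
  set Q : ℕ := ∏ l ∈ T, l with hQ
  have hQ1 : 1 ≤ Q := by
    rw [hQ]
    exact Finset.prod_pos (fun l hl => (hRF.prm l hl).1.pos)
  have hQr : (1 : ℝ) ≤ Q := by exact_mod_cast hQ1
  have hQL : (Q : 𝓞 L) ≠ 0 := by exact_mod_cast (by omega : Q ≠ 0)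
  set Y : ℝ := ρ / (3 * Q) with hY
  have hY0 : 0 < Y := by positivity
  have hYρ : Y ≤ ρ := by
    rw [hY, div_le_iff₀ (by positivity)]
    nlinarith
  obtain ⟨X₀, hX₀, hX₀c⟩ := (hG1 P D T L K q hRF).2 Y hY0
  -- properties of one element
  have key : ∀ y ∈ X₀.erase 0, TP (nm q y) ∧ nm q y ≠ 0 ∧ (sol q (nm q y)).Finite ∧
      1 ≤ dd q (nm q y) ∧ (dd q (nm q y) : ℝ) ≤ c ∧ ∀ τ : L →+* ℝ, τ (nm q y : L) ≤ Y := by
    intro y hy
    rw [Finset.mem_erase] at hy
    have h1 : nm q y ≠ 0 := fun h => hy.1 ((hzero y).mp h)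
    have h3 : (sol q (nm q y)).Finite := (h2 L K q _ h1).1
    have h4 : ∀ τ : L →+* ℝ, τ (nm q y : L) ≤ Y := by
      intro τ
      obtain ⟨φ, -, hφ⟩ := hτφ τ
      rw [hφ y]
      exact hX₀ y hy.2 φ
    refine ⟨hTP y hy.1, h1, h3, ?_, hc _ (hTP y hy.1) (fun τ => (h4 τ).trans hYρ), h4⟩
    rw [dd, Nat.one_le_iff_ne_zero, ← Nat.pos_iff_ne_zero, Set.ncard_pos h3]
    exact ⟨Ideal.span {y}, hspan y⟩
  refine ⟨(X₀.erase 0).image (fun y => (Q : 𝓞 L) * nm q y), ?_, ?_⟩
  · intro x hx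
    rw [Finset.mem_image] at hx
    obtain ⟨y, hy, rfl⟩ := hx
    obtain ⟨k1, k2, k3, k4, k5, k6⟩ := key y hy
    have hmulτ : ∀ τ : L →+* ℝ, τ (((Q : 𝓞 L) * nm q y : 𝓞 L) : L) = Q * τ (nm q y : L) := by
      intro τ
      have e1 : (((Q : 𝓞 L) * nm q y : 𝓞 L) : L) = (Q : L) * (nm q y : L) := by
        push_cast
        rfl
      rw [e1, map_mul, map_natCast]
    refine ⟨?_, ?_, ?_⟩
    · intro τ
      rw [hmulτ τ]
      exact mul_pos (by linarith) (k1 τ)
    · exact h6 P D T L K q hRF (nm q y) k2 k4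
    · rw [tR]
      calc ∑ τ : L →+* ℝ, τ (((Q : 𝓞 L) * nm q y : 𝓞 L) : L)
          ≤ ∑ _τ : L →+* ℝ, (Q * Y : ℝ) := by
            apply Finset.sum_le_sum
            intro τ _
            rw [hmulτ τ]
            exact mul_le_mul_of_nonneg_left (k6 τ) (by linarith)
        _ = ρ * D / 3 := by
            rw [Finset.sum_const, Finset.card_univ, hcardτ', nsmul_eq_mul, hY]
            field_simp
  · have hY2 : ρ / (6 * Q * P) = Y / (2 * P) := by
      rw [hY]
      field_simp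
      ring
    rw [hY2]
    have hc0 : 0 ≤ c := by
      have h1 := hc 1 (fun τ => by simp) (fun τ => by simpa using hρ)
      exact (Nat.cast_nonneg _).trans h1
    have hn : ∀ x ∈ (X₀.erase 0).image (fun y => (Q : 𝓞 L) * nm q y),
        ((X₀.erase 0).filter (fun y => (Q : 𝓞 L) * nm q y = x)).card ≤
          ⌊625 ^ D * c⌋₊ := by
      intro x hx
      rw [Finset.mem_image] at hx
      obtain ⟨y, hy, rfl⟩ := hx
      obtain ⟨k1, k2, k3, k4, k5, k6⟩ := key y hy
      have h3 := D1a_fibre q h0a (nm q y) k2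
        ((X₀.erase 0).filter (fun y' => (Q : 𝓞 L) * nm q y' = (Q : 𝓞 L) * nm q y)) (by
          intro y' hy'
          rw [Finset.mem_filter] at hy'
          exact mul_left_cancel₀ hQL hy'.2) k3 (hfinnm 1)
      refine h3.trans (Nat.le_floor ?_)
      push_cast
      have h4 : ((WW q : ℕ) : ℝ) ≤ 625 ^ D := by exact_mod_cast hW2
      calc (dd q (nm q y) : ℝ) * WW q ≤ c * 625 ^ D := by gcongr
        _ = 625 ^ D * c := mul_comm _ _
    have h5 := Finset.card_le_mul_card_image (f := fun y => (Q : 𝓞 L) * nm q y)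
      (X₀.erase 0) _ hn
    have h6 : X₀.card ≤ (X₀.erase 0).card + 1 := by
      have := Finset.pred_card_le_card_erase (s := X₀) (a := 0)
      omega
    have h7 : ((X₀.erase 0).card : ℝ) ≤ (625 ^ D * c) *
        ((X₀.erase 0).image (fun y => (Q : 𝓞 L) * nm q y)).card := by
      calc ((X₀.erase 0).card : ℝ) ≤ (⌊625 ^ D * c⌋₊ : ℝ) *
            ((X₀.erase 0).image (fun y => (Q : 𝓞 L) * nm q y)).card := by exact_mod_cast h5
        _ ≤ _ := by
            gcongr
            exact Nat.floor_le (by positivity)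
    have h8 : (X₀.card : ℝ) ≤ (X₀.erase 0).card + 1 := by exact_mod_cast h6
    linarith

end Pool.Agent.RNK
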