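import Pool.Agent.RNK.StD

set_option autoImplicit false

/-! # RNK / D1b: the gap in the field -/

namespace Pool.Agent.RNK

open IsDedekindDomain NumberField Pool.Agent.QCF Pool.Agent.UDT
open Pool.Agent.Helper53.Generic Pool.Agent.Helper60.Gap

theorem D1b_tR_s {L : Type} [Field L] [NumberField L] {D : ℕ} (ω : Fin D → 𝓞 L) (j : Fin D → ℕ)
    (M : ℕ) (x : 𝓞 L) :
    tR ((1 + (∑ i, (j i : L) * (ω i : L)) / (M : L)) * (x : L)) =
      tR (x : L) + (1 / (M : ℝ)) * ∑ i, (j i : ℝ) * tR ((ω i : L) * (x : L)) := by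
  simp only [tR, map_mul, map_add, map_one, map_div₀, map_sum, map_natCast]
  have h1 : ∑ i, (j i : ℝ) * ∑ τ : L →+* ℝ, τ (ω i : L) * τ (x : L) =
      ∑ τ : L →+* ℝ, ∑ i, (j i : ℝ) * (τ (ω i : L) * τ (x : L)) := by
    rw [Finset.sum_comm]
    apply Finset.sum_congr rfl
    intro i _
    rw [Finset.mul_sum]
  rw [h1, Finset.mul_sum, ← Finset.sum_add_distrib]
  apply Finset.sum_congr rfl
  intro τ _
  have h2 : ∑ i, (j i : ℝ) * (τ (ω i : L) * τ (x : L)) =
      (∑ i, (j i : ℝ) * τ (ω i : L)) * τ (x : L) := by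
    rw [Finset.sum_mul]
    apply Finset.sum_congr rfl
    intro i _
    ring
  rw [h2]
  ring

theorem D1b_dd_le (hN2 : St_N2) {L K : Type} [Field L] [NumberField L] [Field K] [NumberField K]
    [Algebra L K] (q : QE L K (-1 : L)) (x : 𝓞 L) (hx : x ≠ 0) :
    dd q x ≤ Ideal.absNorm (Ideal.span {x}) := by
  obtain ⟨-, h⟩ := hN2 L K q x hx
  rcases h with h | ⟨S, v, hv, hdvd, hdd⟩
  · rw [h]
    exact Nat.zero_le _
  · have hpos : 0 < Ideal.absNorm (Ideal.span {x}) := by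
      rw [Nat.pos_iff_ne_zero, Ne, Ideal.absNorm_eq_zero_iff, Ideal.span_singleton_eq_bot]
      exact hx
    have h1 : Ideal.absNorm (∏ w ∈ S, w.asIdeal ^ v w) ∣ Ideal.absNorm (Ideal.span {x}) :=
      map_dvd Ideal.absNorm hdvd
    refine le_trans ?_ (Nat.le_of_dvd hpos h1)
    rw [hdd, map_prod]
    apply Finset.prod_le_prod'
    intro w _
    rw [map_pow]
    have h2 : 2 ≤ Ideal.absNorm w.asIdeal := by
      have h3 : Ideal.absNorm w.asIdeal ≠ 0 := by
        rw [Ne, Ideal.absNorm_eq_zero_iff]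
        exact w.ne_bot
      have h4 : Ideal.absNorm w.asIdeal ≠ 1 := by
        rw [Ne, Ideal.absNorm_eq_one_iff]
        exact w.isPrime.ne_top
      omega
    calc v w + 1 ≤ 2 ^ v w := Nat.lt_two_pow_self
      _ ≤ Ideal.absNorm w.asIdeal ^ v w := Nat.pow_le_pow_left h2 _

/-- the numerical estimate outside of `Q` -/
theorem D1b_num (ρ u : ℝ) (hρ : 32 ≤ ρ) (hu : ρ ^ 2 ≤ u) : 1 ≤ u / 2 - 2 * ρ * Real.log u := by
  have hu0 : 0 ≤ u := le_trans (sq_nonneg ρ) hu
  set v := √u with hv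
  have hvu : v ^ 2 = u := Real.sq_sqrt hu0
  have hvρ : ρ ≤ v := by
    rw [hv]
    exact Real.le_sqrt_of_sq_le hu
  have hv32 : 32 ≤ v := hρ.trans hvρ
  have hlog : Real.log u = 2 * Real.log v := by
    rw [← hvu, Real.log_pow]
    norm_num
  have hl0 : 0 ≤ Real.log v := Real.log_nonneg (by linarith)
  have hl1 : Real.log v ≤ 5 * Real.log 2 + (v / 32 - 1) := by
    have h1 : v = 32 * (v / 32) := by ring
    have h2 : Real.log v = Real.log 32 + Real.log (v / 32) := by
      conv_lhs => rw [h1]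
      rw [Real.log_mul (by norm_num) (by positivity)]
    have h3 : Real.log 32 = 5 * Real.log 2 := by
      rw [show (32 : ℝ) = 2 ^ 5 by norm_num, Real.log_pow]
      norm_num
    have h4 : Real.log (v / 32) ≤ v / 32 - 1 := Real.log_le_sub_one_of_pos (by positivity)
    rw [h2, h3]
    linarith
  have hl2 : Real.log 2 < 0.6931471808 := Real.log_two_lt_d9
  have h5 : ρ * Real.log v ≤ v * Real.log v := mul_le_mul_of_nonneg_right hvρ hl0
  have h6 : v * Real.log v ≤ v * (5 * Real.log 2 + (v / 32 - 1)) :=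
    mul_le_mul_of_nonneg_left hl1 (by linarith)
  have h7 : v * (5 * Real.log 2 + (v / 32 - 1)) ≤ v * (v / 32 + 2.47) := by
    apply mul_le_mul_of_nonneg_left _ (by linarith)
    linarith
  rw [hlog, ← hvu]
  nlinarith

theorem thm_D1b (hN0b : St_N0b) (hN2 : St_N2) (hG2 : St_G2) (hC1 : St_C1) (hC2 : St_C2) :
    St_D1b := by
  classical
  intro P D T L K _ _ _ _ _ q hRF hT ρ hρ X hX m V hm hV r hr1 hr2
  obtain ⟨n1, -, n3, -, -, n6, n7, -, -, -, -, n12, -⟩ := hN0b P D T L K q hRF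
  obtain ⟨ω, hω, hsep⟩ := hG2 P D T L K q hRF
  have hD : 1 ≤ D := hRF.pos
  have hP : 1 ≤ P := hRF.one_le
  have hDr : (1 : ℝ) ≤ D := by exact_mod_cast hD
  have hPr : (1 : ℝ) ≤ P := by exact_mod_cast hP
  have hP4 : (1 : ℝ) ≤ (P : ℝ) ^ 4 := one_le_pow₀ hPr
  set B : ℝ := 16 * (P : ℝ) ^ 4 * ρ ^ 2 * D with hB
  have hB0 : 0 ≤ B := by positivity
  set J : ℕ := ⌊8 * B⌋₊ + 1 with hJ
  have hJ1 : 8 * B < J := by
    rw [hJ]
    push_cast
    exact Nat.lt_floor_add_one _
  have hJ2 : (J : ℝ) ≤ 8 * B + 1 := by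
    rw [hJ]
    push_cast
    have := Nat.floor_le (show 0 ≤ 8 * B by positivity)
    linarith
  have hJ0 : 0 < J := by rw [hJ]; exact Nat.succ_pos _
  have hJr : (0 : ℝ) < J := by exact_mod_cast hJ0
  set N : ℕ := 32 * P ^ 4 * D with hN
  have hN0 : 0 < N := by positivity
  have hNr : (N : ℝ) = 32 * (P : ℝ) ^ 4 * D := by rw [hN]; push_cast; ring
  set M : ℕ := 2 * J * N with hM
  have hM0 : 0 < M := by positivity
  have hMr : (M : ℝ) = 2 * J * N := by rw [hM]; push_cast; ring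
  have hMpos : (0 : ℝ) < M := by exact_mod_cast hM0
  set η : ℝ := 1 / (M : ℝ) with hη
  have hη0 : 0 < η := by positivity
  have hη1 : η ≤ 1 := by
    rw [hη, div_le_one hMpos]
    exact_mod_cast hM0
  have hηM : η * M = 1 := by
    rw [hη]
    field_simp
  -- the finite set
  set Qs : Set (𝓞 L) := {x | TP x ∧ 1 ≤ dd q x ∧ tR (x : L) ≤ ρ ^ 2 * D} with hQs
  have hQfin : Qs.Finite := (n12 (ρ ^ 2 * D)).subset fun x hx => ⟨hx.1, hx.2.2⟩
  have instQ : Fintype Qs := hQfin.fintype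
  choose g hg using n3
  have hmulco : ∀ (a b : 𝓞 L), ((a * b : 𝓞 L) : L) = (a : L) * (b : L) := fun a b => rfl
  set φ : Fin D → Qs → ℤ := fun i x => g (ω i * x.1) with hφ
  have hφr : ∀ i (x : Qs), ((φ i x : ℤ) : ℝ) = tR ((ω i : L) * ((x : 𝓞 L) : L)) := by
    intro i x
    rw [hφ, ← hmulco, hg]
  have hφB : ∀ i (x : Qs), |(φ i x : ℝ)| ≤ B := by
    intro i x
    rw [hφr]
    have hx := x.2
    have h1 : |tR ((ω i : L) * ((x : 𝓞 L) : L))| ≤ 16 * (P : ℝ) ^ 4 * tR ((x : 𝓞 L) : L) := by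
      simp only [tR, map_mul]
      refine (Finset.abs_sum_le_sum_abs _ _).trans ?_
      rw [Finset.mul_sum]
      apply Finset.sum_le_sum
      intro τ _
      rw [abs_mul, abs_of_pos (hx.1 τ)]
      exact mul_le_mul_of_nonneg_right (hω i τ) (hx.1 τ).le
    refine h1.trans ?_
    have h2 := hx.2.2
    have : 16 * (P : ℝ) ^ 4 * tR ((x : 𝓞 L) : L) ≤ 16 * (P : ℝ) ^ 4 * (ρ ^ 2 * D) :=
      mul_le_mul_of_nonneg_left h2 (by positivity)
    rw [hB]
    linarith
  have hφs : ∀ x y : Qs, x ≠ y → ∃ i, φ i x ≠ φ i y := by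
    intro x y hxy
    have hne : (x : 𝓞 L) - (y : 𝓞 L) ≠ 0 := by
      intro h
      exact hxy (Subtype.ext (sub_eq_zero.1 h))
    obtain ⟨i, hi⟩ := hsep _ hne
    refine ⟨i, fun h => hi ?_⟩
    have h1 : ((φ i x : ℤ) : ℝ) = ((φ i y : ℤ) : ℝ) := by rw [h]
    rw [hφr, hφr] at h1
    have h2 : tR ((ω i : L) * (((x : 𝓞 L) - (y : 𝓞 L) : 𝓞 L) : L)) =
        tR ((ω i : L) * ((x : 𝓞 L) : L)) - tR ((ω i : L) * ((y : 𝓞 L) : L)) := by
      simp only [tR]
      rw [← Finset.sum_sub_distrib]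
      apply Finset.sum_congr rfl
      intro τ _
      have h3 : (((x : 𝓞 L) - (y : 𝓞 L) : 𝓞 L) : L) = ((x : 𝓞 L) : L) - ((y : 𝓞 L) : L) := rfl
      rw [h3, mul_sub, map_sub]
    rw [h2, h1, sub_self]
  have hXQ : ∀ x ∈ X, x ∈ Qs := by
    intro x hx
    obtain ⟨h1, h2, h3⟩ := hX x hx
    refine ⟨h1, le_trans Nat.one_le_two_pow h2, h3.trans ?_⟩
    have : ρ / 3 ≤ ρ ^ 2 := by nlinarith
    nlinarith
  have hcard : r ≤ Fintype.card Qs := by
    refine hr2.trans ?_
    rw [← Set.toFinset_card]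
    exact Finset.card_le_card fun x hx => Set.mem_toFinset.2 (hXQ x hx)
  set c : Qs → ℝ := fun x => tR ((x : 𝓞 L) : L) - 2 * ρ * Real.log (dd q (x : 𝓞 L)) with hc
  obtain ⟨j, t, hj, hlt, hle, hbd⟩ := hC1 D r J Qs φ c η B hr1 hcard hη0 hB0 hφB hφs hJ1
  set F : Qs → ℝ := fun x => c x + η * ∑ i, (j i : ℝ) * φ i x with hF
  have hlt' : {x | F x < t}.ncard < r := hlt
  have hle' : r ≤ {x | F x ≤ t}.ncard := hle
  have hbd' : {x | F x ≤ t + η / 4}.ncard ≤ 2 * D * (r - 1) + 1 := hbd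
  set s : L := 1 + (∑ i, (j i : L) * (ω i : L)) / (M : L) with hs
  -- the weight
  have hτs : ∀ τ : L →+* ℝ, 1 / 2 ≤ τ s ∧ τ s ≤ 3 / 2 := by
    intro τ
    have h1 : τ s = 1 + (∑ i, (j i : ℝ) * τ (ω i : L)) / (M : ℝ) := by
      rw [hs]
      simp only [map_add, map_one, map_div₀, map_sum, map_mul, map_natCast]
    have h2 : |∑ i, (j i : ℝ) * τ (ω i : L)| ≤ D * (2 * J * (16 * (P : ℝ) ^ 4)) := by
      refine (Finset.abs_sum_le_sum_abs _ _).trans ?_
      have h3 : ∀ i ∈ (Finset.univ : Finset (Fin D)), |(j i : ℝ) * τ (ω i : L)| ≤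
          2 * J * (16 * (P : ℝ) ^ 4) := by
        intro i _
        rw [abs_mul, abs_of_nonneg (Nat.cast_nonneg _)]
        have h4 : (j i : ℝ) ≤ 2 * J := by exact_mod_cast hj i
        exact mul_le_mul h4 (hω i τ) (abs_nonneg _) (by positivity)
      refine (Finset.sum_le_sum h3).trans ?_
      rw [Finset.sum_const, Finset.card_univ, Fintype.card_fin, nsmul_eq_mul]
    have h5 : |(∑ i, (j i : ℝ) * τ (ω i : L)) / (M : ℝ)| ≤ 1 / 2 := by
      rw [abs_div, abs_of_pos hMpos, div_le_iff₀ hMpos]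
      refine h2.trans ?_
      rw [hMr, hNr]
      apply le_of_eq
      ring
    rw [h1]
    have := abs_le.1 h5
    constructor <;> linarith
  have hFF : ∀ x : Qs, FF q s ρ (x : 𝓞 L) = F x := by
    intro x
    rw [FF, hs, D1b_tR_s]
    simp only [hF, hc, hφr]
    ring
  -- some element of `Q` has the value `t`
  have hext : ∃ x, F x = t := by
    by_contra hne
    push Not at hne
    have h1 : {x | F x ≤ t} = {x | F x < t} := by
      ext x
      simp only [Set.mem_ofPred_eq]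
      constructor
      · intro h
        exact lt_of_le_of_ne h (hne x)
      · exact le_of_lt
    rw [h1] at hle'
    omega
  obtain ⟨τ₀⟩ : Nonempty (L →+* ℝ) := by
    rw [← Fintype.card_pos_iff, n1]
    exact hD
  have hne0 : ∀ x : 𝓞 L, TP x → x ≠ 0 := by
    intro x hx h
    have := hx τ₀
    rw [h] at this
    simp at this
  have heV : ∀ x : Qs, dd q (x : 𝓞 L) ∈ V := by
    intro x
    obtain ⟨h1, h2, h3⟩ := x.2
    refine hV x (hne0 x h1) ?_
    have h4 := n7 x h1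
    have h5 : tR ((x : 𝓞 L) : L) / D ≤ ρ ^ 2 := by
      rw [div_le_iff₀ (by linarith)]
      exact h3
    have h6 : 0 ≤ tR ((x : 𝓞 L) : L) / D := by
      have := n6 x h1
      have h0 : 0 ≤ tR ((x : 𝓞 L) : L) := by linarith
      positivity
    have h7 : (tR ((x : 𝓞 L) : L) / D) ^ D ≤ (ρ ^ 2) ^ D := pow_le_pow_left₀ h6 h5 D
    have h8 : (Ideal.absNorm (Ideal.span {(x : 𝓞 L)}) : ℝ) ≤ 2 ^ m := by
      refine (h4.trans h7).trans ?_
      rw [← pow_mul]
      exact hm
    exact_mod_cast h8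
  obtain ⟨τ₁, hτ1, hτ2, ⟨x₁, hx₁⟩, hgap⟩ := hC2 Qs F
    (fun x => (M : ℤ) * g (x : 𝓞 L) + ∑ i, (j i : ℤ) * φ i x)
    (fun x => dd q (x : 𝓞 L)) (fun n => 2 * ρ * Real.log n) η t V hη0 heV (by
      intro x
      simp only [hF, hc]
      push_cast
      rw [mul_add, ← mul_assoc, hηM, hg (x : 𝓞 L)]
      ring) hext
  -- the top set
  set Top : Finset (𝓞 L) := (Finset.univ.filter fun x : Qs => F x ≤ τ₁).image Subtype.val
    with hTop
  have hTopmem : ∀ x : 𝓞 L, x ∈ Top ↔ ∃ h : x ∈ Qs, F ⟨x, h⟩ ≤ τ₁ := by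
    intro x
    rw [hTop]
    simp only [Finset.mem_image, Finset.mem_filter, Finset.mem_univ, true_and]
    constructor
    · rintro ⟨y, hy, rfl⟩
      exact ⟨y.2, hy⟩
    · rintro ⟨h, hx⟩
      exact ⟨⟨x, h⟩, hx, rfl⟩
  have hTopc : Top.card = {x | F x ≤ τ₁}.ncard := by
    rw [hTop, Finset.card_image_of_injective _ Subtype.val_injective, ← Set.ncard_coe_finset]
    congr 1
    ext x
    simp
  -- the bound for `t`
  have hlog2 : 0.6931471803 < Real.log 2 := Real.log_two_gt_d9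
  have hTr : (3 : ℝ) ≤ T.card := by exact_mod_cast hT
  have ht : t ≤ -(2 * ρ * ((T.card : ℝ) - 1) * D * Real.log 2) := by
    obtain ⟨x, hxX, hxt⟩ : ∃ x : Qs, (x : 𝓞 L) ∈ X ∧ t ≤ F x := by
      by_contra hne
      push Not at hne
      have h1 : X ⊆ (Finset.univ.filter fun x : Qs => F x < t).image Subtype.val := by
        intro x hx
        simp only [Finset.mem_image, Finset.mem_filter, Finset.mem_univ, true_and]
        exact ⟨⟨x, hXQ x hx⟩, hne _ hx, rfl⟩
      have h2 := Finset.card_le_card h1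
      rw [Finset.card_image_of_injective _ Subtype.val_injective] at h2
      have h3 : (Finset.univ.filter fun x : Qs => F x < t).card = {x | F x < t}.ncard := by
        rw [← Set.ncard_coe_finset]
        congr 1
        ext x
        simp
      rw [h3] at h2
      omega
    obtain ⟨h1, h2, h3⟩ := hX x hxX
    refine hxt.trans ?_
    rw [← hFF, FF]
    have h4 : tR (s * ((x : 𝓞 L) : L)) ≤ 3 / 2 * tR ((x : 𝓞 L) : L) := by
      simp only [tR, map_mul]
      rw [Finset.mul_sum]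
      apply Finset.sum_le_sum
      intro τ _
      exact mul_le_mul_of_nonneg_right (hτs τ).2 (h1 τ).le
    have h5 : (T.card : ℝ) * D * Real.log 2 ≤ Real.log (dd q (x : 𝓞 L)) := by
      have h6 : ((2 ^ (T.card * D) : ℕ) : ℝ) ≤ dd q (x : 𝓞 L) := by exact_mod_cast h2
      have h7 := Real.log_le_log (by positivity) h6
      push_cast at h7
      rw [Real.log_pow] at h7
      push_cast at h7
      exact h7
    have h8 : 2 * ρ * ((T.card : ℝ) * D * Real.log 2) ≤ 2 * ρ * Real.log (dd q (x : 𝓞 L)) :=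
      mul_le_mul_of_nonneg_left h5 (by linarith)
    have h9 : 0 ≤ ρ * D := by positivity
    have h10 : ρ * D * 0.6931471803 ≤ ρ * D * Real.log 2 :=
      mul_le_mul_of_nonneg_left hlog2.le h9
    nlinarith
  have hτ1b : τ₁ ≤ -(2 * ρ * ((T.card : ℝ) - 1) * D * Real.log 2) + 1 := by
    linarith
  have hneg : τ₁ + 1 ≤ 0 := by
    have h1 : (2 : ℝ) * 32 ≤ ((T.card : ℝ) - 1) * ρ := by nlinarith
    have h2 : (2 : ℝ) * 32 ≤ ((T.card : ℝ) - 1) * ρ * D := by nlinarith
    have h3 : (2 : ℝ) * 32 * 0.6931471803 ≤ ((T.card : ℝ) - 1) * ρ * D * Real.log 2 :=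
      mul_le_mul h2 hlog2.le (by norm_num) (by linarith)
    have h4 : 2 * ρ * ((T.card : ℝ) - 1) * D * Real.log 2 =
        2 * (((T.card : ℝ) - 1) * ρ * D * Real.log 2) := by ring
    rw [h4] at hτ1b
    linarith
  refine ⟨s, τ₁, Top, hτs, ?_, ?_, ?_, ?_, ?_, hτ1b⟩
  · rw [hTopc]
    refine hle'.trans (Set.ncard_le_ncard ?_ (Set.toFinite _))
    intro x hx
    exact le_trans hx hτ1
  · rw [hTopc]
    refine le_trans (Set.ncard_le_ncard ?_ (Set.toFinite _)) hbd'
    intro x hx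
    exact le_trans hx hτ2
  · intro x hx
    obtain ⟨h, hx'⟩ := (hTopmem x).1 hx
    refine ⟨h.1, h.2.1, h.2.2, ?_⟩
    rw [hFF ⟨x, h⟩]
    exact hx'
  · refine ⟨x₁, (hTopmem _).2 ⟨x₁.2, ?_⟩, ?_⟩
    · exact hx₁.le
    · rw [hFF x₁]
      exact hx₁
  · intro x hTPx hddx hxT
    have hVn : (0 : ℝ) ≤ V.card := Nat.cast_nonneg _
    by_cases hxQ : tR (x : L) ≤ ρ ^ 2 * D
    · have hxQs : x ∈ Qs := ⟨hTPx, hddx, hxQ⟩
      rcases hgap ⟨x, hxQs⟩ with h | h
      · exact absurd ((hTopmem x).2 ⟨hxQs, h⟩) hxT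
      · rw [← hFF ⟨x, hxQs⟩] at h
        refine le_trans ?_ h
        have h1 : 1 / (256 * (P : ℝ) ^ 4 * D * (128 * (P : ℝ) ^ 4 * ρ ^ 2 * D + 1) * V.card) ≤
            η / (4 * V.card) := by
          rcases eq_or_lt_of_le hVn with h0 | h0
          · rw [← h0, mul_zero, mul_zero, div_zero, div_zero]
          · rw [hη, div_div, hMr, hNr]
            apply one_div_le_one_div_of_le (by positivity)
            have h2 : (J : ℝ) ≤ 128 * (P : ℝ) ^ 4 * ρ ^ 2 * D + 1 := by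
              refine hJ2.trans (le_of_eq ?_)
              rw [hB]
              ring
            have h3 : 2 * (J : ℝ) * (32 * (P : ℝ) ^ 4 * D) * (4 * V.card) =
                256 * (P : ℝ) ^ 4 * D * J * V.card := by ring
            rw [h3]
            have h4 : (0 : ℝ) ≤ 256 * (P : ℝ) ^ 4 * D := by positivity
            exact mul_le_mul_of_nonneg_right (mul_le_mul_of_nonneg_left h2 h4) h0.le
        linarith
    · push Not at hxQ
      have hx0 := hne0 x hTPx
      set u : ℝ := tR (x : L) / D with hu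
      have hD0 : (0 : ℝ) < D := by linarith
      have huD : tR (x : L) = u * D := by
        rw [hu]
        field_simp
      have huρ : ρ ^ 2 ≤ u := by
        rw [hu, le_div_iff₀ hD0]
        exact hxQ.le
      have hupos : 0 < u := lt_of_lt_of_le (by positivity) huρ
      have h1 : (dd q x : ℝ) ≤ u ^ D :=
        le_trans (by exact_mod_cast D1b_dd_le hN2 q x hx0) (n7 x hTPx)
      have h2 : Real.log (dd q x) ≤ D * Real.log u := by
        rw [← Real.log_pow]
        apply Real.log_le_log _ h1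
        exact_mod_cast hddx
      have h3 : 1 / 2 * tR (x : L) ≤ tR (s * (x : L)) := by
        simp only [tR, map_mul]
        rw [Finset.mul_sum]
        apply Finset.sum_le_sum
        intro τ _
        exact mul_le_mul_of_nonneg_right (hτs τ).1 (hTPx τ).le
      have h4 := D1b_num ρ u hρ huρ
      have h5 : 2 * ρ * Real.log (dd q x) ≤ 2 * ρ * (D * Real.log u) :=
        mul_le_mul_of_nonneg_left h2 (by linarith)
      have h6 : (D : ℝ) * 1 ≤ D * (u / 2 - 2 * ρ * Real.log u) :=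
        mul_le_mul_of_nonneg_left h4 hD0.le
      have h7 : 1 / (256 * (P : ℝ) ^ 4 * D * (128 * (P : ℝ) ^ 4 * ρ ^ 2 * D + 1) * V.card) ≤ 1 := by
        rcases eq_or_lt_of_le hVn with h0 | h0
        · rw [← h0, mul_zero, div_zero]
          exact zero_le_one
        · have hV1 : (1 : ℝ) ≤ V.card := by
            have : 0 < V.card := by exact_mod_cast h0
            exact_mod_cast this
          have e1 : (1 : ℝ) ≤ 256 * (P : ℝ) ^ 4 * D := by nlinarith
          have e2 : (1 : ℝ) ≤ 128 * (P : ℝ) ^ 4 * ρ ^ 2 * D + 1 := by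
            have : 0 ≤ 128 * (P : ℝ) ^ 4 * ρ ^ 2 * D := by positivity
            linarith
          have e3 : (1 : ℝ) ≤ 256 * (P : ℝ) ^ 4 * D * (128 * (P : ℝ) ^ 4 * ρ ^ 2 * D + 1) *
              V.card :=
            one_le_mul_of_one_le_of_one_le (one_le_mul_of_one_le_of_one_le e1 e2) hV1
          exact (div_le_one (lt_of_lt_of_le one_pos e3)).2 e3
      rw [FF]
      rw [huD] at h3
      nlinarith

end Pool.Agent.RNK
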