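import Pool.Agent.RNK.StD

set_option autoImplicit false

/-!
# RNK / Dn: numerical estimates
-/

namespace Pool.Agent.RNK

open Filter

theorem dn_ev (s : ℕ) (K : ℝ) : ∀ᶠ M : ℕ in atTop, 1 ≤ M ∧
    K * (M : ℝ) ^ 2 * (((4 * s * M + 2 : ℕ) : ℝ) ^ (2 * Nat.sqrt (4 * s * M)) + 1) ≤
      2 ^ M := by
  set A : ℝ := 4 * s + 2 with hA
  have hA0 : 2 ≤ A := by
    have : (0 : ℝ) ≤ s := Nat.cast_nonneg s
    linarith
  set K' : ℝ := |Real.log (2 * |K| + 1)| with hK'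
  have h1 : Tendsto (fun M : ℕ => ((M : ℝ)) ^ ((1 : ℝ) / 4)) atTop atTop :=
    (tendsto_rpow_atTop (by norm_num)).comp tendsto_natCast_atTop_atTop
  have h2 := h1.eventually (eventually_ge_atTop ((K' + 16) * A ^ ((3 : ℝ) / 4) / Real.log 2))
  filter_upwards [h2, eventually_ge_atTop 1] with M hM hM1
  refine ⟨hM1, ?_⟩
  have hMr : (1 : ℝ) ≤ M := by exact_mod_cast hM1
  set y : ℝ := ((4 * s * M + 2 : ℕ) : ℝ) with hy
  have hy2 : y = 4 * s * M + 2 := by rw [hy]; push_cast; ring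
  have hs0 : (0 : ℝ) ≤ s := Nat.cast_nonneg s
  have hyA : y ≤ A * M := by
    rw [hy2, hA]; nlinarith
  have hy1 : 1 ≤ y := by rw [hy2]; nlinarith [mul_nonneg hs0 (by linarith : (0 : ℝ) ≤ M)]
  have hyM : (M : ℝ) ≤ A * M := by nlinarith
  have hlog : Real.log 2 > 0 := Real.log_pos (by norm_num)
  have hMain : (K' + 16) * (A * M) ^ ((3 : ℝ) / 4) ≤ M * Real.log 2 := by
    rw [div_le_iff₀ hlog] at hM
    rw [Real.mul_rpow (by linarith) (by linarith)]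
    have h3 : (M : ℝ) = (M : ℝ) ^ ((1 : ℝ) / 4) * (M : ℝ) ^ ((3 : ℝ) / 4) := by
      rw [← Real.rpow_add (by linarith)]; norm_num
    have h4 : 0 ≤ (M : ℝ) ^ ((3 : ℝ) / 4) := by positivity
    calc (K' + 16) * (A ^ ((3 : ℝ) / 4) * (M : ℝ) ^ ((3 : ℝ) / 4))
        = (K' + 16) * A ^ ((3 : ℝ) / 4) * (M : ℝ) ^ ((3 : ℝ) / 4) := by ring
      _ ≤ (M : ℝ) ^ ((1 : ℝ) / 4) * Real.log 2 * (M : ℝ) ^ ((3 : ℝ) / 4) := by
          exact mul_le_mul_of_nonneg_right hM h4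
      _ = ((M : ℝ) ^ ((1 : ℝ) / 4) * (M : ℝ) ^ ((3 : ℝ) / 4)) * Real.log 2 := by ring
      _ = M * Real.log 2 := by rw [← h3]
  -- the power
  set z : ℝ := (A * M) with hz
  have hz1 : 1 ≤ z := le_trans hMr hyM
  have hz34 : 1 ≤ z ^ ((3 : ℝ) / 4) := Real.one_le_rpow hz1 (by norm_num)
  have hlogy : Real.log y ≤ 4 * z ^ ((1 : ℝ) / 4) := by
    have h5 := Real.log_le_rpow_div (x := y) (by linarith) (by norm_num : (0 : ℝ) < 1 / 4)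
    have h6 : y ^ ((1 : ℝ) / 4) ≤ z ^ ((1 : ℝ) / 4) :=
      Real.rpow_le_rpow (by linarith) hyA (by norm_num)
    have h7 : y ^ ((1 : ℝ) / 4) / (1 / 4) = 4 * y ^ ((1 : ℝ) / 4) := by ring
    rw [h7] at h5
    linarith
  have hlogM : Real.log M ≤ 4 * z ^ ((1 : ℝ) / 4) := by
    have h5 := Real.log_le_rpow_div (x := (M : ℝ)) (by linarith) (by norm_num : (0 : ℝ) < 1 / 4)
    have h6 : (M : ℝ) ^ ((1 : ℝ) / 4) ≤ z ^ ((1 : ℝ) / 4) :=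
      Real.rpow_le_rpow (by linarith) hyM (by norm_num)
    have h7 : (M : ℝ) ^ ((1 : ℝ) / 4) / (1 / 4) = 4 * (M : ℝ) ^ ((1 : ℝ) / 4) := by ring
    rw [h7] at h5
    linarith
  have hz14 : z ^ ((1 : ℝ) / 4) ≤ z ^ ((3 : ℝ) / 4) :=
    Real.rpow_le_rpow_of_exponent_le hz1 (by norm_num)
  have hz12 : 0 ≤ z ^ ((1 : ℝ) / 2) := by positivity
  have hsq : ((Nat.sqrt (4 * s * M) : ℕ) : ℝ) ≤ z ^ ((1 : ℝ) / 2) := by
    rw [← Real.sqrt_eq_rpow]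
    apply Real.le_sqrt_of_sq_le
    have h8 : (Nat.sqrt (4 * s * M)) ^ 2 ≤ 4 * s * M := Nat.sqrt_le' _
    have h9 : (((Nat.sqrt (4 * s * M)) ^ 2 : ℕ) : ℝ) ≤ ((4 * s * M : ℕ) : ℝ) := by
      exact_mod_cast h8
    push_cast at h9
    have h10 : 4 * (s : ℝ) * M ≤ z := by rw [hz, hA]; nlinarith
    linarith
  have hprod : z ^ ((1 : ℝ) / 2) * z ^ ((1 : ℝ) / 4) = z ^ ((3 : ℝ) / 4) := by
    rw [← Real.rpow_add (by linarith)]; norm_num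
  have hpow : y ^ (2 * Nat.sqrt (4 * s * M)) ≤ Real.exp (8 * z ^ ((3 : ℝ) / 4)) := by
    have hy0 : 0 < y := by linarith
    have h11 : y ^ (2 * Nat.sqrt (4 * s * M)) =
        Real.exp (((2 * Nat.sqrt (4 * s * M) : ℕ) : ℝ) * Real.log y) := by
      rw [Real.exp_nat_mul, Real.exp_log hy0]
    rw [h11]
    apply Real.exp_le_exp.mpr
    push_cast
    have h12 : 0 ≤ Real.log y := Real.log_nonneg hy1
    calc 2 * ((Nat.sqrt (4 * s * M) : ℕ) : ℝ) * Real.log y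
        ≤ 2 * z ^ ((1 : ℝ) / 2) * (4 * z ^ ((1 : ℝ) / 4)) := by
          apply mul_le_mul _ hlogy h12 (by positivity)
          linarith
      _ = 8 * (z ^ ((1 : ℝ) / 2) * z ^ ((1 : ℝ) / 4)) := by ring
      _ = 8 * z ^ ((3 : ℝ) / 4) := by rw [hprod]
  have hK0 : 0 < 2 * |K| + 1 := by positivity
  have hKe : 2 * K ≤ Real.exp K' := by
    have h13 : Real.log (2 * |K| + 1) ≤ K' := le_abs_self _
    have h14 : 2 * |K| + 1 ≤ Real.exp K' := by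
      rw [← Real.exp_log hK0]; exact Real.exp_le_exp.mpr h13
    have := le_abs_self K
    linarith
  have hMe : (M : ℝ) ^ 2 ≤ Real.exp (8 * z ^ ((3 : ℝ) / 4)) := by
    have hM0 : (0 : ℝ) < M := by linarith
    have h15 : (M : ℝ) ^ 2 = Real.exp ((2 : ℕ) * Real.log M) := by
      rw [Real.exp_nat_mul, Real.exp_log hM0]
    rw [h15]
    apply Real.exp_le_exp.mpr
    push_cast
    nlinarith
  have h1e : 1 ≤ Real.exp (8 * z ^ ((3 : ℝ) / 4)) := Real.one_le_exp (by positivity)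
  have hK'0 : 0 ≤ K' := abs_nonneg _
  calc K * (M : ℝ) ^ 2 * (y ^ (2 * Nat.sqrt (4 * s * M)) + 1)
      ≤ |K| * (M : ℝ) ^ 2 * (y ^ (2 * Nat.sqrt (4 * s * M)) + 1) := by
        have := le_abs_self K
        gcongr
    _ ≤ |K| * Real.exp (8 * z ^ ((3 : ℝ) / 4)) * (2 * Real.exp (8 * z ^ ((3 : ℝ) / 4))) := by
        gcongr
        linarith
    _ = (2 * |K|) * (Real.exp (8 * z ^ ((3 : ℝ) / 4)) * Real.exp (8 * z ^ ((3 : ℝ) / 4))) := by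
        ring
    _ ≤ Real.exp K' * (Real.exp (8 * z ^ ((3 : ℝ) / 4)) * Real.exp (8 * z ^ ((3 : ℝ) / 4))) := by
        gcongr
        have h13 : Real.log (2 * |K| + 1) ≤ K' := le_abs_self _
        have h14 : 2 * |K| + 1 ≤ Real.exp K' := by
          rw [← Real.exp_log hK0]; exact Real.exp_le_exp.mpr h13
        linarith
    _ = Real.exp (K' + 16 * z ^ ((3 : ℝ) / 4)) := by
        rw [← Real.exp_add, ← Real.exp_add]; congr 1; ring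
    _ ≤ Real.exp (M * Real.log 2) := by
        apply Real.exp_le_exp.mpr
        nlinarith
    _ = 2 ^ M := by
        rw [Real.exp_nat_mul, Real.exp_log (by norm_num)]

theorem dn_base (P : ℕ) (ε Cε ρ Lc : ℝ) (hP : 1 ≤ P) (hε : 0 < ε) (hε' : ε ≤ 1 / 16)
    (hC : 1 ≤ Cε) (h32 : 32 ≤ ρ)
    (hρ : (8 * (11 + Cε) * (Cε ^ 2 * (10 * 18 * 576 * 16) * (P : ℝ) ^ 6)) ^ 2 ≤ ρ)
    (hLc : Lc = 8 * (3 + Real.log Cε + 2 * ε * Real.log ρ)) :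
    1 ≤ Lc ∧ 2 * Lc ≤ ρ ∧ 4 ≤ ρ / (24 * (P : ℝ) ^ 2) ∧
    Cε * ρ ^ (2 * ε) * √(10 * (P : ℝ) ^ 2 * (16 * (Lc * ρ) + 2)) * 4 ≤
      ρ / (24 * (P : ℝ) ^ 2) := by
  have hP1 : (1 : ℝ) ≤ P := by exact_mod_cast hP
  have hP2 : (1 : ℝ) ≤ (P : ℝ) ^ 2 := one_le_pow₀ hP1
  have hρ0 : 0 < ρ := by linarith
  set t : ℝ := ρ ^ ((1 : ℝ) / 8) with ht
  have ht1 : 1 ≤ t := Real.one_le_rpow (by linarith) (by norm_num)
  have ht8 : t ^ 8 = ρ := by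
    rw [ht, ← Real.rpow_natCast, ← Real.rpow_mul hρ0.le]; norm_num
  set K : ℝ := 8 * (11 + Cε) * (Cε ^ 2 * (10 * 18 * 576 * 16) * (P : ℝ) ^ 6) with hK
  have hCε2 : 1 ≤ Cε ^ 2 := one_le_pow₀ hC
  have hP6 : (P : ℝ) ^ 2 ≤ (P : ℝ) ^ 6 := pow_le_pow_right₀ hP1 (by norm_num)
  have hP60 : (1 : ℝ) ≤ (P : ℝ) ^ 6 := one_le_pow₀ hP1
  have hK0 : 0 ≤ K := by rw [hK]; positivity
  have hKt : K ≤ t ^ 4 := by
    have h1 : K ^ 2 ≤ (t ^ 4) ^ 2 := by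
      rw [← pow_mul]; norm_num; rw [ht8]; exact hρ
    exact le_of_sq_le_sq h1 (by positivity)
  have hKC : 16 * (11 + Cε) ≤ K := by
    rw [hK]
    have h2 : (2 : ℝ) ≤ Cε ^ 2 * (10 * 18 * 576 * 16) * (P : ℝ) ^ 6 := by
      have : (1 : ℝ) * (10 * 18 * 576 * 16) * 1 ≤
          Cε ^ 2 * (10 * 18 * 576 * 16) * (P : ℝ) ^ 6 := by gcongr
      linarith
    nlinarith
  have hKP : 96 * (P : ℝ) ^ 2 ≤ K := by
    rw [hK]
    calc 96 * (P : ℝ) ^ 2 ≤ (8 * (11 + 1) * (1 * (10 * 18 * 576 * 16))) * (P : ℝ) ^ 6 := by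
          nlinarith
      _ ≤ (8 * (11 + Cε) * (Cε ^ 2 * (10 * 18 * 576 * 16))) * (P : ℝ) ^ 6 := by gcongr
      _ = _ := by ring
  -- Lc
  have hlC0 : 0 ≤ Real.log Cε := Real.log_nonneg hC
  have hlρ0 : 0 ≤ Real.log ρ := Real.log_nonneg (by linarith)
  have hlC : Real.log Cε ≤ Cε := Real.log_le_self (by linarith)
  have hlρ : Real.log ρ ≤ 8 * t := by
    have h5 := Real.log_le_rpow_div (x := ρ) hρ0.le (by norm_num : (0 : ℝ) < 1 / 8)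
    have h7 : ρ ^ ((1 : ℝ) / 8) / (1 / 8) = 8 * t := by rw [ht]; ring
    rw [h7] at h5
    exact h5
  have h2ε : 2 * ε * Real.log ρ ≤ 8 * t := by nlinarith
  have hLc1 : 1 ≤ Lc := by
    rw [hLc]; nlinarith [mul_nonneg hε.le hlρ0]
  have hLct : Lc ≤ 8 * (11 + Cε) * t := by
    rw [hLc]; nlinarith
  have ht48 : t ^ 4 * t ≤ ρ := by
    rw [← ht8, ← pow_succ]; exact pow_le_pow_right₀ ht1 (by norm_num)
  have ht0 : 0 < t := by linarith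
  have h2Lc : 2 * Lc ≤ ρ := by
    calc 2 * Lc ≤ 16 * (11 + Cε) * t := by linarith
      _ ≤ t ^ 4 * t := by gcongr; linarith
      _ ≤ ρ := ht48
  have hPpos : 0 < 24 * (P : ℝ) ^ 2 := by positivity
  have ht4ρ : t ^ 4 ≤ ρ := by
    rw [← ht8]; exact pow_le_pow_right₀ ht1 (by norm_num)
  refine ⟨hLc1, h2Lc, ?_, ?_⟩
  · rw [le_div_iff₀ hPpos]
    linarith
  · rw [le_div_iff₀ hPpos]
    have hρε : ρ ^ (2 * ε) ≤ t := by
      rw [ht]; exact Real.rpow_le_rpow_of_exponent_le (by linarith) (by linarith)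
    have hsq : √(10 * (P : ℝ) ^ 2 * (16 * (Lc * ρ) + 2)) ≤
        √(10 * (P : ℝ) ^ 2 * 18 * (8 * (11 + Cε)) * t ^ 9) := by
      apply Real.sqrt_le_sqrt
      have h8 : 16 * (Lc * ρ) + 2 ≤ 18 * (Lc * ρ) := by nlinarith
      have h9 : Lc * ρ ≤ 8 * (11 + Cε) * t * t ^ 8 := by rw [ht8]; gcongr
      calc 10 * (P : ℝ) ^ 2 * (16 * (Lc * ρ) + 2) ≤ 10 * (P : ℝ) ^ 2 * (18 * (8 * (11 + Cε) * t * t ^ 8)) := by
            gcongr; linarith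
        _ = _ := by ring
    have hfin : √(10 * (P : ℝ) ^ 2 * 18 * (8 * (11 + Cε)) * t ^ 9) ≤
        t ^ 7 / (96 * Cε * (P : ℝ) ^ 2) := by
      apply Real.sqrt_le_iff.mpr
      refine ⟨by positivity, ?_⟩
      rw [div_pow, le_div_iff₀ (by positivity)]
      calc 10 * (P : ℝ) ^ 2 * 18 * (8 * (11 + Cε)) * t ^ 9 * (96 * Cε * (P : ℝ) ^ 2) ^ 2
          = K * t ^ 9 := by rw [hK]; ring
        _ ≤ t ^ 4 * t ^ 9 := by gcongr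
        _ ≤ t ^ 5 * t ^ 9 := by
            have : t ^ 4 ≤ t ^ 5 := pow_le_pow_right₀ ht1 (by norm_num)
            gcongr
        _ = (t ^ 7) ^ 2 := by ring
    calc Cε * ρ ^ (2 * ε) * √(10 * (P : ℝ) ^ 2 * (16 * (Lc * ρ) + 2)) * 4 * (24 * (P : ℝ) ^ 2)
        ≤ Cε * t * (t ^ 7 / (96 * Cε * (P : ℝ) ^ 2)) * 4 * (24 * (P : ℝ) ^ 2) := by
          gcongr
          exact hsq.trans hfin
      _ = t ^ 8 := by field_simp; ring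
      _ = ρ := ht8

theorem dn_exp3 : 4 * Real.exp (-3) ≤ 1 / 4 := by
  have h1 : (2.7182818283 : ℝ) < Real.exp 1 := Real.exp_one_gt_d9
  have h2 : Real.exp 3 = Real.exp 1 ^ 3 := by
    rw [← Real.exp_nat_mul]; norm_num
  have h3 : (16 : ℝ) ≤ Real.exp 3 := by
    rw [h2]
    calc (16 : ℝ) ≤ (2.7182818283 : ℝ) ^ 3 := by norm_num
      _ ≤ Real.exp 1 ^ 3 := by gcongr
  rw [Real.exp_neg, ← div_eq_mul_inv, div_le_iff₀ (by positivity)]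
  linarith

theorem dn_w (P M v : ℕ) (ρ ρ₂ V : ℝ) (hP : 1 ≤ P) (hM : 1 ≤ M) (hv : 1 ≤ v)
    (hρ : 0 < ρ) (hρ2 : ρ ≤ ρ₂) (hvV : (v : ℝ) ≤ V) :
    1 ≤ 256 * (P : ℝ) ^ 4 * (2 * M) * (128 * P ^ 4 * ρ ^ 2 * (2 * M) + 1) * v ∧
    256 * (P : ℝ) ^ 4 * (2 * M) * (128 * P ^ 4 * ρ ^ 2 * (2 * M) + 1) * v * (8 * ρ) ≤
      8 * ρ₂ * (256 * (P : ℝ) ^ 4) * 2 * (256 * (P : ℝ) ^ 4 * ρ₂ ^ 2 + 1) *
            ((M : ℝ) ^ 2 * V) := by
  have hP1 : (1 : ℝ) ≤ P := by exact_mod_cast hP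
  have hMr : (1 : ℝ) ≤ M := by exact_mod_cast hM
  have hv1r : (1 : ℝ) ≤ v := by exact_mod_cast hv
  have h1 : (1 : ℝ) ≤ (P : ℝ) ^ 4 := one_le_pow₀ hP1
  have hV0 : 0 ≤ V := by linarith
  have hρ₂0 : 0 ≤ ρ₂ := by linarith
  constructor
  · have h2 : (1 : ℝ) ≤ 256 * P ^ 4 * (2 * M) := by nlinarith
    have h3 : (1 : ℝ) ≤ 128 * P ^ 4 * ρ ^ 2 * (2 * M) + 1 := by
      have : 0 ≤ 128 * (P : ℝ) ^ 4 * ρ ^ 2 * (2 * M) := by positivity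
      linarith
    exact one_le_mul_of_one_le_of_one_le (one_le_mul_of_one_le_of_one_le h2 h3) hv1r
  · calc 256 * (P : ℝ) ^ 4 * (2 * M) * (128 * P ^ 4 * ρ ^ 2 * (2 * M) + 1) * v * (8 * ρ)
          ≤ 256 * (P : ℝ) ^ 4 * (2 * M) * (128 * P ^ 4 * ρ₂ ^ 2 * (2 * M) + M) * V * (8 * ρ₂) := by
            gcongr
        _ = 8 * ρ₂ * (256 * (P : ℝ) ^ 4) * 2 * (256 * (P : ℝ) ^ 4 * ρ₂ ^ 2 + 1) *
            ((M : ℝ) ^ 2 * V) := by ring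

theorem dn_log (M D : ℕ) (N Bρ B₂ : ℝ) (hD : (D : ℝ) = 2 * M) (hD0 : D ≠ 0) (hN1 : 1 ≤ N)
    (hB0' : 0 ≤ Bρ) (hNB : N ≤ Bρ ^ D) (hBB : Bρ ≤ B₂) :
    Real.log (4 * N ^ 2 + 4) ≤ 3 + 4 * (M * B₂) := by
  have hN0 : 0 < N := by linarith
  have hBρ1 : 1 ≤ Bρ ^ D := le_trans hN1 hNB
  have h1 : 4 * N ^ 2 + 4 ≤ 8 * (Bρ ^ D) ^ 2 := by
    have h2 : N ^ 2 ≤ (Bρ ^ D) ^ 2 := by gcongr
    have h3 : 1 ≤ N ^ 2 := one_le_pow₀ hN1
    linarith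
  have hB0 : 0 < Bρ := by
    by_contra hcon
    have h4 : Bρ = 0 := le_antisymm (not_lt.mp hcon) hB0'
    rw [h4, zero_pow hD0] at hBρ1
    norm_num at hBρ1
  have h5 : Real.log (4 * N ^ 2 + 4) ≤ Real.log (8 * (Bρ ^ D) ^ 2) :=
    Real.log_le_log (by positivity) h1
  have h6 : Real.log (8 * (Bρ ^ D) ^ 2) = Real.log 8 + 2 * (D * Real.log Bρ) := by
    rw [Real.log_mul (by norm_num) (by positivity), Real.log_pow, Real.log_pow]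
    push_cast; ring
  have h7 : Real.log 8 ≤ 3 := by
    have h8 : (8 : ℝ) = 2 ^ 3 := by norm_num
    rw [h8, Real.log_pow]
    have := Real.log_two_lt_d9
    push_cast; linarith
  have h9 : Real.log Bρ ≤ B₂ := (Real.log_le_self hB0.le).trans hBB
  rw [hD] at h6
  have hM0 : (0 : ℝ) ≤ M := Nat.cast_nonneg M
  have h10 : (M : ℝ) * Real.log Bρ ≤ M * B₂ := by gcongr
  linarith

theorem dn_exp (D : ℕ) (ε Cε ρ c Lc : ℝ) (hC : 0 < Cε) (hρ : 0 < ρ)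
    (hc : c = (Cε * ρ ^ (2 * ε)) ^ D)
    (hLc : Lc = 8 * (3 + Real.log Cε + 2 * ε * Real.log ρ)) :
    c * (2 * 4 ^ D * Real.exp (-(Lc * D / 8))) ≤ 2 / 4 ^ D := by
  have hρε0 : 0 < ρ ^ (2 * ε) := by positivity
  have h1 : -(Lc * D / 8) = (D : ℝ) * (-3) - D * Real.log (Cε * ρ ^ (2 * ε)) := by
    rw [hLc, Real.log_mul (by positivity) (by positivity), Real.log_rpow hρ]
    ring
  have h2 : Real.exp (-(Lc * D / 8)) = Real.exp (-3) ^ D / c := by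
    rw [h1, Real.exp_sub, Real.exp_nat_mul, Real.exp_nat_mul, Real.exp_log (by positivity), hc]
  rw [h2]
  have hc0 : 0 < c := by rw [hc]; positivity
  calc c * (2 * 4 ^ D * (Real.exp (-3) ^ D / c)) = 2 * (4 * Real.exp (-3)) ^ D := by
        rw [mul_pow]; field_simp
    _ ≤ 2 * (1 / 4) ^ D := by
        have := dn_exp3
        have h3 : 0 ≤ 4 * Real.exp (-3) := by positivity
        gcongr
    _ = 2 / 4 ^ D := by rw [one_div, inv_pow]; ring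

theorem dn_sum (c N κ W LL Y X w8 : ℝ) (hW : 1 ≤ W) (hY1 : 1 ≤ Y) (hN1 : 1 ≤ N)
    (hLL : LL = Real.log (4 * N ^ 2 + 4)) (hκY : Y ^ 4 ≤ κ) (hcN : c * √N * Y ^ 4 ≤ κ)
    (hS : 8 * LL + 8 ≤ Y) (hexp : X ≤ 2 / Y ^ 4) (hw : 1 / Y ≤ w8) :
    2 * dev (W * c) N + 2 + κ * W * X ≤ κ * W * w8 ∧ dev (W * c) N ≤ κ * W := by
  have hY40 : 0 < Y ^ 4 := by positivity
  have hκ0 : 0 < κ := by linarith
  have hY0 : 0 < Y := by linarith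
  have hκW0 : 0 ≤ κ * W := by positivity
  have hLL0 : 0 ≤ LL := by
    rw [hLL]
    have : 0 ≤ 4 * N ^ 2 := by positivity
    exact Real.log_nonneg (by linarith)
  have hsLL : √(2 * LL) ≤ 2 * LL + 1 := by
    apply Real.sqrt_le_iff.mpr
    constructor
    · linarith
    · nlinarith
  have hS' : 4 * √(2 * LL) + 4 ≤ Y := by linarith
  have hs0 : 0 ≤ √(2 * LL) := Real.sqrt_nonneg _
  have hdevY : dev (W * c) N ≤ 2 * √(2 * LL) * (κ * W) / Y ^ 4 := by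
    have h1 : dev (W * c) N = 2 * W * √(2 * LL) * (c * √N) := by
      unfold dev
      have h2 : 2 * N * Real.log (4 * N ^ 2 + 4) = (2 * LL) * N := by rw [hLL]; ring
      rw [h2, Real.sqrt_mul (by positivity)]
      ring
    rw [h1, le_div_iff₀ hY40]
    calc 2 * W * √(2 * LL) * (c * √N) * Y ^ 4 = 2 * W * √(2 * LL) * (c * √N * Y ^ 4) := by ring
      _ ≤ 2 * W * √(2 * LL) * κ := by gcongr
      _ = 2 * √(2 * LL) * (κ * W) := by ring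
  have h2κ : 2 ≤ 2 * (κ * W) / Y ^ 4 := by
    rw [le_div_iff₀ hY40]
    have : Y ^ 4 * 1 ≤ κ * W := by gcongr
    linarith
  have hY3 : Y ≤ Y ^ 3 := by
    calc Y = Y ^ 1 := (pow_one Y).symm
      _ ≤ Y ^ 3 := pow_le_pow_right₀ hY1 (by norm_num)
  constructor
  · calc 2 * dev (W * c) N + 2 + κ * W * X
          ≤ 2 * (2 * √(2 * LL) * (κ * W) / Y ^ 4) + 2 * (κ * W) / Y ^ 4 +
            κ * W * (2 / Y ^ 4) := by gcongr
        _ = κ * W * ((4 * √(2 * LL) + 4) / Y ^ 4) := by ring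
        _ ≤ κ * W * (1 / Y) := by
            apply mul_le_mul_of_nonneg_left _ hκW0
            rw [div_le_div_iff₀ hY40 hY0]
            calc (4 * √(2 * LL) + 4) * Y ≤ Y * Y := by gcongr
              _ ≤ Y ^ 3 * Y := by gcongr
              _ = 1 * Y ^ 4 := by ring
        _ ≤ κ * W * w8 := by gcongr
  · refine hdevY.trans ?_
    rw [div_le_iff₀ hY40]
    have h1 : 2 * √(2 * LL) ≤ Y ^ 4 := by
      have h3 : Y ^ 3 ≤ Y ^ 4 := pow_le_pow_right₀ hY1 (by norm_num)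
      linarith
    calc 2 * √(2 * LL) * (κ * W) ≤ Y ^ 4 * (κ * W) := by gcongr
      _ = κ * W * Y ^ 4 := by ring

theorem dn_last (P Q D n : ℕ) (ε Cε ρ c : ℝ) (hP : 1 ≤ P) (hQ : 1 ≤ Q) (hε : 0 < ε)
    (hC0 : 0 < Cε) (hρ1' : 1 ≤ ρ) (hρPQ : 12 * ((Q : ℝ) * P) ≤ ρ) (hD0 : D ≠ 0)
    (hc : c = (Cε * ρ ^ (2 * ε)) ^ D) (hn : ((ρ / (6 * Q * P)) ^ D - 1 ≤ n * (625 ^ D * c))) :
    (ρ ^ (1 - 4 * ε) / (75000 * (Q * P * Cε))) ^ D ≤ n := by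
  have hP1 : (1 : ℝ) ≤ P := by exact_mod_cast hP
  have hQ1 : (1 : ℝ) ≤ Q := by exact_mod_cast hQ
  have hρ0 : 0 < ρ := by linarith
  have hρε0 : 0 < ρ ^ (2 * ε) := by positivity
  have h2D : (2 : ℝ) ≤ 2 ^ D := by
    calc (2 : ℝ) = 2 ^ 1 := by norm_num
      _ ≤ 2 ^ D := pow_le_pow_right₀ (by norm_num) (Nat.one_le_iff_ne_zero.mpr hD0)
  have hx2 : 2 ≤ (ρ / (6 * Q * P)) ^ D := by
    have h1 : 2 ≤ ρ / (6 * Q * P) := by
      rw [le_div_iff₀ (by positivity)]; linarith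
    calc (2 : ℝ) ≤ 2 ^ D := h2D
      _ ≤ _ := by gcongr
  have h2 : (ρ / (6 * Q * P)) ^ D ≤ 2 * (n * (625 ^ D * c)) := by linarith
  have hn0 : (0 : ℝ) ≤ n := Nat.cast_nonneg n
  have h3 : (ρ / (6 * Q * P)) ^ D ≤ n * (1250 * (Cε * ρ ^ (2 * ε))) ^ D := by
    refine h2.trans ?_
    rw [hc]
    calc 2 * (n * (625 ^ D * (Cε * ρ ^ (2 * ε)) ^ D))
        ≤ 2 ^ D * (n * (625 ^ D * (Cε * ρ ^ (2 * ε)) ^ D)) := by gcongr
      _ = n * (2 ^ D * 625 ^ D * (Cε * ρ ^ (2 * ε)) ^ D) := by ring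
      _ = n * (1250 * (Cε * ρ ^ (2 * ε))) ^ D := by
          rw [mul_pow 1250, ← mul_pow (2 : ℝ) 625]; norm_num
  have h4 : ρ ^ (1 - 4 * ε) / (75000 * (Q * P * Cε)) * (1250 * (Cε * ρ ^ (2 * ε))) ≤
      ρ / (6 * Q * P) := by
    have h5 : ρ ^ (1 - 4 * ε) * ρ ^ (2 * ε) ≤ ρ := by
      rw [← Real.rpow_add hρ0]
      calc ρ ^ (1 - 4 * ε + 2 * ε) ≤ ρ ^ (1 : ℝ) :=
            Real.rpow_le_rpow_of_exponent_le hρ1' (by linarith)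
        _ = ρ := Real.rpow_one ρ
    calc ρ ^ (1 - 4 * ε) / (75000 * (Q * P * Cε)) * (1250 * (Cε * ρ ^ (2 * ε)))
        = (ρ ^ (1 - 4 * ε) * ρ ^ (2 * ε)) / (60 * Q * P) := by field_simp; ring
      _ ≤ ρ / (60 * Q * P) := by gcongr
      _ ≤ ρ / (6 * Q * P) := by gcongr; norm_num
  have hz0 : 0 < (1250 * (Cε * ρ ^ (2 * ε))) ^ D := by positivity
  have h6 : (ρ ^ (1 - 4 * ε) / (75000 * (Q * P * Cε))) ^ D * (1250 * (Cε * ρ ^ (2 * ε))) ^ D ≤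
      n * (1250 * (Cε * ρ ^ (2 * ε))) ^ D := by
    refine le_trans ?_ h3
    rw [← mul_pow]
    gcongr
  exact le_of_mul_le_mul_right h6 hz0

theorem thm_Dn : St_Dn := by
  intro P Q ε Cε hP hQ hε hε' hC
  have hP1 : (1 : ℝ) ≤ P := by exact_mod_cast hP
  have hQ1 : (1 : ℝ) ≤ Q := by exact_mod_cast hQ
  have hC0 : 0 < Cε := by linarith
  have hPQ : (1 : ℝ) ≤ Q * P := one_le_mul_of_one_le_of_one_le hQ1 hP1
  have hPQC : (1 : ℝ) ≤ Q * P * Cε := one_le_mul_of_one_le_of_one_le hPQ hC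
  obtain ⟨K1, hK1⟩ : ∃ K1 : ℝ, K1 = 8 * (11 + Cε) * (Cε ^ 2 * (10 * 18 * 576 * 16) *
    (P : ℝ) ^ 6) := ⟨_, rfl⟩
  have hK1sq := sq_nonneg K1
  refine ⟨75000 * (Q * P * Cε), K1 ^ 2 + 12 * (Q * P) + 32, by linarith, by linarith, ?_⟩
  intro ρ₂ hρ₂
  obtain ⟨s, hs⟩ : ∃ s : ℕ, ρ₂ ≤ 2 ^ s := by
    obtain ⟨s, hs⟩ := pow_unbounded_of_one_lt ρ₂ (by norm_num : (1 : ℝ) < 2)
    exact ⟨s, hs.le⟩
  have hρ₂32 : 32 ≤ ρ₂ := by linarith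
  obtain ⟨B₂, hB₂⟩ : ∃ B₂ : ℝ, B₂ = 10 * (P : ℝ) ^ 2 * (16 * (ρ₂ * ρ₂) + 2) := ⟨_, rfl⟩
  have hB₂0 : 0 ≤ B₂ := by rw [hB₂]; positivity
  obtain ⟨K2, hK2⟩ : ∃ K2 : ℝ, K2 = 8 * ρ₂ * (256 * (P : ℝ) ^ 4) * 2 *
    (256 * (P : ℝ) ^ 4 * ρ₂ ^ 2 + 1) := ⟨_, rfl⟩
  have hK20 : 0 ≤ K2 := by rw [hK2]; positivity
  obtain ⟨K3, hK3⟩ : ∃ K3 : ℝ, K3 = 32 + 32 * B₂ := ⟨_, rfl⟩
  have hK30 : 0 ≤ K3 := by rw [hK3]; positivity
  obtain ⟨M₀, hM₀⟩ := eventually_atTop.mp (dn_ev s (K2 + K3))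
  refine ⟨M₀, ?_⟩
  intro m hm ρ hρ1 hρ2 D c Lc hD hc hLc
  have hρ32 : 32 ≤ ρ := by linarith
  have hρ0 : 0 < ρ := by linarith
  have hρ1' : 1 ≤ ρ := by linarith
  have hρK : K1 ^ 2 ≤ ρ := by linarith
  have hρPQ : 12 * ((Q : ℝ) * P) ≤ ρ := by linarith
  rw [hK1] at hρK
  obtain ⟨hL1, h2L, h4, hbase⟩ := dn_base P ε Cε ρ Lc hP hε hε' hC hρ32 hρK hLc
  have hρε1 : 1 ≤ ρ ^ (2 * ε) := Real.one_le_rpow hρ1' (by positivity)
  have hρε0 : 0 < ρ ^ (2 * ε) := by linarith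
  have hCρ : 1 ≤ Cε * ρ ^ (2 * ε) := one_le_mul_of_one_le_of_one_le hC hρε1
  have hc1 : 1 ≤ c := by rw [hc]; exact one_le_pow₀ hCρ
  have hD0 : D ≠ 0 := by rw [hD]; positivity
  refine ⟨hL1, h2L, hc1, ?_, ?_, ?_⟩
  · -- the main estimate
    obtain ⟨M, hM⟩ : ∃ M : ℕ, M = 2 ^ m := ⟨_, rfl⟩
    rw [← hM]
    have hMm : M₀ ≤ M := by rw [hM]; exact le_trans hm (Nat.lt_two_pow_self).le
    obtain ⟨hM1, hev⟩ := hM₀ M hMm
    have hMr : (1 : ℝ) ≤ M := by exact_mod_cast hM1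
    have hDM : D = 2 * M := by rw [hD, hM, pow_succ]; ring
    have hDr : (D : ℝ) = 2 * M := by rw [hDM]; push_cast; ring
    refine ⟨4 * s * M, ?_, ?_⟩
    · calc ρ ^ (2 * D) ≤ (2 ^ s) ^ (2 * D) := by
            gcongr; exact hρ2.trans hs
        _ = 2 ^ (4 * s * M) := by rw [← pow_mul, hDM]; congr 1; ring
    intro v N κ W w hv1 hv hN1 hN hκ hW hw
    obtain ⟨Y, hY⟩ : ∃ Y : ℝ, Y = 2 ^ M := ⟨_, rfl⟩
    rw [← hY] at hev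
    have hY1 : 1 ≤ Y := by rw [hY]; exact one_le_pow₀ (by norm_num)
    have hvr : (v : ℝ) ≤ ((4 * s * M + 2 : ℕ) : ℝ) ^ (2 * Nat.sqrt (4 * s * M)) + 1 := by
      exact_mod_cast hv
    generalize ((4 * s * M + 2 : ℕ) : ℝ) ^ (2 * Nat.sqrt (4 * s * M)) + 1 = V at hvr hev
    have hv1r : (1 : ℝ) ≤ v := by exact_mod_cast hv1
    have hV1 : 1 ≤ V := le_trans hv1r hvr
    have hM2V : (M : ℝ) ≤ (M : ℝ) ^ 2 * V := by
      calc (M : ℝ) = M * 1 * 1 := by ring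
        _ ≤ M * M * V := by gcongr
        _ = (M : ℝ) ^ 2 * V := by ring
    have hM2V0 : 0 ≤ (M : ℝ) ^ 2 * V := by positivity
    have hev1 : (K2 + K3) * (M : ℝ) ^ 2 * V = K2 * ((M : ℝ) ^ 2 * V) + K3 * ((M : ℝ) ^ 2 * V) := by
      ring
    have hp2 : 0 ≤ K2 * ((M : ℝ) ^ 2 * V) := mul_nonneg hK20 hM2V0
    have hp3 : 0 ≤ K3 * ((M : ℝ) ^ 2 * V) := mul_nonneg hK30 hM2V0
    have hev2 : K2 * ((M : ℝ) ^ 2 * V) ≤ Y := by linarith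
    have hev3 : K3 * M ≤ Y := by
      have h1 : K3 * M ≤ K3 * ((M : ℝ) ^ 2 * V) := mul_le_mul_of_nonneg_left hM2V hK30
      linarith
    obtain ⟨hden1, hden2⟩ := dn_w P M v ρ ρ₂ V hP hM1 hv1 hρ0 hρ2 hvr
    rw [← hK2] at hden2
    rw [hDr] at hw
    generalize 256 * (P : ℝ) ^ 4 * (2 * M) * (128 * P ^ 4 * ρ ^ 2 * (2 * M) + 1) * v = den
      at hden1 hden2 hw
    have hden0 : 0 < den := by linarith
    have hdenY : den * (8 * ρ) ≤ Y := le_trans hden2 hev2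
    have hwY : 1 / Y ≤ w / (8 * ρ) := by
      rw [hw, div_div]
      exact one_div_le_one_div_of_le (by positivity) hdenY
    have hw1 : w ≤ 1 := by
      rw [hw]; exact (div_le_one hden0).mpr hden1
    have hY4 : (4 : ℝ) ^ D = Y ^ 4 := by
      rw [hDM, hY, ← pow_mul, pow_mul, mul_comm M 4, pow_mul]; norm_num
    have hκY : Y ^ 4 ≤ κ := by
      rw [← hY4]
      refine le_trans ?_ hκ
      gcongr
    obtain ⟨Bρ, hBρ⟩ : ∃ B : ℝ, B = 10 * (P : ℝ) ^ 2 * (16 * (Lc * ρ) + 2) := ⟨_, rfl⟩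
    have hL0 : 0 ≤ Lc := by linarith
    have hBρ0 : 0 ≤ Bρ := by rw [hBρ]; positivity
    have hNB : N ≤ Bρ ^ D := by
      rw [hBρ, mul_pow]; exact hN
    rw [← hBρ] at hbase
    have hsN : √N ≤ (√Bρ) ^ D := by
      apply Real.sqrt_le_iff.mpr
      refine ⟨by positivity, ?_⟩
      rw [← pow_mul, mul_comm D 2, pow_mul, Real.sq_sqrt hBρ0]
      exact hNB
    have hcN : c * √N * Y ^ 4 ≤ κ := by
      rw [← hY4, hc]
      calc (Cε * ρ ^ (2 * ε)) ^ D * √N * 4 ^ D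
          ≤ (Cε * ρ ^ (2 * ε)) ^ D * (√Bρ) ^ D * 4 ^ D := by gcongr
        _ = (Cε * ρ ^ (2 * ε) * √Bρ * 4) ^ D := by rw [← mul_pow, ← mul_pow]
        _ ≤ (ρ / (24 * (P : ℝ) ^ 2)) ^ D := by
            have : 0 ≤ Cε * ρ ^ (2 * ε) * √Bρ * 4 := by positivity
            gcongr
        _ ≤ κ := hκ
    have hBB : Bρ ≤ B₂ := by
      rw [hBρ, hB₂]
      have h3 : Lc * ρ ≤ ρ₂ * ρ₂ := by
        have : Lc ≤ ρ₂ := by linarith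
        gcongr
      gcongr
    have hLLle := dn_log M D N Bρ B₂ hDr hD0 hN1 hBρ0 hNB hBB
    have hS : 8 * Real.log (4 * N ^ 2 + 4) + 8 ≤ Y := by
      refine le_trans ?_ hev3
      rw [hK3]
      have h1 : (32 + 32 * B₂) * M = 32 * M + 32 * (M * B₂) := by ring
      linarith
    have hexp := dn_exp D ε Cε ρ c Lc hC0 hρ0 hc hLc
    rw [hY4] at hexp
    obtain ⟨hs1, hs2⟩ := dn_sum c N κ W _ Y _ (w / (8 * ρ)) hW hY1 hN1 rfl hκY hcN hS hexp hwY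
    rw [hY4]
    refine ⟨hs1, ?_, hw1, hs2⟩
    rw [one_div, inv_pow, ← one_div, ← hY]
    exact hwY
  · intro n hn
    exact dn_last P Q D n ε Cε ρ c hP hQ hε hC0 hρ1' hρPQ hD0 hc hn
  · rw [hc, ← mul_pow, ← mul_pow]
    have h1 : ρ * ρ ^ (2 * ε) ≤ ρ ^ (1 + 4 * ε) := by
      calc ρ * ρ ^ (2 * ε) = ρ ^ (1 + 2 * ε) := by
            rw [Real.rpow_add hρ0, Real.rpow_one]
        _ ≤ ρ ^ (1 + 4 * ε) := Real.rpow_le_rpow_of_exponent_le hρ1' (by linarith)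
    have h2 : 120 * ρ * 625 * (Cε * ρ ^ (2 * ε)) ≤
        75000 * (Q * P * Cε) * ρ ^ (1 + 4 * ε) := by
      calc 120 * ρ * 625 * (Cε * ρ ^ (2 * ε)) = 75000 * (1 * Cε) * (ρ * ρ ^ (2 * ε)) := by ring
        _ ≤ 75000 * (Q * P * Cε) * ρ ^ (1 + 4 * ε) := by gcongr
    gcongr

end Pool.Agent.RNK
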