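import Pool.Agent.RNK.StA

set_option autoImplicit false

/-!
# RNK / E1: union of scaled blocks
-/

namespace Pool.Agent.RNK

open Finset Pool.Agent.Helper53.Generic Pool.Agent.Helper60.Gap

/-- an `n`-point set with `r` distances of multiplicity at least `T`, all others of multiplicity
at most `s` -/
private def E1_G (n r : ℕ) (T s : ℝ) : Prop :=
  ∃ U : Finset Plane, ∃ D : Finset ℝ, U.card = n ∧ D.card = r ∧
    (∀ d ∈ D, T ≤ (P U d : ℝ)) ∧ (∀ d, d ∉ D → (P U d : ℝ) ≤ s)

private theorem E1_zero {T s : ℝ} (hs : 2 ≤ s) : E1_G 0 0 T s := by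
  refine ⟨∅, ∅, rfl, rfl, ?_, ?_⟩
  · intro d hd
    exact absurd hd (Finset.notMem_empty d)
  · intro d _
    have : P (∅ : Finset Plane) d = 0 := by simp [P]
    rw [this, Nat.cast_zero]
    linarith

/-- Adding configurations. -/
private theorem E1_add {n r n' r' : ℕ} {T s : ℝ} (hT : 0 < T) (hs : 2 ≤ s) (h : E1_G n r T s)
    (h' : E1_G n' r' T s) : E1_G (n + n') (r + r') T s := by
  classical
  obtain ⟨U, D, hU, hD, h1, h2⟩ := h
  obtain ⟨V, E, hV, hE, h3, h4⟩ := h'
  have hEpos : ∀ d ∈ distances V, 0 < d := by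
    intro d hd
    rw [mem_distances] at hd
    by_contra hneg
    exact hd (P_nonpos (not_lt.mp hneg))
  obtain ⟨c, hc, hcd⟩ : ∃ c : ℝ, 0 < c ∧ ∀ d ∈ distances U, ∀ e ∈ distances V, d < c * e := by
    have h5 : ∀ᶠ c : ℝ in Filter.atTop, ∀ d ∈ distances U, ∀ e ∈ distances V, d < c * e := by
      rw [Filter.eventually_all_finset]
      intro d _
      rw [Filter.eventually_all_finset]
      intro e he
      have := hEpos e he
      exact (Filter.Tendsto.atTop_mul_const this Filter.tendsto_id).eventually_gt_atTop d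
    obtain ⟨c, hc1, hc2⟩ := (h5.and (Filter.eventually_gt_atTop 0)).exists
    exact ⟨c, hc2, hc1⟩
  obtain ⟨V', hV', hPV'⟩ := exists_scaled V hc
  have hP' : ∀ d, P V' d = P V (d / c) := by
    intro d
    have := hPV' (d / c)
    rwa [mul_div_cancel₀ _ hc.ne'] at this
  have hne : ∀ (X : Finset Plane) (d : ℝ), T ≤ (P X d : ℝ) → d ∈ distances X := by
    intro X d hd
    rw [mem_distances]
    intro h0
    rw [h0, Nat.cast_zero] at hd
    linarith
  obtain ⟨W, hW, hW1, hW2, hW3, hW4⟩ := step2 U V' ∅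
  have hW2' : ∀ d, (P U d : ℝ) + P V' d ≤ P W d := fun d => by exact_mod_cast hW2 d
  refine ⟨W, D ∪ E.image (fun e => c * e), ?_, ?_, ?_, ?_⟩
  · rw [hW, hU, hV', hV]
  · rw [Finset.card_union_of_disjoint, hD,
      Finset.card_image_of_injective _ (mul_right_injective₀ hc.ne'), hE]
    rw [Finset.disjoint_left]
    intro d hd hd'
    rw [Finset.mem_image] at hd'
    obtain ⟨e, he, rfl⟩ := hd'
    exact lt_irrefl _ (hcd _ (hne U _ (h1 _ hd)) _ (hne V _ (h3 _ he)))
  · intro d hd
    rw [Finset.mem_union, Finset.mem_image] at hd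
    have h6 := hW2' d
    rcases hd with hd | ⟨e, he, rfl⟩
    · have := h1 d hd
      have h7 : (0 : ℝ) ≤ P V' d := Nat.cast_nonneg _
      linarith
    · have h7 := h3 e he
      rw [hPV'] at h6
      have h8 : (0 : ℝ) ≤ P U (c * e) := Nat.cast_nonneg _
      linarith
  · intro d hd
    rw [Finset.mem_union, not_or, Finset.mem_image] at hd
    obtain ⟨hd1, hd2⟩ := hd
    have e1 : (P U d : ℝ) ≤ s := h2 d hd1
    have e2 : (P V' d : ℝ) ≤ s := by
      rw [hP']
      apply h4
      intro he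
      exact hd2 ⟨d / c, he, mul_div_cancel₀ _ hc.ne'⟩
    by_cases hz : P U d + P V' d = 0
    · have h5 := hW4 d
      rw [hz, zero_add] at h5
      have : (P W d : ℝ) ≤ 2 := by exact_mod_cast h5
      linarith
    · have h5 := hW3 d hz
      by_cases hz1 : P U d = 0
      · rw [hz1, zero_add] at h5
        rw [h5]; exact e2
      · by_cases hz2 : P V' d = 0
        · rw [hz2, add_zero] at h5
          rw [h5]; exact e1
        · exfalso
          have e3 : d ∈ distances U := mem_distances.mpr hz1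
          have e4 : d / c ∈ distances V := by
            rw [mem_distances, ← hP']
            exact hz2
          have := hcd _ e3 _ e4
          rw [mul_div_cancel₀ _ hc.ne'] at this
          exact lt_irrefl _ this

private theorem E1_pad {n r : ℕ} {T s : ℝ} (hs : 2 ≤ s) (h : E1_G n r T s) {N : ℕ}
    (hN : n ≤ N) : E1_G N r T s := by
  obtain ⟨U, D, hU, hD, h1, h2⟩ := h
  obtain ⟨U', hU', h3⟩ := pad U (hU.trans_le hN)
  refine ⟨U', D, hU', hD, fun d hd => ?_, fun d hd => ?_⟩
  · have : (P U d : ℝ) ≤ P U' d := by exact_mod_cast (h3 d).1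
    exact (h1 d hd).trans this
  · have : (P U' d : ℝ) ≤ max (P U d : ℝ) 2 := by exact_mod_cast (h3 d).2
    exact this.trans (max_le (h2 d hd) hs)

private theorem E1_sum {κ : Type} [DecidableEq κ] {T s : ℝ} (hT : 0 < T) (hs : 2 ≤ s)
    (n r : κ → ℕ) (h : ∀ i, E1_G (n i) (r i) T s) (F : Finset κ) :
    E1_G (∑ i ∈ F, n i) (∑ i ∈ F, r i) T s := by
  induction F using Finset.induction_on with
  | empty => exact E1_zero hs
  | insert i F hi ih =>
    rw [Finset.sum_insert hi, Finset.sum_insert hi]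
    exact E1_add hT hs (h i) ih

private theorem E1_le_M {n r : ℕ} {T s : ℝ} (h : E1_G n r T s) (hr : 1 ≤ r) (hT : 0 < T)
    (hs : 0 ≤ s) : (T - s) / 2 ≤ M r n := by
  obtain ⟨U, D, hU, hD, h1, h2⟩ := h
  have e1 : ⌈T / 2⌉₊ ≤ fr U r := by
    apply fr_ge U r _ hr (Nat.one_le_ceil_iff.2 (by positivity)) D hD
    intro d hd
    have := h1 d hd
    rw [P_even] at this
    apply Nat.ceil_le.2
    push_cast at this
    linarith
  have e2 : fr U (r + 1) ≤ ⌊s / 2⌋₊ := by
    apply fr_le U r _ D hD.le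
    intro d hd
    have := h2 d hd
    rw [P_even] at this
    apply Nat.le_floor
    push_cast at this
    linarith
  have h3 := le_M (r := r) U hU
  have h4 : (fr U r : ℝ) ≤ M r n + fr U (r + 1) := by
    have : fr U r ≤ M r n + fr U (r + 1) := by omega
    exact_mod_cast this
  have h5 : T / 2 ≤ fr U r := (Nat.le_ceil _).trans (by exact_mod_cast e1)
  have h6 : (fr U (r + 1) : ℝ) ≤ s / 2 := by
    refine le_trans ?_ (Nat.floor_le (by positivity : 0 ≤ s / 2))
    exact_mod_cast e2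
  linarith

/-- copies of one block -/
private theorem E1_copies {U : Finset Plane} {r : ℕ} {θ G A τ : ℝ} (hθ0 : 0 < θ) (hθ1 : θ ≤ 1)
    (hG : 0 < G) (hB : Blk U r θ G A) (hτ : 4 ≤ τ) (hA : A ≤ θ * τ / 2) :
    ∃ n : ℕ, (n : ℝ) ≤ 2 * τ / G ∧ E1_G n r τ ((1 - θ / 2) * τ) := by
  classical
  obtain ⟨S, a, b, hS, h1, h2, h3, h4, h5, h6⟩ := hB
  have hτ0 : 0 < τ := by linarith
  set m : ℕ := ⌈τ / a⌉₊ with hm
  have hm1 : τ ≤ m * a := by
    have := Nat.le_ceil (τ / a)
    rwa [div_le_iff₀ h5] at this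
  have hm2 : (m : ℝ) * a ≤ τ + a := by
    have := (Nat.ceil_lt_add_one (by positivity : 0 ≤ τ / a)).le
    calc (m : ℝ) * a ≤ (τ / a + 1) * a := by gcongr
      _ = τ + a := by field_simp
  obtain ⟨V, hV, hVP⟩ := family3 (Finset.univ : Finset (Fin m)) (fun _ => U)
  rw [Finset.sum_const, Finset.card_univ, Fintype.card_fin, smul_eq_mul] at hV
  have hVP' : ∀ d, (m : ℝ) * P U d ≤ P V d ∧ (P V d : ℝ) ≤ max ((m : ℝ) * P U d) 2 := by
    intro d
    have h7 := hVP d
    rw [Finset.sum_const, Finset.card_univ, Fintype.card_fin, smul_eq_mul] at h7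
    exact ⟨by exact_mod_cast h7.1, by exact_mod_cast h7.2⟩
  have hm0 : (0 : ℝ) ≤ m := Nat.cast_nonneg _
  have hAτ : A ≤ τ / 2 := by nlinarith
  refine ⟨m * U.card, ?_, V, S, hV, hS, fun d hd => ?_, fun d hd => ?_⟩
  · rw [le_div_iff₀ hG]
    push_cast
    calc (m : ℝ) * U.card * G = m * (G * U.card) := by ring
      _ ≤ m * a := by gcongr
      _ ≤ 2 * τ := by linarith
  · refine le_trans ?_ (hVP' d).1
    refine hm1.trans ?_
    have := h1 d hd
    gcongr
  · refine (hVP' d).2.trans (max_le ?_ ?_)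
    · have h7 : (P U d : ℝ) ≤ (1 - θ) * a := (h2 d hd).trans h3
      calc (m : ℝ) * P U d ≤ m * ((1 - θ) * a) := by gcongr
        _ = (1 - θ) * (m * a) := by ring
        _ ≤ (1 - θ) * (τ + a) := by
          have : 0 ≤ 1 - θ := by linarith
          gcongr
        _ ≤ (1 - θ) * (τ + θ * τ / 2) := by
          have : 0 ≤ 1 - θ := by linarith
          have : a ≤ θ * τ / 2 := h6.trans hA
          gcongr
        _ ≤ (1 - θ / 2) * τ := by
          have : 0 ≤ θ ^ 2 * τ := by positivity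
          nlinarith
    · nlinarith

theorem thm_E1 : St_E1 := by
  classical
  intro k n U s θ G A hk hs hθ0 hθ1 hG hB hA h8
  have hk0 : (0 : ℝ) < k := by exact_mod_cast hk
  set τ : ℝ := n * G / (2 * k) with hτ
  have hτ4 : 4 ≤ τ := by
    rw [hτ, le_div_iff₀ (by positivity)]
    linarith
  have hAτ : A ≤ θ * τ / 2 := by
    have e : θ * τ / 2 = θ * n * G / (4 * k) := by rw [hτ]; field_simp; ring
    rw [e, le_div_iff₀ (by positivity)]
    linarith
  choose m hm1 hm2 using fun i => E1_copies hθ0 hθ1 hG (hB i) hτ4 hAτ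
  have hs2 : 2 ≤ (1 - θ / 2) * τ := by nlinarith
  have hsum := E1_sum (by linarith) hs2 m s hm2 Finset.univ
  have hcard : ∑ i, m i ≤ n := by
    have h1 : ((∑ i, m i : ℕ) : ℝ) ≤ n := by
      push_cast
      calc ∑ i, (m i : ℝ) ≤ ∑ _i : Fin k, 2 * τ / G := Finset.sum_le_sum fun i _ => hm1 i
        _ = k * (2 * τ / G) := by
          rw [Finset.sum_const, Finset.card_univ, Fintype.card_fin, nsmul_eq_mul]
        _ = n := by rw [hτ]; field_simp
    exact_mod_cast h1
  have hM := E1_le_M (E1_pad hs2 hsum hcard) hs (by linarith) (by linarith)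
  refine le_trans (le_of_eq ?_) hM
  rw [hτ]
  field_simp
  ring

end Pool.Agent.RNK
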