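import Pool.Agent.RNK.StA

set_option autoImplicit false

/-!
# RNK [E2]: greedy decomposition of the rank
-/

namespace Pool.Agent.RNK

open Pool.Agent.Helper53.Generic

private lemma E2_log (D r r' : ℕ) (hD : 1 ≤ D) (hr' : r' < r) (h : r ≤ 4 * D * r') :
    1 + 4 * (D : ℝ) * Real.log ((r - r' : ℕ) : ℝ) ≤ 4 * D * Real.log r := by
  have hD0 : (0 : ℝ) < D := by exact_mod_cast hD
  have hr0 : (0 : ℝ) < r := by exact_mod_cast (by omega : 0 < r)
  have hsub : (0 : ℝ) < ((r - r' : ℕ) : ℝ) := by exact_mod_cast (by omega : 0 < r - r')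
  have h1 : ((r - r' : ℕ) : ℝ) ≤ r * (1 - 1 / (4 * D)) := by
    rw [Nat.cast_sub hr'.le]
    have h2 : (r : ℝ) ≤ 4 * D * r' := by exact_mod_cast h
    have h3 : (r : ℝ) * (1 / (4 * D)) ≤ r' := by
      rw [mul_one_div, div_le_iff₀ (by positivity)]
      linarith
    linarith
  have h4 : 0 < 1 - 1 / (4 * (D : ℝ)) := by
    by_contra hcon
    have : (r : ℝ) * (1 - 1 / (4 * D)) ≤ 0 := mul_nonpos_of_nonneg_of_nonpos hr0.le (not_lt.1 hcon)
    linarith
  have h5 : Real.log ((r - r' : ℕ) : ℝ) ≤ Real.log r + Real.log (1 - 1 / (4 * D)) := by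
    rw [← Real.log_mul hr0.ne' h4.ne']
    exact Real.log_le_log hsub h1
  have h6 : Real.log (1 - 1 / (4 * (D : ℝ))) ≤ -(1 / (4 * D)) := by
    have := Real.log_le_sub_one_of_pos h4
    linarith
  have h7 : 4 * (D : ℝ) * Real.log ((r - r' : ℕ) : ℝ) ≤ 4 * D * (Real.log r - 1 / (4 * D)) :=
    mul_le_mul_of_nonneg_left (by linarith) (by positivity)
  have h8 : 4 * (D : ℝ) * (Real.log r - 1 / (4 * D)) = 4 * D * Real.log r - 1 := by
    field_simp
  linarith

theorem thm_E2 : St_E2 := by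
  intro D R θ G A hD hAv r
  have hD0 : (0 : ℝ) < D := by exact_mod_cast hD
  induction r using Nat.strong_induction_on with
  | _ r ih =>
    intro h1 hR
    have hlog : 0 ≤ Real.log r := Real.log_natCast_nonneg r
    by_cases hr : r < 2 * D
    · obtain ⟨U, r', ha, hb, hc⟩ := hAv 1 le_rfl (h1.trans hR)
      have hr1 : r' = 1 := by omega
      subst hr1
      refine ⟨r, h1, ?_, fun _ => U, fun _ => 1, by simp, fun _ => hc⟩
      have e1 : (r : ℝ) ≤ 2 * D := by exact_mod_cast hr.le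
      have e2 : 0 ≤ 4 * (D : ℝ) * (1 + Real.log r) := by positivity
      linarith
    · have hr2 : 2 * D ≤ r := not_lt.1 hr
      set r₀ := r / (2 * D) with hr₀
      have a1 : 1 ≤ r₀ := (Nat.one_le_div_iff (by omega)).2 hr2
      have a2 : 2 * D * r₀ ≤ r := Nat.mul_div_le r (2 * D)
      have a3 : r < 2 * D * (r₀ + 1) := Nat.lt_mul_div_succ r (by omega)
      have a4 : r₀ ≤ r := Nat.div_le_self _ _
      obtain ⟨U, r', ha, hb, hc⟩ := hAv r₀ a1 (a4.trans hR)
      have a5 : 2 * D * (r₀ - 1) + 2 * D = 2 * D * r₀ := by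
        obtain ⟨n, hn⟩ : ∃ n, r₀ = n + 1 := ⟨r₀ - 1, by omega⟩
        rw [hn, Nat.add_sub_cancel]
        ring
      have a6 : r' < r := by omega
      have a7 : r ≤ 4 * D * r' := by
        have b1 : 2 * D * (r₀ + 1) ≤ 2 * D * (2 * r₀) := Nat.mul_le_mul_left _ (by omega)
        have b2 : 2 * D * (2 * r₀) ≤ 2 * D * (2 * r') := Nat.mul_le_mul_left _ (by omega)
        have b3 : 2 * D * (2 * r') = 4 * D * r' := by ring
        omega
      obtain ⟨k, hk1, hk2, V, s, hs, hB⟩ := ih (r - r') (by omega) (by omega)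
        ((Nat.sub_le _ _).trans hR)
      refine ⟨k + 1, by omega, ?_, Fin.cons U V, Fin.cons r' s, ?_, ?_⟩
      · have c1 := E2_log D r r' hD a6 a7
        push_cast
        linarith
      · rw [Fin.sum_univ_succ]
        simp only [Fin.cons_zero, Fin.cons_succ]
        rw [hs]
        omega
      · intro i
        refine Fin.cases ?_ (fun j => ?_) i
        · simpa using hc
        · simpa using hB j

end Pool.Agent.RNK
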