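import Pool.Agent.RNK.StD

set_option autoImplicit false

namespace Pool.Agent.RNK

open IsDedekindDomain NumberField Pool.Agent.QCF Pool.Agent.UDT
open Pool.Agent.Helper53.Generic Pool.Agent.Helper60.Gap Filter

theorem E3_RF {P : ℕ} {T : Finset ℕ} {m : ℕ} {L : Type} [Field L] [NumberField L] (hP : 1 ≤ P)
    (hT : ∀ q ∈ T, q.Prime ∧ q % 4 = 1) (h1 : Module.finrank ℚ L = 2 ^ (m + 1))
    (h2 : ∀ w : InfinitePlace L, w.IsReal) (h3 : (discr L).natAbs ∣ P ^ 2 ^ m)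
    (h4 : ∀ q ∈ T, {w : HeightOneSpectrum (𝓞 L) | Ideal.absNorm w.asIdeal = q}.ncard =
      2 ^ (m + 1)) : RF P T (2 ^ (m + 1)) L where
  one_le := hP
  prm := hT
  pos := Nat.one_le_two_pow
  deg := h1
  real := h2
  disc := by
    have h5 := Nat.le_of_dvd (by positivity) h3
    calc (discr L).natAbs ^ 2 ≤ (P ^ 2 ^ m) ^ 2 := Nat.pow_le_pow_left h5 2
      _ = P ^ 2 ^ (m + 1) := by rw [← pow_mul, pow_succ]
  spl := h4

/-- the scale -/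
theorem E3_scale {c : ℝ} (hc : 2 ≤ c) (m₀ : ℕ) : ∀ᶠ n : ℕ in atTop, ∃ m : ℕ, m₀ ≤ m ∧
    c ^ 2 ^ (m + 1) ≤ (n : ℝ) ∧ (n : ℝ) < c ^ (2 * 2 ^ (m + 1)) := by
  have h1 : ∀ᶠ n : ℕ in atTop, c ^ 2 ^ (m₀ + 1) ≤ (n : ℝ) :=
    tendsto_natCast_atTop_atTop.eventually (eventually_ge_atTop _)
  filter_upwards [h1] with n hn
  classical
  have hb : ∀ m : ℕ, c ^ 2 ^ (m + 1) ≤ (n : ℝ) → m ≤ n := by
    intro m hm
    have h2 : (m : ℝ) ≤ c ^ 2 ^ (m + 1) := by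
      have h3 : m < 2 ^ 2 ^ (m + 1) := by
        calc m < 2 ^ m := Nat.lt_two_pow_self
          _ ≤ 2 ^ 2 ^ (m + 1) := Nat.pow_le_pow_right (by norm_num)
              (le_trans Nat.lt_two_pow_self.le (Nat.pow_le_pow_right (by norm_num) (by omega)))
      calc (m : ℝ) ≤ (2 : ℝ) ^ 2 ^ (m + 1) := by exact_mod_cast h3.le
        _ ≤ c ^ 2 ^ (m + 1) := pow_le_pow_left₀ (by norm_num) hc _
    exact_mod_cast h2.trans hm
  set m := Nat.findGreatest (fun m => c ^ 2 ^ (m + 1) ≤ (n : ℝ)) n with hm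
  have h2 : c ^ 2 ^ (m + 1) ≤ (n : ℝ) :=
    Nat.findGreatest_spec (P := fun m => c ^ 2 ^ (m + 1) ≤ (n : ℝ)) (hb m₀ hn) hn
  refine ⟨m, Nat.le_findGreatest (hb m₀ hn) hn, h2, ?_⟩
  by_contra hcon
  push Not at hcon
  have h3 : c ^ 2 ^ (m + 1 + 1) ≤ (n : ℝ) := by
    rw [pow_succ 2 (m + 1), mul_comm]
    exact hcon
  have h4 := Nat.le_findGreatest (P := fun m => c ^ 2 ^ (m + 1) ≤ (n : ℝ)) (hb (m + 1) h3) h3
  omega

/-- logarithms are small -/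
theorem E3_log {κ : ℝ} (hκ : 0 < κ) : ∀ᶠ n : ℕ in atTop,
    32 * (16 * Real.log n + 8 * Real.log n ^ 2) ≤ (n : ℝ) ^ κ := by
  have h1 := (isLittleO_log_rpow_atTop hκ).def (c := 1 / 1024) (by norm_num)
  have h2 := (isLittleO_log_rpow_atTop (r := κ / 2) (by positivity)).def (c := 1 / 32)
    (by norm_num)
  have h3 := tendsto_natCast_atTop_atTop (R := ℝ) |>.eventually h1
  have h4 := tendsto_natCast_atTop_atTop (R := ℝ) |>.eventually h2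
  filter_upwards [h3, h4, eventually_ge_atTop 1] with n h5 h6 h7
  have hn : (1 : ℝ) ≤ n := by exact_mod_cast h7
  have hl : 0 ≤ Real.log n := Real.log_nonneg hn
  have hp : 0 < (n : ℝ) ^ κ := by positivity
  have hp2 : 0 < (n : ℝ) ^ (κ / 2) := by positivity
  rw [Real.norm_of_nonneg hl, Real.norm_of_nonneg hp.le] at h5
  rw [Real.norm_of_nonneg hl, Real.norm_of_nonneg hp2.le] at h6
  have h8 : Real.log n ^ 2 ≤ 1 / 1024 * (n : ℝ) ^ κ := by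
    calc Real.log n ^ 2 ≤ (1 / 32 * (n : ℝ) ^ (κ / 2)) ^ 2 := pow_le_pow_left₀ hl h6 2
      _ = 1 / 1024 * (n : ℝ) ^ κ := by
          rw [mul_pow, ← Real.rpow_natCast ((n : ℝ) ^ (κ / 2)), ← Real.rpow_mul (by positivity)]
          norm_num
  nlinarith

/-- the powers -/
theorem E3_core {ε C ρ₁ x c : ℝ} {D : ℕ} (hε : 0 < ε) (hε2 : ε ≤ 1 / 16) (hC : 1 ≤ C)
    (hρ₁ : 1 ≤ ρ₁) (hc : 2 ≤ c) (hCc : C ≤ c ^ ε) (hρc : ρ₁ ^ 2 ≤ c) (hD : 1 ≤ D)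
    (h1 : c ^ D ≤ x) (h2 : x < c ^ (2 * D)) :
    ρ₁ ≤ x ^ ((1 - 6 * ε) / D) ∧ x ^ ((1 - 6 * ε) / D) ≤ c ^ 2 ∧
    x ^ (1 - 11 * ε) ≤ ((x ^ ((1 - 6 * ε) / D)) ^ (1 - 4 * ε) / C) ^ D ∧
    (C * (x ^ ((1 - 6 * ε) / D)) ^ (1 + 4 * ε)) ^ D ≤ x ^ (1 - ε) := by
  have hc0 : 0 < c := by linarith
  have hc1 : 1 ≤ c := by linarith
  have hx1 : 1 ≤ x := (one_le_pow₀ hc1).trans h1
  have hx0 : 0 < x := by linarith
  have hD0 : (0 : ℝ) < D := by exact_mod_cast hD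
  have hCD : C ^ D ≤ x ^ ε := by
    calc C ^ D ≤ (c ^ ε) ^ D := pow_le_pow_left₀ (by linarith) hCc D
      _ = (c ^ D) ^ ε := by
          rw [← Real.rpow_natCast, ← Real.rpow_mul hc0.le, mul_comm, Real.rpow_mul hc0.le,
            Real.rpow_natCast]
      _ ≤ x ^ ε := Real.rpow_le_rpow (by positivity) h1 hε.le
  have hpow : ∀ a : ℝ, ((x ^ ((1 - 6 * ε) / D)) ^ a) ^ D = x ^ ((1 - 6 * ε) * a) := by
    intro a
    rw [← Real.rpow_mul hx0.le, ← Real.rpow_natCast, ← Real.rpow_mul hx0.le]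
    congr 1
    field_simp
  have hCD0 : 0 < C ^ D := by positivity
  refine ⟨?_, ?_, ?_, ?_⟩
  · calc ρ₁ = (ρ₁ ^ 2) ^ (1 / 2 : ℝ) := by
          rw [← Real.rpow_natCast, ← Real.rpow_mul (by linarith)]
          norm_num
      _ ≤ c ^ (1 / 2 : ℝ) := Real.rpow_le_rpow (by positivity) hρc (by norm_num)
      _ ≤ c ^ (1 - 6 * ε) := Real.rpow_le_rpow_of_exponent_le hc1 (by linarith)
      _ = (c ^ D) ^ ((1 - 6 * ε) / D) := by
          rw [← Real.rpow_natCast, ← Real.rpow_mul hc0.le]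
          congr 1
          field_simp
      _ ≤ x ^ ((1 - 6 * ε) / D) :=
          Real.rpow_le_rpow (by positivity) h1 (div_nonneg (by linarith) hD0.le)
  · calc x ^ ((1 - 6 * ε) / D) ≤ x ^ (1 / (D : ℝ)) := by
          apply Real.rpow_le_rpow_of_exponent_le hx1
          gcongr
          linarith
      _ ≤ (c ^ (2 * D)) ^ (1 / (D : ℝ)) :=
          Real.rpow_le_rpow hx0.le h2.le (by positivity)
      _ = c ^ 2 := by
          rw [← Real.rpow_natCast, ← Real.rpow_mul hc0.le, ← Real.rpow_natCast c 2]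
          congr 1
          push_cast
          field_simp
  · rw [div_pow, hpow, le_div_iff₀ hCD0]
    calc x ^ (1 - 11 * ε) * C ^ D ≤ x ^ (1 - 11 * ε) * x ^ ε := by gcongr
      _ = x ^ (1 - 11 * ε + ε) := by rw [Real.rpow_add hx0]
      _ ≤ x ^ ((1 - 6 * ε) * (1 - 4 * ε)) := by
          apply Real.rpow_le_rpow_of_exponent_le hx1
          nlinarith
  · rw [mul_pow, hpow]
    calc C ^ D * x ^ ((1 - 6 * ε) * (1 + 4 * ε)) ≤ x ^ ε * x ^ ((1 - 6 * ε) * (1 + 4 * ε)) := by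
          gcongr
      _ = x ^ (ε + (1 - 6 * ε) * (1 + 4 * ε)) := by rw [Real.rpow_add hx0]
      _ ≤ x ^ (1 - ε) := by
          apply Real.rpow_le_rpow_of_exponent_le hx1
          nlinarith

/-- the gain -/
theorem E3_gain {x c : ℝ} {D : ℕ} (hc : 2 ≤ c) (hx : 1 ≤ x) (h2 : x < c ^ (2 * (2 * D))) :
    x ^ (Real.log 2 / (4 * Real.log c)) ≤ 2 ^ D := by
  have hc0 : 0 < c := by linarith
  have hlc : 0 < Real.log c := Real.log_pos (by linarith)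
  have hl2 : 0 < Real.log 2 := Real.log_pos (by norm_num)
  have h3 : Real.log x < 4 * D * Real.log c := by
    have h4 := Real.log_lt_log (by linarith) h2
    rw [Real.log_pow] at h4
    push_cast at h4
    linarith
  rw [Real.rpow_def_of_pos (by linarith), ← Real.rpow_natCast,
    Real.rpow_def_of_pos (by norm_num : (0 : ℝ) < 2)]
  apply Real.exp_le_exp.mpr
  rw [← mul_div_assoc, div_le_iff₀ (by positivity)]
  nlinarith

theorem thm_E3 : St_E3 := by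
  intro hD1 hE1 hE2 η hη
  obtain ⟨P, P₂, T, hP, -, -, hT, hlam, -, htow⟩ := st_T14 2560
  set ε : ℝ := min (η / 11) (1 / 16) with hεdef
  have hε : 0 < ε := lt_min (by positivity) (by norm_num)
  have hε16 : ε ≤ 1 / 16 := min_le_right _ _
  have hεη : 11 * ε ≤ η := by
    have := min_le_left (η / 11) (1 / 16 : ℝ)
    linarith
  obtain ⟨C, ρ₁, hC, hρ₁, hD⟩ := hD1 P T hlam hP (fun l hl => (hT l hl).1.one_le) ε hε hε16
  set c₀ : ℝ := max (C ^ (1 / ε)) (max (ρ₁ ^ 2) 2) with hc₀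
  have hc2 : 2 ≤ c₀ := (le_max_right _ _).trans (le_max_right _ _)
  have hcρ : ρ₁ ^ 2 ≤ c₀ := (le_max_left _ _).trans (le_max_right _ _)
  have hcC : C ≤ c₀ ^ ε := by
    calc C = (C ^ (1 / ε)) ^ ε := by
          rw [← Real.rpow_mul (by linarith), one_div_mul_cancel hε.ne', Real.rpow_one]
      _ ≤ c₀ ^ ε := Real.rpow_le_rpow (by positivity) (le_max_left _ _) hε.le
  have hρc : ρ₁ ≤ c₀ ^ 2 := by nlinarith
  obtain ⟨m₀, hm₀⟩ := hD (c₀ ^ 2) hρc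
  have hlc : 0 < Real.log c₀ := Real.log_pos (by linarith)
  have hl2 : 0 < Real.log 2 := Real.log_pos (by norm_num)
  set δ : ℝ := Real.log 2 / (8 * Real.log c₀) with hδdef
  have hδ : 0 < δ := by positivity
  have hδ2 : Real.log 2 / (4 * Real.log c₀) = 2 * δ := by
    rw [hδdef]
    field_simp
    norm_num
  set κ : ℝ := min ε δ with hκdef
  have hκ : 0 < κ := lt_min hε hδ
  obtain ⟨n₀, hn₀⟩ := Filter.eventually_atTop.mp
    (((E3_scale hc2 m₀).and (E3_log hκ)).and (eventually_ge_atTop 3))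
  refine ⟨δ, hδ, n₀, ?_⟩
  intro n hn r hr hrn
  obtain ⟨⟨⟨m, hm, hcm, hcm2⟩, hlog⟩, hn3⟩ := hn₀ n hn
  obtain ⟨L, iF, iN, hL1, hL2, hL3, hL4⟩ := htow P (Or.inl rfl) m
  have hRF := E3_RF hP hT hL1 hL2 hL3 hL4
  have hx3 : (3 : ℝ) ≤ n := by exact_mod_cast hn3
  have hx1 : (1 : ℝ) ≤ n := by linarith
  have hx0 : (0 : ℝ) < n := by linarith
  have hDpos : 1 ≤ 2 ^ (m + 1) := Nat.one_le_two_pow
  obtain ⟨hk1, hk2, hk3, hk4⟩ := E3_core (D := 2 ^ (m + 1)) hε hε16 hC hρ₁ hc2 hcC hcρ hDpos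
    hcm hcm2
  set ρ : ℝ := (n : ℝ) ^ ((1 - 6 * ε) / ((2 ^ (m + 1) : ℕ) : ℝ)) with hρ
  have hr1 : (r : ℝ) ≤ (ρ ^ (1 - 4 * ε) / C) ^ 2 ^ (m + 1) := by
    refine hrn.trans (le_trans ?_ hk3)
    exact Real.rpow_le_rpow_of_exponent_le hx1 (by linarith)
  have hAv := hm₀ m L hm hRF ρ hk1 hk2 r hr1
  obtain ⟨k, hk, hkb, U, s, hs, hblk⟩ := hE2 _ _ _ _ _ hDpos hAv r hr le_rfl
  -- sizes
  have hlx : 1 ≤ Real.log n := by
    rw [Real.le_log_iff_exp_le hx0]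
    have := Real.exp_one_lt_d9
    linarith
  have hDx : (((2 ^ (m + 1) : ℕ) : ℝ)) ≤ 2 * Real.log n := by
    have h5 : (2 : ℝ) ^ 2 ^ (m + 1) ≤ n := (pow_le_pow_left₀ (by norm_num) hc2 _).trans hcm
    have h6 := Real.log_le_log (by positivity) h5
    rw [Real.log_pow] at h6
    have h7 : (1 : ℝ) / 2 ≤ Real.log 2 := by
      have := Real.log_two_gt_d9
      linarith
    have h8 : (0 : ℝ) ≤ ((2 ^ (m + 1) : ℕ) : ℝ) := by positivity
    nlinarith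
  have hrx : Real.log r ≤ Real.log n := by
    apply Real.log_le_log (by exact_mod_cast hr)
    refine hrn.trans ?_
    calc (n : ℝ) ^ (1 - η) ≤ (n : ℝ) ^ (1 : ℝ) :=
          Real.rpow_le_rpow_of_exponent_le hx1 (by linarith)
      _ = n := Real.rpow_one _
  have hkx : (k : ℝ) ≤ 12 * Real.log n + 8 * Real.log n ^ 2 := by
    have h5 : (0 : ℝ) ≤ Real.log r := Real.log_natCast_nonneg r
    have h6 : (0 : ℝ) ≤ ((2 ^ (m + 1) : ℕ) : ℝ) := by positivity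
    calc (k : ℝ) ≤ 2 * ((2 ^ (m + 1) : ℕ) : ℝ) +
          4 * ((2 ^ (m + 1) : ℕ) : ℝ) * (1 + Real.log r) := hkb
      _ ≤ 2 * (2 * Real.log n) + 4 * (2 * Real.log n) * (1 + Real.log n) := by gcongr
      _ = 12 * Real.log n + 8 * Real.log n ^ 2 := by ring
  have hk32 : 32 * (k : ℝ) ≤ (n : ℝ) ^ κ := by
    refine le_trans ?_ hlog
    linarith
  have hκε : (n : ℝ) ^ κ ≤ (n : ℝ) ^ ε :=
    Real.rpow_le_rpow_of_exponent_le hx1 (min_le_left _ _)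
  have hκδ : (n : ℝ) ^ κ ≤ (n : ℝ) ^ δ :=
    Real.rpow_le_rpow_of_exponent_le hx1 (min_le_right _ _)
  have hε1 : (n : ℝ) ^ ε ≤ n := by
    calc (n : ℝ) ^ ε ≤ (n : ℝ) ^ (1 : ℝ) :=
          Real.rpow_le_rpow_of_exponent_le hx1 (by linarith)
      _ = n := Real.rpow_one _
  have hk0 : (1 : ℝ) ≤ k := by exact_mod_cast hk
  have hθG : ((1 : ℝ) / 2) ^ 2 ^ m * 2 ^ 2 ^ (m + 1) = 2 ^ 2 ^ m := by
    have h5 : (2 : ℕ) ^ (m + 1) = 2 ^ m + 2 ^ m := by ring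
    rw [h5, pow_add, ← mul_assoc, ← mul_pow]
    norm_num
  have hG1 : (1 : ℝ) ≤ 2 ^ 2 ^ m := one_le_pow₀ (by norm_num)
  have hA : 4 * (k : ℝ) * (C * ρ ^ (1 + 4 * ε)) ^ 2 ^ (m + 1) ≤ n := by
    calc 4 * (k : ℝ) * (C * ρ ^ (1 + 4 * ε)) ^ 2 ^ (m + 1) ≤ (n : ℝ) ^ ε * (n : ℝ) ^ (1 - ε) := by
          have h6 : 4 * (k : ℝ) ≤ (n : ℝ) ^ ε := by linarith
          gcongr
      _ = n := by
          rw [← Real.rpow_add hx0]
          norm_num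
  have h1 : 4 * (k : ℝ) * (C * ρ ^ (1 + 4 * ε)) ^ 2 ^ (m + 1) ≤
      (1 / 2) ^ 2 ^ m * n * 2 ^ 2 ^ (m + 1) := by
    refine hA.trans ?_
    calc (n : ℝ) = 1 * n := by ring
      _ ≤ 2 ^ 2 ^ m * n := by gcongr
      _ = (1 / 2) ^ 2 ^ m * n * 2 ^ 2 ^ (m + 1) := by rw [← hθG]; ring
  have h2 : 8 * (k : ℝ) ≤ n * 2 ^ 2 ^ (m + 1) := by
    calc 8 * (k : ℝ) ≤ n * 1 := by linarith
      _ ≤ n * 2 ^ 2 ^ (m + 1) := by
          gcongr
          exact one_le_pow₀ (by norm_num)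
  have hE := hE1 k n U s ((1 / 2) ^ 2 ^ m) (2 ^ 2 ^ (m + 1))
    ((C * ρ ^ (1 + 4 * ε)) ^ 2 ^ (m + 1)) hk (by rw [hs]; exact hr) (by positivity)
    (pow_le_one₀ (by norm_num) (by norm_num)) (by positivity) hblk h1 h2
  rw [hs] at hE
  refine le_trans ?_ hE
  have hgain : (n : ℝ) ^ (2 * δ) ≤ 2 ^ 2 ^ m := by
    rw [← hδ2]
    apply E3_gain hc2 hx1
    have h5 : (2 : ℕ) * (2 * 2 ^ m) = 2 * 2 ^ (m + 1) := by ring
    rw [h5]
    exact hcm2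
  rw [le_div_iff₀ (by positivity)]
  calc (n : ℝ) ^ (1 + δ) * (8 * k) ≤ (n : ℝ) ^ (1 + δ) * (n : ℝ) ^ δ := by
        gcongr
        linarith
    _ = n * (n : ℝ) ^ (2 * δ) := by
        rw [← Real.rpow_add hx0]
        nth_rewrite 2 [← Real.rpow_one (n : ℝ)]
        rw [← Real.rpow_add hx0]
        congr 1
        ring
    _ ≤ n * 2 ^ 2 ^ m := by gcongr
    _ = (1 / 2) ^ 2 ^ m * n * 2 ^ 2 ^ (m + 1) := by rw [← hθG]; ring

end Pool.Agent.RNK
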