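import Pool.Agent.RNK.StN

set_option autoImplicit false

/-!
# RNK [G1]: many small integers (Blichfeldt)
-/

namespace Pool.Agent.RNK

open NumberField NumberField.mixedEmbedding MeasureTheory Module Pool.Agent.QCF Pool.Agent.UDT
open scoped NNReal ENNReal

namespace G1x

/-- Blichfeldt's theorem with multiplicity. -/
theorem blich {E G : Type} [MeasurableSpace E] [AddCommGroup E] [AddGroup G] [Countable G]
    [AddAction G E] [MeasurableConstVAdd G E] [MeasurableSpace G] (μ : Measure E) [VAddInvariantMeasure G E μ] (F S : Set E)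
    (hF : IsAddFundamentalDomain G F μ) (hS : MeasurableSet S) (N : ℕ) (h : N * μ F < μ S) :
    ∃ (x : E) (A : Finset G), N + 1 ≤ A.card ∧ ∀ g ∈ A, g +ᵥ x ∈ S := by
  classical
  by_contra hc
  have hc' : ∀ (x : E) (A : Finset G), (∀ g ∈ A, g +ᵥ x ∈ S) → A.card ≤ N := by
    intro x A hA
    by_contra h1
    exact hc ⟨x, A, by omega, hA⟩
  have h1 : μ S = ∑' g : G, ∫⁻ x in F, S.indicator 1 (g +ᵥ x) ∂μ := by
    rw [← hF.lintegral_eq_tsum'' (S.indicator 1), lintegral_indicator_one hS]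
  have h2 : ∑' g : G, ∫⁻ x in F, S.indicator 1 (g +ᵥ x) ∂μ =
      ∫⁻ x in F, ∑' g : G, S.indicator (1 : E → ℝ≥0∞) (g +ᵥ x) ∂μ := by
    rw [lintegral_tsum]
    intro g
    exact ((measurable_one.indicator hS).comp (measurable_const_vadd g)).aemeasurable
  have h3 : ∀ x, ∑' g : G, S.indicator (1 : E → ℝ≥0∞) (g +ᵥ x) ≤ N := by
    intro x
    rw [ENNReal.tsum_eq_iSup_sum]
    refine iSup_le fun s => ?_
    have h4 : ∑ g ∈ s, S.indicator (1 : E → ℝ≥0∞) (g +ᵥ x) =
        ((s.filter fun g => g +ᵥ x ∈ S).card : ℝ≥0∞) := by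
      rw [Finset.card_filter, Nat.cast_sum]
      refine Finset.sum_congr rfl fun g _ => ?_
      by_cases hg : g +ᵥ x ∈ S
      · simp [hg]
      · simp [hg]
    rw [h4]
    exact_mod_cast hc' x _ fun g hg => (Finset.mem_filter.mp hg).2
  have h5 : μ S ≤ N * μ F := by
    rw [h1, h2]
    calc ∫⁻ x in F, ∑' g : G, S.indicator (1 : E → ℝ≥0∞) (g +ᵥ x) ∂μ
        ≤ ∫⁻ _ in F, (N : ℝ≥0∞) ∂μ := lintegral_mono fun x => h3 x
      _ = N * μ F := by rw [lintegral_const, Measure.restrict_apply_univ]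
  exact absurd h (not_lt.mpr h5)

open scoped Classical in
/-- Many integers in a box. -/
theorem many (K : Type) [Field K] [NumberField K] (f : InfinitePlace K → ℝ≥0) (N : ℕ)
    (h : N * volume (ZSpan.fundamentalDomain (latticeBasis K)) < volume (convexBodyLT K f)) :
    ∃ X : Finset (𝓞 K), N + 1 ≤ X.card ∧ ∀ x ∈ X, ∀ w : InfinitePlace K, w (x : K) < 2 * f w := by
  have hF := ZSpan.isAddFundamentalDomain' (latticeBasis K) volume
  have : Countable (Submodule.span ℤ (Set.range (latticeBasis K))).toAddSubgroup := by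
    change Countable (Submodule.span ℤ (Set.range (latticeBasis K)))
    infer_instance
  have hS : MeasurableSet (convexBodyLT K f) := by
    refine IsOpen.measurableSet (IsOpen.prod ?_ ?_)
    · exact isOpen_set_pi Set.finite_univ fun _ _ => Metric.isOpen_ball
    · exact isOpen_set_pi Set.finite_univ fun _ _ => Metric.isOpen_ball
  obtain ⟨x, A, hA, hxA⟩ := blich volume _ _ hF hS N h
  have hne : A.Nonempty := Finset.card_pos.mp (by omega)
  obtain ⟨g₀, hg₀⟩ := hne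
  have hex : ∀ g : (Submodule.span ℤ (Set.range (latticeBasis K))).toAddSubgroup, ∃ r : 𝓞 K,
      mixedEmbedding K (r : K) = (g : mixedSpace K) := by
    intro g
    have hg := g.2
    rw [Submodule.mem_toAddSubgroup, mem_span_latticeBasis] at hg
    obtain ⟨r, hr⟩ := hg
    exact ⟨r, hr⟩
  choose φ hφ using hex
  have hinj : Function.Injective fun g => φ g - φ g₀ := by
    intro g g' hgg
    have h1 : φ g = φ g' := by simpa using hgg
    apply Subtype.ext
    rw [← hφ g, ← hφ g', h1]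
  refine ⟨A.image fun g => φ g - φ g₀, ?_, ?_⟩
  · rw [Finset.card_image_of_injective _ hinj]
    exact hA
  · intro z hz w
    obtain ⟨g, hg, rfl⟩ := Finset.mem_image.mp hz
    have h1 := hxA g hg
    have h2 := hxA g₀ hg₀
    have h3 : mixedEmbedding K ((φ g - φ g₀ : 𝓞 K) : K) ∈ convexBodyLT K fun w => 2 * f w := by
      have h4 : mixedEmbedding K ((φ g - φ g₀ : 𝓞 K) : K) = (g +ᵥ x) - (g₀ +ᵥ x) := by
        have h5 : ((φ g - φ g₀ : 𝓞 K) : K) = (φ g : K) - (φ g₀ : K) := by simp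
        rw [h5, map_sub, hφ, hφ]
        show (g : mixedSpace K) - (g₀ : mixedSpace K) = ((g : mixedSpace K) + x) - ((g₀ : mixedSpace K) + x)
        abel
      rw [h4]
      simp only [convexBodyLT, Set.mem_prod, Set.mem_pi, Set.mem_univ, Metric.mem_ball,
        dist_zero_right, forall_true_left] at h1 h2 ⊢
      constructor
      · intro w
        have e1 := h1.1 w
        have e2 := h2.1 w
        calc ‖((g +ᵥ x) - (g₀ +ᵥ x)).1 w‖ = ‖(g +ᵥ x).1 w - (g₀ +ᵥ x).1 w‖ := rfl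
          _ ≤ ‖(g +ᵥ x).1 w‖ + ‖(g₀ +ᵥ x).1 w‖ := norm_sub_le _ _
          _ < f w + f w := add_lt_add e1 e2
          _ = _ := by push_cast; ring
      · intro w
        have e1 := h1.2 w
        have e2 := h2.2 w
        calc ‖((g +ᵥ x) - (g₀ +ᵥ x)).2 w‖ = ‖(g +ᵥ x).2 w - (g₀ +ᵥ x).2 w‖ := rfl
          _ ≤ ‖(g +ᵥ x).2 w‖ + ‖(g₀ +ᵥ x).2 w‖ := norm_sub_le _ _
          _ < f w + f w := add_lt_add e1 e2
          _ = _ := by push_cast; ring
    have h6 := (convexBodyLT_mem K _).mp h3 w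
    simpa using h6

theorem sqrt_eq (K : Type) [Field K] [NumberField K] :
    ((NNReal.sqrt ‖discr K‖₊ : ℝ≥0) : ℝ≥0∞) = ENNReal.ofReal √((discr K).natAbs : ℝ) := by
  rw [ENNReal.ofReal]
  congr 1
  apply NNReal.eq
  rw [Real.coe_toNNReal _ (Real.sqrt_nonneg _), Real.coe_sqrt, coe_nnnorm,
    Int.norm_eq_abs, Nat.cast_natAbs]
  norm_cast

/-- choice of the number `N` -/
theorem ceil_lt {t : ℝ} (ht : 0 < t) : ∃ N : ℕ, (N : ℝ) < t ∧ t ≤ ((N + 1 : ℕ) : ℝ) := by
  refine ⟨⌈t⌉₊ - 1, ?_, ?_⟩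
  · have h1 : 0 < ⌈t⌉₊ := Nat.ceil_pos.mpr ht
    have h2 := Nat.ceil_lt_add_one ht.le
    rw [Nat.cast_sub (by omega)]
    push_cast
    linarith
  · have h1 : 0 < ⌈t⌉₊ := Nat.ceil_pos.mpr ht
    have h2 := Nat.le_ceil t
    rwa [Nat.sub_add_cancel h1]

open scoped Classical in
/-- Totally real fields. -/
theorem real_part (L : Type) [Field L] [NumberField L] (hr : ∀ w : InfinitePlace L, w.IsReal)
    (P D : ℕ) (hP : 1 ≤ P) (hD : finrank ℚ L = D) (hd : (discr L).natAbs ^ 2 ≤ P ^ D)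
    (B : ℝ) (hB : 0 < B) : ∃ X : Finset (𝓞 L), (∀ x ∈ X, ∀ τ : L →+* ℝ, |τ (x : L)| ≤ B) ∧
    (B / P) ^ D ≤ X.card := by
  have : IsTotallyReal L := ⟨hr⟩
  have hP' : (1 : ℝ) ≤ P := by exact_mod_cast hP
  have hC := IsTotallyReal.nrComplexPlaces_eq_zero L
  have hR : InfinitePlace.nrRealPlaces L = D := by rw [← IsTotallyReal.finrank, hD]
  have hcard : Fintype.card (InfinitePlace L) = D := by
    have h1 := InfinitePlace.card_eq_nrRealPlaces_add_nrComplexPlaces L
    rw [hC, hR, add_zero] at h1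
    exact h1
  obtain ⟨N, hN1, hN2⟩ := ceil_lt (t := (B / P) ^ D) (by positivity)
  obtain ⟨b, hb⟩ : ∃ b : ℝ≥0, (b : ℝ) = B / 2 := ⟨⟨B / 2, by positivity⟩, rfl⟩
  set f : InfinitePlace L → ℝ≥0 := fun _ => b with hf
  have hvol : volume (convexBodyLT L f) = ENNReal.ofReal (B ^ D) := by
    rw [convexBodyLT_volume]
    have h1 : (∏ w : InfinitePlace L, f w ^ w.mult : ℝ≥0) = b ^ D := by
      have h2 : ∀ w : InfinitePlace L, f w ^ w.mult = b := by
        intro w
        rw [InfinitePlace.mult, if_pos (hr w), pow_one]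
      rw [Finset.prod_congr rfl fun w _ => h2 w, Finset.prod_const, Finset.card_univ, hcard]
    rw [h1, convexBodyLTFactor, hR, hC, pow_zero, mul_one]
    rw [← ENNReal.coe_mul, ENNReal.ofReal]
    congr 1
    apply NNReal.eq
    rw [Real.coe_toNNReal _ (by positivity)]
    push_cast
    rw [← mul_pow, hb]
    congr 1
    ring
  have hdisc : √((discr L).natAbs : ℝ) ≤ (P : ℝ) ^ D := by
    rw [Real.sqrt_le_left (by positivity)]
    have h1 : ((discr L).natAbs : ℝ) ^ 2 ≤ (P : ℝ) ^ D := by exact_mod_cast hd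
    have h2 : (1 : ℝ) ≤ (P : ℝ) ^ D := one_le_pow₀ hP'
    have h3 : ((discr L).natAbs : ℝ) ≤ (P : ℝ) ^ D := by
      by_contra h4
      push Not at h4
      nlinarith
    nlinarith
  have hlt : N * volume (ZSpan.fundamentalDomain (latticeBasis L)) < volume (convexBodyLT L f) := by
    rw [hvol, volume_fundamentalDomain_latticeBasis, hC, pow_zero, one_mul, sqrt_eq,
      ← ENNReal.ofReal_natCast, ← ENNReal.ofReal_mul (by positivity),
      ENNReal.ofReal_lt_ofReal_iff (by positivity)]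
    calc (N : ℝ) * √((discr L).natAbs : ℝ) ≤ N * (P : ℝ) ^ D :=
          mul_le_mul_of_nonneg_left hdisc (by positivity)
      _ < (B / P) ^ D * (P : ℝ) ^ D := mul_lt_mul_of_pos_right hN1 (by positivity)
      _ = B ^ D := by rw [← mul_pow, div_mul_cancel₀ _ (by positivity)]
  obtain ⟨X, hX, hXw⟩ := many L f N hlt
  refine ⟨X, ?_, ?_⟩
  · intro x hx τ
    have h1 := hXw x hx (InfinitePlace.mk ((Complex.ofRealHom).comp τ))
    have h2 : ‖((Complex.ofRealHom).comp τ) (x : L)‖ < 2 * (B / 2) := hb ▸ h1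
    have h3 : ‖((Complex.ofRealHom).comp τ) (x : L)‖ = |τ (x : L)| := by
      show ‖((τ (x : L) : ℝ) : ℂ)‖ = _
      rw [Complex.norm_real, Real.norm_eq_abs]
    rw [h3] at h2
    linarith
  · exact hN2.trans (by exact_mod_cast hX)

open scoped Classical in
/-- Totally complex fields. -/
theorem complex_part (K : Type) [Field K] [NumberField K] (hc : ∀ w : InfinitePlace K, w.IsComplex)
    (P D : ℕ) (hP : 1 ≤ P) (hD : finrank ℚ K = 2 * D)
    (hd : (discr K).natAbs ≤ 4 ^ D * P ^ D)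
    (Y : ℝ) (hY : 0 < Y) : ∃ X : Finset (𝓞 K), (∀ x ∈ X, ∀ φ : K →+* ℂ, ‖φ (x : K)‖ ^ 2 ≤ Y) ∧
    (Y / (2 * P)) ^ D ≤ X.card := by
  have : IsTotallyComplex K := ⟨hc⟩
  have hP' : (1 : ℝ) ≤ P := by exact_mod_cast hP
  have hR := IsTotallyComplex.nrRealPlaces_eq_zero K
  have hC : InfinitePlace.nrComplexPlaces K = D := by
    have := IsTotallyComplex.finrank K
    omega
  have hcard : Fintype.card (InfinitePlace K) = D := by
    have h1 := InfinitePlace.card_eq_nrRealPlaces_add_nrComplexPlaces K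
    rw [hC, hR, zero_add] at h1
    exact h1
  obtain ⟨N, hN1, hN2⟩ := ceil_lt (t := (Y / (2 * P)) ^ D) (by positivity)
  obtain ⟨b, hb⟩ : ∃ b : ℝ≥0, (b : ℝ) = √Y / 2 := ⟨⟨√Y / 2, by positivity⟩, rfl⟩
  obtain ⟨b', hb'⟩ : ∃ b : ℝ≥0, (b : ℝ) = Y / 4 := ⟨⟨Y / 4, by positivity⟩, rfl⟩
  set f : InfinitePlace K → ℝ≥0 := fun _ => b with hf
  have hvol : volume (convexBodyLT K f) = ENNReal.ofReal ((Real.pi * (Y / 4)) ^ D) := by
    rw [convexBodyLT_volume]
    have h1 : (∏ w : InfinitePlace K, f w ^ w.mult : ℝ≥0) = b' ^ D := by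
      have h2 : ∀ w : InfinitePlace K, f w ^ w.mult = b' := by
        intro w
        rw [InfinitePlace.mult, if_neg (InfinitePlace.not_isReal_iff_isComplex.2 (hc w))]
        apply NNReal.eq
        rw [NNReal.coe_pow, hb']
        show (b : ℝ) ^ 2 = Y / 4
        rw [hb, div_pow, Real.sq_sqrt hY.le]
        norm_num
      rw [Finset.prod_congr rfl fun w _ => h2 w, Finset.prod_const, Finset.card_univ, hcard]
    rw [h1, convexBodyLTFactor, hR, hC, pow_zero, one_mul]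
    rw [← ENNReal.coe_mul, ENNReal.ofReal]
    congr 1
    apply NNReal.eq
    rw [Real.coe_toNNReal _ (by positivity)]
    push_cast
    rw [← mul_pow, hb']
    rfl
  have hdisc : √((discr K).natAbs : ℝ) ≤ 2 ^ D * (P : ℝ) ^ D := by
    rw [Real.sqrt_le_left (by positivity)]
    have h1 : ((discr K).natAbs : ℝ) ≤ 4 ^ D * (P : ℝ) ^ D := by exact_mod_cast hd
    have h2 : (1 : ℝ) ≤ (P : ℝ) ^ D := one_le_pow₀ hP'
    have h3 : ((2 : ℝ) ^ D * (P : ℝ) ^ D) ^ 2 = 4 ^ D * ((P : ℝ) ^ D * (P : ℝ) ^ D) := by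
      rw [mul_pow, ← pow_mul, mul_comm D 2, pow_mul]
      norm_num
      ring
    rw [h3]
    refine h1.trans (mul_le_mul_of_nonneg_left ?_ (by positivity))
    nlinarith
  have hlt : N * volume (ZSpan.fundamentalDomain (latticeBasis K)) < volume (convexBodyLT K f) := by
    have h5 : (2 : ℝ≥0∞)⁻¹ ^ D = ENNReal.ofReal ((2⁻¹ : ℝ) ^ D) := by
      rw [ENNReal.ofReal_pow (by norm_num), ENNReal.ofReal_inv_of_pos (by norm_num)]
      norm_num
    rw [hvol, volume_fundamentalDomain_latticeBasis, hC, sqrt_eq, h5,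
      ← ENNReal.ofReal_mul (by positivity),
      ← ENNReal.ofReal_natCast, ← ENNReal.ofReal_mul (by positivity),
      ENNReal.ofReal_lt_ofReal_iff (by positivity)]
    calc (N : ℝ) * ((2⁻¹ : ℝ) ^ D * √((discr K).natAbs : ℝ))
        ≤ N * ((2⁻¹ : ℝ) ^ D * (2 ^ D * (P : ℝ) ^ D)) := by gcongr
      _ = N * (P : ℝ) ^ D := by
          rw [← mul_assoc ((2⁻¹ : ℝ) ^ D), ← mul_pow]
          norm_num
      _ < (Y / (2 * P)) ^ D * (P : ℝ) ^ D := mul_lt_mul_of_pos_right hN1 (by positivity)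
      _ = (Y / 2) ^ D := by
          rw [← mul_pow]
          congr 1
          have : (P : ℝ) ≠ 0 := by positivity
          field_simp
      _ ≤ (Real.pi * (Y / 4)) ^ D := by
          have := Real.two_le_pi
          gcongr
          nlinarith
  obtain ⟨X, hX, hXw⟩ := many K f N hlt
  refine ⟨X, ?_, ?_⟩
  · intro x hx φ
    have h1 := hXw x hx (InfinitePlace.mk φ)
    have h2 : ‖φ (x : K)‖ < 2 * (√Y / 2) := hb ▸ h1
    have h3 : ‖φ (x : K)‖ ≤ √Y := by linarith
    calc ‖φ (x : K)‖ ^ 2 ≤ √Y ^ 2 := by gcongr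
      _ = Y := Real.sq_sqrt hY.le
  · exact hN2.trans (by exact_mod_cast hX)

end G1x

theorem thm_G1 : St_G1 := by
  intro P D T L K _ _ _ _ _ q hRF
  obtain ⟨h2, hc, hd, -⟩ := thm_M1 L K q hRF.real
  refine ⟨fun B hB => G1x.real_part L hRF.real P D hRF.one_le hRF.deg hRF.disc B hB,
    fun Y hY => G1x.complex_part K hc P D hRF.one_le ?_ ?_ Y hY⟩
  · rw [← Module.finrank_mul_finrank ℚ L K, h2, hRF.deg, mul_comm]
  · rw [hRF.deg] at hd
    exact hd.trans (Nat.mul_le_mul_left _ hRF.disc)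

end Pool.Agent.RNK
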