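import Pool.Agent.RNK.StN

/-!
# RNK, module G2: small integers whose traces separate
-/

set_option autoImplicit false

namespace Pool.Agent.RNK

open IsDedekindDomain NumberField Pool.Agent.QCF Pool.Agent.UDT
open scoped Pointwise

/-- a set of integers which are pairwise incongruent modulo `m` has at most `m ^ d` elements, `d` the
dimension of the space which they span -/
private theorem G2_card {L : Type} [Field L] [NumberField L] (S : Set (𝓞 L)) (X : Finset (𝓞 L))
    (hX : ∀ x ∈ X, x ∈ S) (m : ℕ) (hm : 1 ≤ m)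
    (hinj : ∀ x ∈ X, ∀ y ∈ X, ∀ z : 𝓞 L, x - y = (m : 𝓞 L) * z → z = 0) :
    X.card ≤ m ^ Module.finrank ℚ (Submodule.span ℚ ((fun x : 𝓞 L => (x : L)) '' S)) := by
  classical
  obtain ⟨Λ, hΛ⟩ : ∃ Λ : Submodule ℤ (𝓞 L), Λ = Submodule.span ℤ S := ⟨_, rfl⟩
  have hfree : Module.Free ℤ Λ := inferInstance
  have hfin : Module.Finite ℤ Λ := inferInstance
  let b := Module.finBasis ℤ Λ
  set V := Submodule.span ℚ ((fun x : 𝓞 L => (x : L)) '' S) with hV
  have hmem : ∀ x : 𝓞 L, x ∈ Λ → (x : L) ∈ V := by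
    intro x hx
    rw [hΛ] at hx
    induction hx using Submodule.span_induction with
    | mem x hx => exact Submodule.subset_span ⟨x, hx, rfl⟩
    | zero => simp
    | add x y _ _ h1 h2 =>
      have : ((x + y : 𝓞 L) : L) = (x : L) + (y : L) := map_add (algebraMap (𝓞 L) L) x y
      rw [this]
      exact V.add_mem h1 h2
    | smul a x _ h1 =>
      have : ((a • x : 𝓞 L) : L) = (a : ℚ) • (x : L) := by
        have h2 : ((a • x : 𝓞 L) : L) = a • (x : L) := map_zsmul (algebraMap (𝓞 L) L) a x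
        rw [h2]
        simp [Algebra.smul_def]
      rw [this]
      exact V.smul_mem _ h1
  have hle : Module.finrank ℤ Λ ≤ Module.finrank ℚ V := by
    have h0 : LinearIndependent ℤ (fun i => (b i : 𝓞 L)) :=
      b.linearIndependent.map' Λ.subtype (Submodule.ker_subtype Λ)
    have h1 : LinearIndependent ℤ (fun i => ((b i : 𝓞 L) : L)) := by
      refine h0.map' (Algebra.linearMap (𝓞 L) L |>.restrictScalars ℤ) ?_
      rw [LinearMap.ker_eq_bot]
      exact RingOfIntegers.coe_injective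
    have h2 : LinearIndependent ℚ (fun i => ((b i : 𝓞 L) : L)) :=
      (LinearIndependent.iff_fractionRing ℤ ℚ).mp h1
    have h3 : ∀ i, ((b i : 𝓞 L) : L) ∈ V := fun i => hmem _ (b i).2
    have h4 : LinearIndependent ℚ (fun i => (⟨((b i : 𝓞 L) : L), h3 i⟩ : V)) :=
      LinearIndependent.of_comp V.subtype h2
    have h5 := h4.fintype_card_le_finrank
    simpa using h5
  have hNZ : NeZero m := ⟨by omega⟩
  let f : 𝓞 L → (Fin (Module.finrank ℤ Λ) → ZMod m) := fun x =>
    if h : x ∈ Λ then fun i => ((b.repr ⟨x, h⟩ i : ℤ) : ZMod m) else 0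
  have hXΛ : ∀ x ∈ X, x ∈ Λ := by
    intro x hx
    rw [hΛ]
    exact Submodule.subset_span (hX x hx)
  have hfinj : Set.InjOn f (X : Set (𝓞 L)) := by
    intro x hx y hy hxy
    have hxΛ := hXΛ x hx
    have hyΛ := hXΛ y hy
    have h1 : ∀ i, (m : ℤ) ∣ b.repr ⟨x, hxΛ⟩ i - b.repr ⟨y, hyΛ⟩ i := by
      intro i
      have h2 := congrFun hxy i
      simp only [f, dif_pos hxΛ, dif_pos hyΛ] at h2
      rw [← ZMod.intCast_zmod_eq_zero_iff_dvd, Int.cast_sub, h2, sub_self]
    choose c hc using h1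
    have h3 : (⟨x, hxΛ⟩ : Λ) - ⟨y, hyΛ⟩ = (m : ℤ) • ∑ i, c i • b i := by
      rw [← b.sum_repr ⟨x, hxΛ⟩, ← b.sum_repr ⟨y, hyΛ⟩, ← Finset.sum_sub_distrib,
        Finset.smul_sum]
      apply Finset.sum_congr rfl
      intro i _
      rw [← sub_smul, hc i, mul_smul]
    have h4 : x - y = (m : 𝓞 L) * ((∑ i, c i • b i : Λ) : 𝓞 L) := by
      have h5 := congrArg (fun z : Λ => (z : 𝓞 L)) h3
      simp only [Submodule.coe_sub, Submodule.coe_smul] at h5
      rw [h5, zsmul_eq_mul]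
      norm_cast
    have h6 := hinj x hx y hy _ h4
    rw [h6, mul_zero, sub_eq_zero] at h4
    exact h4
  calc X.card ≤ (Finset.univ : Finset (Fin (Module.finrank ℤ Λ) → ZMod m)).card :=
        Finset.card_le_card_of_injOn f (fun _ _ => Finset.mem_coe.mpr (Finset.mem_univ _)) hfinj
    _ = m ^ Module.finrank ℤ Λ := by
        rw [Finset.card_univ, Fintype.card_fun, ZMod.card, Fintype.card_fin]
    _ ≤ m ^ Module.finrank ℚ V := Nat.pow_le_pow_right hm hle

/-- products of two elements of a subspace of more than half the dimension span everything -/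
private theorem G2_span {L : Type} [Field L] [NumberField L] (S : Set L)
    (h : Module.finrank ℚ L < 2 * Module.finrank ℚ (Submodule.span ℚ S)) :
    Submodule.span ℚ (S * S) = ⊤ := by
  set V := Submodule.span ℚ S with hV
  rw [← Submodule.span_mul_span]
  set W := V * V with hW
  by_contra hne
  have hB := traceForm_nondegenerate ℚ L
  have hlt : Module.finrank ℚ W < Module.finrank ℚ L := Submodule.finrank_lt hne
  have h1 := LinearMap.BilinForm.finrank_orthogonal hB W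
  have h2 : 0 < Module.finrank ℚ ((Algebra.traceForm ℚ L).orthogonal W) := by omega
  obtain ⟨c, hc⟩ := Module.finrank_pos_iff_exists_ne_zero.mp h2
  obtain ⟨c, hcW⟩ := c
  have hc0 : c ≠ 0 := fun h0 => hc (Subtype.ext h0)
  rw [LinearMap.BilinForm.mem_orthogonal_iff] at hcW
  have hinj : Function.Injective (LinearMap.mulLeft ℚ c) := by
    intro x y hxy
    exact mul_left_cancel₀ hc0 hxy
  have h3 : V.map (LinearMap.mulLeft ℚ c) ≤ (Algebra.traceForm ℚ L).orthogonal V := by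
    rintro _ ⟨v, hv, rfl⟩
    rw [LinearMap.BilinForm.mem_orthogonal_iff]
    intro w hw
    have h4 := hcW (w * v) (Submodule.mul_mem_mul hw hv)
    have h5 : Algebra.trace ℚ L (w * v * c) = 0 := h4
    show Algebra.trace ℚ L (w * (c * v)) = 0
    rw [← h5]
    congr 1
    ring
  have h5 : Module.finrank ℚ (V.map (LinearMap.mulLeft ℚ c)) = Module.finrank ℚ V :=
    (Submodule.equivMapOfInjective _ hinj V).finrank_eq.symm
  have h6 := Submodule.finrank_mono h3
  rw [h5, LinearMap.BilinForm.finrank_orthogonal hB V] at h6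
  have h7 : Module.finrank ℚ V ≤ Module.finrank ℚ L := Submodule.finrank_le V
  omega

private theorem G2_dim (P D d : ℕ) (hP : 1 ≤ P) (hD : 1 ≤ D)
    (h : (4 * P) ^ D ≤ (8 * P ^ 2 + 1) ^ d) : D < 2 * d := by
  by_contra hcon
  obtain ⟨e, rfl⟩ := Nat.exists_eq_add_of_le (not_lt.mp hcon)
  have hP2 : 1 ≤ P ^ 2 := Nat.one_le_pow _ _ hP
  rcases Nat.eq_zero_or_pos d with h0 | h0
  · subst h0
    rw [pow_zero] at h
    have : 1 < (4 * P) ^ (2 * 0 + e) := Nat.one_lt_pow (by omega) (by omega)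
    omega
  · have h1 : (8 * P ^ 2 + 1) ^ d < (16 * P ^ 2) ^ d :=
      Nat.pow_lt_pow_left (by omega) (by omega)
    have h2 : (4 * P) ^ (2 * d + e) = (16 * P ^ 2) ^ d * (4 * P) ^ e := by
      rw [pow_add, pow_mul]
      congr 2
      ring
    have h3 : 1 ≤ (4 * P) ^ e := Nat.one_le_pow _ _ (by omega)
    have h4 : (16 * P ^ 2) ^ d * 1 ≤ (16 * P ^ 2) ^ d * (4 * P) ^ e :=
      Nat.mul_le_mul_left _ h3
    omega

/-- [G2] -/
theorem thm_G2 (h0 : St_N0b) (h1 : St_G1) : St_G2 := by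
  intro P D T L K _ _ _ _ _ q hRF
  classical
  obtain ⟨n1, n2, -, n4, n5, -⟩ := h0 P D T L K q hRF
  obtain ⟨g1, -⟩ := h1 P D T L K q hRF
  have hP : 1 ≤ P := hRF.one_le
  have hD : 1 ≤ D := hRF.pos
  have hP1 : (1 : ℝ) ≤ (P : ℝ) := by exact_mod_cast hP
  have hP0 : (0 : ℝ) < (P : ℝ) := by linarith
  obtain ⟨X, hX, hXc⟩ := g1 (4 * (P : ℝ) ^ 2) (by positivity)
  -- the small integers
  obtain ⟨S, hS⟩ : ∃ S : Set (𝓞 L), S = {x : 𝓞 L | ∀ τ : L →+* ℝ, |τ (x : L)| ≤ 4 * (P : ℝ) ^ 2} :=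
    ⟨_, rfl⟩
  have hXS : ∀ x ∈ X, x ∈ S := fun x hx => by rw [hS]; exact hX x hx
  have hinj : ∀ x ∈ X, ∀ y ∈ X, ∀ z : 𝓞 L, x - y = ((8 * P ^ 2 + 1 : ℕ) : 𝓞 L) * z → z = 0 := by
    intro x hx y hy z hz
    by_contra hz0
    have h2 : |∏ τ : L →+* ℝ, τ ((x - y : 𝓞 L) : L)| ≤ (8 * (P : ℝ) ^ 2) ^ D := by
      rw [Finset.abs_prod, ← n1, ← Finset.card_univ, ← Finset.prod_const]
      apply Finset.prod_le_prod
      · intro τ _; exact abs_nonneg _
      · intro τ _
        have e : τ ((x - y : 𝓞 L) : L) = τ (x : L) - τ (y : L) := by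
          rw [← map_sub τ]; rfl
        rw [e]
        have a1 := hX x hx τ
        have a2 := hX y hy τ
        calc |τ (x : L) - τ (y : L)| ≤ |τ (x : L)| + |τ (y : L)| := abs_sub _ _
          _ ≤ _ := by linarith
    have h3 : |∏ τ : L →+* ℝ, τ ((x - y : 𝓞 L) : L)| =
        (8 * (P : ℝ) ^ 2 + 1) ^ D * (Ideal.absNorm (Ideal.span {z}) : ℝ) := by
      rw [n4 z, hz]
      have e : ∀ τ : L →+* ℝ, τ ((((8 * P ^ 2 + 1 : ℕ) : 𝓞 L) * z : 𝓞 L) : L) =
          (8 * (P : ℝ) ^ 2 + 1) * τ (z : L) := by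
        intro τ
        have e1 : ((((8 * P ^ 2 + 1 : ℕ) : 𝓞 L) * z : 𝓞 L) : L) =
            ((8 * P ^ 2 + 1 : ℕ) : L) * (z : L) := by
          have := map_mul (algebraMap (𝓞 L) L) ((8 * P ^ 2 + 1 : ℕ) : 𝓞 L) z
          rw [map_natCast] at this
          exact this
        rw [e1, map_mul, map_natCast]
        push_cast
        ring
      simp only [e]
      rw [Finset.prod_mul_distrib, Finset.prod_const, Finset.card_univ, n1, abs_mul,
        abs_of_nonneg (by positivity : (0 : ℝ) ≤ (8 * (P : ℝ) ^ 2 + 1) ^ D)]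
    have h4 : (1 : ℝ) ≤ (Ideal.absNorm (Ideal.span {z}) : ℝ) := by exact_mod_cast n5 z hz0
    rw [h3] at h2
    have h5 : (8 * (P : ℝ) ^ 2) ^ D < (8 * (P : ℝ) ^ 2 + 1) ^ D :=
      pow_lt_pow_left₀ (by linarith) (by positivity) (by omega)
    have h6 : (8 * (P : ℝ) ^ 2 + 1) ^ D * 1 ≤
        (8 * (P : ℝ) ^ 2 + 1) ^ D * (Ideal.absNorm (Ideal.span {z}) : ℝ) :=
      mul_le_mul_of_nonneg_left h4 (by positivity)
    linarith
  have hcard := G2_card S X hXS (8 * P ^ 2 + 1) (by omega) hinj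
  have hdim : D < 2 * Module.finrank ℚ (Submodule.span ℚ ((fun x : 𝓞 L => (x : L)) '' S)) := by
    apply G2_dim P D _ hP hD
    have e : (4 * (P : ℝ) ^ 2 / P) = 4 * P := by field_simp
    rw [e] at hXc
    have h2 : (4 * P) ^ D ≤ X.card := by exact_mod_cast hXc
    exact h2.trans hcard
  have hfr : Module.finrank ℚ L = D := hRF.deg
  rw [← hfr] at hdim
  have hspan := G2_span _ hdim
  obtain ⟨f, hf1, hf2, -⟩ := Submodule.exists_fun_fin_finrank_span_eq ℚ
    (((fun x : 𝓞 L => (x : L)) '' S) * ((fun x : 𝓞 L => (x : L)) '' S))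
  have hnD : Module.finrank ℚ (Submodule.span ℚ
      (((fun x : 𝓞 L => (x : L)) '' S) * ((fun x : 𝓞 L => (x : L)) '' S))) = D := by
    rw [hspan, finrank_top, hfr]
  have hω : ∀ i, ∃ w : 𝓞 L, (w : L) = f i ∧ ∀ τ : L →+* ℝ, |τ (w : L)| ≤ 16 * (P : ℝ) ^ 4 := by
    intro i
    obtain ⟨_, ⟨x, hx, rfl⟩, _, ⟨y, hy, rfl⟩, hxy⟩ := Set.mem_mul.mp (hf1 i)
    refine ⟨x * y, ?_, ?_⟩
    · rw [← hxy]
      exact map_mul (algebraMap (𝓞 L) L) x y
    · intro τ
      have e : τ ((x * y : 𝓞 L) : L) = τ (x : L) * τ (y : L) := by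
        rw [← map_mul τ]; rfl
      rw [hS] at hx hy
      rw [e, abs_mul]
      calc |τ (x : L)| * |τ (y : L)| ≤ (4 * (P : ℝ) ^ 2) * (4 * (P : ℝ) ^ 2) :=
            mul_le_mul (hx τ) (hy τ) (abs_nonneg _) (by positivity)
        _ = _ := by ring
  choose w hw1 hw2 using hω
  refine ⟨fun i => w (Fin.cast hnD.symm i), fun i τ => hw2 _ τ, ?_⟩
  intro x hx
  by_contra hcon
  push Not at hcon
  have h2 : ∀ i, Algebra.trace ℚ L ((w i : L) * (x : L)) = 0 := by
    intro i
    have h3 := hcon (Fin.cast hnD i)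
    have h4 : (Fin.cast hnD.symm (Fin.cast hnD i)) = i := by
      ext; simp
    rw [h4, n2] at h3
    exact_mod_cast h3
  have h3 : ∀ l : L, Algebra.trace ℚ L (l * (x : L)) = 0 := by
    intro l
    have hl : l ∈ Submodule.span ℚ (Set.range f) := by
      rw [hf2, hspan]; exact Submodule.mem_top
    induction hl using Submodule.span_induction with
    | mem l hl =>
      obtain ⟨i, rfl⟩ := hl
      rw [← hw1 i]
      exact h2 i
    | zero => simp
    | add a b _ _ ha hb => rw [add_mul, map_add, ha, hb, add_zero]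
    | smul a b _ hb => rw [smul_mul_assoc, map_smul, hb, smul_zero]
  have hB := traceForm_nondegenerate ℚ L
  have h4 : (x : L) = 0 := by
    apply hB.2
    intro l
    rw [Algebra.traceForm_apply]
    exact h3 l
  exact hx (RingOfIntegers.coe_injective (h4.trans (map_zero (algebraMap (𝓞 L) L)).symm))

end Pool.Agent.RNK
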