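import Pool.Agent.RNK.StN

set_option autoImplicit false

/-!
# RNK / G3: the lattices are of type `EL` (packing bound, classes modulo `2`)
-/

namespace Pool.Agent.RNK

open IsDedekindDomain NumberField Pool.Agent.QCF Pool.Agent.UDT

/-- classes modulo `m` in a free module with a finite basis -/
private theorem G3_cls {Λ : Type} [AddCommGroup Λ] [Module ℤ Λ] {ι : Type} [Fintype ι]
    (B : Module.Basis ι ℤ Λ) (m : ℕ) :
    ∃ c : Λ → (ι → ZMod m), ∀ y z, c y = c z ↔ ∃ u : Λ, y - z = m • u := by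
  refine ⟨fun y i => ((B.equivFun y i : ℤ) : ZMod m), fun y z => ?_⟩
  constructor
  · intro h
    have h1 : ∀ i, ∃ k : ℤ, B.equivFun y i - B.equivFun z i = (m : ℤ) * k := by
      intro i
      have h2 := congrFun h i
      exact (ZMod.intCast_eq_intCast_iff_dvd_sub _ _ _).1 h2.symm
    choose k hk using h1
    refine ⟨B.equivFun.symm k, ?_⟩
    apply B.equivFun.injective
    funext i
    rw [map_sub, map_nsmul, LinearEquiv.apply_symm_apply]
    show B.equivFun y i - B.equivFun z i = m • k i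
    rw [nsmul_eq_mul]
    exact hk i
  · rintro ⟨u, hu⟩
    funext i
    show ((B.equivFun y i : ℤ) : ZMod m) = ((B.equivFun z i : ℤ) : ZMod m)
    symm
    rw [ZMod.intCast_eq_intCast_iff_dvd_sub]
    refine ⟨B.equivFun u i, ?_⟩
    have h1 : B.equivFun (y - z) i = B.equivFun (m • u) i := congrArg (fun w => B.equivFun w i) hu
    rw [map_sub, map_nsmul] at h1
    have h2 : B.equivFun y i - B.equivFun z i = m • B.equivFun u i := h1
    rw [nsmul_eq_mul] at h2
    exact h2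

/-- a quadratic form with a lower bound on a free module of rank `2 D` -/
private theorem G3_EL {Λ : Type} [AddCommGroup Λ] [Module ℤ Λ] {ι : Type} [Fintype ι]
    (B : Module.Basis ι ℤ Λ) (D : ℕ) (hD : 1 ≤ D) (hι : Fintype.card ι = 2 * D) (h : Λ → ℝ)
    (h0 : ∀ y, 0 ≤ h y) (hpar : ∀ y z, h (y + z) + h (y - z) = 2 * h y + 2 * h z)
    (hmul : ∀ (m : ℕ) (y : Λ), h (m • y) = (m : ℝ) ^ 2 * h y)
    (hlow : ∀ y, y ≠ 0 → (D : ℝ) / 2 ≤ h y) : EL D h := by
  classical
  have hDR : (1 : ℝ) ≤ D := by exact_mod_cast hD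
  constructor
  · exact h0
  · intro y hy
    by_contra hc
    have h1 := hlow y hc
    rw [hy] at h1
    linarith
  · exact hpar
  · intro H hH
    set r : ℝ := Real.sqrt (8 * H) with hr
    have hr0 : 0 ≤ r := Real.sqrt_nonneg _
    have hr2 : r ^ 2 = 8 * H := Real.sq_sqrt (by linarith)
    set m : ℕ := ⌊r⌋₊ + 1 with hm
    have hm1 : r < m := by
      rw [hm]
      push_cast
      exact Nat.lt_floor_add_one r
    have hm2 : (m : ℝ) ≤ r + 1 := by
      rw [hm]
      push_cast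
      have := Nat.floor_le hr0
      linarith
    have hmp : 0 < m := Nat.succ_pos _
    have : NeZero m := ⟨hmp.ne'⟩
    obtain ⟨c, hc⟩ := G3_cls B m
    have hinj : Set.InjOn c {y | h y ≤ H * D} := by
      intro y hy z hz hyz
      obtain ⟨u, hu⟩ := (hc y z).1 hyz
      by_contra hne
      have hu0 : u ≠ 0 := by
        rintro rfl
        apply hne
        rw [smul_zero] at hu
        exact sub_eq_zero.1 hu
      have h1 := hlow u hu0
      have h2 := hpar y z
      have h3 := h0 (y + z)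
      rw [hu, hmul] at h2
      have h4 : h y ≤ H * D := hy
      have h5 : h z ≤ H * D := hz
      have h6 : (m : ℝ) ^ 2 > 8 * H := by
        rw [← hr2]
        nlinarith
      have h7 : (m : ℝ) ^ 2 * ((D : ℝ) / 2) ≤ (m : ℝ) ^ 2 * h u :=
        mul_le_mul_of_nonneg_left h1 (by positivity)
      have h8 : (m : ℝ) ^ 2 * ((D : ℝ) / 2) > 8 * H * ((D : ℝ) / 2) :=
        mul_lt_mul_of_pos_right h6 (by linarith)
      nlinarith
    have hfin : {y | h y ≤ H * D}.Finite :=
      Set.Finite.of_finite_image (Set.toFinite _) hinj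
    refine ⟨hfin, ?_⟩
    have hcard : {y | h y ≤ H * D}.ncard ≤ m ^ (2 * D) := by
      rw [← hinj.ncard_image]
      refine (Set.ncard_le_ncard (Set.subset_univ _) (Set.toFinite _)).trans ?_
      rw [Set.ncard_univ, Nat.card_eq_fintype_card, Fintype.card_fun, ZMod.card, hι]
    have hm3 : (m : ℝ) ^ 2 ≤ 16 * H + 2 := by
      have h1 : (0 : ℝ) ≤ m := Nat.cast_nonneg _
      have h2 : (m : ℝ) ^ 2 ≤ (r + 1) ^ 2 := pow_le_pow_left₀ h1 hm2 2
      nlinarith [sq_nonneg (r - 1)]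
    calc ({y | h y ≤ H * D}.ncard : ℝ) ≤ ((m ^ (2 * D) : ℕ) : ℝ) := by exact_mod_cast hcard
      _ = ((m : ℝ) ^ 2) ^ D := by rw [Nat.cast_pow, pow_mul]
      _ ≤ (16 * H + 2) ^ D := pow_le_pow_left₀ (by positivity) hm3 D
  · obtain ⟨c, hc⟩ := G3_cls B 2
    have hcard : Fintype.card (ι → ZMod 2) = 4 ^ D := by
      rw [Fintype.card_fun, ZMod.card, hι, pow_mul]
      norm_num
    refine ⟨fun y => Fintype.equivFinOfCardEq hcard (c y), fun y z => ?_⟩
    rw [← hc y z]
    exact (Fintype.equivFinOfCardEq hcard).injective.eq_iff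

theorem thm_G3 (ha : St_N0a) (hb : St_N0b) : St_G3 := by
  intro P D T L K _ _ _ _ _ q hRF s hs p hp
  obtain ⟨a1, -, a3, a4, a5, a6, -, -, -, a10, -, -⟩ := ha L K q
  obtain ⟨-, -, -, -, -, b6, -, -, -, b10, -, -, -, -⟩ := hb P D T L K q hRF
  obtain ⟨hsol, hTP⟩ := hp
  have hsol' : p.1 * bar q p.1 = Ideal.span {algebraMap (𝓞 L) (𝓞 K) p.2} := hsol
  -- `p.2 ≠ 0`
  have hD := hRF.pos
  have hDR : (1 : ℝ) ≤ D := by exact_mod_cast hD
  have hc0 : Fintype.card (L →+* ℝ) = D := (hb P D T L K q hRF).1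
  have hne : Nonempty (L →+* ℝ) := by
    rw [← Fintype.card_pos_iff, hc0]
    omega
  obtain ⟨τ₀⟩ := hne
  have hp2 : p.2 ≠ 0 := by
    intro h
    have h1 := hTP τ₀
    rw [h] at h1
    have h2 : ((0 : 𝓞 L) : L) = 0 := rfl
    rw [h2, map_zero] at h1
    exact lt_irrefl _ h1
  have hI : p.1 ≠ ⊥ := by
    intro h
    rw [h, Submodule.bot_mul] at hsol'
    have h1 : algebraMap (𝓞 L) (𝓞 K) p.2 = 0 := by
      rw [← Ideal.span_singleton_eq_bot]
      exact hsol'.symm
    apply hp2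
    exact (map_eq_zero_iff _ (FaithfulSMul.algebraMap_injective (𝓞 L) (𝓞 K))).1 h1
  -- the rank
  have hrk : Module.finrank ℚ K = 2 * D := by
    have h1 := (thm_M1 L K q hRF.real).1
    have h2 := Module.finrank_mul_finrank ℚ L K
    rw [h1, hRF.deg] at h2
    omega
  have hcardι : Fintype.card (Module.Free.ChooseBasisIndex ℤ (𝓞 K)) = 2 * D := by
    rw [← Module.finrank_eq_card_basis (RingOfIntegers.basis K), RingOfIntegers.rank, hrk]
  -- the quotients
  have hquot : ∀ z : 𝓞 K, z ∈ p.1 → z ≠ 0 → ∃ c : 𝓞 L, nm q z = p.2 * c ∧ TP c := by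
    intro z hz hz0
    have h1 := a10 p.1 z hz
    rw [hsol', Ideal.mem_span_singleton] at h1
    obtain ⟨c, hc⟩ := a6 _ _ h1
    refine ⟨c, hc, ?_⟩
    intro τ
    have h2 := b10 z hz0 τ
    have h3 := hTP τ
    rw [hc] at h2
    have h4 : ((p.2 * c : 𝓞 L) : L) = (p.2 : L) * (c : L) := rfl
    rw [h4, map_mul] at h2
    exact (pos_iff_pos_of_mul_pos h2).1 h3
  refine G3_EL ((Ideal.selfBasis (RingOfIntegers.basis K) p.1 hI)) D hD hcardι _ ?_ ?_ ?_ ?_
  · intro y
    unfold hh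
    refine Finset.sum_nonneg fun τ _ => ?_
    have h1 : 0 ≤ τ (nm q (y : 𝓞 K) : L) := by
      by_cases hy : (y : 𝓞 K) = 0
      · rw [(a3 _).2 hy]
        have h2 : ((0 : 𝓞 L) : L) = 0 := rfl
        rw [h2, map_zero]
      · exact (b10 _ hy τ).le
    have h2 : 0 ≤ τ s := by linarith [(hs τ).1]
    exact div_nonneg (mul_nonneg h2 h1) (hTP τ).le
  · intro y z
    unfold hh
    rw [← Finset.sum_add_distrib, Finset.mul_sum, Finset.mul_sum, ← Finset.sum_add_distrib]
    refine Finset.sum_congr rfl fun τ _ => ?_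
    have h1 : τ (nm q ((y + z : p.1) : 𝓞 K) : L) + τ (nm q ((y - z : p.1) : 𝓞 K) : L) =
        2 * τ (nm q (y : 𝓞 K) : L) + 2 * τ (nm q (z : 𝓞 K) : L) := by
      have h2 := a4 (y : 𝓞 K) (z : 𝓞 K)
      have h3 := congrArg (fun x : 𝓞 L => τ (x : L)) h2
      simp only [map_add, map_mul, map_ofNat] at h3
      exact h3
    rw [← add_div, ← mul_add, h1]
    ring
  · intro m y
    unfold hh
    rw [Finset.mul_sum]
    refine Finset.sum_congr rfl fun τ _ => ?_
    have h1 : ((m • y : p.1) : 𝓞 K) = algebraMap (𝓞 L) (𝓞 K) (m : 𝓞 L) * (y : 𝓞 K) := by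
      rw [map_natCast, ← nsmul_eq_mul]
      rfl
    have h2 : τ (nm q ((m • y : p.1) : 𝓞 K) : L) = (m : ℝ) ^ 2 * τ (nm q (y : 𝓞 K) : L) := by
      rw [h1, a1, a5]
      have h3 : (((m : 𝓞 L) ^ 2 * nm q (y : 𝓞 K) : 𝓞 L) : L) =
          ((m : L)) ^ 2 * (nm q (y : 𝓞 K) : L) := by
        simp
      rw [h3, map_mul, map_pow, map_natCast]
    rw [h2]
    ring
  · intro y hy
    have hy0 : (y : 𝓞 K) ≠ 0 := by
      intro h
      apply hy
      exact Subtype.ext h
    obtain ⟨c, hc, hcT⟩ := hquot y y.2 hy0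
    have h1 := b6 c hcT
    have h2 : ∀ τ : L →+* ℝ, (1 / 2) * τ (c : L) ≤ τ s * τ (nm q (y : 𝓞 K) : L) / τ (p.2 : L) := by
      intro τ
      rw [hc]
      have h4 : ((p.2 * c : 𝓞 L) : L) = (p.2 : L) * (c : L) := rfl
      have h5 := hTP τ
      have h6 := hcT τ
      rw [h4, map_mul]
      have h7 : τ s * (τ (p.2 : L) * τ (c : L)) / τ (p.2 : L) = τ s * τ (c : L) := by
        field_simp
      rw [h7]
      exact mul_le_mul_of_nonneg_right (hs τ).1 h6.le
    unfold hh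
    calc (D : ℝ) / 2 ≤ (1 / 2) * tR (c : L) := by linarith
      _ = ∑ τ : L →+* ℝ, (1 / 2) * τ (c : L) := by rw [tR, Finset.mul_sum]
      _ ≤ _ := Finset.sum_le_sum fun τ _ => h2 τ

end Pool.Agent.RNK
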