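import Pool.Agent.RNK.StN

set_option autoImplicit false

/-!
# RNK / StA: analysis, combinatorics, planar sets; statements with proofs

Library: `Pool/Agent/Helper60/Gap` (`f, fr, M, fr_ge, fr_le, le_M, family3, pad, exists_scaled,
exists_transfer, tail_bound`), `Pool/Agent/Helper53/Generic` (`P A d`: ordered pairs at distance `d`).
-/

namespace Pool.Agent.RNK

open NumberField Pool.Agent.QCF Pool.Agent.Helper53.Generic Pool.Agent.Helper60.Gap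

/-! ## Theta series -/

/-- [A1] Theta series.
PROOF. Write `Θ(a) = ∑' y, exp(-a h y)`. Summable: at most `(16(k+1)+2)^D` elements with
`k D < h ≤ (k+1) D`. Translation: `h y + h (y + 2v) = 2 h (y + v) + 2 h v` (`par` for `y + v, v`) and
the shift `y ↦ y + v`. Inequality: `Θ(a)^2 = ∑_{y,z} exp(-a(h y + h z))`, `(s,t) = (y+z, y-z)` is a
bijection onto the pairs with `c s = c t` (`cls`; injective since `2u = 0` gives `4 h u = 0`),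
`h y + h z = (h s + h t)/2`, so `Θ(a)^2 = ∑_k (∑_{c s = k} exp(-(a/2) h s))^2 ≥ 4^(-D) Θ(a/2)^2`
(Cauchy-Schwarz over `Fin (4^D)`). Bound for `a = 1/(2ρ)`: `∑_k (18 (k+1) ρ)^D exp(-k D/2)
≤ (18 ρ)^D (∑_k (k+1) exp(-k/2))^D`, and `∑ (k+1) x^k = (1-x)^(-2) < 6.5` for `x = exp(-1/2)`. -/
def St_A1 : Prop := ∀ (D : ℕ) (Λ : Type) [AddCommGroup Λ] (h : Λ → ℝ), 1 ≤ D → EL D h →
  (∀ a : ℝ, 0 < a → Summable (fun y => Real.exp (-(a * h y))) ∧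
    ∑' y, Real.exp (-(a / 2 * h y)) ≤ 2 ^ D * ∑' y, Real.exp (-(a * h y)) ∧
    ∀ v : Λ, ∑' y, Real.exp (-(a * h y)) * Real.exp (-(a * h (y + 2 • v))) =
      Real.exp (-(2 * a * h v)) * ∑' y, Real.exp (-(2 * a * h y))) ∧
  ∀ ρ : ℝ, 1 ≤ ρ → ∑' y, Real.exp (-(h y) / (2 * ρ)) ≤ (120 * ρ) ^ D

/-- [A2] Truncation.
PROOF. With `G y = exp(-h y/(4ρ))`: the full sum is `exp(-h v/(2ρ)) S` (A1, `a = 1/(4ρ)`); the lost
terms are at most `2 ∑_{h y > LρD} G y ≤ 2 exp(-L D/8) ∑' exp(-h y/(8ρ)) ≤ 2 exp(-L D/8) 4^D S`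
(`G y = exp(-h y/(8ρ))^2`; A1 twice). Last claim: A1 once. -/
def St_A2 : Prop := ∀ (D : ℕ) (Λ : Type) [AddCommGroup Λ] [DecidableEq Λ] (h : Λ → ℝ)
  (ρ Lc S : ℝ) (Y : Finset Λ), 1 ≤ D → EL D h → 1 ≤ ρ → 0 ≤ Lc →
  S = ∑' y, Real.exp (-(h y) / (2 * ρ)) → (∀ y, y ∈ Y ↔ h y ≤ Lc * ρ * D) →
  (∀ v : Λ, ∑ y ∈ Y.filter (fun y => y + 2 • v ∈ Y),
      Real.exp (-(h y) / (4 * ρ)) * Real.exp (-(h (y + 2 • v)) / (4 * ρ)) ≤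
        Real.exp (-(h v) / (2 * ρ)) * S ∧
    Real.exp (-(h v) / (2 * ρ)) * S - 2 * 4 ^ D * Real.exp (-(Lc * D / 8)) * S ≤
      ∑ y ∈ Y.filter (fun y => y + 2 • v ∈ Y),
        Real.exp (-(h y) / (4 * ρ)) * Real.exp (-(h (y + 2 • v)) / (4 * ρ))) ∧
  ∑ y ∈ Y, Real.exp (-(h y) / (4 * ρ)) ≤ 2 ^ D * S

/-! ## Sampling -/

/-- the deviation -/
noncomputable def dev (Δ N : ℝ) : ℝ := 2 * Δ * √(2 * N * Real.log (4 * N ^ 2 + 4))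

/-- [S1] Random subsets.
PROOF. Let `n = ∑ |X j|`, enumerate the pairs `(j, x)`, `x ∈ X j`, by `Fin n`; `k_(j,x) = ⌊m g⌋` for
large `m`; `ω : Fin n → Fin m`, `A j = {x ∈ X j | ω_(j,x) < k_(j,x)}`. The mean of `∑_j P (A j) d` is
`∑_j ∑_{(x,y)} (k_x/m)(k_y/m)`, within `2 n^2/m` of the sum with `g` (the two coordinates `x ≠ y` are
independent: count the `ω`). Changing one coordinate changes it by at most `2Δ`, so `tail_bound` with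
`V = 4 Δ^2 N` (for `F` and `-F`), at most `n^2` distances, and for the number of points
(`c = 1 ≤ 2Δ`): `(2 n^2 + 1) exp(-λ²/(2V)) < 1` for some `λ < dev Δ N` (at `λ = dev` the
exponential is `1/(4N^2+4)`), `m` large. For `d` not a distance of any `X j` everything is `0`. -/
def St_S1 : Prop := ∀ (κ : Type) [Fintype κ] [DecidableEq κ] (X : κ → Finset Plane)
  (g : κ → Plane → ℝ) (Δ N : ℝ), (∀ j x, 0 ≤ g j x ∧ g j x ≤ 1) → 1 ≤ Δ → 1 ≤ N →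
  (∀ j, ∀ x ∈ X j, ∀ d : ℝ, (((X j).filter (fun y => y ≠ x ∧ dist x y = d)).card : ℝ) ≤ Δ) →
  (∑ j, ((X j).card : ℝ)) ≤ N →
  ∃ A : κ → Finset Plane, (∀ j, A j ⊆ X j) ∧
    (∀ d : ℝ, |(∑ j, (P (A j) d : ℝ)) -
      ∑ j, ∑ e ∈ (X j).offDiag.filter (fun e => dist e.1 e.2 = d), g j e.1 * g j e.2| ≤ dev Δ N) ∧
    (∑ j, ((A j).card : ℝ)) ≤ ∑ j, ∑ x ∈ X j, g j x + dev Δ N

/-- [B1] Planar sets from a configuration.
PROOF. Put `S i = ∑' exp(-h i y/(2ρ))`, `α i = √(κ / S i) ≤ 1`, `Y i = {y | h i y ≤ Lc ρ D}` (finite,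
at most `(16 Lc ρ + 2)^D` elements). Index set `ι × Fin (4^D)`: `X (i,k)` = image in the plane
(isometry `ℂ ≃ Plane`) of `{y ∈ Y i | c i y = k}` under `pt i`, weight `g = α i exp(-h i y/(4ρ))`.
Pairs of a class: `y' = y + 2v`, `v ≠ 0`, distance `δ (lab v)`; for `y, y' ∈ Y i`:
`4 h v = h (2v) ≤ 2 h y + 2 h y' ≤ 4 Lc ρ D`, so `t (lab v) ≤ Lc ρ D`; the number of `v` with given
label `γ` is at most `W cnt γ ≤ W c`: `Δ = W c`. S1, and `family3` for the union `U`: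
`P U (δ γ)` is, up to `2`, `∑ P (A _) (δ γ)`; its main term is
`∑_i α_i² ∑_{v : lab v = γ} ∑_y exp(..) exp(..)`, between (A2) `κ W cnt γ (exp(-t γ/(2ρ)) - 2 4^D e^(..))`
and `κ W cnt γ exp(-t γ/(2ρ))` (`α_i² S_i = κ`, `sum_cnt`). (If `t γ > Lc ρ D` no pair has
label `γ` and the lower bound is negative.) Points: `∑ α_i ∑ exp(-h/(4ρ)) ≤ ∑ α_i 2^D S_i` and
`α_i S_i = √(κ S_i) ≤ √M₀ κ ≤ M₀ κ`. Distances which are no `δ γ`: at most `2`. -/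
def St_B1 : Prop := ∀ (D : ℕ) (ι Γ : Type) [Fintype ι] (C : Conf D ι Γ) (ρ Lc κ M₀ c N : ℝ),
  1 ≤ D → Nonempty ι → 1 ≤ ρ → 1 ≤ Lc → 0 < κ → 1 ≤ M₀ → 1 ≤ c → 1 ≤ C.W →
  (∀ i, κ ≤ ∑' y, Real.exp (-(C.h i y) / (2 * ρ)) ∧
    ∑' y, Real.exp (-(C.h i y) / (2 * ρ)) ≤ M₀ * κ) →
  (∀ γ, C.t γ ≤ Lc * ρ * D → (C.cnt γ : ℝ) ≤ c) →
  N = Fintype.card ι * (16 * (Lc * ρ) + 2) ^ D →
  ∃ U : Finset Plane, (U.card : ℝ) ≤ 2 ^ D * Fintype.card ι * M₀ * κ + dev (C.W * c) N ∧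
    (∀ γ, (P U (C.δ γ) : ℝ) ≤ κ * C.W * (C.cnt γ * Real.exp (-(C.t γ) / (2 * ρ))) +
      dev (C.W * c) N + 2) ∧
    (∀ γ, κ * C.W * (C.cnt γ * (Real.exp (-(C.t γ) / (2 * ρ)) -
      2 * 4 ^ D * Real.exp (-(Lc * D / 8)))) - dev (C.W * c) N ≤ P U (C.δ γ)) ∧
    ∀ d : ℝ, (∀ γ, d ≠ C.δ γ) → P U d ≤ 2

/-! ## No atoms, gaps -/

/-- [C1] No atoms.
PROOF. For `j : Fin D → {0..2J}` let `F_j x = c x + η ∑ j_i φ_i x` and `T_j` the `r`-th smallest value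
(`#{F_j < T_j} < r ≤ #{F_j ≤ T_j}`); if `|F_j - F_j'| ≤ u` everywhere then `|T_j - T_j'| ≤ u`. Let `j`
minimize `Ψ(j) = T_j + (η/8) ∑ (j_i - J)²` over the finite grid. Then `1 ≤ j_i ≤ 2J - 1`: if
`j_i ∈ {0, 2J}`, replace it by `J`: `T` changes by at most `η J B`, so `Ψ` changes by at most
`η J B - (η/8) J² < 0`. From `Ψ(j ± e_i) ≥ Ψ(j)` (add): `2 T_j - T_(j+e_i) - T_(j-e_i) ≤ η/4` for
all `i`. Suppose `#{F_j ≤ T_j + η/4} ≥ 2D(r-1) + 2`. Remove for each of the `2D` neighbours `j'` the at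
most `r - 1` elements with `F_j' < T_j'`: two elements `x ≠ y` are left, for both
`T_(j±e_i) ≤ F_j ± η φ_i ≤ T_j + η/4 ± η φ_i`, so `η φ_i x, η φ_i y` both lie in an interval of length
`2 T_j + η/2 - T_(j+e_i) - T_(j-e_i) ≤ 3η/4` for every `i`: `φ_i x = φ_i y`, contradiction. -/
def St_C1 : Prop := ∀ (D r J : ℕ) (Q : Type) [Fintype Q] (φ : Fin D → Q → ℤ)
  (c : Q → ℝ) (η B : ℝ), 1 ≤ r → r ≤ Fintype.card Q → 0 < η → 0 ≤ B →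
  (∀ i x, |(φ i x : ℝ)| ≤ B) → (∀ x y, x ≠ y → ∃ i, φ i x ≠ φ i y) → 8 * B < J →
  ∃ (j : Fin D → ℕ) (t : ℝ), (∀ i, j i ≤ 2 * J) ∧
    {x | c x + η * ∑ i, (j i : ℝ) * φ i x < t}.ncard < r ∧
    r ≤ {x | c x + η * ∑ i, (j i : ℝ) * φ i x ≤ t}.ncard ∧
    {x | c x + η * ∑ i, (j i : ℝ) * φ i x ≤ t + η / 4}.ncard ≤ 2 * D * (r - 1) + 1

/-- [C2] A gap.
PROOF. For each `m ∈ V` at most one value `η k - f m` (`k` an integer) lies in `[t, t + η/4]`; so `F`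
has at most `|V|` values there, `t = f_1 < ... < f_k`, `1 ≤ k ≤ |V|`; one of the `k` intervals
`[f_i, f_(i+1)]`, `f_(k+1) = t + η/4`, has length at least `η/(4|V|)`; `τ = f_i`. -/
def St_C2 : Prop := ∀ (Q : Type) [Fintype Q] (F : Q → ℝ) (k : Q → ℤ) (e : Q → ℕ) (f : ℕ → ℝ)
  (η t : ℝ) (V : Finset ℕ), 0 < η → (∀ x, e x ∈ V) → (∀ x, F x = η * k x - f (e x)) →
  (∃ x, F x = t) → ∃ τ, t ≤ τ ∧ τ ≤ t + η / 4 ∧ (∃ x, F x = τ) ∧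
    ∀ x, F x ≤ τ ∨ τ + η / (4 * V.card) ≤ F x

/-! ## From blocks to all ranks -/

/-- [E1] Union of blocks.
PROOF. `τ = n G/(2k)`, `m_i = ⌈τ/a_i⌉` copies of `U i`, scaled (`exists_scaled`) by factors `z_i > 0`
such that the distance sets for different `i` are disjoint (e.g. powers of a large number); generic
union (`family3`), padded to `n` points (`pad`). Points: `∑ m_i |U i| ≤ ∑ (τ/a_i + 1) a_i/G
≤ k (τ + A)/G ≤ n` (`A ≤ θ τ/2 ≤ τ`). For `d ∈ z_i S_i` (in total `∑ s_i` distances, `d > 0` because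
`P > 0`): multiplicity at least `m_i a_i ≥ τ`. For the other `d`: at most
`max_i m_i b_i ≤ (τ/a_i + 1)(1-θ) a_i ≤ (1-θ)(1+θ/2) τ ≤ (1 - θ/2) τ`, or `2 ≤ (1 - θ/2) τ`. `f = P/2`:
`fr_ge`, `fr_le`, `le_M`: the gap is at least `θ τ/4 = θ n G/(8k)`. -/
def St_E1 : Prop := ∀ (k n : ℕ) (U : Fin k → Finset Plane) (s : Fin k → ℕ) (θ G A : ℝ),
  1 ≤ k → 1 ≤ ∑ i, s i → 0 < θ → θ ≤ 1 → 0 < G → (∀ i, Blk (U i) (s i) θ G A) →
  4 * k * A ≤ θ * n * G → 8 * k ≤ n * G → θ * n * G / (8 * k) ≤ M (∑ i, s i) n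

/-- [E2] Greedy decomposition of the rank.
PROOF. Strong induction on `r`. If `r < 2D`: `r` unit blocks (`Av` for `r₀ = 1` gives `r' = 1`).
Otherwise `r₀ = r / (2D) ≥ 1`, `r₀ ≤ r' ≤ 2 D (r₀ - 1) + 1 ≤ r`, `r' ≥ r₀ ≥ r/(4D)`. If `r' = r` done,
otherwise induction for `r - r' ≤ r (1 - 1/(4D))`: `4 D log (r - r') ≤ 4 D log r - 1`. -/
def St_E2 : Prop := ∀ (D R : ℕ) (θ G A : ℝ), 1 ≤ D → Av D θ G A R → ∀ r : ℕ, 1 ≤ r → r ≤ R →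
  ∃ k : ℕ, 1 ≤ k ∧ (k : ℝ) ≤ 2 * D + 4 * D * (1 + Real.log r) ∧
    ∃ (U : Fin k → Finset Plane) (s : Fin k → ℕ), ∑ i, s i = r ∧ ∀ i, Blk (U i) (s i) θ G A

end Pool.Agent.RNK
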