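import Pool.Agent.RNK.StN
import Pool.Agent.RNK.StA

set_option autoImplicit false

/-!
# RNK / G4: comparison of theta series (helper74 for helper70)
-/

namespace Pool.Agent.RNK

open IsDedekindDomain NumberField Pool.Agent.QCF Pool.Agent.UDT

private theorem G4_iter (D : ℕ) (Λ : Type) (h : Λ → ℝ)
    (hA : ∀ a : ℝ, 0 < a → ∑' y, Real.exp (-(a / 2 * h y)) ≤ 2 ^ D * ∑' y, Real.exp (-(a * h y)))
    (a : ℝ) (ha : 0 < a) (k : ℕ) :
    ∑' y, Real.exp (-(a / 2 ^ k * h y)) ≤ (2 ^ k) ^ D * ∑' y, Real.exp (-(a * h y)) := by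
  induction k with
  | zero => simp
  | succ k ih =>
    have h1 := hA (a / 2 ^ k) (by positivity)
    have h2 : a / 2 ^ k / 2 = a / 2 ^ (k + 1) := by
      rw [pow_succ]
      field_simp
    rw [h2] at h1
    refine h1.trans ?_
    calc 2 ^ D * ∑' y, Real.exp (-(a / 2 ^ k * h y))
        ≤ 2 ^ D * ((2 ^ k) ^ D * ∑' y, Real.exp (-(a * h y))) := by gcongr
      _ = (2 ^ (k + 1)) ^ D * ∑' y, Real.exp (-(a * h y)) := by
        rw [pow_succ, mul_pow]
        ring

theorem thm_G4 : St_N0a → St_N0b → St_N1 → St_G1 → St_G3 → St_A1 → St_G4 := by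
  intro hN0a hN0b hN1 hG1 hG3 hA1 P D T L K _ _ _ _ _ q hRF s hs ρ hρ
  obtain ⟨nmul, nm1, nm0, npar, nalg, ndvd, bmul, bbar, bspan, -⟩ := hN0a L K q
  obtain ⟨hcard, -, -, -, -, -, -, -, hemb, hpos, -⟩ := hN0b P D T L K q hRF
  have hD := hRF.pos
  have hP : (1 : ℝ) ≤ P := by exact_mod_cast hRF.one_le
  have hρ0 : 0 < ρ := by linarith
  have hnn : ∀ (τ : L →+* ℝ) (y : 𝓞 K), 0 ≤ τ (nm q y : L) := by
    intro τ y
    obtain ⟨φ, -, hφ⟩ := hemb τ
    rw [hφ y]
    positivity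
  have hSS : ∀ p : Ideal (𝓞 K) × 𝓞 L, SS q s ρ p =
      ∑' y : p.1, Real.exp (-(1 / (2 * ρ) * hh q s p.2 (y : 𝓞 K))) := by
    intro p
    unfold SS
    refine tsum_congr fun y => ?_
    congr 1
    ring
  have hEL : ∀ p : Ideal (𝓞 K) × 𝓞 L, UL q p → EL D (fun y : p.1 => hh q s p.2 (y : 𝓞 K)) :=
    fun p hp => hG3 P D T L K q hRF s hs p hp
  -- the comparison
  have hcmp : ∀ p : Ideal (𝓞 K) × 𝓞 L, UL q p → ∀ p' : Ideal (𝓞 K) × 𝓞 L, UL q p' →
      SS q s ρ p ≤ (4 * (P : ℝ)) ^ D * SS q s ρ p' := by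
    rintro ⟨I, b⟩ hp ⟨I', b'⟩ hp'
    have hI : I * bar q I = Ideal.span {algebraMap (𝓞 L) (𝓞 K) b} := hp.1
    have hI' : I' * bar q I' = Ideal.span {algebraMap (𝓞 L) (𝓞 K) b'} := hp'.1
    have hb : TP b := hp.2
    have hb' : TP b' := hp'.2
    have hUL : UL q (bar q I * I', b * b') := by
      refine ⟨?_, fun τ => ?_⟩
      · show bar q I * I' * bar q (bar q I * I') = Ideal.span {algebraMap (𝓞 L) (𝓞 K) (b * b')}
        rw [bmul, (bbar I).1, map_mul, ← Ideal.span_singleton_mul_span_singleton, ← hI, ← hI']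
        ring
      · show 0 < τ ((b * b' : 𝓞 L) : L)
        have h1 : ((b * b' : 𝓞 L) : L) = (b : L) * (b' : L) := rfl
        rw [h1, map_mul]
        exact mul_pos (hb τ) (hb' τ)
    obtain ⟨z, hz, hz0, c, hzc, hc, hcP⟩ := hN1 P D T L K q hRF _ hUL
    simp only at hz hzc
    have hex : ∀ y : I, ∃ w : I', (y : 𝓞 K) * z = algebraMap (𝓞 L) (𝓞 K) b * (w : 𝓞 K) := by
      intro y
      have h1 : (y : 𝓞 K) * z ∈ I * (bar q I * I') := Ideal.mul_mem_mul y.2 hz
      rw [← mul_assoc, hI, Ideal.mem_span_singleton_mul] at h1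
      obtain ⟨w, hw, hww⟩ := h1
      exact ⟨⟨w, hw⟩, hww.symm⟩
    choose g hg using hex
    have hginj : Function.Injective g := by
      intro y y' h
      have h1 := hg y
      rw [h, ← hg y'] at h1
      exact Subtype.ext (mul_right_cancel₀ hz0 h1.symm).symm
    have hb0 : b ≠ 0 := by
      rintro rfl
      obtain ⟨τ⟩ : Nonempty (L →+* ℝ) := by
        rw [← Fintype.card_pos_iff, hcard]
        exact hD
      have h1 := hb τ
      simp at h1
    have hle : ∀ y : I, hh q s b' (g y : 𝓞 K) ≤ 2 * P * hh q s b (y : 𝓞 K) := by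
      intro y
      have h1 : b * nm q (g y : 𝓞 K) = nm q (y : 𝓞 K) * (b' * c) := by
        have h2 := congrArg (nm q) (hg y)
        rw [nmul, nmul, hzc, nalg] at h2
        refine mul_left_cancel₀ hb0 ?_
        linear_combination -h2
      unfold hh
      rw [Finset.mul_sum]
      refine Finset.sum_le_sum fun τ _ => ?_
      have h2 : τ (b : L) * τ (nm q (g y : 𝓞 K) : L) =
          τ (nm q (y : 𝓞 K) : L) * (τ (b' : L) * τ (c : L)) := by
        have h3 := congrArg (fun x : 𝓞 L => τ (x : L)) h1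
        simpa using h3
      have hbt := hb τ
      have hbt' := hb' τ
      have hct := hc τ
      have hcPt := hcP τ
      have hst := (hs τ).1
      have hny := hnn τ (y : 𝓞 K)
      have h4 : τ s * τ (nm q (g y : 𝓞 K) : L) / τ (b' : L) =
          τ s * τ (nm q (y : 𝓞 K) : L) / τ (b : L) * τ (c : L) := by
        rw [div_mul_eq_mul_div, div_eq_div_iff hbt'.ne' hbt.ne']
        linear_combination (τ s) * h2
      rw [h4]
      have h5 : 0 ≤ τ s * τ (nm q (y : 𝓞 K) : L) / τ (b : L) := by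
        have : 0 ≤ τ s := by linarith
        positivity
      calc τ s * τ (nm q (y : 𝓞 K) : L) / τ (b : L) * τ (c : L)
          ≤ τ s * τ (nm q (y : 𝓞 K) : L) / τ (b : L) * (2 * P) := by gcongr
        _ = 2 * P * (τ s * τ (nm q (y : 𝓞 K) : L) / τ (b : L)) := by ring
    -- the power of two
    obtain ⟨k, hk1, hk2⟩ : ∃ k : ℕ, 2 * (P : ℝ) ≤ 2 ^ k ∧ (2 : ℝ) ^ k ≤ 4 * P := by
      refine ⟨Nat.log 2 P + 2, ?_, ?_⟩
      · have h1 := Nat.lt_pow_succ_log_self (b := 2) (by norm_num) P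
        have h2 : (P : ℝ) < 2 ^ (Nat.log 2 P + 1) := by exact_mod_cast h1
        rw [pow_succ] at h2 ⊢
        rw [pow_succ]
        linarith
      · have h1 := Nat.pow_log_le_self 2 (x := P) (by have := hRF.one_le; omega)
        have h2 : (2 : ℝ) ^ (Nat.log 2 P) ≤ P := by exact_mod_cast h1
        rw [pow_add]
        linarith
    have hA := (hA1 D I (fun y : I => hh q s b (y : 𝓞 K)) hD (hEL (I, b) hp)).1
    have hA' := (hA1 D I' (fun y : I' => hh q s b' (y : 𝓞 K)) hD (hEL (I', b') hp')).1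
    have ha : 0 < 1 / (2 * ρ) := by positivity
    have ha2 : 0 < 1 / (2 * ρ) / 2 ^ k := by positivity
    have hnon' : ∀ w : I', 0 ≤ hh q s b' (w : 𝓞 K) := (hEL (I', b') hp').nonneg
    rw [hSS, hSS]
    calc ∑' y : I, Real.exp (-(1 / (2 * ρ) * hh q s b (y : 𝓞 K)))
        ≤ ∑' y : I, Real.exp (-(1 / (2 * ρ) / 2 ^ k * hh q s b' (g y : 𝓞 K))) := by
          refine Summable.tsum_le_tsum (fun y => ?_) (hA _ ha).1 ?_
          · apply Real.exp_le_exp.2
            have h1 := hle y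
            have h2 : 0 ≤ hh q s b (y : 𝓞 K) := (hEL (I, b) hp).nonneg y
            have h3 : 1 / (2 * ρ) / 2 ^ k * hh q s b' (g y : 𝓞 K) ≤
                1 / (2 * ρ) / 2 ^ k * (2 ^ k * hh q s b (y : 𝓞 K)) := by
              refine mul_le_mul_of_nonneg_left (h1.trans ?_) ha2.le
              exact mul_le_mul_of_nonneg_right hk1 h2
            have h4 : 1 / (2 * ρ) / 2 ^ k * (2 ^ k * hh q s b (y : 𝓞 K)) =
                1 / (2 * ρ) * hh q s b (y : 𝓞 K) := by
              field_simp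
            linarith
          · exact (hA' _ ha2).1.comp_injective hginj
      _ ≤ ∑' w : I', Real.exp (-(1 / (2 * ρ) / 2 ^ k * hh q s b' (w : 𝓞 K))) := by
          exact tsum_comp_le_tsum_of_inj (hA' _ ha2).1 (fun w => (Real.exp_pos _).le) hginj
      _ ≤ (2 ^ k) ^ D * ∑' w : I', Real.exp (-(1 / (2 * ρ) * hh q s b' (w : 𝓞 K))) :=
          G4_iter D I' (fun y : I' => hh q s b' (y : 𝓞 K)) (fun a ha => (hA' a ha).2.1) _ ha k
      _ ≤ (4 * (P : ℝ)) ^ D * ∑' w : I', Real.exp (-(1 / (2 * ρ) * hh q s b' (w : 𝓞 K))) := by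
          have h0 : 0 ≤ ∑' w : I', Real.exp (-(1 / (2 * ρ) * hh q s b' (w : 𝓞 K))) :=
            tsum_nonneg fun w => (Real.exp_pos _).le
          gcongr
  intro p hp
  refine ⟨?_, fun p' hp' => hcmp p hp p' hp'⟩
  -- the trivial lattice
  have hUL0 : UL q (⊤, 1) := by
    refine ⟨?_, fun τ => ?_⟩
    · show (⊤ : Ideal (𝓞 K)) * bar q ⊤ = Ideal.span {algebraMap (𝓞 L) (𝓞 K) 1}
      rw [map_one, Ideal.span_singleton_one]
      unfold bar
      rw [Ideal.map_top, Ideal.top_mul]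
    · show 0 < τ ((1 : 𝓞 L) : L)
      simp
  have h0 := hcmp (⊤, 1) hUL0 p hp
  obtain ⟨X, hX, hXc⟩ := (hG1 P D T L K q hRF).2 ρ hρ0
  have hA0 := (hA1 D (⊤ : Ideal (𝓞 K)) (fun y : (⊤ : Ideal (𝓞 K)) => hh q s 1 (y : 𝓞 K)) hD
    (hEL (⊤, 1) hUL0)).1
  have hhX : ∀ x ∈ X, hh q s 1 x ≤ 3 / 2 * ρ * D := by
    intro x hx
    unfold hh
    calc ∑ τ : L →+* ℝ, τ s * τ (nm q x : L) / τ ((1 : 𝓞 L) : L)
        ≤ ∑ τ : L →+* ℝ, 3 / 2 * ρ := by
          refine Finset.sum_le_sum fun τ _ => ?_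
          obtain ⟨φ, -, hφ⟩ := hemb τ
          have h1 : τ ((1 : 𝓞 L) : L) = 1 := by simp
          rw [h1, div_one, hφ x]
          have h2 := hX x hx φ
          have h3 := (hs τ).2
          have h4 := (hs τ).1
          exact mul_le_mul h3 h2 (by positivity) (by norm_num)
      _ = 3 / 2 * ρ * D := by
          rw [Finset.sum_const, Finset.card_univ, hcard, nsmul_eq_mul]
          ring
  have hlow : (ρ / (6 * P)) ^ D ≤ SS q s ρ (⊤, 1) := by
    rw [hSS]
    let em : 𝓞 K ↪ (⊤ : Ideal (𝓞 K)) := ⟨fun x => ⟨x, trivial⟩, fun x y h => congrArg Subtype.val h⟩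
    have h1 := Summable.sum_le_tsum (X.map em) (fun w _ => (Real.exp_pos _).le)
      (hA0 (1 / (2 * ρ)) (by positivity)).1
    refine le_trans ?_ h1
    rw [Finset.sum_map]
    have h2 : ∀ x ∈ X, Real.exp (-(3 / 4)) ^ D ≤
        Real.exp (-(1 / (2 * ρ) * hh q s 1 ((em x : (⊤ : Ideal (𝓞 K))) : 𝓞 K))) := by
      intro x hx
      rw [← Real.exp_nat_mul]
      apply Real.exp_le_exp.2
      have h3 : hh q s 1 ((em x : (⊤ : Ideal (𝓞 K))) : 𝓞 K) ≤ 3 / 2 * ρ * D := hhX x hx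
      have h4 : 1 / (2 * ρ) * hh q s 1 ((em x : (⊤ : Ideal (𝓞 K))) : 𝓞 K) ≤
          1 / (2 * ρ) * (3 / 2 * ρ * D) := mul_le_mul_of_nonneg_left h3 (by positivity)
      have h5 : 1 / (2 * ρ) * (3 / 2 * ρ * D) = 3 / 4 * D := by
        field_simp
        ring
      linarith
    calc (ρ / (6 * P)) ^ D ≤ (ρ / (2 * P)) ^ D * Real.exp (-(3 / 4)) ^ D := by
          rw [← mul_pow]
          have h3 : (1 : ℝ) / 3 ≤ Real.exp (-(3 / 4)) := by
            rw [Real.exp_neg, one_div]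
            refine inv_anti₀ (Real.exp_pos _) ?_
            have h4 : Real.exp (3 / 4) ≤ Real.exp 1 := Real.exp_le_exp.2 (by norm_num)
            have h5 := Real.exp_one_lt_d9
            linarith
          have h4 : ρ / (6 * P) = ρ / (2 * P) * (1 / 3) := by
            field_simp
            norm_num
          rw [h4]
          gcongr
      _ ≤ X.card * Real.exp (-(3 / 4)) ^ D := by gcongr
      _ = ∑ x ∈ X, Real.exp (-(3 / 4)) ^ D := by
          rw [Finset.sum_const, nsmul_eq_mul]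
      _ ≤ _ := Finset.sum_le_sum h2
  have h4P : (0 : ℝ) < (4 * (P : ℝ)) ^ D := by positivity
  have h2 : (ρ / (24 * (P : ℝ) ^ 2)) ^ D * (4 * (P : ℝ)) ^ D = (ρ / (6 * P)) ^ D := by
    rw [← mul_pow]
    congr 1
    field_simp
    norm_num
  have h3 : (ρ / (24 * (P : ℝ) ^ 2)) ^ D * (4 * (P : ℝ)) ^ D ≤ SS q s ρ p * (4 * (P : ℝ)) ^ D := by
    rw [h2]
    linarith [hlow.trans h0, mul_comm ((4 * (P : ℝ)) ^ D) (SS q s ρ p)]
  exact le_of_mul_le_mul_right h3 h4P

end Pool.Agent.RNK
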