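import Pool.Agent.RNK.Defs

set_option autoImplicit false

/-!
# RNK / StN: ideals and geometry of numbers, statements with proofs

Available: `UDT.thm_T0 : St_T0`, `UDT.thm_M1 : St_M1`, `UDT.thm_M2 thm_T0 : St_M2`,
`UDT.thm_M3 : St_M3`, `UDT.thm_M4 : St_M4`, `UDT.thm_M6a : St_M6a` (files `UDT/StT.lean`,
`UDT/StM.lean`; they may be used without hypotheses: `Defs` imports `UDT.All`).
-/

namespace Pool.Agent.RNK

open IsDedekindDomain NumberField Pool.Agent.QCF Pool.Agent.UDT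

/-! ## Basics -/

/-- [N0a] Algebra of the norm and of conjugation (no hypothesis on `L`).
PROOF. `nm_spec`, `q.σ (q.σ y) = y` (`repr`, `hσ`), injectivity of `algebraMap L K`; `x ∣ z` in `𝓞 K`:
the quotient is in `L` and integral; `σ` restricts to an automorphism of `𝓞 K`, so `absNorm` is
invariant (the quotient rings are isomorphic). -/
def St_N0a : Prop := ∀ (L K : Type) [Field L] [NumberField L] [Field K] [NumberField K]
  [Algebra L K] (q : QE L K (-1 : L)),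
  (∀ y z : 𝓞 K, nm q (y * z) = nm q y * nm q z) ∧ nm q 1 = 1 ∧ (∀ y : 𝓞 K, nm q y = 0 ↔ y = 0) ∧
  (∀ y z : 𝓞 K, nm q (y + z) + nm q (y - z) = 2 * nm q y + 2 * nm q z) ∧
  (∀ x : 𝓞 L, nm q (algebraMap (𝓞 L) (𝓞 K) x) = x ^ 2) ∧
  (∀ x z : 𝓞 L, algebraMap (𝓞 L) (𝓞 K) x ∣ algebraMap (𝓞 L) (𝓞 K) z → x ∣ z) ∧
  (∀ I J : Ideal (𝓞 K), bar q (I * J) = bar q I * bar q J) ∧
  (∀ I : Ideal (𝓞 K), bar q (bar q I) = I ∧ Ideal.absNorm (bar q I) = Ideal.absNorm I) ∧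
  (∀ y : 𝓞 K, Ideal.span {y} * bar q (Ideal.span {y}) =
    Ideal.span {algebraMap (𝓞 L) (𝓞 K) (nm q y)}) ∧
  (∀ (I : Ideal (𝓞 K)) (y : 𝓞 K), y ∈ I → algebraMap (𝓞 L) (𝓞 K) (nm q y) ∈ I * bar q I) ∧
  (∀ J : Ideal (𝓞 L), bar q (J.map (algebraMap (𝓞 L) (𝓞 K))) = J.map (algebraMap (𝓞 L) (𝓞 K))) ∧
  ∀ w : HeightOneSpectrum (𝓞 K), bar q w.asIdeal = (mv q.σ w).asIdeal

/-- [N0b] Real embeddings.
PROOF. All complex embeddings of `L` are real: they correspond to the `τ : L →+* ℝ`, `D` of them;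
trace and norm as sum and product over embeddings (`trace_eq_sum_embeddings`,
`norm_eq_prod_embeddings`, `Ideal.absNorm_span_singleton`); nondegeneracy: `traceForm_nondegenerate`
(`tR` is `Algebra.trace ℚ L`), `x ≠ 0`: `tR (x * x) > 0`. Embeddings of `K`: `UDT.thm_M1`,
`‖φ y‖^2 = φ (y σ(y)) = τ (nm y)`. Finiteness: `Embeddings.finite_of_norm_le`. AM-GM:
`Real.inner_le_nnorm_mul_nnorm` or `Real.geom_mean_le_arith_mean_weighted` with equal weights and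
`∏ τ x ≥ 1`. -/
def St_N0b : Prop := ∀ (P D : ℕ) (T : Finset ℕ) (L K : Type) [Field L] [NumberField L] [Field K]
  [NumberField K] [Algebra L K] (q : QE L K (-1 : L)), RF P T D L →
  Fintype.card (L →+* ℝ) = D ∧ (∀ x : L, tR x = (Algebra.trace ℚ L x : ℝ)) ∧
  (∀ x : 𝓞 L, ∃ t : ℤ, tR (x : L) = t) ∧
  (∀ x : 𝓞 L, (Ideal.absNorm (Ideal.span {x}) : ℝ) = |∏ τ : L →+* ℝ, τ (x : L)|) ∧
  (∀ x : 𝓞 L, x ≠ 0 → 1 ≤ Ideal.absNorm (Ideal.span {x})) ∧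
  (∀ x : 𝓞 L, TP x → (D : ℝ) ≤ tR (x : L)) ∧
  (∀ x : 𝓞 L, TP x → (Ideal.absNorm (Ideal.span {x}) : ℝ) ≤ (tR (x : L) / D) ^ D) ∧
  (∀ φ : K →+* ℂ, ∃ τ : L →+* ℝ, (∀ x : L, φ (algebraMap L K x) = (τ x : ℂ)) ∧
    ∀ y : 𝓞 K, τ (nm q y : L) = ‖φ (y : K)‖ ^ 2) ∧
  (∀ τ : L →+* ℝ, ∃ φ : K →+* ℂ, (∀ x : L, φ (algebraMap L K x) = (τ x : ℂ)) ∧
    ∀ y : 𝓞 K, τ (nm q y : L) = ‖φ (y : K)‖ ^ 2) ∧
  (∀ y : 𝓞 K, y ≠ 0 → TP (nm q y)) ∧ (∀ x : 𝓞 L, {y : 𝓞 K | nm q y = x}.Finite) ∧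
  (∀ B : ℝ, {x : 𝓞 L | TP x ∧ tR (x : L) ≤ B}.Finite) ∧
  1 ≤ WW q ∧ WW q ≤ 625 ^ D

/-- [N1] Minkowski: short elements of unimodular lattices.
PROOF. Mathlib `NumberField.mixedEmbedding.exists_ne_zero_mem_ideal_lt` (see the proof of
`UDT.thm_M3`) with `f w = √(2 P |x|_w)`, `x = p.2`: the volume of the convex body is
`π^D (2P)^D ∏_w |x|_w = π^D (2P)^D N`, `N = |N_L x|` (`∏_w |x|_w^2 = |N_K x| = N^2`),
`absNorm p.1 = N` (`absNorm (p.1 * bar p.1) = N_K x = N^2`), Minkowski bound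
`N 2^D √|disc K|`, `√|disc K| ≤ 2^D |disc L| ≤ 2^D √P^D` (M1), `4 √P < 2 π P`. Then
`nm y ∈ (x)` (N0a), `b = nm y / x`, `τ b = ‖φ y‖^2 / τ x < 2 P`. -/
def St_N1 : Prop := ∀ (P D : ℕ) (T : Finset ℕ) (L K : Type) [Field L] [NumberField L] [Field K]
  [NumberField K] [Algebra L K] (q : QE L K (-1 : L)), RF P T D L →
  ∀ p : Ideal (𝓞 K) × 𝓞 L, UL q p → ∃ y ∈ p.1, y ≠ 0 ∧ ∃ b : 𝓞 L, nm q y = p.2 * b ∧ TP b ∧
    ∀ τ : L →+* ℝ, τ (b : L) ≤ 2 * P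

/-! ## The number of solutions of `I * bar I = J` -/

/-- [N2a] Coprime ideals.
PROOF. `J₁, J₂` also denote the extended ideals (coprime). `I ↦ (I ⊔ J₁, I ⊔ J₂)`, inverse
`(I₁, I₂) ↦ I₁ I₂`. If `I * bar I = J₁ J₂` then `I ∣ J₁ J₂`, so `I = (I ⊔ J₁)(I ⊔ J₂) = I₁ I₂`;
`I₁ bar I₁` is coprime to `J₂` and divides `J₁ J₂`, so it divides `J₁`; likewise `I₂ bar I₂ ∣ J₂`, and
the product of both is `J₁ J₂`, so equality. Conversely `(I₁ I₂) ⊔ J₁ = I₁` as `I₁ ∣ J₁` and `I₂` is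
coprime to `J₁`. Finite: divisors of a nonzero ideal. -/
def St_N2a : Prop := ∀ (L K : Type) [Field L] [NumberField L] [Field K] [NumberField K]
  [Algebra L K] (q : QE L K (-1 : L)) (J₁ J₂ : Ideal (𝓞 L)), J₁ ≠ ⊥ → J₂ ≠ ⊥ → IsCoprime J₁ J₂ →
  (solI q (J₁ * J₂)).ncard = (solI q J₁).ncard * (solI q J₂).ncard

/-- [N2b] Prime powers.
PROOF. Prime factors of a solution `I` lie above `w`. By T0 (iv) the primes above `w` are `𝔓` and
`mv q.σ 𝔓` (`[K:L] = 2`, so `K/L` is Galois with group `{1, q.σ}`). If these are different,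
`w 𝓞_K = 𝔓 𝔓'` (`∑ e f = 2`), `I = 𝔓^a 𝔓'^b`, `I bar I = (𝔓 𝔓')^(a+b)`: `a + b = n`, `n + 1`
solutions. If `𝔓' = 𝔓`, `w 𝓞_K = 𝔓^e`, `I = 𝔓^a`, `2 a = e n`: at most one solution. -/
def St_N2b : Prop := ∀ (L K : Type) [Field L] [NumberField L] [Field K] [NumberField K]
  [Algebra L K] (q : QE L K (-1 : L)) (w : HeightOneSpectrum (𝓞 L)) (n : ℕ),
  (solI q (w.asIdeal ^ n)).Finite ∧
  ((solI q (w.asIdeal ^ n)).ncard ≤ 1 ∨ (solI q (w.asIdeal ^ n)).ncard = n + 1)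

/-- [N2] Formula for `dd`.
PROOF. `sol q x = solI q (span {x})`. Induction over coprime factors (`Finset.prod` over the prime
factors of `span {x}`, or `UniqueFactorizationMonoid.induction_on_coprime`) with N2a, N2b: `ncard` is
the product of the `ncard` for the prime powers `w^(v w)` exactly dividing `(x)`. If it is not `0`,
every factor is `1` or `v w + 1`; `S` = the set of the `w` where it is `v w + 1 ≥ 2`. -/
def St_N2 : Prop := ∀ (L K : Type) [Field L] [NumberField L] [Field K] [NumberField K]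
  [Algebra L K] (q : QE L K (-1 : L)) (x : 𝓞 L), x ≠ 0 → (sol q x).Finite ∧ (dd q x = 0 ∨
    ∃ (S : Finset (HeightOneSpectrum (𝓞 L))) (v : HeightOneSpectrum (𝓞 L) → ℕ),
      (∀ w ∈ S, 1 ≤ v w) ∧ (∏ w ∈ S, w.asIdeal ^ v w) ∣ Ideal.span {x} ∧
      dd q x = ∏ w ∈ S, (v w + 1))

/-- [N3] Representatives.
PROOF. `dd x ≤ |N x|` by N2 (`v + 1 ≤ 2^v ≤ (N w)^v`). `𝒮₀` = set of the `(J, b)` with `UL` and
`τ b ≤ 2 P` for all `τ`: at most `(4P+1)^D` values of `b` (`UDT.thm_M4` (ii)), for each at most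
`|N b| ≤ (2P)^D` ideals. `(J, b) ~ (J', b')` if there are `y, y' ≠ 0` with `y J = y' J'` and
`nm y * b = nm y' * b'`... precisely `J' = (y/y') J`, `b' = nm(y/y') b`: `span{y'} * J' = span{y} * J`,
`nm y' * b' = nm y * b`. Equivalence relation; `R` = one representative of each class in `𝒮₀`.
Existence: N1 for `(I, x)` gives `y ∈ I`, `nm y = x b`; `(y) = I J` and `J bar J = (b)`, so
`(J, b) ∈ 𝒮₀` matches `(I, x)`; if `(J', b')` is equivalent to `(J, b)` it also matches (with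
`y₁ = y y'/y''`, integral because `I J' ` is the principal fractional ideal it generates).
Uniqueness: two matches `(y), (y')` of `(I, x)` are equivalent: `y' J = y J'` (cancel `I`),
`nm y' * b = nm y * b'`. -/
def St_N3 : Prop := ∀ (P D : ℕ) (T : Finset ℕ) (L K : Type) [Field L] [NumberField L] [Field K]
  [NumberField K] [Algebra L K] (q : QE L K (-1 : L)), RF P T D L →
  ∃ R : Finset (Ideal (𝓞 K) × 𝓞 L), Reps q R ∧ R.Nonempty ∧ R.card ≤ (10 * P ^ 2) ^ D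

/-- [N4] Counting formula.
PROOF. The pairs `(p, y)`, `p ∈ R`, `y ∈ p.1`, `nm y = x p.2`, map to the ideals `I` with
`I * p.1 = (y)` (`y ∈ p.1`, `y ≠ 0`; `I bar I (p.2) = (nm y) = (x)(p.2)`, so `I ∈ sol q x`). The
fibre over `I`: `p` is the unique match, and the `y` are `y₀ u`, `u` a unit with `nm u = 1` (an
integer with `nm u = 1` is a unit): `WW q` elements. Converse: `I * p.1 = (y)` implies `y ∈ p.1`. -/
def St_N4 : Prop := ∀ (P D : ℕ) (T : Finset ℕ) (L K : Type) [Field L] [NumberField L] [Field K]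
  [NumberField K] [Algebra L K] (q : QE L K (-1 : L)), RF P T D L →
  ∀ R : Finset (Ideal (𝓞 K) × 𝓞 L), Reps q R → ∀ x : 𝓞 L, TP x →
    ∑ p ∈ R, {y : 𝓞 K | y ∈ p.1 ∧ nm q y = x * p.2}.ncard = WW q * dd q x

/-- [N6] Many solutions at multiples of `∏ T`.
PROOF. `Z` = set of all primes of `L` with norm in `T`, `|Z| = |T| D`. `(∏ T) = ∏_{w ∈ Z} w` (for
`l ∈ T` the product of the `D` primes of norm `l` divides `(l)` and has the same norm; see the proof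
of `UDT.thm_M6a`). M2 gives `𝔓 w` with `w 𝓞_K = 𝔓 w * bar (𝔓 w)`, `bar (𝔓 w) ≠ 𝔓 w`. For
`I₀ ∈ sol q x` and `E ⊆ Z` the ideal `I₀ ∏_{w ∈ E} 𝔓 w ∏_{w ∈ Z \ E} bar (𝔓 w)` is in
`sol q (Q x)`, different `E` give different ideals (unique factorization; cancel `I₀`). -/
def St_N6 : Prop := ∀ (P D : ℕ) (T : Finset ℕ) (L K : Type) [Field L] [NumberField L] [Field K]
  [NumberField K] [Algebra L K] (q : QE L K (-1 : L)), RF P T D L →
  ∀ x : 𝓞 L, x ≠ 0 → 1 ≤ dd q x → 2 ^ (T.card * D) ≤ dd q (((∏ l ∈ T, l : ℕ) : 𝓞 L) * x)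

/-- [N7] Divisor bound.
PROOF. N2: `dd x ≤ ∏_{w ∈ S} (v w + 1)`, `∏ (N w)^(v w) ≤ |N x|`. Let `z = 2^(1/ε)`. If `N w ≥ z` then
`v + 1 ≤ 2^v ≤ (N w)^(ε v)`. Otherwise `v + 1 ≤ C' 2^(ε v) ≤ C' (N w)^(ε v)` with
`C' = sup_v (v+1) 2^(-ε v)`. The number of primes `w` with `N w < z` is at most `D z`: each lies above
a rational prime `p ≤ N w < z`, at most `D` above each `p`. So `C = C'^⌈z⌉`. -/
def St_N7 : Prop := ∀ ε : ℝ, 0 < ε → ∃ C : ℝ, 1 ≤ C ∧ ∀ (L K : Type) [Field L] [NumberField L]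
  [Field K] [NumberField K] [Algebra L K] (q : QE L K (-1 : L)) (x : 𝓞 L), x ≠ 0 →
  (dd q x : ℝ) ≤ C ^ Module.finrank ℚ L * (Ideal.absNorm (Ideal.span {x}) : ℝ) ^ ε

/-- [V1] Few products of bounded weight.
PROOF. `s = Nat.sqrt m`. The parts `j ≤ s` contribute `∏_{j ≤ s} (j+1)^(c_j)` with `c_j ≤ m`: at most
`(m+1)^s` products. There are at most `s` parts `> s` (`s * (s+1) ≤ m < (s+1)^2`... `(s+1) k ≤ m`
gives `k ≤ s`), each factor is at most `m + 1`: their product is one of at most `(m+2)^s` products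
of `s` numbers in `{1, ..., m+1}`. -/
def St_V1 : Prop := ∀ m : ℕ, ∃ V : Finset ℕ, V.card ≤ (m + 2) ^ (2 * Nat.sqrt m) ∧
  ∀ (ι : Type) (S : Finset ι) (v : ι → ℕ), (∀ i ∈ S, 1 ≤ v i) → ∑ i ∈ S, v i ≤ m →
    ∏ i ∈ S, (v i + 1) ∈ V

/-- [N8] Few values of `dd`.
PROOF. N2, V1 (`2^(∑ v) ≤ ∏ (N w)^(v w) ≤ |N x| ≤ 2^m`), and the value `0`. -/
def St_N8 : Prop := ∀ m : ℕ, ∃ V : Finset ℕ, V.card ≤ (m + 2) ^ (2 * Nat.sqrt m) + 1 ∧
  ∀ (L K : Type) [Field L] [NumberField L] [Field K] [NumberField K] [Algebra L K]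
    (q : QE L K (-1 : L)) (x : 𝓞 L), x ≠ 0 → Ideal.absNorm (Ideal.span {x}) ≤ 2 ^ m → dd q x ∈ V

/-! ## Geometry of numbers -/

/-- [G1] Many small integers.
PROOF. Blichfeldt: `F` a fundamental domain of the lattice `Λ` in the mixed space, `S` the convex
body `convexBodyLT` with all `f w = B/2`. Some point of `F` lies in at least `vol S / vol F`
translates `g + S`, `g ∈ Λ` (integrate `∑_g 1_(g + S)` over `F`: `IsAddFundamentalDomain`); the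
differences `g - g₀` are in the body with `f w = B` (up to the boundary; use `≤ B`). (i) `vol S = B^D`,
`vol F = √|disc L| ≤ P^(D/4)`. (ii) `B = √Y`: `vol S = π^D (Y/4)^D`,
`vol F = 2^(-D) √|disc K| ≤ √P^D` (M1): at least `(π Y / (4 √P))^D`. -/
def St_G1 : Prop := ∀ (P D : ℕ) (T : Finset ℕ) (L K : Type) [Field L] [NumberField L] [Field K]
  [NumberField K] [Algebra L K] (_ : QE L K (-1 : L)), RF P T D L →
  (∀ B : ℝ, 0 < B → ∃ X : Finset (𝓞 L), (∀ x ∈ X, ∀ τ : L →+* ℝ, |τ (x : L)| ≤ B) ∧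
    (B / P) ^ D ≤ X.card) ∧
  ∀ Y : ℝ, 0 < Y → ∃ X : Finset (𝓞 K), (∀ x ∈ X, ∀ φ : K →+* ℂ, ‖φ (x : K)‖ ^ 2 ≤ Y) ∧
    (Y / (2 * P)) ^ D ≤ X.card

/-- [G2] Small integers whose traces separate.
PROOF. `B = 4 P^2`, `V` = the `ℚ`-span of all `x ∈ 𝓞 L` with `|τ x| ≤ B` for all `τ`, `d = dim V`.
`V ∩ 𝓞 L` is free of rank `d`; for `m = 2B + 1` two of these `x` that are congruent modulo
`m (V ∩ 𝓞 L)` are equal (`|N(x - y)| ≤ (2B)^D < m^D`), so there are at most `(2B+1)^d ≤ (12 P^2)^d`.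
G1 (i): at least `(4P)^D`. So `2 d > D`. If all `x y`, `x, y ∈ V`, were in a proper subspace, there
would be `c ≠ 0` with `tr (c x y) = 0` on `V`, so `c V ⊆ V^⊥` and `d ≤ D - d`, contradiction. Hence
the products `x y` of two small integers span `L`; `|τ(x y)| ≤ 16 P^4`; choose `D` of them which
form a basis `ω`; the trace form is nondegenerate. -/
def St_G2 : Prop := ∀ (P D : ℕ) (T : Finset ℕ) (L K : Type) [Field L] [NumberField L] [Field K]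
  [NumberField K] [Algebra L K] (_ : QE L K (-1 : L)), RF P T D L →
  ∃ ω : Fin D → 𝓞 L, (∀ i, ∀ τ : L →+* ℝ, |τ (ω i : L)| ≤ 16 * (P : ℝ) ^ 4) ∧
    ∀ x : 𝓞 L, x ≠ 0 → ∃ i, tR ((ω i : L) * (x : L)) ≠ 0

/-- [G3] The lattices.
PROOF. `nm` is positive definite with the parallelogram law (N0a, N0b), `τ s > 0`, `τ b > 0`. For
`0 ≠ z ∈ p.1`: `nm z = b c` with `c` totally positive (N0a), so
`h z = ∑ τ(s) τ(c) ≥ (1/2) tR c ≥ D/2` (N0b). Classes modulo `2`: `p.1` is free of rank `2D` over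
`ℤ`. Finiteness and count: let `m = ⌊√(8H)⌋ + 1`; if `y ≠ y'`, `y - y' = m z`, `h y, h y' ≤ H D`, then
`m^2 D/2 ≤ h (m z) = h (y - y') ≤ 2 h y + 2 h y' ≤ 4 H D`, contradiction; so at most
`m^(2D) ≤ (16H+2)^D` elements (`|p.1 / m p.1| = m^(2D)`). -/
def St_G3 : Prop := ∀ (P D : ℕ) (T : Finset ℕ) (L K : Type) [Field L] [NumberField L] [Field K]
  [NumberField K] [Algebra L K] (q : QE L K (-1 : L)), RF P T D L →
  ∀ s : L, (∀ τ : L →+* ℝ, 1 / 2 ≤ τ s ∧ τ s ≤ 3 / 2) → ∀ p : Ideal (𝓞 K) × 𝓞 L, UL q p →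
    EL D (fun y : p.1 => hh q s p.2 (y : 𝓞 K))

/-- [G4] Comparison of theta series.
PROOF. Let `p = (I, b)`, `p' = (I', b')`. N1 for the unimodular lattice `(bar I * I', b b')` gives
`0 ≠ z ∈ bar I * I'`, `nm z = b b' c`, `0 < τ c ≤ 2P`. For `y ∈ I`: `y z ∈ I bar I I' = b I'`, so
`y z / b ∈ I'` and `h' (y z / b) = ∑ τ(s) τ(nm y) τ(b b' c) / τ(b)^2 τ(b') ≤ 2 P h y`; injective. So
`Θ_p(a) ≤ Θ_p'(a/(2P)) ≤ Θ_p'(a/2^k) ≤ 2^(D k) Θ_p'(a)`, `2P ≤ 2^k ≤ 4P` (A1). Lower bound: for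
`p₀ = (⊤, 1)` the integers of G1 (ii) with `Y = ρ` give `(ρ/(2P))^D exp(-3D/4) ≥ (ρ/(6P))^D`. -/
def St_G4 : Prop := ∀ (P D : ℕ) (T : Finset ℕ) (L K : Type) [Field L] [NumberField L] [Field K]
  [NumberField K] [Algebra L K] (q : QE L K (-1 : L)), RF P T D L →
  ∀ s : L, (∀ τ : L →+* ℝ, 1 / 2 ≤ τ s ∧ τ s ≤ 3 / 2) → ∀ ρ : ℝ, 1 ≤ ρ →
  ∀ p : Ideal (𝓞 K) × 𝓞 L, UL q p → (ρ / (24 * (P : ℝ) ^ 2)) ^ D ≤ SS q s ρ p ∧
    ∀ p' : Ideal (𝓞 K) × 𝓞 L, UL q p' → SS q s ρ p ≤ (4 * (P : ℝ)) ^ D * SS q s ρ p'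

end Pool.Agent.RNK
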