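import Mathlib
import Pool.Agent.RNK.StN

/-!
# RNK / N0b: real embeddings, trace, norm, arithmetic and geometric mean, finiteness
-/

set_option autoImplicit false
set_option linter.unusedSectionVars false

namespace Pool.Agent.RNK

open IsDedekindDomain NumberField Pool.Agent.QCF Pool.Agent.UDT

section Real

variable {L : Type} [Field L] [NumberField L]

/-- every complex embedding comes from a real one -/
private theorem n0b_real (hL : ∀ w : InfinitePlace L, w.IsReal) (φ : L →+* ℂ) :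
    ∃ τ : L →+* ℝ, Complex.ofRealHom.comp τ = φ := by
  have h1 : ComplexEmbedding.IsReal φ := by
    by_contra h2
    exact (InfinitePlace.not_isReal_iff_isComplex.mpr
      (InfinitePlace.isComplex_mk_iff.mpr h2)) (hL _)
  refine ⟨h1.embedding, ?_⟩
  ext x
  exact ComplexEmbedding.IsReal.coe_embedding_apply h1 x

private noncomputable def n0b_equiv (hL : ∀ w : InfinitePlace L, w.IsReal) :
    (L →+* ℝ) ≃ (L →+* ℂ) :=
  Equiv.ofBijective (fun τ => Complex.ofRealHom.comp τ)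
    ⟨fun τ τ' h => by
      ext x
      have h1 := RingHom.congr_fun h x
      exact Complex.ofReal_injective h1, n0b_real hL⟩

private theorem n0b_equiv_apply (hL : ∀ w : InfinitePlace L, w.IsReal) (τ : L →+* ℝ) (x : L) :
    n0b_equiv hL τ x = ((τ x : ℝ) : ℂ) := rfl

private theorem n0b_trace (hL : ∀ w : InfinitePlace L, w.IsReal) (x : L) :
    tR x = (Algebra.trace ℚ L x : ℝ) := by
  have h1 := trace_eq_sum_embeddings (K := ℚ) (L := L) ℂ (x := x)
  rw [← Fintype.sum_equiv (RingHom.equivRatAlgHom L ℂ) (fun f => f x) (fun φ => φ x)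
    (fun _ => by simp [RingHom.equivRatAlgHom_apply])] at h1
  rw [← Fintype.sum_equiv (n0b_equiv hL) (fun τ => ((τ x : ℝ) : ℂ)) (fun φ => φ x)
    (fun _ => rfl)] at h1
  have h2 : (((Algebra.trace ℚ L x : ℚ) : ℝ) : ℂ) = ((∑ τ : L →+* ℝ, τ x : ℝ) : ℂ) := by
    rw [Complex.ofReal_sum, ← h1]
    simp
  exact (Complex.ofReal_injective h2).symm

private theorem n0b_norm (hL : ∀ w : InfinitePlace L, w.IsReal) (x : L) :
    (Algebra.norm ℚ x : ℝ) = ∏ τ : L →+* ℝ, τ x := by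
  have h1 := Algebra.norm_eq_prod_embeddings ℚ ℂ x
  rw [← Fintype.prod_equiv (RingHom.equivRatAlgHom L ℂ) (fun f => f x) (fun φ => φ x)
    (fun _ => by simp [RingHom.equivRatAlgHom_apply])] at h1
  rw [← Fintype.prod_equiv (n0b_equiv hL) (fun τ => ((τ x : ℝ) : ℂ)) (fun φ => φ x)
    (fun _ => rfl)] at h1
  have h2 : (((Algebra.norm ℚ x : ℚ) : ℝ) : ℂ) = ((∏ τ : L →+* ℝ, τ x : ℝ) : ℂ) := by
    rw [Complex.ofReal_prod, ← h1]
    simp
  exact Complex.ofReal_injective h2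

private theorem n0b_abs (hL : ∀ w : InfinitePlace L, w.IsReal) (x : 𝓞 L) :
    (Ideal.absNorm (Ideal.span {x}) : ℝ) = |∏ τ : L →+* ℝ, τ (x : L)| := by
  rw [← n0b_norm hL, ← Algebra.coe_norm_int, Ideal.absNorm_span_singleton, Nat.cast_natAbs]
  push_cast
  rfl

private theorem n0b_one (x : 𝓞 L) (hx : x ≠ 0) : 1 ≤ Ideal.absNorm (Ideal.span {x}) := by
  rw [Nat.one_le_iff_ne_zero, Ne, Ideal.absNorm_eq_zero_iff, Ideal.span_singleton_eq_bot]
  exact hx

private theorem n0b_card (hL : ∀ w : InfinitePlace L, w.IsReal) :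
    Fintype.card (L →+* ℝ) = Module.finrank ℚ L := by
  rw [Fintype.card_congr (n0b_equiv hL), Embeddings.card]

private theorem n0b_ne {x : 𝓞 L} (h : TP x) (h0 : 0 < Fintype.card (L →+* ℝ)) : x ≠ 0 := by
  rintro rfl
  obtain ⟨τ⟩ := Fintype.card_pos_iff.1 h0
  have := h τ
  simp at this

private theorem n0b_amgm {D : ℕ} (hL : ∀ w : InfinitePlace L, w.IsReal) (hD : 1 ≤ D)
    (hc : Fintype.card (L →+* ℝ) = D) (x : 𝓞 L) (hx : TP x) :
    (Ideal.absNorm (Ideal.span {x}) : ℝ) ≤ (tR (x : L) / D) ^ D := by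
  have hD0 : (0 : ℝ) < D := by exact_mod_cast hD
  have h1 := Real.geom_mean_le_arith_mean (Finset.univ : Finset (L →+* ℝ)) (fun _ => 1)
    (fun τ => τ (x : L)) (fun _ _ => zero_le_one)
    (by
      rw [Finset.sum_const, Finset.card_univ, hc, nsmul_eq_mul, mul_one]
      exact hD0) (fun τ _ => (hx τ).le)
  simp only [Finset.sum_const, Finset.card_univ, hc, nsmul_eq_mul, mul_one, Real.rpow_one,
    one_mul] at h1
  have hP : 0 ≤ ∏ τ : L →+* ℝ, τ (x : L) := Finset.prod_nonneg fun τ _ => (hx τ).le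
  have h2 : (∏ τ : L →+* ℝ, τ (x : L)) = ((∏ τ : L →+* ℝ, τ (x : L)) ^ ((D : ℝ)⁻¹)) ^ D := by
    rw [← Real.rpow_natCast, ← Real.rpow_mul hP, inv_mul_cancel₀ hD0.ne', Real.rpow_one]
  rw [n0b_abs hL, abs_of_nonneg hP, h2]
  exact pow_le_pow_left₀ (Real.rpow_nonneg hP _) h1 D

private theorem n0b_tr_ge {D : ℕ} (hL : ∀ w : InfinitePlace L, w.IsReal) (hD : 1 ≤ D)
    (hc : Fintype.card (L →+* ℝ) = D) (x : 𝓞 L) (hx : TP x) : (D : ℝ) ≤ tR (x : L) := by
  have hD0 : (0 : ℝ) < D := by exact_mod_cast hD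
  by_contra hcon
  have h1 := n0b_amgm hL hD hc x hx
  have h2 : (1 : ℝ) ≤ (Ideal.absNorm (Ideal.span {x}) : ℝ) := by
    exact_mod_cast n0b_one x (n0b_ne hx (by omega))
  have h3 : 0 ≤ tR (x : L) := Finset.sum_nonneg fun τ _ => (hx τ).le
  have h4 : tR (x : L) / D < 1 := by
    rw [div_lt_one hD0]
    exact not_le.1 hcon
  have h5 : (tR (x : L) / D) ^ D < 1 := pow_lt_one₀ (by positivity) h4 (by omega)
  linarith

private theorem n0b_fin (hL : ∀ w : InfinitePlace L, w.IsReal) (B : ℝ) :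
    {x : 𝓞 L | TP x ∧ tR (x : L) ≤ B}.Finite := by
  have h1 := Embeddings.finite_of_norm_le L ℂ B
  refine (h1.preimage (f := fun x : 𝓞 L => (x : L))
    RingOfIntegers.coe_injective.injOn).subset ?_
  rintro x ⟨hx, hB⟩
  refine ⟨x.isIntegral_coe, fun φ => ?_⟩
  obtain ⟨τ, rfl⟩ := n0b_real hL φ
  have h2 : ‖(Complex.ofRealHom.comp τ) (x : L)‖ = τ (x : L) := by
    show ‖((τ (x : L) : ℝ) : ℂ)‖ = _
    rw [Complex.norm_real, Real.norm_of_nonneg (hx τ).le]
  rw [h2]
  refine le_trans ?_ hB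
  exact Finset.single_le_sum (f := fun τ : L →+* ℝ => τ (x : L)) (fun τ _ => (hx τ).le)
    (Finset.mem_univ τ)

end Real

section Cplx

variable {L K : Type} [Field L] [NumberField L] [Field K] [NumberField K] [Algebra L K]

private theorem n0b_sq (hL : ∀ w : InfinitePlace L, w.IsReal) (q : QE L K (-1 : L))
    (φ : K →+* ℂ) (τ : L →+* ℝ) (h : ∀ x : L, φ (algebraMap L K x) = (τ x : ℂ)) (y : 𝓞 K) :
    τ (nm q y : L) = ‖φ (y : K)‖ ^ 2 := by
  obtain ⟨-, -, -, h1, -, -, -⟩ := thm_M1 L K q hL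
  have h2 : ((τ (nm q y : L) : ℝ) : ℂ) = ((‖φ (y : K)‖ ^ 2 : ℝ) : ℂ) := by
    rw [← h, nm_spec, map_mul, h1, Complex.mul_conj, Complex.normSq_eq_norm_sq]
  exact Complex.ofReal_injective h2

private theorem n0b_TP (hL : ∀ w : InfinitePlace L, w.IsReal) (q : QE L K (-1 : L))
    (y : 𝓞 K) (hy : y ≠ 0) : TP (nm q y) := by
  intro τ
  obtain ⟨-, -, -, -, -, h1, -⟩ := thm_M1 L K q hL
  obtain ⟨φ, hφ⟩ := h1 τ
  rw [n0b_sq hL q φ τ hφ y]
  have h2 : φ (y : K) ≠ 0 := by
    rw [Ne, map_eq_zero]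
    exact RingOfIntegers.coe_ne_zero_iff.2 hy
  positivity

private theorem n0b_nmfin (hL : ∀ w : InfinitePlace L, w.IsReal) (q : QE L K (-1 : L))
    (x : 𝓞 L) : {y : 𝓞 K | nm q y = x}.Finite := by
  have h1 := Embeddings.finite_of_norm_le K ℂ (1 + ∑ τ : L →+* ℝ, |τ (x : L)|)
  refine (h1.preimage (f := fun y : 𝓞 K => (y : K))
    RingOfIntegers.coe_injective.injOn).subset ?_
  intro y hy
  refine ⟨y.isIntegral_coe, fun φ => ?_⟩
  obtain ⟨-, -, -, -, h2, -, -⟩ := thm_M1 L K q hL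
  obtain ⟨τ, hτ⟩ := h2 φ
  have h3 := n0b_sq hL q φ τ hτ y
  have hy' : nm q y = x := hy
  rw [hy'] at h3
  have h4 : |τ (x : L)| ≤ ∑ τ : L →+* ℝ, |τ (x : L)| :=
    Finset.single_le_sum (f := fun τ : L →+* ℝ => |τ (x : L)|) (fun τ _ => abs_nonneg _)
      (Finset.mem_univ τ)
  have h5 := le_abs_self (τ (x : L))
  have h6 : 0 ≤ ‖φ (y : K)‖ := norm_nonneg _
  nlinarith

private theorem n0b_nm_one (q : QE L K (-1 : L)) : nm q (1 : 𝓞 K) = 1 := by
  apply RingOfIntegers.coe_injective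
  apply FaithfulSMul.algebraMap_injective L K
  rw [nm_spec]
  simp

private theorem n0b_card5 (q : QE L K (-1 : L)) (hL : ∀ w : InfinitePlace L, w.IsReal) :
    Nat.card (𝓞 K ⧸ (Ideal.span {(5 : 𝓞 K)})) = 25 ^ Module.finrank ℚ L := by
  obtain ⟨h1, -, -, -, -, -, -⟩ := thm_M1 L K q hL
  have h6 : Module.finrank ℚ K = 2 * Module.finrank ℚ L := by
    rw [← Module.finrank_mul_finrank ℚ L K, h1, mul_comm]
  have h8 : Algebra.norm ℤ (5 : 𝓞 K) = 5 ^ Module.finrank ℤ (𝓞 K) := by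
    have := Algebra.norm_algebraMap_of_basis (Module.Free.chooseBasis ℤ (𝓞 K)) (5 : ℤ)
    rw [map_ofNat, ← Module.finrank_eq_card_basis (Module.Free.chooseBasis ℤ (𝓞 K))] at this
    exact this
  have h9 : Ideal.absNorm (Ideal.span {(5 : 𝓞 K)}) = 25 ^ Module.finrank ℚ L := by
    rw [Ideal.absNorm_span_singleton, h8, RingOfIntegers.rank, h6, Int.natAbs_pow, pow_mul]
    norm_num
  rw [← h9, Ideal.absNorm_apply, Submodule.cardQuot_apply]

private theorem n0b_WW {D : ℕ} (hL : ∀ w : InfinitePlace L, w.IsReal) (hD : 1 ≤ D)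
    (hdeg : Module.finrank ℚ L = D) (q : QE L K (-1 : L)) :
    1 ≤ WW q ∧ WW q ≤ 625 ^ D := by
  have hc : Fintype.card (L →+* ℝ) = D := by rw [n0b_card hL, hdeg]
  have hD0 : (0 : ℝ) < D := by exact_mod_cast hD
  have hfin := n0b_nmfin hL q 1
  constructor
  · unfold WW
    rw [Nat.one_le_iff_ne_zero, Ne, Set.ncard_eq_zero hfin]
    intro h
    have : (1 : 𝓞 K) ∈ {y : 𝓞 K | nm q y = 1} := n0b_nm_one q
    rw [h] at this
    exact this
  · have h5 := n0b_card5 q hL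
    rw [hdeg] at h5
    have hf : Finite (𝓞 K ⧸ (Ideal.span {(5 : 𝓞 K)})) := by
      refine Nat.finite_of_card_ne_zero ?_
      rw [h5]
      positivity
    have h6 : WW q ≤ (Set.univ : Set (𝓞 K ⧸ (Ideal.span {(5 : 𝓞 K)}))).ncard := by
      refine Set.ncard_le_ncard_of_injOn (Ideal.Quotient.mk (Ideal.span {(5 : 𝓞 K)}))
        (fun _ _ => Set.mem_univ _) ?_ Set.finite_univ
      intro y hy z hz hyz
      have hy' : nm q y = 1 := hy
      have hz' : nm q z = 1 := hz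
      rw [Ideal.Quotient.eq, Ideal.mem_span_singleton] at hyz
      obtain ⟨u, hu⟩ := hyz
      by_contra hne
      have hu0 : u ≠ 0 := by
        rintro rfl
        rw [mul_zero, sub_eq_zero] at hu
        exact hne hu
      have h7 := n0b_tr_ge hL hD hc (nm q u) (n0b_TP hL q u hu0)
      have h8 : tR (nm q u : L) ≤ ∑ _τ : L →+* ℝ, (4 / 25 : ℝ) := by
        refine Finset.sum_le_sum fun τ _ => ?_
        obtain ⟨-, -, -, -, -, h1, -⟩ := thm_M1 L K q hL
        obtain ⟨φ, hφ⟩ := h1 τ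
        rw [n0b_sq hL q φ τ hφ u]
        have h9 := n0b_sq hL q φ τ hφ y
        have h10 := n0b_sq hL q φ τ hφ z
        rw [hy'] at h9
        rw [hz'] at h10
        have h11 : τ ((1 : 𝓞 L) : L) = 1 := by simp
        rw [h11] at h9 h10
        have h12 : ‖φ (y : K)‖ = 1 := by
          have := norm_nonneg (φ (y : K))
          nlinarith
        have h13 : ‖φ (z : K)‖ = 1 := by
          have := norm_nonneg (φ (z : K))
          nlinarith
        have h14 : φ (y : K) - φ (z : K) = 5 * φ (u : K) := by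
          have h15 : (y : K) - (z : K) = 5 * (u : K) := by
            have := congrArg (algebraMap (𝓞 K) K) hu
            rw [map_sub, map_mul, map_ofNat] at this
            exact this
          rw [← map_sub, h15, map_mul, map_ofNat]
        have h16 : ‖φ (y : K) - φ (z : K)‖ ≤ 2 := by
          refine (norm_sub_le _ _).trans ?_
          rw [h12, h13]
          norm_num
        rw [h14, norm_mul] at h16
        have h17 : ‖(5 : ℂ)‖ = 5 := by simp
        rw [h17] at h16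
        have h18 : 0 ≤ ‖φ (u : K)‖ := norm_nonneg _
        nlinarith
      rw [Finset.sum_const, Finset.card_univ, hc, nsmul_eq_mul] at h8
      nlinarith
    rw [Set.ncard_univ, h5] at h6
    exact h6.trans (Nat.pow_le_pow_left (by norm_num) D)

end Cplx

theorem thm_N0b : St_N0b := by
  intro P D T L K _ _ _ _ _ q h
  have hL := h.real
  have hD := h.pos
  have hc : Fintype.card (L →+* ℝ) = D := by rw [n0b_card hL, h.deg]
  refine ⟨hc, n0b_trace hL, ?_, n0b_abs hL, n0b_one, n0b_tr_ge hL hD hc, n0b_amgm hL hD hc,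
    ?_, ?_, n0b_TP hL q, n0b_nmfin hL q, n0b_fin hL, n0b_WW hL hD h.deg q⟩
  · intro x
    refine ⟨Algebra.trace ℤ (𝓞 L) x, ?_⟩
    rw [n0b_trace hL, ← Algebra.coe_trace_int]
    push_cast
    rfl
  · intro φ
    obtain ⟨-, -, -, -, h2, -, -⟩ := thm_M1 L K q hL
    obtain ⟨τ, hτ⟩ := h2 φ
    exact ⟨τ, hτ, n0b_sq hL q φ τ hτ⟩
  · intro τ
    obtain ⟨-, -, -, -, -, h1, -⟩ := thm_M1 L K q hL
    obtain ⟨φ, hφ⟩ := h1 τ
    exact ⟨φ, hφ, n0b_sq hL q φ τ hφ⟩

end Pool.Agent.RNK
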