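import Pool.Agent.RNK.StN

set_option autoImplicit false

/-!
# RNK [N1]: short elements of unimodular hermitian lattices
-/

namespace Pool.Agent.RNK

open NumberField NumberField.mixedEmbedding MeasureTheory Module IsDedekindDomain
open Pool.Agent.QCF Pool.Agent.UDT
open scoped NNReal ENNReal nonZeroDivisors

private theorem N1_nrR {K : Type} [Field K] [NumberField K]
    (h : ∀ w : InfinitePlace K, w.IsComplex) : InfinitePlace.nrRealPlaces K = 0 := by
  classical
  rw [InfinitePlace.nrRealPlaces]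
  have : IsEmpty {w : InfinitePlace K // w.IsReal} :=
    ⟨fun w => (InfinitePlace.not_isReal_iff_isComplex.2 (h w.1)) w.2⟩
  exact Fintype.card_of_isEmpty

private theorem N1_nrC {K : Type} [Field K] [NumberField K]
    (h : ∀ w : InfinitePlace K, w.IsComplex) {D : ℕ} (hD : finrank ℚ K = 2 * D) :
    InfinitePlace.nrComplexPlaces K = D := by
  have h1 := InfinitePlace.card_add_two_mul_card_eq_rank K
  rw [N1_nrR h, hD] at h1
  omega

open scoped Classical in
/-- Minkowski's theorem for an ideal of a totally complex field, with weights -/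
private theorem N1_mink {K : Type} [Field K] [NumberField K] (D : ℕ) (I : Ideal (𝓞 K)) (r : ℝ)
    (c : InfinitePlace K → ℝ) (hc : ∀ w : InfinitePlace K, w.IsComplex)
    (hD : finrank ℚ K = 2 * D) (hI : I ≠ ⊥) (hr : 0 < r) (hc0 : ∀ w, 0 < c w)
    (hlt : (Ideal.absNorm I : ℝ) * 2 ^ D * √((discr K).natAbs : ℝ) <
      Real.pi ^ D * (r ^ D * ∏ w, c w)) :
    ∃ z : 𝓞 K, z ∈ I ∧ z ≠ 0 ∧ ∀ w : InfinitePlace K, w (z : K) ^ 2 < r * c w := by
  have hcard : Fintype.card (InfinitePlace K) = D := by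
    have h1 := InfinitePlace.card_eq_nrRealPlaces_add_nrComplexPlaces K
    rw [N1_nrR hc, N1_nrC hc hD, zero_add] at h1
    exact h1
  obtain ⟨u, hu⟩ : ∃ u : (FractionalIdeal (𝓞 K)⁰ K)ˣ, (u : FractionalIdeal (𝓞 K)⁰ K) = I :=
    ⟨Units.mk0 (I : FractionalIdeal (𝓞 K)⁰ K) (by simpa using hI), rfl⟩
  have hrc : ∀ w, 0 < r * c w := fun w => mul_pos hr (hc0 w)
  have hprod0 : 0 < r ^ D * ∏ w, c w :=
    mul_pos (pow_pos hr D) (Finset.prod_pos fun w _ => hc0 w)
  set f : InfinitePlace K → ℝ≥0 := fun w => ⟨√(r * c w), Real.sqrt_nonneg _⟩ with hf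
  have hvol : volume (convexBodyLT K f) =
      ENNReal.ofReal (Real.pi ^ D * (r ^ D * ∏ w, c w)) := by
    rw [convexBodyLT_volume]
    have h1 : (∏ w : InfinitePlace K, f w ^ w.mult : ℝ≥0) = ⟨r ^ D * ∏ w, c w, hprod0.le⟩ := by
      have h2 : ∀ w : InfinitePlace K, f w ^ w.mult = ⟨r * c w, (hrc w).le⟩ := by
        intro w
        rw [InfinitePlace.mult, if_neg (InfinitePlace.not_isReal_iff_isComplex.2 (hc w))]
        apply NNReal.eq
        simp only [hf, NNReal.coe_pow]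
        exact Real.sq_sqrt (hrc w).le
      rw [Finset.prod_congr rfl fun w _ => h2 w]
      apply NNReal.eq
      rw [NNReal.coe_prod]
      show ∏ w, (r * c w) = r ^ D * ∏ w, c w
      rw [Finset.prod_mul_distrib, Finset.prod_const, Finset.card_univ, hcard]
    rw [h1, convexBodyLTFactor, N1_nrR hc, N1_nrC hc hD, pow_zero, one_mul,
      ENNReal.ofReal_mul (by positivity), ENNReal.ofReal_pow Real.pi_pos.le]
    congr 1
    · rw [ENNReal.coe_pow]
      congr 1
      rw [ENNReal.ofReal, Real.toNNReal_of_nonneg Real.pi_pos.le]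
      rfl
    · rw [ENNReal.ofReal, Real.toNNReal_of_nonneg hprod0.le]
      rfl
  have hmin : minkowskiBound K u =
      ENNReal.ofReal ((Ideal.absNorm I : ℝ) * 2 ^ D * √((discr K).natAbs : ℝ)) := by
    rw [minkowskiBound, volume_fundamentalDomain_fractionalIdealLatticeBasis,
      volume_fundamentalDomain_latticeBasis, mixedEmbedding.finrank, hD, N1_nrC hc hD, hu,
      FractionalIdeal.coeIdeal_absNorm]
    have h2 : ((NNReal.sqrt ‖discr K‖₊ : ℝ≥0) : ℝ≥0∞) =
        ENNReal.ofReal √((discr K).natAbs : ℝ) := by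
      rw [ENNReal.ofReal]
      congr 1
      apply NNReal.eq
      rw [Real.coe_toNNReal _ (Real.sqrt_nonneg _), Real.coe_sqrt, coe_nnnorm,
        Int.norm_eq_abs, Nat.cast_natAbs]
      norm_cast
    have h3 : ENNReal.ofReal ((Ideal.absNorm I : ℚ) : ℝ) = ENNReal.ofReal (Ideal.absNorm I : ℝ) := by
      norm_num
    have h4 : (2 : ℝ≥0∞)⁻¹ ^ D * 2 ^ (2 * D) = 2 ^ D := by
      rw [two_mul, pow_add, ← mul_assoc, ← mul_pow, ENNReal.inv_mul_cancel (by norm_num) (by norm_num),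
        one_pow, one_mul]
    have h5 : (2 : ℝ≥0∞) ^ D = ENNReal.ofReal (2 ^ D) := by
      rw [ENNReal.ofReal_pow (by norm_num)]
      norm_num
    rw [h2, h3, ENNReal.ofReal_mul (by positivity), ENNReal.ofReal_mul (by positivity), ← h5, ← h4]
    ring
  have hlt' : minkowskiBound K u < volume (convexBodyLT K f) := by
    rw [hvol, hmin, ENNReal.ofReal_lt_ofReal_iff (by positivity)]
    exact hlt
  obtain ⟨a, ha, ha0, hw⟩ := exists_ne_zero_mem_ideal_lt K u hlt'
  rw [hu] at ha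
  obtain ⟨z, hz, rfl⟩ := (FractionalIdeal.mem_coeIdeal _).1 ha
  refine ⟨z, hz, ?_, ?_⟩
  · rintro rfl
    exact ha0 (by simp)
  · intro w
    have h2 : w (z : K) < √(r * c w) := hw w
    calc w (z : K) ^ 2 < √(r * c w) ^ 2 := by
          gcongr
      _ = r * c w := Real.sq_sqrt (hrc w).le

/-- [N1] short elements of unimodular lattices -/
theorem thm_N1 (h0a : St_N0a) (h0b : St_N0b) : St_N1 := by
  intro P D T L K _ _ _ _ _ q hRF p hp
  obtain ⟨hsol, hTP⟩ := hp
  obtain ⟨-, -, -, -, -, hdvd, -, hbar, -, hmem, -, -⟩ := h0a L K q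
  obtain ⟨hcardD, -, -, -, -, -, -, -, hτφ, hTPnm, -, -, -, -⟩ := h0b P D T L K q hRF
  obtain ⟨h2, hcx, hdisc, -, -, -, -⟩ := thm_M1 L K q hRF.real
  have hD1 := hRF.pos
  have hP1 := hRF.one_le
  have hfin : finrank ℚ K = 2 * D := by
    rw [← Module.finrank_mul_finrank ℚ L K, h2, hRF.deg, mul_comm]
  set x := p.2 with hx
  set xK : 𝓞 K := algebraMap (𝓞 L) (𝓞 K) x with hxK
  have hxKc : (xK : K) = algebraMap L K (x : L) := rfl
  have hsol' : p.1 * bar q p.1 = Ideal.span {xK} := hsol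
  -- `x ≠ 0`
  have hx0 : x ≠ 0 := by
    intro h0
    have hne : Nonempty (L →+* ℝ) := by
      rw [← Fintype.card_pos_iff, hcardD]
      omega
    obtain ⟨τ⟩ := hne
    have := hTP τ
    rw [h0] at this
    simp at this
  have hxL : (x : L) ≠ 0 := fun h => hx0 (RingOfIntegers.ext h)
  have hxK0 : (xK : K) ≠ 0 := by
    rw [hxKc]
    exact (map_ne_zero (algebraMap L K)).2 hxL
  have hxK0' : xK ≠ 0 := fun h => hxK0 (by rw [h]; rfl)
  have hI : p.1 ≠ ⊥ := by
    intro h
    rw [h, Ideal.bot_mul] at hsol'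
    exact hxK0' (Ideal.span_singleton_eq_bot.1 hsol'.symm)
  -- the norm
  have hN : (∏ w : InfinitePlace K, w (xK : K)) = (Ideal.absNorm p.1 : ℝ) := by
    have h3 : (∏ w : InfinitePlace K, w (xK : K)) ^ 2 = (Ideal.absNorm p.1 : ℝ) ^ 2 := by
      have h4 := InfinitePlace.prod_eq_abs_norm (K := K) (xK : K)
      have h5 : ∀ w : InfinitePlace K, w (xK : K) ^ w.mult = w (xK : K) ^ 2 := by
        intro w
        rw [InfinitePlace.mult, if_neg (InfinitePlace.not_isReal_iff_isComplex.2 (hcx w))]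
      rw [Finset.prod_congr rfl fun w _ => h5 w, Finset.prod_pow] at h4
      rw [h4]
      have h6 : Ideal.absNorm (Ideal.span {xK}) = Ideal.absNorm p.1 ^ 2 := by
        rw [← hsol', map_mul, (hbar p.1).2, sq]
      rw [Ideal.absNorm_span_singleton] at h6
      have h7 : Algebra.norm ℚ (xK : K) = ((Algebra.norm ℤ xK : ℤ) : ℚ) :=
        (Algebra.coe_norm_int xK).symm
      rw [h7]
      have h8 : (((Algebra.norm ℤ xK : ℤ).natAbs : ℕ) : ℝ) = (Ideal.absNorm p.1 : ℝ) ^ 2 := by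
        exact_mod_cast h6
      rw [← h8, Nat.cast_natAbs]
      push_cast
      rfl
    have h9 : 0 ≤ ∏ w : InfinitePlace K, w (xK : K) :=
      Finset.prod_nonneg fun w _ => apply_nonneg w _
    exact (sq_eq_sq₀ h9 (Nat.cast_nonneg _)).1 h3
  have hNpos : (0 : ℝ) < Ideal.absNorm p.1 := by
    rw [← hN]
    exact Finset.prod_pos fun w _ => (InfinitePlace.pos_iff (w := w)).2 hxK0
  -- the discriminant
  have hsqrt : √((discr K).natAbs : ℝ) ≤ (2 * (P : ℝ)) ^ D := by
    rw [Real.sqrt_le_left (by positivity)]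
    have h3 : (discr K).natAbs ≤ 4 ^ D * P ^ D := by
      rw [hRF.deg] at hdisc
      exact hdisc.trans (Nat.mul_le_mul_left _ hRF.disc)
    have h4 : (((discr K).natAbs : ℕ) : ℝ) ≤ 4 ^ D * (P : ℝ) ^ D := by exact_mod_cast h3
    refine h4.trans ?_
    rw [← mul_pow, ← pow_mul, mul_comm D 2, pow_mul]
    refine pow_le_pow_left₀ (by positivity) ?_ D
    have h5 : (1 : ℝ) ≤ P := by exact_mod_cast hP1
    nlinarith
  have hlt : (Ideal.absNorm p.1 : ℝ) * 2 ^ D * √((discr K).natAbs : ℝ) <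
      Real.pi ^ D * ((2 * (P : ℝ)) ^ D * ∏ w : InfinitePlace K, w (xK : K)) := by
    rw [hN]
    have h3 : (2 : ℝ) ^ D < Real.pi ^ D :=
      pow_lt_pow_left₀ (by linarith [Real.pi_gt_three]) (by norm_num) (by omega)
    have h5 : (0 : ℝ) < P := by exact_mod_cast (by omega : 0 < P)
    have h4 : (0 : ℝ) < (2 * (P : ℝ)) ^ D := by positivity
    calc (Ideal.absNorm p.1 : ℝ) * 2 ^ D * √((discr K).natAbs : ℝ)
        ≤ (Ideal.absNorm p.1 : ℝ) * 2 ^ D * (2 * (P : ℝ)) ^ D := by gcongr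
      _ < (Ideal.absNorm p.1 : ℝ) * Real.pi ^ D * (2 * (P : ℝ)) ^ D := by gcongr
      _ = _ := by ring
  have h5 : (0 : ℝ) < 2 * (P : ℝ) := by
    have : (0 : ℝ) < P := by exact_mod_cast (by omega : 0 < P)
    linarith
  obtain ⟨y, hyI, hy0, hyw⟩ := N1_mink D p.1 (2 * (P : ℝ)) (fun w => w (xK : K)) hcx hfin hI h5
    (fun w => (InfinitePlace.pos_iff (w := w)).2 hxK0) hlt
  refine ⟨y, hyI, hy0, ?_⟩
  have h6 := hmem p.1 y hyI
  rw [hsol', Ideal.mem_span_singleton] at h6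
  obtain ⟨b, hb⟩ := hdvd x (nm q y) h6
  have hτb : ∀ τ : L →+* ℝ, τ (nm q y : L) = τ (x : L) * τ (b : L) := by
    intro τ
    rw [hb]
    simp
  refine ⟨b, hb, ?_, ?_⟩
  · intro τ
    have h7 := hTPnm y hy0 τ
    rw [hτb τ] at h7
    exact (mul_pos_iff_of_pos_left (hTP τ)).1 h7
  · intro τ
    obtain ⟨φ, hφ, hφn⟩ := hτφ τ
    have h7 := hyw (InfinitePlace.mk φ)
    have h8 : (InfinitePlace.mk φ) (y : K) ^ 2 = τ (x : L) * τ (b : L) := by
      rw [InfinitePlace.apply, ← hφn y, hτb τ]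
    have h9 : (InfinitePlace.mk φ) (xK : K) = τ (x : L) := by
      rw [InfinitePlace.apply, hxKc, hφ, Complex.norm_real, Real.norm_eq_abs,
        abs_of_pos (hTP τ)]
    rw [h8] at h7
    have h10 : τ (x : L) * τ (b : L) < τ (x : L) * (2 * (P : ℝ)) := by
      calc τ (x : L) * τ (b : L) < 2 * (P : ℝ) * (InfinitePlace.mk φ) (xK : K) := h7
        _ = τ (x : L) * (2 * (P : ℝ)) := by rw [h9]; ring
    exact (lt_of_mul_lt_mul_left h10 (hTP τ).le).le

end Pool.Agent.RNK
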