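import Pool.Agent.RNK.StN

set_option autoImplicit false

/-!
# RNK / N2: the number of ideals `I` with `I * bar I = (x)`
-/

namespace Pool.Agent.RNK

open IsDedekindDomain NumberField Pool.Agent.QCF Pool.Agent.UDT

/-- finitely many solutions -/
private lemma n2_finite {L K : Type} [Field L] [NumberField L] [Field K] [NumberField K]
    [Algebra L K] (q : QE L K (-1 : L)) {A : Ideal (𝓞 K)} (hA : A ≠ ⊥) :
    {I : Ideal (𝓞 K) | I * bar q I = A}.Finite := by
  refine (Ideal.finite_setOfPred_absNorm_le (S := 𝓞 K) (Ideal.absNorm A)).subset ?_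
  intro I hI
  have h1 : I ∣ A := ⟨bar q I, hI.symm⟩
  have h2 : Ideal.absNorm A ≠ 0 := fun h => hA (Ideal.absNorm_eq_zero_iff.mp h)
  exact Nat.le_of_dvd (Nat.pos_of_ne_zero h2) (map_dvd Ideal.absNorm h1)

/-- the shape of the number of solutions -/
private def n2P {L K : Type} [Field L] [NumberField L] [Field K] [NumberField K]
    [Algebra L K] (q : QE L K (-1 : L)) (J : Ideal (𝓞 L)) : Prop :=
  J ≠ ⊥ → (solI q J).ncard = 0 ∨
    ∃ (S : Finset (HeightOneSpectrum (𝓞 L))) (v : HeightOneSpectrum (𝓞 L) → ℕ),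
      (∀ w ∈ S, 1 ≤ v w) ∧ (∏ w ∈ S, w.asIdeal ^ v w) ∣ J ∧
      (solI q J).ncard = ∏ w ∈ S, (v w + 1)

private lemma n2_cop {R : Type*} [CommRing R] [IsDedekindDomain R] {x y : Ideal R}
    (h : IsRelPrime x y) : IsCoprime x y := by
  rw [Ideal.isCoprime_iff_sup_eq]
  have h1 : IsUnit (x ⊔ y) := h (Ideal.dvd_iff_le.mpr le_sup_left) (Ideal.dvd_iff_le.mpr le_sup_right)
  exact Ideal.isUnit_iff.mp h1

private theorem n2_main (ha : St_N2a) (hb : St_N2b) {L K : Type} [Field L] [NumberField L]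
    [Field K] [NumberField K] [Algebra L K] (q : QE L K (-1 : L)) (J : Ideal (𝓞 L)) :
    n2P q J := by
  classical
  refine UniqueFactorizationMonoid.induction_on_coprime (P := n2P q) J ?_ ?_ ?_ ?_
  · intro h
    exact absurd rfl h
  · intro x hx _
    have hx' : x = ⊤ := Ideal.isUnit_iff.mp hx
    have h1 := ha L K q x x (by rw [hx']; exact top_ne_bot) (by rw [hx']; exact top_ne_bot)
      (by rw [Ideal.isCoprime_iff_sup_eq, hx', sup_idem])
    have h2 : x * x = x := by rw [hx', Ideal.mul_top]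
    rw [h2] at h1
    rcases Nat.eq_zero_or_pos (solI q x).ncard with h3 | h3
    · exact Or.inl h3
    · refine Or.inr ⟨∅, fun _ => 0, by simp, by simp, ?_⟩
      rw [Finset.prod_empty]
      exact (Nat.eq_of_mul_eq_mul_left h3 (by rw [mul_one]; exact h1)).symm
  · intro p n hp _
    have hp0 : p ≠ ⊥ := hp.ne_zero
    let w : HeightOneSpectrum (𝓞 L) := ⟨p, Ideal.isPrime_of_prime hp, hp0⟩
    rcases (hb L K q w n).2 with h1 | h1
    · rcases Nat.le_one_iff_eq_zero_or_eq_one.mp h1 with h2 | h2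
      · exact Or.inl h2
      · exact Or.inr ⟨∅, fun _ => 0, by simp, by simp, by rw [Finset.prod_empty]; exact h2⟩
    · rcases Nat.eq_zero_or_pos n with h2 | h2
      · refine Or.inr ⟨∅, fun _ => 0, by simp, by simp, ?_⟩
        rw [Finset.prod_empty]
        exact Eq.trans h1 (by omega)
      · refine Or.inr ⟨{w}, fun _ => n, fun _ _ => h2, ?_, ?_⟩
        · rw [Finset.prod_singleton]
        · rw [Finset.prod_singleton]
          exact h1
  · intro x y hxy hx hy hne
    have hx0 : x ≠ ⊥ := by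
      rintro rfl
      exact hne (Ideal.bot_mul y)
    have hy0 : y ≠ ⊥ := by
      rintro rfl
      exact hne (Ideal.mul_bot x)
    have hm := ha L K q x y hx0 hy0 (n2_cop hxy)
    rcases hx hx0 with h1 | ⟨S₁, v₁, h1, h2, h3⟩
    · exact Or.inl (by rw [hm, h1, zero_mul])
    rcases hy hy0 with k1 | ⟨S₂, v₂, k1, k2, k3⟩
    · exact Or.inl (by rw [hm, k1, mul_zero])
    have hdisj : Disjoint S₁ S₂ := by
      rw [Finset.disjoint_left]
      intro w hw1 hw2
      have d1 : w.asIdeal ∣ x := ((dvd_pow_self _ (Nat.one_le_iff_ne_zero.mp (h1 w hw1))).trans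
        (Finset.dvd_prod_of_mem (fun w : HeightOneSpectrum (𝓞 L) => w.asIdeal ^ v₁ w) hw1)).trans h2
      have d2 : w.asIdeal ∣ y := ((dvd_pow_self _ (Nat.one_le_iff_ne_zero.mp (k1 w hw2))).trans
        (Finset.dvd_prod_of_mem (fun w : HeightOneSpectrum (𝓞 L) => w.asIdeal ^ v₂ w) hw2)).trans k2
      exact w.isPrime.ne_top (Ideal.isUnit_iff.mp (hxy d1 d2))
    obtain ⟨v, e1, e2⟩ : ∃ v : HeightOneSpectrum (𝓞 L) → ℕ, (∀ w ∈ S₁, v w = v₁ w) ∧
        ∀ w ∈ S₂, v w = v₂ w :=
      ⟨fun w => if w ∈ S₁ then v₁ w else v₂ w, fun w hw => if_pos hw,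
        fun w hw => if_neg (Finset.disjoint_right.mp hdisj hw)⟩
    refine Or.inr ⟨S₁ ∪ S₂, v, ?_, ?_, ?_⟩
    · intro w hw
      rcases Finset.mem_union.mp hw with h | h
      · rw [e1 w h]
        exact h1 w h
      · rw [e2 w h]
        exact k1 w h
    · rw [Finset.prod_union hdisj]
      refine mul_dvd_mul ?_ ?_
      · rw [Finset.prod_congr rfl fun w hw => by rw [e1 w hw]]
        exact h2
      · rw [Finset.prod_congr rfl fun w hw => by rw [e2 w hw]]
        exact k2
    · rw [Finset.prod_union hdisj, hm, h3, k3]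
      congr 1
      · exact Finset.prod_congr rfl fun w hw => by rw [e1 w hw]
      · exact Finset.prod_congr rfl fun w hw => by rw [e2 w hw]

theorem thm_N2 : St_N2a → St_N2b → St_N2 := by
  intro ha hb L K _ _ _ _ _ q x hx
  have hsol : sol q x = solI q (Ideal.span {x}) := by
    unfold sol solI
    rw [Ideal.map_span, Set.image_singleton]
  have hx' : Ideal.span {x} ≠ ⊥ := by
    rw [Ne, Ideal.span_singleton_eq_bot]
    exact hx
  refine ⟨n2_finite q ?_, ?_⟩
  · rw [Ne, Ideal.span_singleton_eq_bot]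
    intro h
    exact hx ((FaithfulSMul.algebraMap_injective (𝓞 L) (𝓞 K)) (by rw [h, map_zero]))
  · unfold dd
    rw [hsol]
    exact n2_main ha hb q (Ideal.span {x}) hx'

end Pool.Agent.RNK
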