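import Pool.Agent.RNK.StN

set_option autoImplicit false

/-!
# RNK / N2a: the ideals `I` with `I * bar I = J`, multiplicativity in `J`
-/

namespace Pool.Agent.RNK

open IsDedekindDomain NumberField Pool.Agent.QCF Pool.Agent.UDT

/-- extended ideals are invariant under conjugation -/
private lemma n2a_bar_map {L K : Type} [Field L] [NumberField L] [Field K] [NumberField K]
    [Algebra L K] (q : QE L K (-1 : L)) (J : Ideal (𝓞 L)) :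
    bar q (J.map (algebraMap (𝓞 L) (𝓞 K))) = J.map (algebraMap (𝓞 L) (𝓞 K)) := by
  unfold bar
  rw [Ideal.map_map]
  congr 1
  ext x
  show q.σ ((algebraMap (𝓞 L) (𝓞 K) x : 𝓞 K) : K) = ((algebraMap (𝓞 L) (𝓞 K) x : 𝓞 K) : K)
  exact q.σ.commutes (x : L)

private lemma n2a_bar_sup {L K : Type} [Field L] [NumberField L] [Field K] [NumberField K]
    [Algebra L K] (q : QE L K (-1 : L)) (I J : Ideal (𝓞 K)) :
    bar q (I ⊔ J) = bar q I ⊔ bar q J := Ideal.map_sup _ _ _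

private lemma n2a_bar_mul {L K : Type} [Field L] [NumberField L] [Field K] [NumberField K]
    [Algebra L K] (q : QE L K (-1 : L)) (I J : Ideal (𝓞 K)) :
    bar q (I * J) = bar q I * bar q J := Ideal.map_mul _ _ _

/-- if `I₁ ⊇ A₁`, `I₂ ⊇ A₂` with `A₁`, `A₂` coprime then `I₁ I₂ + A₁ = I₁` -/
private lemma n2a_sup {R : Type*} [CommRing R] {A₁ A₂ I₁ I₂ : Ideal R} (hA : A₁ ⊔ A₂ = ⊤)
    (h1 : A₁ ≤ I₁) (h2 : A₂ ≤ I₂) : I₁ * I₂ ⊔ A₁ = I₁ := by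
  refine le_antisymm (sup_le Ideal.mul_le_left h1) ?_
  have h3 : A₁ ⊔ I₂ = ⊤ := eq_top_iff.mpr (hA ▸ sup_le_sup_left h2 A₁)
  calc I₁ = I₁ * (A₁ ⊔ I₂) := by rw [h3, Ideal.mul_top]
    _ = I₁ * A₁ ⊔ I₁ * I₂ := Ideal.mul_sup _ _ _
    _ ≤ I₁ * I₂ ⊔ A₁ := sup_le (Ideal.mul_le_right.trans le_sup_right) le_sup_left

/-- if `I J = A₁ A₂` with `A₁`, `A₂` coprime then `(I + A₁)(J + A₁) = A₁` -/
private lemma n2a_mul {R : Type*} [CommRing R] {A₁ A₂ I J : Ideal R} (hA : A₁ ⊔ A₂ = ⊤)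
    (h : I * J = A₁ * A₂) : (I ⊔ A₁) * (J ⊔ A₁) = A₁ := by
  rw [Ideal.sup_mul, Ideal.mul_sup, Ideal.mul_sup, h]
  refine le_antisymm (sup_le (sup_le Ideal.mul_le_left Ideal.mul_le_right)
    (sup_le Ideal.mul_le_left Ideal.mul_le_right)) ?_
  calc A₁ = A₁ * (A₁ ⊔ A₂) := by rw [hA, Ideal.mul_top]
    _ = A₁ * A₁ ⊔ A₁ * A₂ := Ideal.mul_sup _ _ _
    _ ≤ _ := sup_le (le_sup_right.trans le_sup_right) (le_sup_left.trans le_sup_left)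

/-- if `A₁ A₂ ⊆ I` with `A₁`, `A₂` coprime then `(I + A₁)(I + A₂) = I` -/
private lemma n2a_split {R : Type*} [CommRing R] {A₁ A₂ I : Ideal R} (hA : A₁ ⊔ A₂ = ⊤)
    (h : A₁ * A₂ ≤ I) : (I ⊔ A₁) * (I ⊔ A₂) = I := by
  rw [Ideal.sup_mul, Ideal.mul_sup, Ideal.mul_sup]
  refine le_antisymm (sup_le (sup_le Ideal.mul_le_left Ideal.mul_le_left)
    (sup_le Ideal.mul_le_right h)) ?_
  calc I = I * (A₁ ⊔ A₂) := by rw [hA, Ideal.mul_top]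
    _ = I * A₁ ⊔ I * A₂ := Ideal.mul_sup _ _ _
    _ ≤ _ := sup_le ((mul_comm I A₁).le.trans (le_sup_left.trans le_sup_right))
        (le_sup_right.trans le_sup_left)

theorem thm_N2a : St_N2a := by
  intro L K _ _ _ _ _ q J₁ J₂ _ _ hcop
  set A₁ := J₁.map (algebraMap (𝓞 L) (𝓞 K)) with hA₁
  set A₂ := J₂.map (algebraMap (𝓞 L) (𝓞 K)) with hA₂
  have hA : A₁ ⊔ A₂ = ⊤ := by
    rw [hA₁, hA₂, ← Ideal.map_sup, Ideal.isCoprime_iff_sup_eq.mp hcop, Ideal.map_top]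
  have hA' : A₂ ⊔ A₁ = ⊤ := by rw [sup_comm, hA]
  have hb₁ : bar q A₁ = A₁ := n2a_bar_map q J₁
  have hb₂ : bar q A₂ = A₂ := n2a_bar_map q J₂
  have hs₁ : ∀ I, I ∈ solI q J₁ ↔ I * bar q I = A₁ := fun I => Iff.rfl
  have hs₂ : ∀ I, I ∈ solI q J₂ ↔ I * bar q I = A₂ := fun I => Iff.rfl
  have hs : ∀ I, I ∈ solI q (J₁ * J₂) ↔ I * bar q I = A₁ * A₂ := fun I => by
    rw [hA₁, hA₂, ← Ideal.map_mul]
    exact Iff.rfl
  have himg : solI q (J₁ * J₂) = (fun p : Ideal (𝓞 K) × Ideal (𝓞 K) => p.1 * p.2) ''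
      (solI q J₁ ×ˢ solI q J₂) := by
    ext I
    rw [hs, Set.mem_image]
    constructor
    · intro h
      have h' : I * bar q I = A₂ * A₁ := by rw [h, mul_comm]
      refine ⟨(I ⊔ A₁, I ⊔ A₂), Set.mem_prod.mpr ⟨?_, ?_⟩, ?_⟩
      · show (I ⊔ A₁) ∈ solI q J₁
        rw [hs₁, n2a_bar_sup, hb₁]
        exact n2a_mul hA h
      · show (I ⊔ A₂) ∈ solI q J₂
        rw [hs₂, n2a_bar_sup, hb₂]
        exact n2a_mul hA' h'
      · exact n2a_split hA (h ▸ Ideal.mul_le_left)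
    · rintro ⟨⟨I₁, I₂⟩, hp, rfl⟩
      obtain ⟨h1, h2⟩ := Set.mem_prod.mp hp
      have h1' : I₁ * bar q I₁ = A₁ := h1
      have h2' : I₂ * bar q I₂ = A₂ := h2
      show I₁ * I₂ * bar q (I₁ * I₂) = A₁ * A₂
      rw [n2a_bar_mul, ← h1', ← h2']
      ring
  have hinj : Set.InjOn (fun p : Ideal (𝓞 K) × Ideal (𝓞 K) => p.1 * p.2)
      (solI q J₁ ×ˢ solI q J₂) := by
    rintro ⟨I₁, I₂⟩ hp ⟨I₁', I₂'⟩ hp' (he : I₁ * I₂ = I₁' * I₂')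
    obtain ⟨h1, h2⟩ := Set.mem_prod.mp hp
    obtain ⟨h3, h4⟩ := Set.mem_prod.mp hp'
    have k1 : A₁ ≤ I₁ := ((hs₁ I₁).mp h1) ▸ Ideal.mul_le_left
    have k2 : A₂ ≤ I₂ := ((hs₂ I₂).mp h2) ▸ Ideal.mul_le_left
    have k3 : A₁ ≤ I₁' := ((hs₁ I₁').mp h3) ▸ Ideal.mul_le_left
    have k4 : A₂ ≤ I₂' := ((hs₂ I₂').mp h4) ▸ Ideal.mul_le_left
    have e1 : I₁ = I₁' := by rw [← n2a_sup hA k1 k2, he, n2a_sup hA k3 k4]
    have e2 : I₂ = I₂' := by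
      rw [← n2a_sup hA' k2 k1, mul_comm I₂ I₁, he, mul_comm I₁' I₂', n2a_sup hA' k4 k3]
    rw [e1, e2]
  rw [himg, hinj.ncard_image, Set.ncard_prod]

end Pool.Agent.RNK
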