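import Pool.Agent.RNK.StN

set_option autoImplicit false

/-!
# RNK / N2b: the solutions of `I * bar I = w ^ n`, `w` a prime of `L` (helper25)
-/

namespace Pool.Agent.RNK

open IsDedekindDomain NumberField Pool.Agent.QCF Pool.Agent.UDT

section

variable {L K : Type} [Field L] [NumberField L] [Field K] [NumberField K] [Algebra L K]

omit [NumberField L] [NumberField K] in
private theorem N2b_rank (q : QE L K (-1 : L)) : Module.finrank L K ≤ 2 := by
  have h1 : Submodule.span L (Set.range ![(1 : K), q.ω]) = ⊤ := by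
    rw [eq_top_iff]
    intro z _
    obtain ⟨x, y, rfl⟩ := q.repr z
    refine Submodule.add_mem _ ?_ ?_
    · rw [Algebra.algebraMap_eq_smul_one]
      exact Submodule.smul_mem _ _ (Submodule.subset_span ⟨0, rfl⟩)
    · rw [← Algebra.smul_def]
      exact Submodule.smul_mem _ _ (Submodule.subset_span ⟨1, rfl⟩)
  have h2 := finrank_range_le_card (R := L) ![(1 : K), q.ω]
  rw [Set.finrank, h1, finrank_top, Fintype.card_fin] at h2
  exact h2

omit [NumberField L] [Field L] [Algebra L K] in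
/-- ideals with at most two prime factors -/
private theorem N2b_two (P P' : Ideal (𝓞 K)) (I : Ideal (𝓞 K)) : I ≠ 0 →
    (∀ Q : Ideal (𝓞 K), Prime Q → Q ∣ I → Q = P ∨ Q = P') → ∃ a b : ℕ, I = P ^ a * P' ^ b := by
  induction I using UniqueFactorizationMonoid.induction_on_prime with
  | h₁ =>
    intro h
    exact absurd rfl h
  | h₂ x hx =>
    intro _ _
    exact ⟨0, 0, by rw [pow_zero, pow_zero, one_mul]; exact isUnit_iff_eq_one.1 hx⟩
  | h₃ x p hx hp ih =>
    intro _ h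
    obtain ⟨a, b, hab⟩ := ih hx (fun Q hQ hd => h Q hQ (hd.mul_left p))
    rcases h p hp (dvd_mul_right p x) with rfl | rfl
    · exact ⟨a + 1, b, by rw [hab, pow_succ]; ring⟩
    · exact ⟨a, b + 1, by rw [hab, pow_succ]; ring⟩

/-- primes of `K` above `w` -/
private theorem N2b_or (q : QE L K (-1 : L)) (w : HeightOneSpectrum (𝓞 L))
    (P : HeightOneSpectrum (𝓞 K)) (hP : P.under (𝓞 L) = w) (Q : Ideal (𝓞 K)) (hQ : Prime Q)
    (hd : Q ∣ w.asIdeal.map (algebraMap (𝓞 L) (𝓞 K))) :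
    Q = P.asIdeal ∨ Q = (mv q.σ P).asIdeal := by
  have hle : w.asIdeal ≤ Q.comap (algebraMap (𝓞 L) (𝓞 K)) :=
    Ideal.map_le_iff_le_comap.1 (Ideal.dvd_iff_le.1 hd)
  have hQp : Q.IsPrime := Ideal.isPrime_of_prime hQ
  have hQm : Q.IsMaximal := hQp.isMaximal hQ.ne_zero
  have hcm : (Q.comap (algebraMap (𝓞 L) (𝓞 K))).IsPrime := Ideal.comap_isPrime _ _
  have heq : w.asIdeal = Q.comap (algebraMap (𝓞 L) (𝓞 K)) :=
    w.isMaximal.eq_of_le hcm.ne_top hle
  have hsub : (Q : Set (𝓞 K)) ⊆ (P.asIdeal : Set (𝓞 K)) ∪ ((mv q.σ P).asIdeal : Set (𝓞 K)) := by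
    intro z hz
    have h1 : algebraMap (𝓞 L) (𝓞 K) (nm q z) =
        z * RingOfIntegers.mapRingEquiv (q.σ : K ≃+* K) z := RingOfIntegers.ext (nm_spec q z)
    have h2 : nm q z ∈ w.asIdeal := by
      rw [heq, Ideal.mem_comap, h1]
      exact Ideal.mul_mem_right _ _ hz
    have h3 : algebraMap (𝓞 L) (𝓞 K) (nm q z) ∈ P.asIdeal := by
      rw [← hP] at h2
      exact h2
    rw [h1] at h3
    rcases P.isPrime.mem_or_mem h3 with h | h
    · exact Or.inl h
    · exact Or.inr h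
  rcases Ideal.subset_union.1 hsub with h | h
  · exact Or.inl (hQm.eq_of_le P.isPrime.ne_top h)
  · exact Or.inr (hQm.eq_of_le (mv q.σ P).isPrime.ne_top h)

/-- a split prime -/
private theorem N2b_split (q : QE L K (-1 : L)) (w : HeightOneSpectrum (𝓞 L))
    (P P' : HeightOneSpectrum (𝓞 K)) (hP : P.under (𝓞 L) = w) (hP' : P'.under (𝓞 L) = w)
    (hne : P ≠ P') :
    w.asIdeal.map (algebraMap (𝓞 L) (𝓞 K)) = P.asIdeal * P'.asIdeal := by
  have hle : ∀ Q : HeightOneSpectrum (𝓞 K), Q.under (𝓞 L) = w →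
      Ideal.map (algebraMap (𝓞 L) (𝓞 K)) w.asIdeal ≤ Q.asIdeal := by
    intro Q hQ
    rw [Ideal.map_le_iff_le_comap]
    intro x hx
    rw [← hQ] at hx
    exact hx
  have hcop : IsCoprime P.asIdeal P'.asIdeal := by
    have := P.isMaximal
    have := P'.isMaximal
    exact Ideal.isCoprime_of_isMaximal fun h => hne (HeightOneSpectrum.ext h)
  obtain ⟨J, hJ⟩ : P.asIdeal * P'.asIdeal ∣ Ideal.map (algebraMap (𝓞 L) (𝓞 K)) w.asIdeal :=
    hcop.mul_dvd (Ideal.dvd_iff_le.2 (hle P hP)) (Ideal.dvd_iff_le.2 (hle P' hP'))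
  have hw0 : Ideal.absNorm w.asIdeal ≠ 0 := by
    rw [Ne, Ideal.absNorm_eq_zero_iff]
    exact w.ne_bot
  have hge : ∀ Q : HeightOneSpectrum (𝓞 K), Q.under (𝓞 L) = w →
      Ideal.absNorm w.asIdeal ≤ Ideal.absNorm Q.asIdeal := by
    intro Q hQ
    have hc : w.asIdeal = Q.asIdeal.comap (algebraMap (𝓞 L) (𝓞 K)) := by
      rw [← hQ]
      rfl
    have hfin : Finite (𝓞 K ⧸ Q.asIdeal) := by
      rw [← Ideal.absNorm_ne_zero_iff, Ne, Ideal.absNorm_eq_zero_iff]
      exact Q.ne_bot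
    rw [Ideal.absNorm_apply, Ideal.absNorm_apply, Submodule.cardQuot_apply,
      Submodule.cardQuot_apply]
    refine Nat.card_le_card_of_injective
      (Ideal.quotientMap Q.asIdeal (algebraMap (𝓞 L) (𝓞 K)) hc.le) ?_
    exact Ideal.quotientMap_injective' hc.ge
  have hfr : Module.finrank (𝓞 L) (𝓞 K) ≤ 2 := by
    rw [← IsFractionRing.finrank_eq (𝓞 L) L (𝓞 K) K]
    exact N2b_rank q
  have hnorm : Ideal.absNorm (Ideal.map (algebraMap (𝓞 L) (𝓞 K)) w.asIdeal) =
      Ideal.absNorm w.asIdeal ^ Module.finrank (𝓞 L) (𝓞 K) := by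
    rw [Ideal.absNorm_algebraMap]
  rw [hJ, map_mul, map_mul] at hnorm
  have h1 := hge P hP
  have h2 := hge P' hP'
  have h3 : Ideal.absNorm P.asIdeal * Ideal.absNorm P'.asIdeal * Ideal.absNorm J ≤
      Ideal.absNorm w.asIdeal * Ideal.absNorm w.asIdeal := by
    rw [hnorm, ← pow_two]
    exact Nat.pow_le_pow_right (Nat.pos_of_ne_zero hw0) hfr
  have h4 : Ideal.absNorm J ≠ 0 := by
    intro h
    rw [h, mul_zero] at hnorm
    exact (pow_ne_zero _ hw0) hnorm.symm
  have h5 : Ideal.absNorm w.asIdeal * Ideal.absNorm w.asIdeal ≤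
      Ideal.absNorm P.asIdeal * Ideal.absNorm P'.asIdeal := Nat.mul_le_mul h1 h2
  have h6 : Ideal.absNorm J = 1 := by
    refine le_antisymm ?_ (Nat.one_le_iff_ne_zero.2 h4)
    have h7 := (Nat.mul_le_mul_right (Ideal.absNorm J) h5).trans h3
    refine Nat.le_of_mul_le_mul_left (by rw [mul_one]; exact h7) ?_
    exact Nat.mul_pos (Nat.pos_of_ne_zero hw0) (Nat.pos_of_ne_zero hw0)
  rw [hJ, Ideal.absNorm_eq_one_iff.1 h6, Ideal.mul_top]

end

theorem thm_N2b : St_N0a → St_N2b := by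
  intro hN0 L K _ _ _ _ _ q w n
  obtain ⟨-, -, -, -, -, -, hmul, hbb, -, -, -, hmv⟩ := hN0 L K q
  -- a prime above `w`
  obtain ⟨P, hP⟩ : ∃ P : HeightOneSpectrum (𝓞 K), P.under (𝓞 L) = w := by
    obtain ⟨Q, hQ, hle⟩ := w.asIdeal.exists_ideal_over_prime_of_isIntegral_of_isDomain
      (S := 𝓞 K) (by simp)
    have hQ0 : Q ≠ ⊥ := by
      rintro rfl
      apply w.ne_bot
      rw [← hle]
      exact Ideal.comap_bot_of_injective _ (FaithfulSMul.algebraMap_injective (𝓞 L) (𝓞 K))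
    exact ⟨⟨Q, hQ, hQ0⟩, HeightOneSpectrum.ext hle⟩
  have hmP : (mv q.σ P).under (𝓞 L) = w := by
    rw [← hP]
    apply HeightOneSpectrum.ext
    ext t
    change RingOfIntegers.mapRingEquiv (q.σ : K ≃+* K) (algebraMap (𝓞 L) (𝓞 K) t) ∈ P.asIdeal ↔
      algebraMap (𝓞 L) (𝓞 K) t ∈ P.asIdeal
    have h1 : RingOfIntegers.mapRingEquiv (q.σ : K ≃+* K) (algebraMap (𝓞 L) (𝓞 K) t) =
        algebraMap (𝓞 L) (𝓞 K) t := RingOfIntegers.ext (AlgEquiv.commutes _ _)
    rw [h1]
  have hbP : bar q P.asIdeal = (mv q.σ P).asIdeal := hmv P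
  have hbP' : bar q (mv q.σ P).asIdeal = P.asIdeal := by
    rw [← hbP]
    exact (hbb _).1
  have hbpow : ∀ (I : Ideal (𝓞 K)) (a : ℕ), bar q (I ^ a) = bar q I ^ a := by
    intro I a
    exact Ideal.map_pow _ _ _
  have hpr : Prime P.asIdeal := P.prime
  have hpr' : Prime (mv q.σ P).asIdeal := (mv q.σ P).prime
  have hw0 : w.asIdeal.map (algebraMap (𝓞 L) (𝓞 K)) ≠ 0 := by
    rw [Ideal.zero_eq_bot, Ne, Ideal.map_eq_bot_iff_of_injective
      (FaithfulSMul.algebraMap_injective (𝓞 L) (𝓞 K))]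
    exact w.ne_bot
  have hsol : ∀ I : Ideal (𝓞 K), I ∈ solI q (w.asIdeal ^ n) ↔
      I * bar q I = w.asIdeal.map (algebraMap (𝓞 L) (𝓞 K)) ^ n := by
    intro I
    rw [← Ideal.map_pow]
    exact Iff.rfl
  have hform : ∀ I : Ideal (𝓞 K), I ∈ solI q (w.asIdeal ^ n) →
      ∃ a b : ℕ, I = P.asIdeal ^ a * (mv q.σ P).asIdeal ^ b := by
    intro I hI
    rw [hsol] at hI
    have hI0 : I ≠ 0 := by
      rintro rfl
      rw [zero_mul] at hI
      exact pow_ne_zero _ hw0 hI.symm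
    refine N2b_two _ _ I hI0 fun Q hQ hd => N2b_or q w P hP Q hQ ?_
    refine hQ.dvd_of_dvd_pow (n := n) ?_
    rw [← hI]
    exact hd.mul_right _
  by_cases hne : P = mv q.σ P
  · -- one prime above `w`
    have hone : (solI q (w.asIdeal ^ n)).Subsingleton := by
      intro I hI J hJ
      obtain ⟨a, b, hab⟩ := hform I hI
      obtain ⟨c, d, hcd⟩ := hform J hJ
      rw [← hne, ← pow_add] at hab hcd
      rw [hsol, hab, hbpow, hbP, ← hne, ← pow_add] at hI
      rw [hsol, hcd, hbpow, hbP, ← hne, ← pow_add, ← hI] at hJ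
      have h1 : (c + d) + (c + d) = (a + b) + (a + b) :=
        pow_injective_of_not_isUnit hpr.not_unit hpr.ne_zero hJ
      rw [hab, hcd, show a + b = c + d by omega]
    refine ⟨hone.finite, Or.inl ?_⟩
    exact (Set.ncard_le_one hone.finite).2 fun a ha b hb => hone ha hb
  · -- two primes above `w`
    have hw := N2b_split q w P (mv q.σ P) hP hmP hne
    have hmem : ∀ a b : ℕ, P.asIdeal ^ a * (mv q.σ P).asIdeal ^ b ∈ solI q (w.asIdeal ^ n) ↔
        a + b = n := by
      intro a b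
      rw [hsol, hmul, hbpow, hbpow, hbP, hbP', hw]
      have h1 : P.asIdeal ^ a * (mv q.σ P).asIdeal ^ b * ((mv q.σ P).asIdeal ^ a * P.asIdeal ^ b) =
          (P.asIdeal * (mv q.σ P).asIdeal) ^ (a + b) := by
        rw [mul_pow, pow_add, pow_add]
        ring
      rw [h1]
      constructor
      · intro h
        refine pow_injective_of_not_isUnit ?_ (mul_ne_zero hpr.ne_zero hpr'.ne_zero) h
        intro hu
        exact hpr.not_unit (isUnit_of_mul_isUnit_left hu)
      · intro h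
        rw [h]
    have hinj : ∀ a b c d : ℕ, P.asIdeal ^ a * (mv q.σ P).asIdeal ^ b =
        P.asIdeal ^ c * (mv q.σ P).asIdeal ^ d → a ≤ c → a = c := by
      intro a b c d h hac
      obtain ⟨k, rfl⟩ := Nat.exists_eq_add_of_le hac
      rw [pow_add, mul_assoc] at h
      have h1 := mul_left_cancel₀ (pow_ne_zero a hpr.ne_zero) h
      rcases Nat.eq_zero_or_pos k with hk | hk
      · omega
      · exfalso
        have h2 : P.asIdeal ∣ (mv q.σ P).asIdeal ^ b := by
          rw [h1]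
          exact (dvd_pow_self _ hk.ne').mul_right _
        have h3 : (mv q.σ P).asIdeal ≤ P.asIdeal := Ideal.dvd_iff_le.1 (hpr.dvd_of_dvd_pow h2)
        exact hne (HeightOneSpectrum.ext
          ((mv q.σ P).isMaximal.eq_of_le P.isPrime.ne_top h3)).symm
    have hset : solI q (w.asIdeal ^ n) =
        (fun a : ℕ => P.asIdeal ^ a * (mv q.σ P).asIdeal ^ (n - a)) '' (Set.Iio (n + 1)) := by
      ext I
      constructor
      · intro hI
        obtain ⟨a, b, rfl⟩ := hform I hI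
        have h1 := (hmem a b).1 hI
        refine ⟨a, Set.mem_Iio.2 (by omega), ?_⟩
        simp only
        rw [show n - a = b by omega]
      · rintro ⟨a, ha, rfl⟩
        rw [Set.mem_Iio] at ha
        exact (hmem a (n - a)).2 (by omega)
    have hinj' : Function.Injective
        (fun a : ℕ => P.asIdeal ^ a * (mv q.σ P).asIdeal ^ (n - a)) := by
      intro a c h
      rcases le_total a c with h1 | h1
      · exact hinj a _ c _ h h1
      · exact (hinj c _ a _ h.symm h1).symm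
    rw [hset]
    refine ⟨(Set.finite_Iio _).image _, Or.inr ?_⟩
    rw [Set.ncard_image_of_injective _ hinj', Set.ncard_eq_toFinset_card', Set.toFinset_Iio,
      Nat.card_Iio]

end Pool.Agent.RNK
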