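import Pool.Agent.RNK.StN

set_option autoImplicit false

/-!
# RNK / N3: representatives of the unimodular hermitian lattices, their number (helper6)
-/

namespace Pool.Agent.RNK

open IsDedekindDomain NumberField Pool.Agent.QCF Pool.Agent.UDT

section

variable {L K : Type} [Field L] [NumberField L] [Field K] [NumberField K] [Algebra L K]

/-- isometric pairs -/
private def n3Sim (q : QE L K (-1 : L)) (p p' : Ideal (𝓞 K) × 𝓞 L) : Prop :=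
  ∃ y y' : 𝓞 K, y ≠ 0 ∧ y' ≠ 0 ∧ Ideal.span {y} * p.1 = Ideal.span {y'} * p'.1 ∧
    nm q y * p.2 = nm q y' * p'.2

/-- `p` matches `(I, x)` -/
private def n3M (q : QE L K (-1 : L)) (x : 𝓞 L) (I : Ideal (𝓞 K)) (p : Ideal (𝓞 K) × 𝓞 L) :
    Prop := ∃ y : 𝓞 K, I * p.1 = Ideal.span {y} ∧ nm q y = x * p.2

private theorem n3_refl (q : QE L K (-1 : L)) (p : Ideal (𝓞 K) × 𝓞 L) : n3Sim q p p :=
  ⟨1, 1, one_ne_zero, one_ne_zero, rfl, rfl⟩

private theorem n3_symm {q : QE L K (-1 : L)} {p p' : Ideal (𝓞 K) × 𝓞 L} (h : n3Sim q p p') :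
    n3Sim q p' p := by
  obtain ⟨y, y', h1, h2, h3, h4⟩ := h
  exact ⟨y', y, h2, h1, h3.symm, h4.symm⟩

private theorem n3_trans (h0a : St_N0a) {q : QE L K (-1 : L)} {p p' p'' : Ideal (𝓞 K) × 𝓞 L}
    (h : n3Sim q p p') (h' : n3Sim q p' p'') : n3Sim q p p'' := by
  obtain ⟨a1, -⟩ := h0a L K q
  obtain ⟨y, y', h1, h2, h3, h4⟩ := h
  obtain ⟨z, z', k1, k2, k3, k4⟩ := h'
  refine ⟨z * y, y' * z', mul_ne_zero k1 h1, mul_ne_zero h2 k2, ?_, ?_⟩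
  · rw [← Ideal.span_singleton_mul_span_singleton, ← Ideal.span_singleton_mul_span_singleton,
      mul_assoc, h3, mul_assoc, ← k3, ← mul_assoc, ← mul_assoc,
      mul_comm (Ideal.span {z}) (Ideal.span {y'})]
  · rw [a1, a1, mul_assoc, h4, mul_assoc, ← k4, ← mul_assoc, ← mul_assoc,
      mul_comm (nm q z) (nm q y')]

private theorem n3_span_ne {R : Type} [CommRing R] {y : R} (h : y ≠ 0) :
    (Ideal.span {y} : Ideal R) ≠ 0 := by
  intro h1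
  exact h (Ideal.span_singleton_eq_bot.mp h1)

private theorem n3_move (h0a : St_N0a) {q : QE L K (-1 : L)} {x : 𝓞 L} {I : Ideal (𝓞 K)}
    {p p' : Ideal (𝓞 K) × 𝓞 L} (h : n3M q x I p) (hs : n3Sim q p p') : n3M q x I p' := by
  obtain ⟨a1, -, a3, -⟩ := h0a L K q
  obtain ⟨y, h1, h2⟩ := h
  obtain ⟨u, u', k1, k2, k3, k4⟩ := hs
  have e1 : Ideal.span {u'} * (I * p'.1) = Ideal.span {u * y} := by
    rw [mul_left_comm, ← k3, mul_left_comm, h1, Ideal.span_singleton_mul_span_singleton]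
  have e2 : u' ∣ u * y := by
    have h3 : (Ideal.span {u'} : Ideal (𝓞 K)) ∣ Ideal.span {u * y} := ⟨_, e1.symm⟩
    have h4 := Ideal.dvd_iff_le.mp h3
    exact Ideal.span_singleton_le_span_singleton.mp h4
  obtain ⟨y₁, e3⟩ := e2
  refine ⟨y₁, ?_, ?_⟩
  · refine mul_left_cancel₀ (n3_span_ne k2) ?_
    rw [e1, e3, Ideal.span_singleton_mul_span_singleton]
  · have hne : nm q u' ≠ 0 := fun h => k2 ((a3 u').1 h)
    refine mul_left_cancel₀ hne ?_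
    rw [← a1, ← e3, a1, h2]
    linear_combination x * k4

private theorem n3_ne (h0a : St_N0a) {q : QE L K (-1 : L)} {x : 𝓞 L} {I : Ideal (𝓞 K)}
    (hx : x ≠ 0) (hI : I ∈ sol q x) : I ≠ 0 := by
  rintro rfl
  have h1 : (0 : Ideal (𝓞 K)) * bar q 0 = Ideal.span {algebraMap (𝓞 L) (𝓞 K) x} := hI
  rw [zero_mul] at h1
  have h2 := Ideal.span_singleton_eq_bot.mp h1.symm
  exact hx ((FaithfulSMul.algebraMap_injective (𝓞 L) (𝓞 K)) (by rw [h2, map_zero]))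

private theorem n3_uniq (h0a : St_N0a) {q : QE L K (-1 : L)} {x : 𝓞 L} {I : Ideal (𝓞 K)}
    (hI : I ≠ 0) {p p' : Ideal (𝓞 K) × 𝓞 L} (hp : p.1 ≠ 0) (hp' : p'.1 ≠ 0) (h : n3M q x I p)
    (h' : n3M q x I p') : n3Sim q p p' := by
  obtain ⟨y, h1, h2⟩ := h
  obtain ⟨y', k1, k2⟩ := h'
  have hy : y ≠ 0 := by
    rintro rfl
    rw [Ideal.span_singleton_eq_bot.mpr rfl] at h1
    exact mul_ne_zero hI hp h1
  have hy' : y' ≠ 0 := by
    rintro rfl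
    rw [Ideal.span_singleton_eq_bot.mpr rfl] at k1
    exact mul_ne_zero hI hp' k1
  refine ⟨y', y, hy', hy, ?_, ?_⟩
  · rw [← k1, ← h1, mul_assoc, mul_assoc, mul_comm p'.1 p.1]
  · rw [k2, h2]
    ring

/-- existence of a match -/
private theorem n3_ex (h0a : St_N0a) (h1 : St_N1) {P D : ℕ} {T : Finset ℕ} {q : QE L K (-1 : L)}
    (hR : RF P T D L) {x : 𝓞 L} {I : Ideal (𝓞 K)} (hx0 : x ≠ 0) (hx : TP x) (hI : I ∈ sol q x) :
    ∃ p : Ideal (𝓞 K) × 𝓞 L, UL q p ∧ (∀ τ : L →+* ℝ, τ (p.2 : L) ≤ 2 * P) ∧ n3M q x I p := by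
  obtain ⟨a1, -, -, -, -, -, a7, -, a9, -⟩ := h0a L K q
  obtain ⟨y, hyI, hy0, b, hb, hbT, hb2⟩ := h1 P D T L K q hR (I, x) ⟨hI, hx⟩
  have hd : I ∣ Ideal.span {y} := by
    rw [Ideal.dvd_iff_le, Ideal.span_singleton_le_iff_mem]
    exact hyI
  obtain ⟨J, hJ⟩ := hd
  refine ⟨(J, b), ⟨?_, hbT⟩, hb2, y, hJ.symm, hb⟩
  have hne : (Ideal.span {algebraMap (𝓞 L) (𝓞 K) x} : Ideal (𝓞 K)) ≠ 0 := by
    refine n3_span_ne fun h => hx0 ?_
    exact (FaithfulSMul.algebraMap_injective (𝓞 L) (𝓞 K)) (by rw [h, map_zero])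
  show J * bar q J = Ideal.span {algebraMap (𝓞 L) (𝓞 K) b}
  refine mul_left_cancel₀ hne ?_
  have e1 : I * bar q I = Ideal.span {algebraMap (𝓞 L) (𝓞 K) x} := hI
  rw [Ideal.span_singleton_mul_span_singleton, ← map_mul]
  have e2 : x * b = nm q y := hb.symm
  rw [e2, ← a9 y, hJ, a7, ← e1]
  ring

/-- `dd x ≤ |N x|` -/
private theorem n3_dd (h2 : St_N2) (q : QE L K (-1 : L)) {x : 𝓞 L} (hx : x ≠ 0) :
    dd q x ≤ Ideal.absNorm (Ideal.span {x}) := by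
  rcases (h2 L K q x hx).2 with h | ⟨S, v, h3, h4, h5⟩
  · rw [h]
    exact Nat.zero_le _
  · rw [h5]
    have hne : Ideal.absNorm (Ideal.span {x}) ≠ 0 := fun h =>
      n3_span_ne hx (Ideal.absNorm_eq_zero_iff.mp h)
    have h6 := Nat.le_of_dvd (Nat.pos_of_ne_zero hne) (map_dvd Ideal.absNorm h4)
    refine le_trans ?_ h6
    rw [map_prod]
    refine Finset.prod_le_prod' fun w _ => ?_
    rw [map_pow]
    have h7 : 2 ≤ Ideal.absNorm w.asIdeal := by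
      have h8 : Ideal.absNorm w.asIdeal ≠ 0 := fun h => w.ne_bot (Ideal.absNorm_eq_zero_iff.mp h)
      have h9 : Ideal.absNorm w.asIdeal ≠ 1 := fun h =>
        w.isPrime.ne_top (Ideal.absNorm_eq_one_iff.mp h)
      omega
    exact (Nat.succ_le_of_lt Nat.lt_two_pow_self).trans (Nat.pow_le_pow_left h7 _)

end

theorem thm_N3 : St_N0a → St_N0b → St_N1 → St_N2 → St_N3 := by
  intro h0a h0b h1 h2 P D T L K _ _ _ _ _ q hR
  classical
  obtain ⟨b1, b2, b3, b4, b5, b6, b7, b8, b9, b10, b11, b12, -⟩ := h0b P D T L K q hR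
  obtain ⟨a1, a2, a3, a4, a5, a6, a7, a8, a9, -⟩ := h0a L K q
  haveI hne : Nonempty (L →+* ℝ) := by
    rw [← Fintype.card_pos_iff, b1]
    exact hR.pos
  have hTP0 : ∀ x : 𝓞 L, TP x → x ≠ 0 := by
    rintro x hx rfl
    obtain ⟨τ⟩ := hne
    have h3 := hx τ
    simp at h3
  -- the values of `b`
  have hBfin : {b : 𝓞 L | TP b ∧ ∀ τ : L →+* ℝ, τ (b : L) ≤ 2 * P}.Finite := by
    refine (b12 (D * (2 * P))).subset ?_
    rintro b ⟨h3, h4⟩
    refine ⟨h3, ?_⟩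
    unfold tR
    refine (Finset.sum_le_card_nsmul Finset.univ _ (2 * P : ℝ) fun τ _ => h4 τ).trans ?_
    rw [Finset.card_univ, b1, nsmul_eq_mul]
  obtain ⟨X, hX⟩ : ∃ X : Finset (𝓞 L), ∀ b, b ∈ X ↔ TP b ∧ ∀ τ : L →+* ℝ, τ (b : L) ≤ 2 * P :=
    ⟨hBfin.toFinset, fun b => by rw [Set.Finite.mem_toFinset]; rfl⟩
  have hXc : X.card ≤ (4 * P + 1) ^ D := by
    have h3 := thm_M4.2.1 L (2 * P) X hR.real (fun x hx τ => by
      obtain ⟨h4, h5⟩ := (hX x).1 hx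
      refine ⟨(h4 τ).le, ?_⟩
      push_cast
      exact h5 τ)
    rw [hR.deg] at h3
    refine h3.trans (le_of_eq ?_)
    congr 1
    ring
  -- the ideals
  obtain ⟨F, hF⟩ : ∃ F : 𝓞 L → Finset (Ideal (𝓞 K)), ∀ b, b ≠ 0 → (∀ J, J ∈ F b ↔ J ∈ sol q b) ∧
      (F b).card = dd q b := by
    refine ⟨fun b => if h : (sol q b).Finite then h.toFinset else ∅, fun b hb => ?_⟩
    have h3 := (h2 L K q b hb).1
    simp only [dif_pos h3]
    refine ⟨fun J => by rw [Set.Finite.mem_toFinset], ?_⟩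
    exact (Set.ncard_eq_toFinset_card _ h3).symm
  let S₀ : Finset (Ideal (𝓞 K) × 𝓞 L) := X.biUnion fun b => (F b).image fun J => (J, b)
  have hS₀ : ∀ p, p ∈ S₀ ↔ UL q p ∧ ∀ τ : L →+* ℝ, τ (p.2 : L) ≤ 2 * P := by
    rintro ⟨J, b⟩
    constructor
    · intro h
      obtain ⟨b', hb', h3⟩ := Finset.mem_biUnion.1 h
      obtain ⟨J', hJ', h4⟩ := Finset.mem_image.1 h3
      obtain ⟨rfl, rfl⟩ := Prod.mk.inj h4
      obtain ⟨h5, h6⟩ := (hX b').1 hb'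
      exact ⟨⟨((hF b' (hTP0 b' h5)).1 J').1 hJ', h5⟩, h6⟩
    · rintro ⟨⟨h3, h4⟩, h5⟩
      refine Finset.mem_biUnion.2 ⟨b, (hX b).2 ⟨h4, h5⟩, Finset.mem_image.2 ⟨J, ?_, rfl⟩⟩
      exact ((hF b (hTP0 b h4)).1 J).2 h3
  have hS₀c : S₀.card ≤ (10 * P ^ 2) ^ D := by
    have h3 : ∀ b ∈ X, ((F b).image fun J => (J, b)).card ≤ (2 * P) ^ D := by
      intro b hb
      obtain ⟨h4, h5⟩ := (hX b).1 hb
      have hb0 := hTP0 b h4
      refine Finset.card_image_le.trans ?_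
      rw [(hF b hb0).2]
      refine (n3_dd h2 q hb0).trans ?_
      have h6 : (Ideal.absNorm (Ideal.span {b}) : ℝ) ≤ (((2 * P) ^ D : ℕ) : ℝ) := by
        rw [b4 b, Finset.abs_prod]
        push_cast
        have h7 : ∏ τ : L →+* ℝ, |τ (b : L)| ≤ ∏ _τ : L →+* ℝ, (2 * (P : ℝ)) := by
          refine Finset.prod_le_prod (fun τ _ => abs_nonneg _) fun τ _ => ?_
          rw [abs_of_pos (h4 τ)]
          exact h5 τ
        refine h7.trans (le_of_eq ?_)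
        rw [Finset.prod_const, Finset.card_univ, b1]
      exact_mod_cast h6
    have h4 := Finset.card_biUnion_le_card_mul X (fun b => (F b).image fun J => (J, b)) _ h3
    have hP := hR.one_le
    calc S₀.card ≤ X.card * (2 * P) ^ D := h4
      _ ≤ (4 * P + 1) ^ D * (2 * P) ^ D := Nat.mul_le_mul_right _ hXc
      _ = ((4 * P + 1) * (2 * P)) ^ D := (mul_pow _ _ _).symm
      _ ≤ (10 * P ^ 2) ^ D := Nat.pow_le_pow_left (by nlinarith) _
  -- representatives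
  let s : Setoid {p // p ∈ S₀} :=
    ⟨fun p p' => n3Sim q p.1 p'.1, fun p => n3_refl q p.1, fun h => n3_symm h,
      fun h h' => n3_trans h0a h h'⟩
  let r : {p // p ∈ S₀} → Ideal (𝓞 K) × 𝓞 L := fun p => (Quotient.out (Quotient.mk s p)).1
  have hr : ∀ p, n3Sim q (r p) p.1 := fun p => Quotient.mk_out (s := s) p
  have hr2 : ∀ a a' : {p // p ∈ S₀}, n3Sim q (r a) (r a') → r a = r a' := by
    intro a a' h
    have h3 : Quotient.mk s a = Quotient.mk s a' :=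
      Quotient.sound (n3_trans h0a (n3_symm (hr a)) (n3_trans h0a h (hr a')))
    show (Quotient.out (Quotient.mk s a)).1 = (Quotient.out (Quotient.mk s a')).1
    rw [h3]
  have hrm : ∀ a, r a ∈ S₀ := fun a => (Quotient.out (Quotient.mk s a)).2
  let R : Finset (Ideal (𝓞 K) × 𝓞 L) := S₀.attach.image r
  have hR1 : ∀ p ∈ R, ∃ a, r a = p := by
    intro p hp
    obtain ⟨a, -, h3⟩ := Finset.mem_image.1 hp
    exact ⟨a, h3⟩
  have hR2 : ∀ a, r a ∈ R := fun a => Finset.mem_image_of_mem _ (Finset.mem_attach _ _)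
  have hUL : ∀ p, UL q p → p.1 ≠ 0 := fun p hp => n3_ne h0a (hTP0 p.2 hp.2) hp.1
  have main : ∀ (x : 𝓞 L) (I : Ideal (𝓞 K)), TP x → I ∈ sol q x →
      ∃! p, p ∈ R ∧ ∃ y : 𝓞 K, I * p.1 = Ideal.span {y} ∧ nm q y = x * p.2 := by
    intro x I hx hI
    obtain ⟨p₀, hp₀, hb, hm⟩ := n3_ex h0a h1 hR (hTP0 x hx) hx hI
    let a : {p // p ∈ S₀} := ⟨p₀, (hS₀ p₀).2 ⟨hp₀, hb⟩⟩
    have hm1 : n3M q x I (r a) := n3_move h0a hm (n3_symm (hr a))
    refine ⟨r a, ⟨hR2 a, hm1⟩, ?_⟩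
    rintro p' ⟨hp', hm'⟩
    obtain ⟨a', rfl⟩ := hR1 p' hp'
    exact hr2 a' a (n3_uniq h0a (n3_ne h0a (hTP0 x hx) hI)
      (hUL _ ((hS₀ _).1 (hrm a')).1) (hUL _ ((hS₀ _).1 (hrm a)).1) hm' hm1)
  refine ⟨R, ⟨fun p hp => ?_, main⟩, ?_, ?_⟩
  · obtain ⟨a, rfl⟩ := hR1 p hp
    exact ((hS₀ _).1 (hrm a)).1
  · have hT1 : TP (1 : 𝓞 L) := fun τ => by simp
    have h3 : Ideal.span {(1 : 𝓞 K)} ∈ sol q 1 := by
      show Ideal.span {(1 : 𝓞 K)} * bar q (Ideal.span {(1 : 𝓞 K)}) =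
        Ideal.span {algebraMap (𝓞 L) (𝓞 K) 1}
      rw [a9 1, a2]
    obtain ⟨p, ⟨hp, -⟩, -⟩ := main 1 _ hT1 h3
    exact ⟨p, hp⟩
  · refine Finset.card_image_le.trans ?_
    rw [Finset.card_attach]
    exact hS₀c

end Pool.Agent.RNK
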