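import Pool.Agent.RNK.StN

set_option autoImplicit false

/-!
# RNK N4: the counting formula
-/

namespace Pool.Agent.RNK

open IsDedekindDomain NumberField Pool.Agent.QCF Pool.Agent.UDT

theorem thm_N4 (h0 : St_N0a) (h1 : St_N0b) : St_N4 := by
  intro P D T L K _ _ _ _ _ q hRF R hR x hx
  classical
  obtain ⟨hmul, hone, hz, _, _, _, hbm, _, hsp, _⟩ := h0 L K q
  obtain ⟨hcard, _, _, _, _, _, _, _, _, _, hfin, _⟩ := h1 P D T L K q hRF
  have hne : ∀ z : 𝓞 L, TP z → z ≠ 0 := by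
    intro z hz' h
    have h2 : Nonempty (L →+* ℝ) := by
      rw [← Fintype.card_pos_iff, hcard]
      exact hRF.pos
    obtain ⟨τ⟩ := h2
    have h3 := hz' τ
    rw [h] at h3
    simp at h3
  have hinj : Function.Injective (algebraMap (𝓞 L) (𝓞 K)) :=
    FaithfulSMul.algebraMap_injective (𝓞 L) (𝓞 K)
  have hspne : ∀ z : 𝓞 L, z ≠ 0 → Ideal.span {algebraMap (𝓞 L) (𝓞 K) z} ≠ (⊥ : Ideal (𝓞 K)) := by
    intro z hz' h
    rw [Ideal.span_singleton_eq_bot] at h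
    apply hz'
    apply hinj
    rw [h, map_zero]
  have hpne : ∀ p ∈ R, p.1 ≠ ⊥ := by
    intro p hp h
    have h2 := (hR.1 p hp).1
    have h3 : p.1 * bar q p.1 = Ideal.span {algebraMap (𝓞 L) (𝓞 K) p.2} := h2
    rw [h, Ideal.bot_mul] at h3
    exact hspne p.2 (hne p.2 (hR.1 p hp).2) h3.symm
  -- the ideal of a point
  have key1 : ∀ p ∈ R, ∀ y : 𝓞 K, y ∈ p.1 → nm q y = x * p.2 →
      ∃ I : Ideal (𝓞 K), I ∈ sol q x ∧ I * p.1 = Ideal.span {y} := by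
    intro p hp y hy hyn
    obtain ⟨I, hI⟩ := (Ideal.dvd_span_singleton (I := p.1) (x := y)).2 hy
    refine ⟨I, ?_, by rw [hI, mul_comm]⟩
    show I * bar q I = Ideal.span {algebraMap (𝓞 L) (𝓞 K) x}
    have h3 : p.1 * bar q p.1 = Ideal.span {algebraMap (𝓞 L) (𝓞 K) p.2} := (hR.1 p hp).1
    have h4 := hsp y
    rw [hyn, map_mul, ← Ideal.span_singleton_mul_span_singleton, hI, hbm, ← h3] at h4
    have h5 : p.1 * bar q p.1 ≠ 0 := by
      rw [h3]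
      exact hspne p.2 (hne p.2 (hR.1 p hp).2)
    apply mul_right_cancel₀ h5
    rw [← h4]
    ring
  have hunit : ∀ u : 𝓞 K, nm q u = 1 → IsUnit u := by
    intro u hu
    have h4 := hsp u
    rw [hu, map_one, Ideal.span_singleton_one, ← Ideal.one_eq_top] at h4
    have h5 : IsUnit (Ideal.span {u}) := IsUnit.of_mul_eq_one _ h4
    rw [Ideal.isUnit_iff, Ideal.span_singleton_eq_top] at h5
    exact h5
  have hch : ∀ I : sol q x, ∃ (p : Ideal (𝓞 K) × 𝓞 L) (y : 𝓞 K), p ∈ R ∧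
      I.1 * p.1 = Ideal.span {y} ∧ nm q y = x * p.2 ∧ ∀ p', p' ∈ R →
        (∃ y', I.1 * p'.1 = Ideal.span {y'} ∧ nm q y' = x * p'.2) → p' = p := by
    intro I
    obtain ⟨p, ⟨hp, y, hy1, hy2⟩, hu⟩ := hR.2 x I.1 hx I.2
    exact ⟨p, y, hp, hy1, hy2, fun p' hp' hy' => hu p' ⟨hp', hy'⟩⟩
  choose pp yy g1 g2 g3 g4 using hch
  have hmem : ∀ I : sol q x, yy I ∈ (pp I).1 := by
    intro I
    have h3 : yy I ∈ Ideal.span {yy I} := Ideal.mem_span_singleton_self _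
    rw [← g2 I] at h3
    exact Ideal.mul_le_right h3
  have hyne : ∀ I : sol q x, yy I ≠ 0 := by
    intro I h
    have h3 := g3 I
    rw [(hz _).2 h] at h3
    rcases mul_eq_zero.1 h3.symm with h4 | h4
    · exact hne x hx h4
    · exact hne _ (hR.1 _ (g1 I)).2 h4
  have hBf : ∀ p : Ideal (𝓞 K) × 𝓞 L, {y : 𝓞 K | y ∈ p.1 ∧ nm q y = x * p.2}.Finite :=
    fun p => (hfin (x * p.2)).subset fun y hy => hy.2
  let B : Ideal (𝓞 K) × 𝓞 L → Finset (𝓞 K) := fun p => (hBf p).toFinset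
  have hB : ∀ p y, y ∈ B p ↔ y ∈ p.1 ∧ nm q y = x * p.2 := by
    intro p y
    show y ∈ (hBf p).toFinset ↔ _
    rw [Set.Finite.mem_toFinset]
    exact Iff.rfl
  have hL : ∑ p ∈ R, {y : 𝓞 K | y ∈ p.1 ∧ nm q y = x * p.2}.ncard = (R.sigma B).card := by
    rw [Finset.card_sigma]
    apply Finset.sum_congr rfl
    intro p _
    exact Set.ncard_eq_toFinset_card _ (hBf p)
  rw [hL]
  let G : sol q x × {u : 𝓞 K | nm q u = 1} → {z // z ∈ R.sigma B} := fun z =>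
    ⟨⟨pp z.1, z.2.1 * yy z.1⟩, Finset.mem_sigma.2 ⟨g1 z.1, (hB _ _).2
      ⟨Ideal.mul_mem_left _ _ (hmem z.1), by
        have h3 : nm q z.2.1 = 1 := z.2.2
        rw [hmul, h3, one_mul, g3]⟩⟩⟩
  have hspu : ∀ (u y : 𝓞 K), nm q u = 1 → Ideal.span {u * y} = (Ideal.span {y} : Ideal (𝓞 K)) := by
    intro u y hu
    exact Ideal.span_singleton_mul_left_unit (hunit u hu) y
  have hG : Function.Bijective G := by
    constructor
    · rintro ⟨I, u⟩ ⟨I', u'⟩ h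
      have h3 : (⟨pp I, u.1 * yy I⟩ : (_ : Ideal (𝓞 K) × 𝓞 L) × 𝓞 K) =
          ⟨pp I', u'.1 * yy I'⟩ := congrArg Subtype.val h
      have h4 : pp I = pp I' := congrArg Sigma.fst h3
      have h5 : u.1 * yy I = u'.1 * yy I' := congrArg Sigma.snd h3
      have h6 : I = I' := by
        apply Subtype.ext
        apply mul_right_cancel₀ (hpne _ (g1 I))
        rw [g2 I, ← hspu u.1 (yy I) u.2, h5, hspu u'.1 (yy I') u'.2, ← g2 I', h4]
      subst h6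
      have h7 : u = u' := Subtype.ext (mul_right_cancel₀ (hyne I) h5)
      rw [h7]
    · rintro ⟨⟨p, y⟩, hz'⟩
      obtain ⟨hp, hy⟩ := Finset.mem_sigma.1 hz'
      obtain ⟨hy1, hy2⟩ := (hB _ _).1 hy
      obtain ⟨I, hI, hI2⟩ := key1 p hp y hy1 hy2
      have h3 : p = pp ⟨I, hI⟩ := g4 ⟨I, hI⟩ p hp ⟨y, hI2, hy2⟩
      have h4 : Ideal.span {yy ⟨I, hI⟩} = (Ideal.span {y} : Ideal (𝓞 K)) := by
        rw [← g2 ⟨I, hI⟩, ← h3]
        exact hI2
      obtain ⟨u, hu⟩ := Ideal.span_singleton_eq_span_singleton.1 h4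
      have h5 : nm q (u : 𝓞 K) = 1 := by
        have h6 := g3 ⟨I, hI⟩
        rw [← h3, ← hy2, ← hu, hmul] at h6
        have h7 : nm q (yy ⟨I, hI⟩) ≠ 0 := fun h => hyne ⟨I, hI⟩ ((hz _).1 h)
        apply mul_left_cancel₀ h7
        rw [← h6, mul_one]
      refine ⟨⟨⟨I, hI⟩, ⟨(u : 𝓞 K), h5⟩⟩, ?_⟩
      apply Subtype.ext
      show (⟨pp ⟨I, hI⟩, (u : 𝓞 K) * yy ⟨I, hI⟩⟩ : (_ : Ideal (𝓞 K) × 𝓞 L) × 𝓞 K) = ⟨p, y⟩
      rw [← h3, mul_comm, hu]
  have h8 := Nat.card_eq_of_bijective G hG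
  rw [Nat.card_prod, Nat.card_eq_fintype_card (α := {z // z ∈ R.sigma B}), Fintype.card_coe] at h8
  rw [← h8, mul_comm]
  rfl

end Pool.Agent.RNK
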