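import Pool.Agent.RNK.StN

set_option autoImplicit false

/-!
# RNK [N6]: many solutions at multiples of `∏ T`
-/

namespace Pool.Agent.RNK

open IsDedekindDomain NumberField Pool.Agent.QCF Pool.Agent.UDT

namespace N6x

theorem inj {L : Type} [Field L] [NumberField L] (J : Finset (HeightOneSpectrum (𝓞 L)))
    {I : Ideal (𝓞 L)} (h : ∀ w ∈ J, w.asIdeal ∣ I) : ∏ w ∈ J, w.asIdeal ∣ I := by
  classical
  have h1 : ∏ w ∈ J, w.asIdeal = ∏ p ∈ J.image HeightOneSpectrum.asIdeal, p := by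
    rw [Finset.prod_image]
    exact fun a _ b _ hab => HeightOneSpectrum.asIdeal_injective hab
  rw [h1]
  apply Finset.prod_primes_dvd
  · intro a ha
    obtain ⟨w, _, rfl⟩ := Finset.mem_image.1 ha
    exact w.prime
  · intro a ha
    obtain ⟨w, hw, rfl⟩ := Finset.mem_image.1 ha
    exact h w hw

theorem spn {L : Type} [Field L] [NumberField L] {l : ℕ}
    (h : {w : HeightOneSpectrum (𝓞 L) | Ideal.absNorm w.asIdeal = l}.ncard = Module.finrank ℚ L)
    (hl : l.Prime) :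
    ∃ S : Finset (HeightOneSpectrum (𝓞 L)), (∀ w, w ∈ S ↔ Ideal.absNorm w.asIdeal = l) ∧
      S.card = Module.finrank ℚ L ∧ ∏ w ∈ S, w.asIdeal = Ideal.span {(l : 𝓞 L)} := by
  have hpos : 0 < Module.finrank ℚ L := Module.finrank_pos
  have hfin : {w : HeightOneSpectrum (𝓞 L) | Ideal.absNorm w.asIdeal = l}.Finite :=
    Set.finite_of_ncard_pos (by rw [h]; exact hpos)
  have hcard : hfin.toFinset.card = Module.finrank ℚ L := by
    rw [← h, Set.ncard_eq_toFinset_card _ hfin]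
  refine ⟨hfin.toFinset, fun w => by simp, hcard, ?_⟩
  have hmem : ∀ w ∈ hfin.toFinset, Ideal.absNorm w.asIdeal = l := by
    intro w hw
    simpa using hw
  obtain ⟨K, hK⟩ : ∏ w ∈ hfin.toFinset, w.asIdeal ∣ Ideal.span {(l : 𝓞 L)} := by
    apply inj
    intro w hw
    rw [Ideal.dvd_span_singleton, ← hmem w hw]
    exact Ideal.absNorm_mem _
  have h1 : Ideal.absNorm (Ideal.span {(l : 𝓞 L)}) = l ^ Module.finrank ℚ L := by
    rw [Ideal.absNorm_span_natCast, RingOfIntegers.rank]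
  have h2 : Ideal.absNorm (∏ w ∈ hfin.toFinset, w.asIdeal) = l ^ Module.finrank ℚ L := by
    rw [map_prod, Finset.prod_congr rfl hmem, Finset.prod_const, hcard]
  have h3 : Ideal.absNorm K = 1 := by
    have h4 := congrArg Ideal.absNorm hK
    rw [map_mul, h1, h2] at h4
    have h5 : 0 < l ^ Module.finrank ℚ L := pow_pos hl.pos _
    exact (Nat.eq_of_mul_eq_mul_left h5 (by rw [mul_one]; exact h4)).symm
  rw [hK, Ideal.absNorm_eq_one_iff.1 h3, Ideal.mul_top]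

theorem allT {L : Type} [Field L] [NumberField L] (T : Finset ℕ) (hT : ∀ l ∈ T, l.Prime)
    (hc : ∀ l ∈ T, {w : HeightOneSpectrum (𝓞 L) | Ideal.absNorm w.asIdeal = l}.ncard =
      Module.finrank ℚ L) : ∃ Z : Finset (HeightOneSpectrum (𝓞 L)),
      (∀ w, w ∈ Z ↔ Ideal.absNorm w.asIdeal ∈ T) ∧ Z.card = T.card * Module.finrank ℚ L ∧
      ∏ w ∈ Z, w.asIdeal = Ideal.span {((∏ l ∈ T, l : ℕ) : 𝓞 L)} := by
  classical
  induction T using Finset.induction_on with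
  | empty =>
    refine ⟨∅, fun w => by simp, by simp, ?_⟩
    simp
  | insert l T hl ih =>
    obtain ⟨Z, hZ, hZc, hZp⟩ := ih (fun a ha => hT a (Finset.mem_insert_of_mem ha))
      (fun a ha => hc a (Finset.mem_insert_of_mem ha))
    obtain ⟨S, hS, hSc, hSp⟩ := spn (hc l (Finset.mem_insert_self _ _))
      (hT l (Finset.mem_insert_self _ _))
    have hd : Disjoint S Z := by
      rw [Finset.disjoint_left]
      intro w hw hw'
      rw [hS] at hw
      rw [hZ, hw] at hw'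
      exact hl hw'
    refine ⟨S ∪ Z, ?_, ?_, ?_⟩
    · intro w
      rw [Finset.mem_union, hS, hZ, Finset.mem_insert]
    · rw [Finset.card_union_of_disjoint hd, hSc, hZc, Finset.card_insert_of_notMem hl]
      ring
    · rw [Finset.prod_union hd, hSp, hZp, Ideal.span_singleton_mul_span_singleton,
        Finset.prod_insert hl]
      push_cast
      rfl

end N6x

open N6x in
theorem thm_N6 (hN0a : St_N0a) (hN2 : St_N2) : St_N6 := by
  classical
  intro P D T L K _ _ _ _ _ q hRF x hx hdd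
  obtain ⟨-, -, -, -, -, -, hbm, hbb, -, -, -, hbw⟩ := hN0a L K q
  obtain ⟨Z, hZ, hZc, hZp⟩ := allT T (fun l hl => (hRF.prm l hl).1)
    (fun l hl => by rw [hRF.spl l hl, hRF.deg])
  have hM2 := thm_M2 thm_T0
  -- the primes of `K`
  have hex : ∀ w : HeightOneSpectrum (𝓞 L), ∃ 𝔓 : HeightOneSpectrum (𝓞 K), w ∈ Z →
      (mv q.σ 𝔓 ≠ 𝔓 ∧ Ideal.map (algebraMap (𝓞 L) (𝓞 K)) w.asIdeal =
        𝔓.asIdeal * (mv q.σ 𝔓).asIdeal) := by
    intro w
    by_cases hw : w ∈ Z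
    · have hwT := (hZ w).mp hw
      obtain ⟨𝔓, -, -, h3, -, h5⟩ := hM2 L K q w _ (hRF.prm _ hwT).1 (hRF.prm _ hwT).2 rfl
      exact ⟨𝔓, fun _ => ⟨h3, h5⟩⟩
    · by_cases hK : Nonempty (HeightOneSpectrum (𝓞 K))
      · exact ⟨hK.some, fun h => absurd h hw⟩
      · by_cases hZe : Z.Nonempty
        · obtain ⟨w', hw'⟩ := hZe
          have hwT := (hZ w').mp hw'
          obtain ⟨𝔓, -⟩ := hM2 L K q w' _ (hRF.prm _ hwT).1 (hRF.prm _ hwT).2 rfl
          exact absurd ⟨𝔓⟩ hK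
        · exfalso
          -- `𝓞 K` is not a field
          obtain ⟨m, hm⟩ := Ideal.exists_maximal (𝓞 K)
          exact hK ⟨⟨m, hm.isPrime, fun hb => RingOfIntegers.not_isField K
            (Ring.isField_iff_maximal_bot.mpr (hb ▸ hm))⟩⟩
  choose 𝔓 h𝔓 using hex
  -- a solution for `x`
  have hne : (sol q x).Nonempty := by
    by_contra h
    rw [Set.not_nonempty_iff_eq_empty] at h
    rw [dd, h, Set.ncard_empty] at hdd
    omega
  obtain ⟨I₀, hI₀⟩ := hne
  have hI₀' : I₀ * bar q I₀ = Ideal.span {algebraMap (𝓞 L) (𝓞 K) x} := hI₀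
  set Q : 𝓞 L := ((∏ l ∈ T, l : ℕ) : 𝓞 L) with hQ
  have hinjLK : Function.Injective (algebraMap (𝓞 L) (𝓞 K)) :=
    FaithfulSMul.algebraMap_injective _ _
  have hQ0 : Q ≠ 0 := by
    have h1 : (∏ l ∈ T, l : ℕ) ≠ 0 := Finset.prod_ne_zero_iff.mpr fun l hl =>
      (hRF.prm l hl).1.ne_zero
    rw [hQ]
    exact Nat.cast_ne_zero.mpr h1
  have hI₀ne : I₀ ≠ ⊥ := by
    rintro rfl
    rw [Ideal.bot_mul, eq_comm, Ideal.span_singleton_eq_bot] at hI₀'
    exact hx (hinjLK (by rw [hI₀', map_zero]))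
  -- the ideals
  let fac : Finset (HeightOneSpectrum (𝓞 L)) → HeightOneSpectrum (𝓞 L) → Ideal (𝓞 K) :=
    fun E w => if w ∈ E then (𝔓 w).asIdeal else (mv q.σ (𝔓 w)).asIdeal
  have hfac : ∀ E, ∀ w ∈ Z, fac E w * bar q (fac E w) =
      Ideal.map (algebraMap (𝓞 L) (𝓞 K)) w.asIdeal := by
    intro E w hw
    show (if w ∈ E then (𝔓 w).asIdeal else (mv q.σ (𝔓 w)).asIdeal) *
      bar q (if w ∈ E then (𝔓 w).asIdeal else (mv q.σ (𝔓 w)).asIdeal) = _
    rw [(h𝔓 w hw).2]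
    by_cases h : w ∈ E
    · rw [if_pos h, hbw]
    · rw [if_neg h, ← hbw, (hbb _).1, mul_comm]
  have hfdvd : ∀ E, ∀ w ∈ Z, fac E w ∣ Ideal.map (algebraMap (𝓞 L) (𝓞 K)) w.asIdeal := by
    intro E w hw
    exact ⟨_, (hfac E w hw).symm⟩
  have hbar_one : bar q (1 : Ideal (𝓞 K)) = 1 := by
    rw [Ideal.one_eq_top, bar, Ideal.map_top]
  have hbar_prod : ∀ (s : Finset (HeightOneSpectrum (𝓞 L))) (g : HeightOneSpectrum (𝓞 L) → Ideal (𝓞 K)),
      bar q (∏ w ∈ s, g w) = ∏ w ∈ s, bar q (g w) := by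
    intro s g
    induction s using Finset.induction_on with
    | empty => rw [Finset.prod_empty, Finset.prod_empty, hbar_one]
    | insert a s ha ih => rw [Finset.prod_insert ha, Finset.prod_insert ha, hbm, ih]
  let F : Finset (HeightOneSpectrum (𝓞 L)) → Ideal (𝓞 K) := fun E => I₀ * ∏ w ∈ Z, fac E w
  have hFsol : ∀ E, F E ∈ sol q (Q * x) := by
    intro E
    show F E * bar q (F E) = Ideal.span {algebraMap (𝓞 L) (𝓞 K) (Q * x)}
    have h1 : F E * bar q (F E) = (I₀ * bar q I₀) * ∏ w ∈ Z, (fac E w * bar q (fac E w)) := by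
      show (I₀ * ∏ w ∈ Z, fac E w) * bar q (I₀ * ∏ w ∈ Z, fac E w) = _
      rw [hbm, hbar_prod, Finset.prod_mul_distrib]
      ring
    have h2 : ∏ w ∈ Z, Ideal.map (algebraMap (𝓞 L) (𝓞 K)) w.asIdeal =
        Ideal.map (algebraMap (𝓞 L) (𝓞 K)) (∏ w ∈ Z, w.asIdeal) :=
      (map_prod (Ideal.mapHom (algebraMap (𝓞 L) (𝓞 K))) _ _).symm
    rw [h1, Finset.prod_congr rfl (hfac E), h2, hZp, hI₀', Ideal.map_span,
      Set.image_singleton, Ideal.span_singleton_mul_span_singleton, ← map_mul, mul_comm x]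
  have hFinj : Set.InjOn F (Z.powerset : Set (Finset (HeightOneSpectrum (𝓞 L)))) := by
    intro E hE E' hE' hEE
    rw [Finset.mem_coe, Finset.mem_powerset] at hE hE'
    have h1 : ∏ w ∈ Z, fac E w = ∏ w ∈ Z, fac E' w := mul_left_cancel₀ hI₀ne hEE
    have key : ∀ E₁ E₂ : Finset (HeightOneSpectrum (𝓞 L)), E₁ ⊆ Z →
        ∏ w ∈ Z, fac E₁ w = ∏ w ∈ Z, fac E₂ w → E₁ ⊆ E₂ := by
      intro E₁ E₂ h₁ h12 w hw
      have hwZ := h₁ hw
      have h2 : (𝔓 w).asIdeal ∣ ∏ w ∈ Z, fac E₂ w := by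
        rw [← h12]
        have h3 : fac E₁ w = (𝔓 w).asIdeal := if_pos hw
        rw [← h3]
        exact Finset.dvd_prod_of_mem _ hwZ
      obtain ⟨v, hv, hvd⟩ := (𝔓 w).prime.exists_mem_finset_dvd h2
      have hle : ∀ u ∈ Z, (𝔓 w).asIdeal ∣ Ideal.map (algebraMap (𝓞 L) (𝓞 K)) u.asIdeal →
          Ideal.comap (algebraMap (𝓞 L) (𝓞 K)) (𝔓 w).asIdeal = u.asIdeal := by
        intro u hu hud
        have h4 := Ideal.le_comap_of_map_le (Ideal.dvd_iff_le.mp hud)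
        refine (u.isMaximal.eq_of_le ?_ h4).symm
        exact Ideal.comap_ne_top _ (𝔓 w).isPrime.ne_top
      have e1 := hle w hwZ (by rw [(h𝔓 w hwZ).2]; exact dvd_mul_right _ _)
      have e2 := hle v hv (hvd.trans (hfdvd E₂ v hv))
      have hvw : v = w := HeightOneSpectrum.asIdeal_injective (e2.symm.trans e1)
      subst hvw
      by_contra hw2
      have h5 : fac E₂ v = (mv q.σ (𝔓 v)).asIdeal := if_neg hw2
      rw [h5] at hvd
      have h6 := Ideal.dvd_iff_le.mp hvd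
      have h7 : (mv q.σ (𝔓 v)).asIdeal = (𝔓 v).asIdeal :=
        (mv q.σ (𝔓 v)).isMaximal.eq_of_le (𝔓 v).isPrime.ne_top h6
      exact (h𝔓 v hv).1 (HeightOneSpectrum.asIdeal_injective h7)
    exact Finset.Subset.antisymm (key E E' hE h1) (key E' E hE' h1.symm)
  have hfin : (sol q (Q * x)).Finite := (hN2 L K q (Q * x) (mul_ne_zero hQ0 hx)).1
  have h1 : (Z.powerset.image F).card = 2 ^ (T.card * D) := by
    rw [Finset.card_image_of_injOn hFinj, Finset.card_powerset, hZc, hRF.deg]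
  rw [← h1, dd, ← Set.ncard_coe_finset]
  refine Set.ncard_le_ncard ?_ hfin
  intro I hI
  rw [Finset.mem_coe, Finset.mem_image] at hI
  obtain ⟨E, -, rfl⟩ := hI
  exact hFsol E

end Pool.Agent.RNK
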