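import Pool.Agent.RNK.StN

set_option autoImplicit false

/-!
# RNK / N7: a divisor bound in number fields
-/

namespace Pool.Agent.RNK

open IsDedekindDomain NumberField Pool.Agent.QCF Pool.Agent.UDT

private lemma n7_norm_ge {L : Type} [Field L] [NumberField L] (w : HeightOneSpectrum (𝓞 L)) :
    2 ≤ Ideal.absNorm w.asIdeal := by
  have h0 : Ideal.absNorm w.asIdeal ≠ 0 := fun h => w.ne_bot (Ideal.absNorm_eq_zero_iff.mp h)
  have h1 : Ideal.absNorm w.asIdeal ≠ 1 := fun h =>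
    w.isPrime.ne_top (Ideal.absNorm_eq_one_iff.mp h)
  omega

/-- at most `D z!` primes of norm at most `z` -/
private lemma n7_small {L : Type} [Field L] [NumberField L] (z : ℕ)
    (T : Finset (HeightOneSpectrum (𝓞 L))) (hT : ∀ w ∈ T, Ideal.absNorm w.asIdeal ≤ z) :
    T.card ≤ z.factorial * Module.finrank ℚ L := by
  classical
  have h1 : ∏ w ∈ T, w.asIdeal ∣ Ideal.span {((z.factorial : ℕ) : 𝓞 L)} := by
    have h2 : ∏ p ∈ T.image (fun w => w.asIdeal), p = ∏ w ∈ T, w.asIdeal :=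
      Finset.prod_image fun w _ w' _ h => HeightOneSpectrum.ext h
    rw [← h2]
    refine Finset.prod_primes_dvd _ ?_ ?_
    · intro p hp
      obtain ⟨w, _, rfl⟩ := Finset.mem_image.mp hp
      exact w.prime
    · intro p hp
      obtain ⟨w, hw, rfl⟩ := Finset.mem_image.mp hp
      rw [Ideal.dvd_span_singleton]
      obtain ⟨c, hc⟩ := Nat.dvd_factorial (by have := n7_norm_ge w; omega) (hT w hw)
      rw [hc, Nat.cast_mul]
      exact Ideal.mul_mem_right _ _ (Ideal.absNorm_mem w.asIdeal)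
  have h3 : Ideal.absNorm (Ideal.span {((z.factorial : ℕ) : 𝓞 L)}) =
      z.factorial ^ Module.finrank ℚ L := by
    rw [Ideal.absNorm_span_singleton]
    have h4 : ((z.factorial : ℕ) : 𝓞 L) = algebraMap ℤ (𝓞 L) (z.factorial : ℤ) := by
      simp
    rw [h4, Algebra.norm_algebraMap, Int.natAbs_pow, Int.natAbs_natCast, RingOfIntegers.rank]
  have h5 : ∏ w ∈ T, Ideal.absNorm w.asIdeal ∣ z.factorial ^ Module.finrank ℚ L := by
    rw [← h3, ← map_prod]
    exact map_dvd Ideal.absNorm h1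
  have h6 : 2 ^ T.card ≤ z.factorial ^ Module.finrank ℚ L :=
    calc 2 ^ T.card = ∏ _w ∈ T, 2 := by rw [Finset.prod_const]
      _ ≤ ∏ w ∈ T, Ideal.absNorm w.asIdeal := Finset.prod_le_prod' fun w _ => n7_norm_ge w
      _ ≤ _ := Nat.le_of_dvd (pow_pos (Nat.factorial_pos z) _) h5
  have h7 : z.factorial ^ Module.finrank ℚ L ≤ 2 ^ (z.factorial * Module.finrank ℚ L) := by
    rw [pow_mul]
    exact Nat.pow_le_pow_left (Nat.lt_two_pow_self).le _
  exact (Nat.pow_le_pow_iff_right (by norm_num : 1 < 2)).mp (h6.trans h7)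

/-- `v + 1 ≤ C' 2^(ε v)` -/
private lemma n7_const (ε : ℝ) (hε : 0 < ε) : ∃ C : ℝ, 1 ≤ C ∧ ∀ v : ℕ,
    ((v : ℝ) + 1) ≤ C * ((2 : ℝ) ^ ε) ^ v := by
  have hl : 0 < Real.log 2 := Real.log_pos (by norm_num)
  refine ⟨max 1 (1 / (ε * Real.log 2)), le_max_left _ _, fun v => ?_⟩
  set C := max 1 (1 / (ε * Real.log 2)) with hC
  have h1 : 1 ≤ C := le_max_left _ _
  have h2 : 1 ≤ C * (ε * Real.log 2) := by
    have h3 : 1 / (ε * Real.log 2) ≤ C := le_max_right _ _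
    rwa [div_le_iff₀ (mul_pos hε hl)] at h3
  have h4 : 1 + (v : ℝ) * (ε * Real.log 2) ≤ ((2 : ℝ) ^ ε) ^ v := by
    have h5 : ((2 : ℝ) ^ ε) ^ v = Real.exp ((v : ℝ) * (ε * Real.log 2)) := by
      rw [Real.exp_nat_mul, Real.rpow_def_of_pos (by norm_num : (0 : ℝ) < 2), mul_comm (Real.log 2)]
    rw [h5, add_comm]
    exact Real.add_one_le_exp _
  have h6 : (0 : ℝ) ≤ v := Nat.cast_nonneg v
  calc (v : ℝ) + 1 ≤ C * (1 + (v : ℝ) * (ε * Real.log 2)) := by nlinarith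
    _ ≤ _ := mul_le_mul_of_nonneg_left h4 (by linarith)

theorem thm_N7 : St_N2 → St_N7 := by
  intro h2 ε hε
  obtain ⟨C', hC1, hC⟩ := n7_const ε hε
  obtain ⟨z, hz⟩ : ∃ z : ℕ, (2 : ℝ) ^ (1 / ε) ≤ z := exists_nat_ge _
  have hzε : ∀ n : ℕ, z < n → (2 : ℝ) ≤ (n : ℝ) ^ ε := by
    intro n hn
    have h3 : (2 : ℝ) ^ (1 / ε) ≤ n := hz.trans (by exact_mod_cast hn.le)
    calc (2 : ℝ) = ((2 : ℝ) ^ (1 / ε)) ^ ε := by
          rw [← Real.rpow_mul (by norm_num), one_div, inv_mul_cancel₀ hε.ne', Real.rpow_one]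
      _ ≤ _ := Real.rpow_le_rpow (by positivity) h3 hε.le
  refine ⟨C' ^ z.factorial, one_le_pow₀ hC1, ?_⟩
  intro L K _ _ _ _ _ q x hx
  have hx' : Ideal.absNorm (Ideal.span {x}) ≠ 0 := by
    rw [Ne, Ideal.absNorm_eq_zero_iff, Ideal.span_singleton_eq_bot]
    exact hx
  have hpos : (0 : ℝ) ≤ (C' ^ z.factorial) ^ Module.finrank ℚ L *
      (Ideal.absNorm (Ideal.span {x}) : ℝ) ^ ε := by positivity
  rcases (h2 L K q x hx).2 with h0 | ⟨S, v, _, hdvd, hdd⟩
  · rw [h0]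
    exact_mod_cast hpos
  have hN : ∏ w ∈ S, Ideal.absNorm w.asIdeal ^ v w ≤ Ideal.absNorm (Ideal.span {x}) := by
    have h3 := map_dvd Ideal.absNorm hdvd
    rw [map_prod] at h3
    simp only [map_pow] at h3
    exact Nat.le_of_dvd (Nat.pos_of_ne_zero hx') h3
  set T := S.filter fun w => Ideal.absNorm w.asIdeal ≤ z with hT
  have hTc : T.card ≤ z.factorial * Module.finrank ℚ L :=
    n7_small z T fun w hw => (Finset.mem_filter.mp hw).2
  have hterm : ∀ w ∈ S, ((v w : ℝ) + 1) ≤ (if Ideal.absNorm w.asIdeal ≤ z then C' else 1) *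
      ((Ideal.absNorm w.asIdeal : ℝ) ^ ε) ^ v w := by
    intro w _
    have hw2 := n7_norm_ge w
    split_ifs with hw
    · refine (hC (v w)).trans (mul_le_mul_of_nonneg_left ?_ (by linarith))
      refine pow_le_pow_left₀ (by positivity) ?_ _
      exact Real.rpow_le_rpow (by norm_num) (by exact_mod_cast hw2) hε.le
    · rw [one_mul]
      have h3 : ((v w : ℝ) + 1) ≤ 2 ^ v w := by
        exact_mod_cast Nat.lt_two_pow_self
      exact h3.trans (pow_le_pow_left₀ (by norm_num) (hzε _ (not_le.mp hw)) _)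
  have hC0 : (0 : ℝ) ≤ C' := zero_le_one.trans hC1
  have hfin1 : C' ^ T.card ≤ (C' ^ z.factorial) ^ Module.finrank ℚ L := by
    generalize z.factorial = F at hTc ⊢
    rw [← pow_mul]
    exact pow_le_pow_right₀ hC1 hTc
  have hprod0 : (0 : ℝ) ≤ ∏ w ∈ S, (Ideal.absNorm w.asIdeal : ℝ) ^ v w :=
    Finset.prod_nonneg fun w _ => pow_nonneg (Nat.cast_nonneg _) _
  have hfin2 : (∏ w ∈ S, (Ideal.absNorm w.asIdeal : ℝ) ^ v w) ^ ε ≤
      (Ideal.absNorm (Ideal.span {x}) : ℝ) ^ ε := by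
    refine Real.rpow_le_rpow hprod0 ?_ hε.le
    exact_mod_cast hN
  have hfin3 : (0 : ℝ) ≤ (∏ w ∈ S, (Ideal.absNorm w.asIdeal : ℝ) ^ v w) ^ ε :=
    Real.rpow_nonneg hprod0 ε
  have hfin4 : (0 : ℝ) ≤ (C' ^ z.factorial) ^ Module.finrank ℚ L :=
    pow_nonneg (pow_nonneg hC0 _) _
  rw [hdd]
  push_cast
  calc ∏ w ∈ S, ((v w : ℝ) + 1)
      ≤ ∏ w ∈ S, ((if Ideal.absNorm w.asIdeal ≤ z then C' else 1) *
          ((Ideal.absNorm w.asIdeal : ℝ) ^ ε) ^ v w) :=
        Finset.prod_le_prod (fun w _ => by positivity) hterm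
    _ = C' ^ T.card * (∏ w ∈ S, (Ideal.absNorm w.asIdeal : ℝ) ^ v w) ^ ε := by
        rw [Finset.prod_mul_distrib]
        congr 1
        · rw [← Finset.prod_filter, Finset.prod_const]
        · rw [← Real.finsetProd_rpow _ _ (fun w _ => by positivity)]
          refine Finset.prod_congr rfl fun w _ => ?_
          rw [← Real.rpow_natCast, ← Real.rpow_mul (by positivity), mul_comm ε,
            Real.rpow_mul (by positivity), Real.rpow_natCast]
    _ ≤ (C' ^ z.factorial) ^ Module.finrank ℚ L * (Ideal.absNorm (Ideal.span {x}) : ℝ) ^ ε :=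
        mul_le_mul hfin1 hfin2 hfin3 hfin4

end Pool.Agent.RNK
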