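import Pool.Agent.RNK.StN

set_option autoImplicit false

/-!
# RNK / N8: few values of `dd`
-/

namespace Pool.Agent.RNK

open IsDedekindDomain NumberField Pool.Agent.QCF Pool.Agent.UDT

private theorem N8_two_le {L : Type} [Field L] [NumberField L] (w : HeightOneSpectrum (𝓞 L)) :
    2 ≤ Ideal.absNorm w.asIdeal := by
  have h0 : Ideal.absNorm w.asIdeal ≠ 0 := by
    rw [Ne, Ideal.absNorm_eq_zero_iff]
    exact w.ne_bot
  have h1 : Ideal.absNorm w.asIdeal ≠ 1 := by
    rw [Ne, Ideal.absNorm_eq_one_iff]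
    exact w.isPrime.ne_top
  omega

/-- [N8] few values of `dd` -/
theorem thm_N8 : St_N2 → St_V1 → St_N8 := by
  classical
  intro h2 hV m
  obtain ⟨V, hc, hV'⟩ := hV m
  refine ⟨insert 0 V, (Finset.card_insert_le 0 V).trans (Nat.add_le_add_right hc 1), ?_⟩
  intro L K _ _ _ _ _ q x hx hN
  obtain ⟨-, h | ⟨S, v, hv, hd, he⟩⟩ := h2 L K q x hx
  · rw [h]
    exact Finset.mem_insert_self 0 V
  · rw [he]
    apply Finset.mem_insert_of_mem
    apply hV' _ S v hv
    have hx0 : (Ideal.span {x} : Ideal (𝓞 L)) ≠ ⊥ := by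
      rw [Ne, Ideal.span_singleton_eq_bot]
      exact hx
    have hpos : 0 < Ideal.absNorm (Ideal.span {x} : Ideal (𝓞 L)) := by
      apply Nat.pos_of_ne_zero
      rw [Ne, Ideal.absNorm_eq_zero_iff]
      exact hx0
    have h3 : Ideal.absNorm (∏ w ∈ S, w.asIdeal ^ v w) ≤ 2 ^ m :=
      (Nat.le_of_dvd hpos (map_dvd Ideal.absNorm hd)).trans hN
    have h4 : 2 ^ (∑ i ∈ S, v i) ≤ Ideal.absNorm (∏ w ∈ S, w.asIdeal ^ v w) := by
      rw [map_prod, ← Finset.prod_pow_eq_pow_sum]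
      apply Finset.prod_le_prod'
      intro w _
      rw [map_pow]
      exact Nat.pow_le_pow_left (N8_two_le w) _
    exact (Nat.pow_le_pow_iff_right (by norm_num : 1 < 2)).mp (h4.trans h3)

end Pool.Agent.RNK
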