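import Pool.Agent.RNK.StN

set_option autoImplicit false

/-!
# RNK [V1]: few products of bounded weight
-/

namespace Pool.Agent.RNK

private lemma V1_small {ι : Type} (S : Finset ι) (v : ι → ℕ) (s m : ℕ)
    (h1 : ∀ i ∈ S, 1 ≤ v i) (h2 : ∀ i ∈ S, v i ≤ s) (hm : ∑ i ∈ S, v i ≤ m) :
    ∃ c : Fin s → Fin (m + 1), ∏ i ∈ S, (v i + 1) = ∏ t : Fin s, ((t : ℕ) + 2) ^ ((c t : ℕ)) := by
  classical
  have hcard : ∀ T ⊆ S, T.card < m + 1 := by
    intro T hT
    have e1 : T.card ≤ ∑ i ∈ T, v i := by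
      rw [Finset.card_eq_sum_ones]
      exact Finset.sum_le_sum fun i hi => h1 i (hT hi)
    have e2 : ∑ i ∈ T, v i ≤ ∑ i ∈ S, v i := Finset.sum_le_sum_of_subset hT
    omega
  refine ⟨fun t => ⟨(S.filter fun i => v i - 1 = (t : ℕ)).card,
    hcard _ (Finset.filter_subset _ _)⟩, ?_⟩
  have h3 : ∀ i ∈ S, v i - 1 ∈ Finset.range s := by
    intro i hi
    have a1 := h1 i hi
    have a2 := h2 i hi
    rw [Finset.mem_range]
    omega
  rw [← Finset.prod_fiberwise_of_maps_to h3, Finset.prod_range]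
  refine Finset.prod_congr rfl fun t _ => ?_
  rw [← Finset.prod_const]
  refine Finset.prod_congr rfl fun i hi => ?_
  rw [Finset.mem_filter] at hi
  have a1 := h1 i hi.1
  have a2 := hi.2
  omega

private lemma V1_large {ι : Type} (S : Finset ι) (v : ι → ℕ) (s m : ℕ)
    (hc : S.card ≤ s) (hm : ∀ i ∈ S, v i ≤ m) :
    ∃ b : Fin s → Fin (m + 2), ∏ i ∈ S, (v i + 1) = ∏ t : Fin s, ((b t : ℕ)) := by
  classical
  let e := S.equivFin
  let w : ℕ → ℕ := fun j => if h : j < S.card then v (e.symm ⟨j, h⟩) + 1 else 1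
  have hw : ∀ j, w j < m + 2 := by
    intro j
    show (if h : j < S.card then v (e.symm ⟨j, h⟩) + 1 else 1) < m + 2
    split_ifs with h
    · have := hm _ (e.symm ⟨j, h⟩).2
      omega
    · omega
  refine ⟨fun t => ⟨w t, hw t⟩, ?_⟩
  show ∏ i ∈ S, (v i + 1) = ∏ t : Fin s, w (t : ℕ)
  rw [← Finset.prod_range]
  have h1 : ∏ j ∈ Finset.range s, w j = ∏ j ∈ Finset.range S.card, w j := by
    symm
    refine Finset.prod_subset (Finset.range_mono hc) fun j _ hj => ?_
    rw [Finset.mem_range] at hj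
    show (if h : j < S.card then v (e.symm ⟨j, h⟩) + 1 else 1) = 1
    rw [dif_neg hj]
  rw [h1, Finset.prod_range, ← Finset.prod_coe_sort S fun i => v i + 1,
    ← Equiv.prod_comp e.symm]
  refine Finset.prod_congr rfl fun j _ => ?_
  show v (e.symm j) + 1 = if h : (j : ℕ) < S.card then v (e.symm ⟨j, h⟩) + 1 else 1
  rw [dif_pos j.2]

theorem thm_V1 : St_V1 := by
  classical
  intro m
  set s := Nat.sqrt m with hs
  let Φ : (Fin s → Fin (m + 1)) × (Fin s → Fin (m + 2)) → ℕ := fun p =>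
    (∏ t : Fin s, ((t : ℕ) + 2) ^ ((p.1 t : ℕ))) * ∏ t : Fin s, ((p.2 t : ℕ))
  refine ⟨Finset.univ.image Φ, ?_, ?_⟩
  · refine Finset.card_image_le.trans ?_
    rw [Finset.card_univ, Fintype.card_prod, Fintype.card_fun, Fintype.card_fun, Fintype.card_fin,
      Fintype.card_fin, Fintype.card_fin, two_mul, pow_add]
    exact Nat.mul_le_mul_right _ (Nat.pow_le_pow_left (by omega) _)
  · intro ι S v h1 hm
    have hsum : ∑ i ∈ S.filter (fun i => v i ≤ s), v i + ∑ i ∈ S.filter (fun i => ¬ v i ≤ s), v i =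
        ∑ i ∈ S, v i := Finset.sum_filter_add_sum_filter_not S _ _
    obtain ⟨c, hc⟩ := V1_small (S.filter fun i => v i ≤ s) v s m
      (fun i hi => h1 i (Finset.mem_filter.1 hi).1) (fun i hi => (Finset.mem_filter.1 hi).2)
      (by omega)
    have hcard : (S.filter fun i => ¬ v i ≤ s).card ≤ s := by
      have e1 : (S.filter fun i => ¬ v i ≤ s).card * (s + 1) ≤
          ∑ i ∈ S.filter (fun i => ¬ v i ≤ s), v i := by
        rw [← smul_eq_mul]
        refine Finset.card_nsmul_le_sum _ _ _ fun i hi => ?_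
        have := (Finset.mem_filter.1 hi).2
        omega
      have e2 : m < (s + 1) * (s + 1) := Nat.lt_succ_sqrt m
      by_contra hcon
      have e3 : (s + 1) * (s + 1) ≤ (S.filter fun i => ¬ v i ≤ s).card * (s + 1) :=
        Nat.mul_le_mul_right _ (by omega)
      omega
    obtain ⟨b, hb⟩ := V1_large (S.filter fun i => ¬ v i ≤ s) v s m hcard (fun i hi => by
      have e1 : v i ≤ ∑ i ∈ S, v i :=
        Finset.single_le_sum (f := v) (fun _ _ => Nat.zero_le _) (Finset.mem_filter.1 hi).1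
      omega)
    rw [Finset.mem_image]
    refine ⟨(c, b), Finset.mem_univ _, ?_⟩
    show (∏ t : Fin s, ((t : ℕ) + 2) ^ ((c t : ℕ))) * ∏ t : Fin s, ((b t : ℕ)) = _
    rw [← hc, ← hb]
    exact Finset.prod_filter_mul_prod_filter_not S _ _

end Pool.Agent.RNK
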