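import Pool.Agent.RNK.N0a
import Pool.Agent.RNK.N0b
import Pool.Agent.RNK.N1
import Pool.Agent.RNK.N2a
import Pool.Agent.RNK.N2b
import Pool.Agent.RNK.N2
import Pool.Agent.RNK.N3
import Pool.Agent.RNK.N4
import Pool.Agent.RNK.N6
import Pool.Agent.RNK.N7
import Pool.Agent.RNK.V1
import Pool.Agent.RNK.N8
import Pool.Agent.RNK.G1
import Pool.Agent.RNK.G2
import Pool.Agent.RNK.G3
import Pool.Agent.RNK.G4
import Pool.Agent.RNK.A1
import Pool.Agent.RNK.A2
import Pool.Agent.RNK.S1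
import Pool.Agent.RNK.B1
import Pool.Agent.RNK.C1
import Pool.Agent.RNK.C2
import Pool.Agent.RNK.E1
import Pool.Agent.RNK.E2
import Pool.Agent.RNK.B2
import Pool.Agent.RNK.D1a
import Pool.Agent.RNK.D1b
import Pool.Agent.RNK.Dn
import Pool.Agent.RNK.D1
import Pool.Agent.RNK.E3

set_option autoImplicit false

/-!
# RNK: assembly
-/

namespace Pool.Agent.RNK

theorem main : St_Main := by
  have n0a : St_N0a := thm_N0a
  have n0b : St_N0b := thm_N0b
  have n1 : St_N1 := thm_N1 n0a n0b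
  have n2a : St_N2a := thm_N2a
  have n2b : St_N2b := thm_N2b n0a
  have n2 : St_N2 := thm_N2 n2a n2b
  have n3 : St_N3 := thm_N3 n0a n0b n1 n2
  have n4 : St_N4 := thm_N4 n0a n0b
  have n6 : St_N6 := thm_N6 n0a n2
  have n7 : St_N7 := thm_N7 n2
  have v1 : St_V1 := thm_V1
  have n8 : St_N8 := thm_N8 n2 v1
  have g1 : St_G1 := thm_G1
  have g2 : St_G2 := thm_G2 n0b g1
  have g3 : St_G3 := thm_G3 n0a n0b
  have a1 : St_A1 := thm_A1
  have g4 : St_G4 := thm_G4 n0a n0b n1 g1 g3 a1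
  have a2 : St_A2 := thm_A2 a1
  have s1 : St_S1 := thm_S1
  have b1 : St_B1 := thm_B1 a1 a2 s1
  have c1 : St_C1 := thm_C1
  have c2 : St_C2 := thm_C2
  have e1 : St_E1 := thm_E1
  have e2 : St_E2 := thm_E2
  have b2 : St_B2 := thm_B2 n0a n0b n4 g3
  have d1a : St_D1a := thm_D1a n0a n0b n2 n6 g1
  have d1b : St_D1b := thm_D1b n0b n2 g2 c1 c2
  have dn : St_Dn := thm_Dn
  have d1 : St_D1 := thm_D1 n0b n3 n7 n8 g4 a1 b1 b2 d1a d1b dn
  have e3 : St_E3 := thm_E3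
  exact e3 d1 e1 e2

end Pool.Agent.RNK
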