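import Pool.Agent.UDT.All

set_option autoImplicit false

/-!
# RNK: definitions

Campaign for MP_1cd194_co: for every `η > 0` there is `δ > 0` with `M_r(n) ≥ n^(1+δ)` for all large
`n` and all `1 ≤ r ≤ n^(1-η)`.

`L` totally real, `K = L(√-1)`, `q : QE L K (-1)`, `q.σ` is complex conjugation.
-/

namespace Pool.Agent.RNK

open IsDedekindDomain NumberField Pool.Agent.QCF Pool.Agent.UDT
open Pool.Agent.Helper53.Generic Pool.Agent.Helper60.Gap

/-- the standing hypotheses on the totally real field `L` of degree `D` (the fields of `UDT.St_T14`) -/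
structure RF (P : ℕ) (T : Finset ℕ) (D : ℕ) (L : Type) [Field L] [NumberField L] : Prop where
  one_le : 1 ≤ P
  prm : ∀ l ∈ T, l.Prime ∧ l % 4 = 1
  pos : 1 ≤ D
  deg : Module.finrank ℚ L = D
  real : ∀ w : InfinitePlace L, w.IsReal
  disc : (discr L).natAbs ^ 2 ≤ P ^ D
  spl : ∀ l ∈ T, {w : HeightOneSpectrum (𝓞 L) | Ideal.absNorm w.asIdeal = l}.ncard = D

section Field

variable {L K : Type} [Field L] [NumberField L] [Field K] [NumberField K] [Algebra L K]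

/-- totally positive -/
def TP (x : 𝓞 L) : Prop := ∀ τ : L →+* ℝ, 0 < τ (x : L)

/-- the trace, as a sum over the real embeddings -/
noncomputable def tR (x : L) : ℝ := ∑ τ : L →+* ℝ, τ x

theorem exists_nm (q : QE L K (-1 : L)) (y : 𝓞 K) :
    ∃ b : 𝓞 L, algebraMap L K (b : L) = (y : K) * q.σ (y : K) := by
  obtain ⟨x, z, h⟩ := q.repr (y : K)
  have hs : q.ω ^ 2 = -1 := by rw [q.sq]; simp
  have hc : q.σ (y : K) = algebraMap L K x - algebraMap L K z * q.ω := by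
    rw [h, map_add, map_mul, q.hσ, AlgEquiv.commutes, AlgEquiv.commutes]
    ring
  have hb : algebraMap L K (x ^ 2 + z ^ 2) = (y : K) * q.σ (y : K) := by
    rw [hc, map_add, map_pow, map_pow]
    conv_rhs => rw [h]
    linear_combination (algebraMap L K z) ^ 2 * hs
  have hy : IsIntegral ℤ (y : K) := y.isIntegral_coe
  have h1 : IsIntegral ℤ (algebraMap L K (x ^ 2 + z ^ 2)) := by
    rw [hb]
    exact hy.mul (hy.map (q.σ : K →+* K).toIntAlgHom)
  have h2 : IsIntegral ℤ (x ^ 2 + z ^ 2 : L) :=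
    (isIntegral_algHom_iff (algebraMap L K).toIntAlgHom (algebraMap L K).injective).mp h1
  exact ⟨⟨_, h2⟩, hb⟩

/-- the norm `y σ(y)` of an integer of `K` -/
noncomputable def nm (q : QE L K (-1 : L)) (y : 𝓞 K) : 𝓞 L := Classical.choose (exists_nm q y)

theorem nm_spec (q : QE L K (-1 : L)) (y : 𝓞 K) :
    algebraMap L K (nm q y : L) = (y : K) * q.σ (y : K) := Classical.choose_spec (exists_nm q y)

/-- conjugation of ideals -/
noncomputable def bar (q : QE L K (-1 : L)) (I : Ideal (𝓞 K)) : Ideal (𝓞 K) :=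
  I.map (RingOfIntegers.mapRingEquiv (q.σ : K ≃+* K)).toRingHom

/-- the ideals `I` with `I * bar I = J 𝓞_K` -/
def solI (q : QE L K (-1 : L)) (J : Ideal (𝓞 L)) : Set (Ideal (𝓞 K)) :=
  {I | I * bar q I = J.map (algebraMap (𝓞 L) (𝓞 K))}

/-- the ideals `I` with `I * bar I = (x)` -/
def sol (q : QE L K (-1 : L)) (x : 𝓞 L) : Set (Ideal (𝓞 K)) :=
  {I | I * bar q I = Ideal.span {algebraMap (𝓞 L) (𝓞 K) x}}

/-- their number -/
noncomputable def dd (q : QE L K (-1 : L)) (x : 𝓞 L) : ℕ := (sol q x).ncard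

/-- the number of integers of norm one -/
noncomputable def WW (q : QE L K (-1 : L)) : ℕ := {y : 𝓞 K | nm q y = 1}.ncard

/-- a unimodular hermitian lattice: `p.1 * bar p.1 = (p.2)`, `p.2` totally positive -/
def UL (q : QE L K (-1 : L)) (p : Ideal (𝓞 K) × 𝓞 L) : Prop := p.1 ∈ sol q p.2 ∧ TP p.2

/-- `R` represents all unimodular hermitian lattices, each exactly once -/
def Reps (q : QE L K (-1 : L)) (R : Finset (Ideal (𝓞 K) × 𝓞 L)) : Prop :=
  (∀ p ∈ R, UL q p) ∧ ∀ (x : 𝓞 L) (I : Ideal (𝓞 K)), TP x → I ∈ sol q x →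
    ∃! p, p ∈ R ∧ ∃ y : 𝓞 K, I * p.1 = Ideal.span {y} ∧ nm q y = x * p.2

/-- the quadratic form of the lattice `p` with weight `s` -/
noncomputable def hh (q : QE L K (-1 : L)) (s : L) (b : 𝓞 L) (y : 𝓞 K) : ℝ :=
  ∑ τ : L →+* ℝ, τ s * τ (nm q y : L) / τ (b : L)

/-- the theta series of the lattice `p` with weight `s` at `1 / (2 ρ)` -/
noncomputable def SS (q : QE L K (-1 : L)) (s : L) (ρ : ℝ) (p : Ideal (𝓞 K) × 𝓞 L) : ℝ :=
  ∑' y : p.1, Real.exp (-(hh q s p.2 (y : 𝓞 K)) / (2 * ρ))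

/-- the level function -/
noncomputable def FF (q : QE L K (-1 : L)) (s : L) (ρ : ℝ) (x : 𝓞 L) : ℝ :=
  tR (s * (x : L)) - 2 * ρ * Real.log (dd q x)

end Field

/-- a quadratic form on a lattice of rank `2 D` -/
structure EL (D : ℕ) {Λ : Type} [AddCommGroup Λ] (h : Λ → ℝ) : Prop where
  nonneg : ∀ y, 0 ≤ h y
  pos : ∀ y, h y = 0 → y = 0
  par : ∀ y z, h (y + z) + h (y - z) = 2 * h y + 2 * h z
  fin : ∀ H : ℝ, 0 ≤ H → {y | h y ≤ H * D}.Finite ∧
    ({y | h y ≤ H * D}.ncard : ℝ) ≤ (16 * H + 2) ^ D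
  cls : ∃ c : Λ → Fin (4 ^ D), ∀ y z, c y = c z ↔ ∃ u, y - z = 2 • u

/-- a finite family of lattices in the plane whose differences carry labels -/
structure Conf (D : ℕ) (ι Γ : Type) [Fintype ι] where
  Λ : ι → Type
  grp : ∀ i, AddCommGroup (Λ i)
  h : ∀ i, Λ i → ℝ
  el : ∀ i, @EL D (Λ i) (grp i) (h i)
  pt : ∀ i, Λ i → ℂ
  inj : ∀ i, Function.Injective (pt i)
  lab : ∀ i, Λ i → Γ
  δ : Γ → ℝ
  δinj : Function.Injective δ
  t : Γ → ℝ
  cnt : Γ → ℕ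
  W : ℕ
  dist_eq : ∀ i (y v : Λ i), v ≠ 0 → dist (pt i (y + 2 • v)) (pt i y) = δ (lab i v)
  h_eq : ∀ i (v : Λ i), v ≠ 0 → h i v = t (lab i v)
  sum_cnt : ∀ γ, ∑ i, {v : Λ i | v ≠ 0 ∧ lab i v = γ}.ncard = W * cnt γ

attribute [instance] Conf.grp

/-- `U` has exactly `r` popular distances: multiplicity (ordered pairs) at least `a` for these, at
most `b ≤ (1 - θ) a` for the others, and `G |U| ≤ a ≤ A` -/
def Blk (U : Finset Plane) (r : ℕ) (θ G A : ℝ) : Prop :=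
  ∃ (S : Finset ℝ) (a b : ℝ), S.card = r ∧ (∀ d ∈ S, a ≤ P U d) ∧
    (∀ d, d ∉ S → (P U d : ℝ) ≤ b) ∧ b ≤ (1 - θ) * a ∧ G * U.card ≤ a ∧ 0 < a ∧ a ≤ A

/-- blocks for all ranks up to `R`, up to a factor `2 D` -/
def Av (D : ℕ) (θ G A : ℝ) (R : ℕ) : Prop := ∀ r₀ : ℕ, 1 ≤ r₀ → r₀ ≤ R →
  ∃ (U : Finset Plane) (r' : ℕ), r₀ ≤ r' ∧ r' ≤ 2 * D * (r₀ - 1) + 1 ∧ Blk U r' θ G A

end Pool.Agent.RNK
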