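import Pool.Agent.RNK.StN

set_option autoImplicit false

/-!
# RNK / N0a: algebra of the norm and of conjugation
-/

namespace Pool.Agent.RNK

open IsDedekindDomain NumberField Pool.Agent.QCF Pool.Agent.UDT

namespace N0a

set_option linter.unusedSectionVars false

variable {L K : Type} [Field L] [NumberField L] [Field K] [NumberField K] [Algebra L K]
  (q : QE L K (-1 : L))

/-- conjugation on the integers -/
noncomputable def sg : 𝓞 K ≃+* 𝓞 K := RingOfIntegers.mapRingEquiv (q.σ : K ≃+* K)

theorem sg_coe (y : 𝓞 K) : ((sg q y : 𝓞 K) : K) = q.σ (y : K) := rfl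

theorem σσ (z : K) : q.σ (q.σ z) = z := by
  obtain ⟨x, y, h⟩ := q.repr z
  rw [h]
  simp only [map_add, map_mul, q.hσ, AlgEquiv.commutes, map_neg]
  ring

theorem sg_sg (y : 𝓞 K) : sg q (sg q y) = y := by
  apply RingOfIntegers.ext
  rw [sg_coe, sg_coe, σσ]

theorem am_coe (x : 𝓞 L) : ((algebraMap (𝓞 L) (𝓞 K) x : 𝓞 K) : K) = algebraMap L K (x : L) := rfl

theorem am_inj {x z : 𝓞 L} (h : algebraMap (𝓞 L) (𝓞 K) x = algebraMap (𝓞 L) (𝓞 K) z) : x = z := by
  apply RingOfIntegers.ext
  apply (algebraMap L K).injective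
  rw [← am_coe, ← am_coe, h]

theorem nm_int (y : 𝓞 K) : algebraMap (𝓞 L) (𝓞 K) (nm q y) = y * sg q y := by
  apply RingOfIntegers.ext
  rw [am_coe, nm_spec]
  rfl

theorem sg_am (x : 𝓞 L) : sg q (algebraMap (𝓞 L) (𝓞 K) x) = algebraMap (𝓞 L) (𝓞 K) x := by
  apply RingOfIntegers.ext
  rw [sg_coe, am_coe, AlgEquiv.commutes]

theorem bar_def (I : Ideal (𝓞 K)) : bar q I = I.map (sg q).toRingHom := rfl

theorem bar_bar (I : Ideal (𝓞 K)) : bar q (bar q I) = I := by
  rw [bar_def, bar_def, Ideal.map_map]
  have h : (sg q).toRingHom.comp (sg q).toRingHom = RingHom.id (𝓞 K) :=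
    RingHom.ext fun y => sg_sg q y
  rw [h, Ideal.map_id]

theorem bar_span (y : 𝓞 K) : bar q (Ideal.span {y}) = Ideal.span {sg q y} := by
  rw [bar_def, Ideal.map_span, Set.image_singleton]
  rfl

theorem norm_bar (I : Ideal (𝓞 K)) : Ideal.absNorm (bar q I) = Ideal.absNorm I := by
  rw [Ideal.absNorm_apply, Ideal.absNorm_apply, Submodule.cardQuot_apply, Submodule.cardQuot_apply]
  exact (Nat.card_congr (Ideal.quotientEquiv I (bar q I) (sg q) rfl).toEquiv).symm

end N0a

open N0a

theorem thm_N0a : St_N0a := by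
  intro L K _ _ _ _ _ q
  refine ⟨?_, ?_, ?_, ?_, ?_, ?_, ?_, ?_, ?_, ?_, ?_, ?_⟩
  · intro y z
    apply am_inj (K := K)
    rw [nm_int, map_mul, map_mul, nm_int, nm_int]
    ring
  · apply am_inj (K := K)
    rw [nm_int, map_one, map_one, one_mul]
  · intro y
    constructor
    · intro h
      have h1 := nm_int q y
      rw [h, map_zero] at h1
      rcases mul_eq_zero.1 h1.symm with h2 | h2
      · exact h2
      · exact (map_eq_zero_iff _ (sg q).injective).1 h2
    · rintro rfl
      apply am_inj (K := K)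
      rw [nm_int, zero_mul, map_zero]
  · intro y z
    apply am_inj (K := K)
    simp only [map_add, map_mul, nm_int, map_sub, map_ofNat]
    ring
  · intro x
    apply am_inj (K := K)
    rw [nm_int, sg_am, map_pow, sq]
  · rintro x z ⟨c, hc⟩
    by_cases hx : x = 0
    · subst hx
      rw [map_zero, zero_mul] at hc
      have hz : z = 0 := am_inj (K := K) (hc.trans (map_zero _).symm)
      rw [hz]
    · have hx' : (x : L) ≠ 0 := fun h => hx (RingOfIntegers.ext h)
      have hxK : algebraMap L K (x : L) ≠ 0 := (map_ne_zero _).2 hx'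
      have h1 : algebraMap L K ((z : L) / (x : L)) = (c : K) := by
        have h2 : algebraMap L K (z : L) = algebraMap L K (x : L) * (c : K) :=
          congrArg (fun t : 𝓞 K => (t : K)) hc
        rw [map_div₀, h2]
        field_simp
      have h2 : IsIntegral ℤ ((z : L) / (x : L)) := by
        refine (isIntegral_algHom_iff (algebraMap L K).toIntAlgHom (algebraMap L K).injective).mp ?_
        change IsIntegral ℤ (algebraMap L K ((z : L) / (x : L)))
        rw [h1]
        exact c.isIntegral_coe
      refine ⟨⟨(z : L) / (x : L), h2⟩, ?_⟩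
      apply RingOfIntegers.ext
      show (z : L) = (x : L) * ((z : L) / (x : L))
      field_simp
  · intro I J
    exact Ideal.map_mul _ _ _
  · intro I
    exact ⟨bar_bar q I, norm_bar q I⟩
  · intro y
    rw [bar_span, Ideal.span_singleton_mul_span_singleton, nm_int]
  · intro I y hy
    rw [nm_int]
    exact Ideal.mul_mem_mul hy (Ideal.mem_map_of_mem _ hy)
  · intro J
    rw [bar_def, Ideal.map_map]
    congr 1
    exact RingHom.ext fun x => sg_am q x
  · intro w
    have h1 : bar q (mv q.σ w).asIdeal = w.asIdeal :=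
      Ideal.map_comap_of_surjective _ (sg q).surjective w.asIdeal
    rw [← h1, bar_bar]

end Pool.Agent.RNK
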