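import Pool.Agent.RNK.StA

set_option autoImplicit false

/-!
# RNK [S1] Random subsets
-/

namespace Pool.Agent.RNK

open NumberField Pool.Agent.QCF Pool.Agent.Helper53.Generic Pool.Agent.Helper60.Gap

section Abs

variable {I : Type} [Fintype I] [DecidableEq I]

/-- the tail bound for a general index set -/
private theorem S1_tail {q : ℕ} (hq : 0 < q) (F : (I → Fin q) → ℝ) {c V lam : ℝ} (hc : 0 ≤ c)
    (hF : ∀ i ω ω', (∀ j, j ≠ i → ω j = ω' j) → |F ω - F ω'| ≤ c)
    (hV : (Fintype.card I : ℝ) * c ^ 2 ≤ V) (hV0 : 0 < V) (hlam : 0 ≤ lam) :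
    ((Finset.univ.filter (fun ω => lam ≤ F ω - (∑ ω', F ω') / (q : ℝ) ^ (Fintype.card I))).card : ℝ)
      ≤ (q : ℝ) ^ (Fintype.card I) * Real.exp (-(lam ^ 2 / (2 * V))) := by
  classical
  set n := Fintype.card I with hn
  let e : I ≃ Fin n := Fintype.equivFin I
  let F' : (Fin n → Fin q) → ℝ := fun ω => F (fun i => ω (e i))
  let E : (Fin n → Fin q) ≃ (I → Fin q) :=
    { toFun := fun ω i => ω (e i)
      invFun := fun ω j => ω (e.symm j)
      left_inv := fun ω => by funext j; simp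
      right_inv := fun ω => by funext j; simp }
  have hE : ∀ ω, F' ω = F (E ω) := fun ω => rfl
  have hsum : ∑ ω', F' ω' = ∑ ω', F ω' := Fintype.sum_equiv E _ _ hE
  have h := tail_bound hq F' (fun _ => c) (fun _ => hc) (V := V) (lam := lam) (by
    intro i ω ω' h
    refine hF (e.symm i) _ _ ?_
    intro j hj
    refine h _ ?_
    intro h2
    exact hj (by rw [← h2, e.symm_apply_apply])) (by
    rw [Finset.sum_const, Finset.card_univ, Fintype.card_fin, nsmul_eq_mul]
    exact hV) hV0 hlam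
  refine le_trans (le_of_eq ?_) h
  rw [hsum]
  norm_cast
  symm
  refine Finset.card_bij (fun ω _ => E ω) ?_ ?_ ?_
  · intro ω hω
    simp only [Finset.mem_filter, Finset.mem_univ, true_and] at hω ⊢
    rw [← hE]
    exact hω
  · intro ω _ ω' _ h
    exact E.injective h
  · intro ω hω
    refine ⟨E.symm ω, ?_, E.apply_symm_apply ω⟩
    simp only [Finset.mem_filter, Finset.mem_univ, true_and] at hω ⊢
    rw [hE, E.apply_symm_apply]
    exact hω

/-- indicator -/
private noncomputable def S1_ind {q : ℕ} (k : I → ℕ) (i : I) (ω : I → Fin q) : ℝ :=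
  if (ω i : ℕ) < k i then 1 else 0

private theorem S1_ind_nonneg {q : ℕ} (k : I → ℕ) (i : I) (ω : I → Fin q) :
    0 ≤ S1_ind k i ω := by
  unfold S1_ind
  split_ifs <;> norm_num

private theorem S1_ind_le {q : ℕ} (k : I → ℕ) (i : I) (ω : I → Fin q) :
    S1_ind k i ω ≤ 1 := by
  unfold S1_ind
  split_ifs <;> norm_num

private theorem S1_cnt {q : ℕ} (k : ℕ) (hk : k ≤ q) :
    ∑ x : Fin q, (if (x : ℕ) < k then (1 : ℝ) else 0) = k := by
  rw [Fin.sum_univ_eq_sum_range (fun x => if x < k then (1 : ℝ) else 0) q, ← Finset.sum_filter,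
    Finset.sum_const, nsmul_eq_mul, mul_one]
  congr 1
  have : (Finset.range q).filter (fun x => x < k) = Finset.range k := by
    ext x
    simp only [Finset.mem_filter, Finset.mem_range]
    omega
  rw [this, Finset.card_range]

/-- the mean of a product of indicators -/
private theorem S1_mean {q : ℕ} (hq : 0 < q) (k : I → ℕ) (hk : ∀ i, k i ≤ q) (s : Finset I) :
    (∑ ω : I → Fin q, ∏ i ∈ s, S1_ind k i ω) / (q : ℝ) ^ (Fintype.card I) =
      ∏ i ∈ s, ((k i : ℝ) / q) := by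
  have hq' : (q : ℝ) ≠ 0 := by positivity
  have h1 : ∀ ω : I → Fin q, ∏ i ∈ s, S1_ind k i ω =
      ∏ i, (if i ∈ s then (if (ω i : ℕ) < k i then (1 : ℝ) else 0) else 1) := by
    intro ω
    rw [Finset.prod_ite_mem, Finset.univ_inter]
    rfl
  simp only [h1]
  have h2 := Finset.prod_univ_sum (fun _ : I => (Finset.univ : Finset (Fin q)))
    (fun i x => if i ∈ s then (if (x : ℕ) < k i then (1 : ℝ) else 0) else 1)
  rw [Fintype.piFinset_univ] at h2
  rw [← h2]
  have h3 : ∀ i : I, ∑ x : Fin q, (if i ∈ s then (if (x : ℕ) < k i then (1 : ℝ) else 0) else 1) =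
      (q : ℝ) * (if i ∈ s then ((k i : ℝ) / q) else 1) := by
    intro i
    by_cases hi : i ∈ s
    · simp only [hi, if_true]
      rw [S1_cnt _ (hk i)]
      field_simp
    · simp only [hi, if_false]
      simp
  simp only [h3]
  rw [Finset.prod_mul_distrib, Finset.prod_const, Finset.card_univ, Finset.prod_ite_mem,
    Finset.univ_inter]
  field_simp

/-- abstract form -/
private theorem S1_abs (Dd : Finset ℝ) (E : ℝ → Finset (I × I)) (p : I → ℝ)
    (hp : ∀ i, 0 ≤ p i ∧ p i ≤ 1) {Δ N : ℝ} (hΔ : 1 ≤ Δ) (hN : 1 ≤ N)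
    (hne : ∀ d, ∀ e ∈ E d, e.1 ≠ e.2)
    (hE1 : ∀ d i, (((E d).filter fun e => e.1 = i).card : ℝ) ≤ Δ)
    (hE2 : ∀ d i, (((E d).filter fun e => e.2 = i).card : ℝ) ≤ Δ)
    (hI : (Fintype.card I : ℝ) ≤ N) (hD : (Dd.card : ℝ) ≤ N ^ 2) :
    ∃ S : Finset I, (∀ d ∈ Dd,
      |(((E d).filter fun e => e.1 ∈ S ∧ e.2 ∈ S).card : ℝ) - ∑ e ∈ E d, p e.1 * p e.2| ≤
        dev Δ N) ∧ (S.card : ℝ) ≤ ∑ i, p i + dev Δ N := by
  classical
  set n := Fintype.card I with hn
  -- the constants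
  set lam : ℝ := 2 * Δ * √(2 * N * Real.log (2 * N ^ 2 + 2)) with hlam
  have hN2 : 1 ≤ N ^ 2 := by nlinarith
  have hlog0 : 0 < Real.log (2 * N ^ 2 + 2) := Real.log_pos (by linarith)
  have hlog1 : Real.log (2 * N ^ 2 + 2) < Real.log (4 * N ^ 2 + 4) :=
    Real.log_lt_log (by linarith) (by linarith)
  have hlam0 : 0 ≤ lam := by positivity
  have hlt : lam < dev Δ N := by
    unfold dev
    rw [hlam]
    refine mul_lt_mul_of_pos_left ?_ (by linarith)
    refine Real.sqrt_lt_sqrt (by positivity) ?_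
    refine mul_lt_mul_of_pos_left hlog1 (by linarith)
  set V : ℝ := 4 * Δ ^ 2 * N with hV
  have hV0 : 0 < V := by positivity
  have hexp : Real.exp (-(lam ^ 2 / (2 * V))) = 1 / (2 * N ^ 2 + 2) := by
    have h1 : lam ^ 2 / (2 * V) = Real.log (2 * N ^ 2 + 2) := by
      rw [hlam, hV, mul_pow, Real.sq_sqrt (by positivity)]
      field_simp
      ring
    rw [h1, Real.exp_neg, Real.exp_log (by positivity), one_div]
  obtain ⟨q₀, hq₀⟩ := exists_nat_gt (2 * N ^ 2 / (dev Δ N - lam))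
  set q := q₀ + 1 with hqdef
  have hq : 0 < q := Nat.succ_pos _
  have hqR : (0 : ℝ) < q := by exact_mod_cast hq
  have hq1 : 2 * N ^ 2 / q ≤ dev Δ N - lam := by
    have h1 : 0 < dev Δ N - lam := by linarith
    rw [div_le_iff₀ hqR]
    rw [div_lt_iff₀ h1] at hq₀
    have h2 : (q : ℝ) = q₀ + 1 := by rw [hqdef]; push_cast; ring
    rw [h2]
    nlinarith
  -- rounding
  let k : I → ℕ := fun i => ⌊(q : ℝ) * p i⌋₊
  have hk : ∀ i, k i ≤ q := by
    intro i
    have h1 : (q : ℝ) * p i ≤ q := by nlinarith [(hp i).2]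
    calc k i ≤ ⌊(q : ℝ)⌋₊ := Nat.floor_le_floor h1
      _ = q := Nat.floor_natCast q
  have hk1 : ∀ i, (k i : ℝ) / q ≤ p i := by
    intro i
    rw [div_le_iff₀ hqR, mul_comm]
    exact Nat.floor_le (mul_nonneg hqR.le (hp i).1)
  have hk2 : ∀ i, p i ≤ (k i : ℝ) / q + 1 / q := by
    intro i
    rw [← add_div, le_div_iff₀ hqR, mul_comm]
    exact (Nat.lt_floor_add_one _).le
  have hk0 : ∀ i, 0 ≤ (k i : ℝ) / q := fun i => by positivity
  have hnn : (n : ℝ) ^ 2 ≤ N ^ 2 := by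
    have : (0 : ℝ) ≤ n := Nat.cast_nonneg n
    nlinarith
  -- the functions
  let F : ℝ → (I → Fin q) → ℝ := fun d ω => ∑ e ∈ E d, S1_ind k e.1 ω * S1_ind k e.2 ω
  let G : (I → Fin q) → ℝ := fun ω => ∑ i, S1_ind k i ω
  have hagree : ∀ (i : I) (ω ω' : I → Fin q), (∀ j, j ≠ i → ω j = ω' j) → ∀ j, j ≠ i →
      S1_ind k j ω = S1_ind k j ω' := by
    intro i ω ω' h j hj
    unfold S1_ind
    rw [h j hj]
  have hFd : ∀ d, ∀ i ω ω', (∀ j, j ≠ i → ω j = ω' j) → |F d ω - F d ω'| ≤ 2 * Δ := by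
    intro d i ω ω' h
    have h1 : F d ω - F d ω' = ∑ e ∈ E d, (S1_ind k e.1 ω * S1_ind k e.2 ω -
        S1_ind k e.1 ω' * S1_ind k e.2 ω') := by
      rw [Finset.sum_sub_distrib]
    rw [h1]
    refine (Finset.abs_sum_le_sum_abs _ _).trans ?_
    have h2 : ∀ e ∈ E d, |S1_ind k e.1 ω * S1_ind k e.2 ω -
        S1_ind k e.1 ω' * S1_ind k e.2 ω'| ≤
        (if e.1 = i then (1 : ℝ) else 0) + (if e.2 = i then (1 : ℝ) else 0) := by
      intro e _
      have a1 := S1_ind_nonneg k e.1 ω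
      have a2 := S1_ind_nonneg k e.2 ω
      have a3 := S1_ind_nonneg k e.1 ω'
      have a4 := S1_ind_nonneg k e.2 ω'
      have b1 := S1_ind_le k e.1 ω
      have b2 := S1_ind_le k e.2 ω
      have b3 := S1_ind_le k e.1 ω'
      have b4 := S1_ind_le k e.2 ω'
      have c1 : |S1_ind k e.1 ω * S1_ind k e.2 ω - S1_ind k e.1 ω' * S1_ind k e.2 ω'| ≤ 1 := by
        rw [abs_le]
        constructor <;> nlinarith [mul_nonneg a1 a2, mul_nonneg a3 a4,
          mul_le_one₀ b1 a2 b2, mul_le_one₀ b3 a4 b4]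
      by_cases h3 : e.1 = i
      · rw [if_pos h3]
        split_ifs <;> linarith
      · by_cases h4 : e.2 = i
        · rw [if_pos h4]
          split_ifs <;> linarith
        · rw [if_neg h3, if_neg h4, hagree i ω ω' h e.1 h3, hagree i ω ω' h e.2 h4]
          simp
    refine (Finset.sum_le_sum h2).trans ?_
    rw [Finset.sum_add_distrib, ← Finset.sum_filter, ← Finset.sum_filter, Finset.sum_const,
      Finset.sum_const, nsmul_eq_mul, nsmul_eq_mul, mul_one, mul_one]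
    linarith [hE1 d i, hE2 d i]
  have hGd : ∀ i ω ω', (∀ j, j ≠ i → ω j = ω' j) → |G ω - G ω'| ≤ 2 * Δ := by
    intro i ω ω' h
    have h1 : G ω - G ω' = ∑ j, (S1_ind k j ω - S1_ind k j ω') := by
      rw [Finset.sum_sub_distrib]
    rw [h1]
    refine (Finset.abs_sum_le_sum_abs _ _).trans ?_
    have h2 : ∀ j ∈ (Finset.univ : Finset I), |S1_ind k j ω - S1_ind k j ω'| ≤
        (if j = i then (1 : ℝ) else 0) := by
      intro j _
      by_cases h3 : j = i
      · rw [if_pos h3, abs_le]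
        constructor <;> linarith [S1_ind_nonneg k j ω, S1_ind_nonneg k j ω',
          S1_ind_le k j ω, S1_ind_le k j ω']
      · rw [if_neg h3, hagree i ω ω' h j h3]
        simp
    refine (Finset.sum_le_sum h2).trans ?_
    rw [Finset.sum_ite_eq' Finset.univ i]
    simp only [Finset.mem_univ, if_true]
    linarith
  have hVc : (Fintype.card I : ℝ) * (2 * Δ) ^ 2 ≤ V := by
    rw [hV]
    have : (0 : ℝ) ≤ Δ ^ 2 := sq_nonneg _
    nlinarith
  -- means
  have hFm : ∀ d, (∑ ω, F d ω) / (q : ℝ) ^ n =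
      ∑ e ∈ E d, ((k e.1 : ℝ) / q) * ((k e.2 : ℝ) / q) := by
    intro d
    rw [Finset.sum_comm, Finset.sum_div]
    refine Finset.sum_congr rfl fun e he => ?_
    have h := S1_mean hq k hk {e.1, e.2}
    rw [Finset.prod_pair (hne d e he)] at h
    rw [← h]
    congr 1
    refine Finset.sum_congr rfl fun ω _ => ?_
    rw [Finset.prod_pair (hne d e he)]
  have hGm : (∑ ω, G ω) / (q : ℝ) ^ n = ∑ i, ((k i : ℝ) / q) := by
    rw [Finset.sum_comm, Finset.sum_div]
    refine Finset.sum_congr rfl fun i _ => ?_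
    have h := S1_mean hq k hk {i}
    rw [Finset.prod_singleton] at h
    rw [← h]
    congr 1
    refine Finset.sum_congr rfl fun ω _ => ?_
    rw [Finset.prod_singleton]
  -- bad sets
  let B1 : ℝ → Finset (I → Fin q) := fun d =>
    Finset.univ.filter (fun ω => lam ≤ F d ω - (∑ ω', F d ω') / (q : ℝ) ^ n)
  let B2 : ℝ → Finset (I → Fin q) := fun d =>
    Finset.univ.filter (fun ω => lam ≤ -F d ω - (∑ ω', -F d ω') / (q : ℝ) ^ n)
  let B3 : Finset (I → Fin q) :=
    Finset.univ.filter (fun ω => lam ≤ G ω - (∑ ω', G ω') / (q : ℝ) ^ n)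
  have hB1 : ∀ d, ((B1 d).card : ℝ) ≤ (q : ℝ) ^ n * (1 / (2 * N ^ 2 + 2)) := by
    intro d
    rw [← hexp]
    exact S1_tail hq (F d) (by linarith) (hFd d) hVc hV0 hlam0
  have hB2 : ∀ d, ((B2 d).card : ℝ) ≤ (q : ℝ) ^ n * (1 / (2 * N ^ 2 + 2)) := by
    intro d
    rw [← hexp]
    refine S1_tail hq (fun ω => -F d ω) (by linarith : (0 : ℝ) ≤ 2 * Δ) ?_ hVc hV0 hlam0
    intro i ω ω' h
    have := hFd d i ω ω' h
    rw [abs_sub_comm] at this
    calc |-F d ω - -F d ω'| = |F d ω' - F d ω| := by ring_nf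
      _ ≤ _ := this
  have hB3 : (B3.card : ℝ) ≤ (q : ℝ) ^ n * (1 / (2 * N ^ 2 + 2)) := by
    rw [← hexp]
    exact S1_tail hq G (by linarith) hGd hVc hV0 hlam0
  have hgood : ∃ ω : I → Fin q, ω ∉ (Dd.biUnion fun d => B1 d ∪ B2 d) ∪ B3 := by
    by_contra hcon
    push Not at hcon
    have h1 : (Finset.univ : Finset (I → Fin q)) ⊆ (Dd.biUnion fun d => B1 d ∪ B2 d) ∪ B3 :=
      fun ω _ => hcon ω
    have h2 := Finset.card_le_card h1
    have h3 : (((Dd.biUnion fun d => B1 d ∪ B2 d) ∪ B3).card : ℝ) ≤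
        ∑ d ∈ Dd, (((B1 d).card : ℝ) + ((B2 d).card : ℝ)) + (B3.card : ℝ) := by
      have a1 := Finset.card_union_le (Dd.biUnion fun d => B1 d ∪ B2 d) B3
      have a2 : (Dd.biUnion fun d => B1 d ∪ B2 d).card ≤ ∑ d ∈ Dd, (B1 d ∪ B2 d).card :=
        Finset.card_biUnion_le
      have a3 : ∑ d ∈ Dd, (B1 d ∪ B2 d).card ≤ ∑ d ∈ Dd, ((B1 d).card + (B2 d).card) :=
        Finset.sum_le_sum fun d _ => Finset.card_union_le _ _
      have a4 : ((Dd.biUnion fun d => B1 d ∪ B2 d) ∪ B3).card ≤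
          ∑ d ∈ Dd, ((B1 d).card + (B2 d).card) + B3.card := by omega
      exact_mod_cast a4
    have h4 : ∑ d ∈ Dd, (((B1 d).card : ℝ) + ((B2 d).card : ℝ)) ≤
        (Dd.card : ℝ) * (2 * ((q : ℝ) ^ n * (1 / (2 * N ^ 2 + 2)))) := by
      rw [← nsmul_eq_mul, ← Finset.sum_const]
      refine Finset.sum_le_sum fun d _ => ?_
      linarith [hB1 d, hB2 d]
    have h5 : ((Finset.univ : Finset (I → Fin q)).card : ℝ) = (q : ℝ) ^ n := by
      rw [Finset.card_univ, Fintype.card_fun, Fintype.card_fin]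
      push_cast
      rfl
    have h6 : (q : ℝ) ^ n ≤ (((Dd.biUnion fun d => B1 d ∪ B2 d) ∪ B3).card : ℝ) := by
      rw [← h5]
      exact_mod_cast h2
    have hqn : (0 : ℝ) < (q : ℝ) ^ n := by positivity
    have h7 : (Dd.card : ℝ) * (2 * ((q : ℝ) ^ n * (1 / (2 * N ^ 2 + 2)))) ≤
        N ^ 2 * (2 * ((q : ℝ) ^ n * (1 / (2 * N ^ 2 + 2)))) :=
      mul_le_mul_of_nonneg_right hD (by positivity)
    have h8 : N ^ 2 * (2 * ((q : ℝ) ^ n * (1 / (2 * N ^ 2 + 2)))) +
        (q : ℝ) ^ n * (1 / (2 * N ^ 2 + 2)) =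
        (q : ℝ) ^ n * ((2 * N ^ 2 + 1) / (2 * N ^ 2 + 2)) := by ring
    have h9 : (2 * N ^ 2 + 1) / (2 * N ^ 2 + 2) < 1 := by
      rw [div_lt_one (by positivity)]
      linarith
    have h10 : (q : ℝ) ^ n * ((2 * N ^ 2 + 1) / (2 * N ^ 2 + 2)) < (q : ℝ) ^ n * 1 :=
      mul_lt_mul_of_pos_left h9 hqn
    linarith
  obtain ⟨ω, hω⟩ := hgood
  rw [Finset.mem_union, Finset.mem_biUnion, not_or] at hω
  obtain ⟨hω1, hω3⟩ := hω
  push Not at hω1
  refine ⟨Finset.univ.filter fun i => (ω i : ℕ) < k i, ?_, ?_⟩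
  · intro d hd
    have h1 := hω1 d hd
    rw [Finset.mem_union, not_or] at h1
    obtain ⟨h1, h2⟩ := h1
    simp only [B1, B2, Finset.mem_filter, Finset.mem_univ, true_and, not_le] at h1 h2
    rw [hFm d] at h1
    rw [Finset.sum_neg_distrib, neg_div, hFm d] at h2
    have hF : (((E d).filter fun e => e.1 ∈ (Finset.univ.filter fun i => (ω i : ℕ) < k i) ∧
        e.2 ∈ (Finset.univ.filter fun i => (ω i : ℕ) < k i)).card : ℝ) = F d ω := by
      rw [Finset.card_filter]
      push_cast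
      refine Finset.sum_congr rfl fun e _ => ?_
      unfold S1_ind
      simp only [Finset.mem_filter, Finset.mem_univ, true_and]
      by_cases c1 : (ω e.1 : ℕ) < k e.1 <;> by_cases c2 : (ω e.2 : ℕ) < k e.2 <;> simp [c1, c2]
    rw [hF]
    have hr : |∑ e ∈ E d, ((k e.1 : ℝ) / q) * ((k e.2 : ℝ) / q) - ∑ e ∈ E d, p e.1 * p e.2| ≤
        2 * N ^ 2 / q := by
      rw [← Finset.sum_sub_distrib]
      refine (Finset.abs_sum_le_sum_abs _ _).trans ?_
      have h3 : ∀ e ∈ E d, |((k e.1 : ℝ) / q) * ((k e.2 : ℝ) / q) - p e.1 * p e.2| ≤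
          2 / (q : ℝ) := by
        intro e _
        have a1 := hk0 e.1
        have a2 := hk0 e.2
        have a3 := hk1 e.1
        have a4 := hk1 e.2
        have a5 := hk2 e.1
        have a6 := hk2 e.2
        have a7 := hp e.1
        have a8 := hp e.2
        set x := (k e.1 : ℝ) / q
        set y := (k e.2 : ℝ) / q
        set t := (1 : ℝ) / q with ht
        have ht0 : 0 ≤ t := by positivity
        have h4 : (2 : ℝ) / q = 2 * t := by rw [ht]; ring
        rw [h4, abs_le]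
        constructor
        · nlinarith [mul_nonneg a7.1 (sub_nonneg.2 a4), mul_nonneg a2 (sub_nonneg.2 a3),
            mul_nonneg ht0 (sub_nonneg.2 a8.2), mul_nonneg ht0 (sub_nonneg.2 a7.2)]
        · nlinarith [mul_nonneg a7.1 (sub_nonneg.2 a4), mul_nonneg a2 (sub_nonneg.2 a3)]
      refine (Finset.sum_le_sum h3).trans ?_
      rw [Finset.sum_const, nsmul_eq_mul]
      have h5 : ((E d).card : ℝ) ≤ (n : ℝ) ^ 2 := by
        have h6 := Finset.card_le_univ (E d)
        rw [Fintype.card_prod, ← hn, ← pow_two] at h6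
        exact_mod_cast h6
      have h7 : ((E d).card : ℝ) * (2 / q) ≤ N ^ 2 * (2 / q) :=
        mul_le_mul_of_nonneg_right (h5.trans hnn) (by positivity)
      calc ((E d).card : ℝ) * (2 / q) ≤ N ^ 2 * (2 / q) := h7
        _ = 2 * N ^ 2 / q := by ring
    rw [abs_le] at hr ⊢
    obtain ⟨hr1, hr2⟩ := hr
    constructor <;> linarith
  · simp only [B3, Finset.mem_filter, Finset.mem_univ, true_and, not_le] at hω3
    rw [hGm] at hω3
    have hG : ((Finset.univ.filter fun i => (ω i : ℕ) < k i).card : ℝ) = G ω := by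
      rw [Finset.card_filter]
      push_cast
      rfl
    rw [hG]
    have h1 : ∑ i, ((k i : ℝ) / q) ≤ ∑ i, p i := Finset.sum_le_sum fun i _ => hk1 i
    linarith

end Abs

/-- index set -/
private abbrev S1_I {κ : Type} (X : κ → Finset Plane) := Σ j, {x // x ∈ X j}

open Classical in
/-- pairs at distance `d` -/
private noncomputable def S1_E {κ : Type} [Fintype κ] (X : κ → Finset Plane) (d : ℝ) :
    Finset (S1_I X × S1_I X) :=
  Finset.univ.filter
    (fun e => e.1.1 = e.2.1 ∧ (e.1.2 : Plane) ≠ e.2.2 ∧ dist (e.1.2 : Plane) e.2.2 = d)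

private theorem S1_mem_E {κ : Type} [Fintype κ] {X : κ → Finset Plane} {d : ℝ}
    {e : S1_I X × S1_I X} : e ∈ S1_E X d ↔
      e.1.1 = e.2.1 ∧ (e.1.2 : Plane) ≠ e.2.2 ∧ dist (e.1.2 : Plane) e.2.2 = d := by
  classical
  unfold S1_E
  rw [Finset.mem_filter]
  simp only [Finset.mem_univ, true_and]

/-- summation over the pairs -/
private theorem S1_sum {κ : Type} [Fintype κ] [DecidableEq κ] (X : κ → Finset Plane) (d : ℝ)
    (ψ : κ → Plane → Plane → ℝ) :
    ∑ e ∈ S1_E X d, ψ e.1.1 e.1.2 e.2.2 =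
    ∑ j, ∑ e ∈ (X j).offDiag.filter (fun e => dist e.1 e.2 = d), ψ j e.1 e.2 := by
  classical
  rw [Finset.sum_sigma']
  refine Finset.sum_bij (fun e _ => ⟨e.1.1, ((e.1.2 : Plane), (e.2.2 : Plane))⟩) ?_ ?_ ?_ ?_
  · rintro ⟨⟨j, x, hx⟩, ⟨j', y, hy⟩⟩ he
    obtain ⟨h1, h2, h3⟩ := S1_mem_E.1 he
    simp only at h1 h2 h3
    subst h1
    simp only [Finset.mem_sigma, Finset.mem_univ, true_and, Finset.mem_filter,
      Finset.mem_offDiag]
    exact ⟨⟨hx, hy, h2⟩, h3⟩
  · rintro ⟨⟨j, x, hx⟩, ⟨j', y, hy⟩⟩ he ⟨⟨i, x', hx'⟩, ⟨i', y', hy'⟩⟩ he' heq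
    obtain ⟨h1, -, -⟩ := S1_mem_E.1 he
    obtain ⟨h2, -, -⟩ := S1_mem_E.1 he'
    simp only at h1 h2
    subst h1
    subst h2
    simp only [Sigma.mk.injEq, heq_eq_eq, Prod.mk.injEq] at heq
    obtain ⟨h3, h4, h5⟩ := heq
    subst h3
    subst h4
    subst h5
    rfl
  · rintro ⟨j, x, y⟩ he
    simp only [Finset.mem_sigma, Finset.mem_univ, true_and, Finset.mem_filter,
      Finset.mem_offDiag] at he
    obtain ⟨⟨hx, hy, h2⟩, h3⟩ := he
    exact ⟨⟨⟨j, x, hx⟩, ⟨j, y, hy⟩⟩, S1_mem_E.2 ⟨rfl, h2, h3⟩, rfl⟩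
  · rintro ⟨⟨j, x, hx⟩, ⟨j', y, hy⟩⟩ he
    rfl

theorem thm_S1 : St_S1 := by
  classical
  intro κ _ _ X g Δ N hg hΔ hN hX hcard
  let Dd : Finset ℝ := (Finset.univ : Finset (S1_I X × S1_I X)).image
    fun e => dist (e.1.2 : Plane) e.2.2
  have hI : (Fintype.card (S1_I X) : ℝ) ≤ N := by
    have h1 : Fintype.card (S1_I X) = ∑ j, (X j).card := by
      rw [Fintype.card_sigma]
      refine Finset.sum_congr rfl fun j _ => ?_
      exact Fintype.card_coe (X j)
    rw [h1]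
    push_cast
    exact hcard
  have hD : (Dd.card : ℝ) ≤ N ^ 2 := by
    have h1 : Dd.card ≤ Fintype.card (S1_I X) ^ 2 := by
      refine Finset.card_image_le.trans ?_
      rw [Finset.card_univ, Fintype.card_prod, pow_two]
    have h2 : (Dd.card : ℝ) ≤ (Fintype.card (S1_I X) : ℝ) ^ 2 := by exact_mod_cast h1
    have h3 : (0 : ℝ) ≤ Fintype.card (S1_I X) := Nat.cast_nonneg _
    nlinarith
  have hdev : 0 ≤ dev Δ N := by
    unfold dev
    have : 0 ≤ Δ := by linarith
    positivity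
  obtain ⟨S, hS1, hS2⟩ := S1_abs Dd (S1_E X) (fun i => g i.1 i.2) (fun i => hg i.1 i.2) hΔ hN (by
      rintro d ⟨⟨j, x, hx⟩, ⟨j', y, hy⟩⟩ he heq
      obtain ⟨h1, h2, h3⟩ := S1_mem_E.1 he
      simp only at heq h1 h2 h3
      subst h1
      simp only [Sigma.mk.injEq, heq_eq_eq, Subtype.mk.injEq, true_and] at heq
      exact h2 heq) (by
      rintro d ⟨j, x, hx⟩
      refine le_trans ?_ (hX j x hx d)
      norm_cast
      refine Finset.card_le_card_of_injOn (fun e => (e.2.2 : Plane)) ?_ ?_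
      · rintro ⟨⟨i, x', hx'⟩, ⟨i', y, hy⟩⟩ he
        rw [Finset.coe_filter, Set.mem_setOf_eq, S1_mem_E] at he
        obtain ⟨⟨h1, h2, h3⟩, h4⟩ := he
        simp only at h1 h2 h3 h4
        subst h1
        simp only [Sigma.mk.injEq] at h4
        obtain ⟨h4, h5⟩ := h4
        subst h4
        simp only [heq_eq_eq, Subtype.mk.injEq] at h5
        subst h5
        simp only [Finset.coe_filter, Set.mem_setOf_eq]
        exact ⟨hy, h2.symm, h3⟩
      · rintro ⟨⟨i, x', hx'⟩, ⟨i', y, hy⟩⟩ he ⟨⟨l, x'', hx''⟩, ⟨l', y', hy'⟩⟩ he' heq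
        rw [Finset.coe_filter, Set.mem_setOf_eq, S1_mem_E] at he he'
        obtain ⟨⟨h1, -, -⟩, h4⟩ := he
        obtain ⟨⟨h1', -, -⟩, h4'⟩ := he'
        simp only at h1 h1' h4 h4'
        subst h1
        subst h1'
        have h5 := h4.trans h4'.symm
        simp only [Sigma.mk.injEq] at h5
        obtain ⟨h5, h6⟩ := h5
        subst h5
        simp only [heq_eq_eq, Subtype.mk.injEq] at h6
        subst h6
        simp only at heq
        subst heq
        rfl) (by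
      rintro d ⟨j, x, hx⟩
      refine le_trans ?_ (hX j x hx d)
      norm_cast
      refine Finset.card_le_card_of_injOn (fun e => (e.1.2 : Plane)) ?_ ?_
      · rintro ⟨⟨i, x', hx'⟩, ⟨i', y, hy⟩⟩ he
        rw [Finset.coe_filter, Set.mem_setOf_eq, S1_mem_E] at he
        obtain ⟨⟨h1, h2, h3⟩, h4⟩ := he
        simp only at h1 h2 h3 h4
        subst h1
        simp only [Sigma.mk.injEq] at h4
        obtain ⟨h4, h5⟩ := h4
        subst h4
        simp only [heq_eq_eq, Subtype.mk.injEq] at h5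
        subst h5
        simp only [Finset.coe_filter, Set.mem_setOf_eq]
        exact ⟨hx', h2, by rw [dist_comm]; exact h3⟩
      · rintro ⟨⟨i, x', hx'⟩, ⟨i', y, hy⟩⟩ he ⟨⟨l, x'', hx''⟩, ⟨l', y', hy'⟩⟩ he' heq
        rw [Finset.coe_filter, Set.mem_setOf_eq, S1_mem_E] at he he'
        obtain ⟨⟨h1, -, -⟩, h4⟩ := he
        obtain ⟨⟨h1', -, -⟩, h4'⟩ := he'
        simp only at h1 h1' h4 h4'
        subst h1
        subst h1'
        have h5 := h4.trans h4'.symm
        simp only [Sigma.mk.injEq] at h5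
        obtain ⟨h5, h6⟩ := h5
        subst h5
        simp only [heq_eq_eq, Subtype.mk.injEq] at h6
        subst h6
        simp only at heq
        subst heq
        rfl) hI hD
  refine ⟨fun j => (X j).filter fun x => ∃ h : x ∈ X j, (⟨j, x, h⟩ : S1_I X) ∈ S,
    fun j => Finset.filter_subset _ _, ?_, ?_⟩
  · intro d
    have h1 : ∑ e ∈ S1_E X d, g e.1.1 e.1.2 * g e.2.1 e.2.2 =
        ∑ j, ∑ e ∈ (X j).offDiag.filter (fun e => dist e.1 e.2 = d), g j e.1 * g j e.2 := by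
      rw [← S1_sum X d (fun j x y => g j x * g j y)]
      refine Finset.sum_congr rfl ?_
      rintro ⟨⟨j, x, hx⟩, ⟨j', y, hy⟩⟩ he
      obtain ⟨h4, -, -⟩ := S1_mem_E.1 he
      simp only at h4
      subst h4
      rfl
    have h2 : (((S1_E X d).filter fun e => e.1 ∈ S ∧ e.2 ∈ S).card : ℝ) =
        ∑ j, (P ((X j).filter fun x => ∃ h : x ∈ X j, (⟨j, x, h⟩ : S1_I X) ∈ S) d : ℝ) := by
      rw [Finset.card_filter]
      push_cast
      have h3 := S1_sum X d (fun j x y =>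
        if (∃ h : x ∈ X j, (⟨j, x, h⟩ : S1_I X) ∈ S) ∧ (∃ h : y ∈ X j, (⟨j, y, h⟩ : S1_I X) ∈ S)
        then 1 else 0)
      refine Eq.trans (Finset.sum_congr rfl ?_) (h3.trans (Finset.sum_congr rfl ?_))
      · rintro ⟨⟨j, x, hx⟩, ⟨j', y, hy⟩⟩ he
        obtain ⟨h4, -, -⟩ := S1_mem_E.1 he
        simp only at h4
        subst h4
        simp only [hx, hy, exists_true_left]
      · intro j _
        rw [P, ← Finset.sum_filter, Finset.sum_const, nsmul_eq_mul, mul_one]
        norm_cast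
        congr 1
        ext ⟨x, y⟩
        simp only [Finset.mem_filter, Finset.mem_offDiag]
        tauto
    rw [← h1, ← h2]
    by_cases hd : d ∈ Dd
    · convert hS1 d hd
    · have h3 : S1_E X d = ∅ := by
        rw [Finset.eq_empty_iff_forall_notMem]
        intro e he
        exact hd (Finset.mem_image.2 ⟨e, Finset.mem_univ _, (S1_mem_E.1 he).2.2⟩)
      rw [h3]
      simpa using hdev
  · refine le_trans (le_of_eq ?_) (hS2.trans (le_of_eq ?_))
    · have h1 : S.card = ∑ j, (Finset.card ((X j).filter fun x => ∃ h : x ∈ X j,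
          (⟨j, x, h⟩ : S1_I X) ∈ S)) := by
        rw [← Finset.card_sigma]
        refine Finset.card_bij (fun i _ => ⟨i.1, (i.2 : Plane)⟩) ?_ ?_ ?_
        · rintro ⟨j, x, hx⟩ hi
          simp only [Finset.mem_sigma, Finset.mem_univ, true_and, Finset.mem_filter]
          exact ⟨hx, hx, hi⟩
        · rintro ⟨j, x, hx⟩ _ ⟨j', x', hx'⟩ _ heq
          simp only [Sigma.mk.injEq, heq_eq_eq] at heq
          obtain ⟨h1, h2⟩ := heq
          subst h1
          subst h2
          rfl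
        · rintro ⟨j, x⟩ hi
          simp only [Finset.mem_sigma, Finset.mem_univ, true_and, Finset.mem_filter] at hi
          obtain ⟨hx, hx', h3⟩ := hi
          exact ⟨⟨j, x, hx⟩, h3, rfl⟩
      rw [h1]
      push_cast
      rfl
    · congr 1
      rw [Fintype.sum_sigma]
      refine Finset.sum_congr rfl fun j _ => ?_
      exact Finset.sum_coe_sort (X j) (fun x => g j x)

end Pool.Agent.RNK
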