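import Pool.Agent.RNK.StA

set_option autoImplicit false

/-!
# RNK / StD: blocks from number fields, conclusion; statements with proofs
-/

namespace Pool.Agent.RNK

open IsDedekindDomain NumberField Pool.Agent.QCF Pool.Agent.UDT
open Pool.Agent.Helper53.Generic Pool.Agent.Helper60.Gap

/-- [B2] The configuration of a field.
PROOF. `Λ p = p.1`, `h = hh q s p.2` (G3), `pt p y = φ(y) / (2 √(τ₀ b))`, `b = p.2`, where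
`φ : K → ℂ` extends `τ₀` (N0b); `lab p v` = the totally positive integer `x` with `nm v = x b` (for
`v ≠ 0`: N0a, N0b; otherwise `1`), `δ x = √(τ₀ x)`, `t x = tR (s x)`, `cnt = dd`, `W = WW q`.
`|pt (y + 2v) - pt y|² = ‖φ v‖²/τ₀ b = τ₀ (nm v)/τ₀ b = τ₀ x`; `h v = ∑ τ(s) τ(x) = t x`; `sum_cnt` is
N4. -/
def St_B2 : Prop := ∀ (P D : ℕ) (T : Finset ℕ) (L K : Type) [Field L] [NumberField L] [Field K]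
  [NumberField K] [Algebra L K] (q : QE L K (-1 : L)), RF P T D L →
  ∀ s : L, (∀ τ : L →+* ℝ, 1 / 2 ≤ τ s ∧ τ s ≤ 3 / 2) → ∀ τ₀ : L →+* ℝ,
  ∀ R : Finset (Ideal (𝓞 K) × 𝓞 L), Reps q R →
  ∃ C : Conf D R {x : 𝓞 L // TP x}, (∀ x, C.t x = tR (s * (x.1 : L))) ∧
    (∀ x, C.cnt x = dd q x.1) ∧ C.W = WW q ∧ (∀ x, C.δ x = √(τ₀ (x.1 : L))) ∧
    ∀ (p : R) (ρ : ℝ), ∑' y, Real.exp (-(C.h p y) / (2 * ρ)) = SS q s ρ p.1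

/-- [D1a] Many popular integers.
PROOF. `Q = ∏ T`, `Y = ρ/(3Q)`; G1 (ii) gives `X₀ ⊆ 𝓞 K`, remove `0`; map `y ↦ Q * nm y`. `z = nm y` is
totally positive, `τ z ≤ Y ≤ ρ` (N0b), `span {y} ∈ sol q z`, so `1 ≤ dd z ≤ c` and
`dd (Q z) ≥ 2^(|T| D)` (N6); `tR (Q z) ≤ Q Y D = ρ D/3`. Fibres of `nm` over `z`: the ideal `(y)` is in
`sol q z` and determines `y` up to a unit `u` with `nm u = 1`: at most `c WW ≤ 625^D c` elements. -/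
def St_D1a : Prop := ∀ (P D : ℕ) (T : Finset ℕ) (L K : Type) [Field L] [NumberField L] [Field K]
  [NumberField K] [Algebra L K] (q : QE L K (-1 : L)), RF P T D L → ∀ ρ c : ℝ, 1 ≤ ρ →
  (∀ x : 𝓞 L, TP x → (∀ τ : L →+* ℝ, τ (x : L) ≤ ρ) → (dd q x : ℝ) ≤ c) →
  ∃ X : Finset (𝓞 L), (∀ x ∈ X, TP x ∧ 2 ^ (T.card * D) ≤ dd q x ∧ tR (x : L) ≤ ρ * D / 3) ∧
    (ρ / (6 * (∏ l ∈ T, l : ℕ) * P)) ^ D - 1 ≤ X.card * (625 ^ D * c)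

/-- [D1b] The gap in the field.
PROOF. G2: `ω`. `B = 16 P^4 ρ² D`, `J = ⌊8B⌋ + 1`, `N = 32 P^4 D`, `η = 1/(2 J N)`. `Q` = the (finite,
N0b) set of the `x` with `TP x`, `1 ≤ dd x`, `tR x ≤ ρ² D`; `φ_i x` = the integer `tR (ω_i x)`,
`|φ_i x| ≤ 16 P^4 tR x ≤ B`, separating (G2); `c x = tR x - 2 ρ log (dd x)`. C1: `j`, `t`;
`s = 1 + η ∑ j_i ω_i`, `|τ s - 1| ≤ η 2J D 16 P^4 = 1/2`, and `F x = FF q s ρ x`. `F` takes the value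
`t`. `F x = η k_x - 2 ρ log (dd x)`, `k_x = 2 J N tR x + ∑ j_i φ_i x`, and `dd x ∈ V`
(`|N x| ≤ (tR x/D)^D ≤ ρ^(2D) ≤ 2^m`): C2 gives `τ₁`, `Top = {x ∈ Q | F x ≤ τ₁}`, with gap
`η/(4|V|)`. `t ≤ -2ρ(|T|-1) D log 2`: all `x ∈ X` have `F x ≤ (3/2) ρ D/3 - 2 ρ |T| D log 2 ≤` this
(`1/2 ≤ 2 log 2`), and `|X| ≥ r > #{F < t}` (`X ⊆ Q`). For `x ∉ Q` with `TP x`, `1 ≤ dd x`: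
`u := tR x/D > ρ²`, `dd x ≤ |N x| ≤ u^D` (N2: `v + 1 ≤ 2^v ≤ (N w)^v`), so
`F x ≥ D (u/2 - 2 ρ log u) ≥ D ≥ 1` as `ρ ≥ 32`, while `τ₁ + w ≤ 0`. -/
def St_D1b : Prop := ∀ (P D : ℕ) (T : Finset ℕ) (L K : Type) [Field L] [NumberField L] [Field K]
  [NumberField K] [Algebra L K] (q : QE L K (-1 : L)), RF P T D L → 3 ≤ T.card →
  ∀ ρ : ℝ, 32 ≤ ρ → ∀ X : Finset (𝓞 L),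
  (∀ x ∈ X, TP x ∧ 2 ^ (T.card * D) ≤ dd q x ∧ tR (x : L) ≤ ρ * D / 3) →
  ∀ (m : ℕ) (V : Finset ℕ), ρ ^ (2 * D) ≤ 2 ^ m →
  (∀ x : 𝓞 L, x ≠ 0 → Ideal.absNorm (Ideal.span {x}) ≤ 2 ^ m → dd q x ∈ V) →
  ∀ r : ℕ, 1 ≤ r → r ≤ X.card → ∃ (s : L) (τ₁ : ℝ) (Top : Finset (𝓞 L)),
    (∀ τ : L →+* ℝ, 1 / 2 ≤ τ s ∧ τ s ≤ 3 / 2) ∧ r ≤ Top.card ∧
    Top.card ≤ 2 * D * (r - 1) + 1 ∧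
    (∀ x ∈ Top, TP x ∧ 1 ≤ dd q x ∧ tR (x : L) ≤ ρ ^ 2 * D ∧ FF q s ρ x ≤ τ₁) ∧
    (∃ x ∈ Top, FF q s ρ x = τ₁) ∧
    (∀ x : 𝓞 L, TP x → 1 ≤ dd q x → x ∉ Top →
      τ₁ + 1 / (256 * P ^ 4 * D * (128 * P ^ 4 * ρ ^ 2 * D + 1) * V.card) ≤ FF q s ρ x) ∧
    τ₁ ≤ -(2 * ρ * ((T.card : ℝ) - 1) * D * Real.log 2) + 1

/-- [Dn] Numerical estimates. `D = 2^(m+1)`, `c = (Cε ρ^(2ε))^D`.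
PROOF. `Lc = 8 (3 + log Cε + 2 ε log ρ)`, so `exp(-Lc D/8) = (exp(-3)/(Cε ρ^(2ε)))^D` and
`c 2 4^D exp(-Lc D/8) = 2 (4 exp(-3))^D ≤ 2 * 4^(-D)`. `v ≤ 2^(D/8)` for large `D` (`m' ≤ C(ρ₂) D`,
`√m' log m' = o(D)`), so `w ≥ 2^(-D/4) 32 ρ₂` for large `D`, uniformly for `ρ ≤ ρ₂`.
`dev/(κ W) ≤ 2 c √(2 N log(4N²+4)) (24 P²/ρ)^D`, `N ≤ (10 P² (16 Lc ρ + 2))^D`: at most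
`(Cε ρ^(2ε) √(10 P² 18 Lc ρ) 24 P²/ρ)^D √(8 D log(..))`, the base is `≤ 1/4` for `ρ ≥ ρ₁` because
`2ε + 1/2 < 1`. Similarly `2/(κ W) ≤ 4^(-D)`. The last claims: `C` large, `ρ ≥ ρ₁`, `D` large. -/
def St_Dn : Prop := ∀ (P Q : ℕ) (ε Cε : ℝ), 1 ≤ P → 1 ≤ Q → 0 < ε → ε ≤ 1 / 16 → 1 ≤ Cε →
  ∃ (C ρ₁ : ℝ), 1 ≤ C ∧ 32 ≤ ρ₁ ∧ ∀ ρ₂ : ℝ, ρ₁ ≤ ρ₂ → ∃ m₀ : ℕ, ∀ m : ℕ, m₀ ≤ m →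
  ∀ ρ : ℝ, ρ₁ ≤ ρ → ρ ≤ ρ₂ → ∀ (D : ℕ) (c Lc : ℝ), D = 2 ^ (m + 1) →
  c = (Cε * ρ ^ (2 * ε)) ^ D → Lc = 8 * (3 + Real.log Cε + 2 * ε * Real.log ρ) →
  1 ≤ Lc ∧ 2 * Lc ≤ ρ ∧ 1 ≤ c ∧
  (∃ m' : ℕ, ρ ^ (2 * D) ≤ 2 ^ m' ∧ ∀ (v : ℕ) (N κ W w : ℝ), 1 ≤ v →
    v ≤ (m' + 2) ^ (2 * Nat.sqrt m') + 1 → 1 ≤ N →
    N ≤ (10 * P ^ 2) ^ D * (16 * (Lc * ρ) + 2) ^ D → (ρ / (24 * (P : ℝ) ^ 2)) ^ D ≤ κ → 1 ≤ W →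
    w = 1 / (256 * P ^ 4 * D * (128 * P ^ 4 * ρ ^ 2 * D + 1) * v) →
    2 * dev (W * c) N + 2 + κ * W * (c * (2 * 4 ^ D * Real.exp (-(Lc * D / 8)))) ≤
      κ * W * (w / (8 * ρ)) ∧ (1 / 2) ^ 2 ^ m ≤ w / (8 * ρ) ∧ w ≤ 1 ∧ dev (W * c) N ≤ κ * W) ∧
  (∀ n : ℕ, ((ρ / (6 * Q * P)) ^ D - 1 ≤ n * (625 ^ D * c)) →
    (ρ ^ (1 - 4 * ε) / C) ^ D ≤ n) ∧
  (120 * ρ) ^ D * 625 ^ D * c ≤ (C * ρ ^ (1 + 4 * ε)) ^ D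

/-- [D1] Blocks.
PROOF. N7 for `ε`: `Cε`; Dn with `Q = ∏ T`. `K`, `q` from `QCF.st_N5` (`-1` is not a square: real
embedding), `τ₀` a real embedding. If `tR x ≤ ρ² D` then `|N x| ≤ ρ^(2D)` and `dd x ≤ c` (N0b, N7). D1a:
`X`, `R ≤ |X|` (Dn). N8 for `m'`: `V` (nonempty). For `1 ≤ r₀ ≤ R`: D1b gives `s, τ₁, Top`; N3: `R'`; B2;
`κ = min` of `SS` over `R'`, `M₀ = (4P)^D` (G4); B1 (`C.t x ≤ Lc ρ D` gives `tR x ≤ 2 Lc ρ D ≤ ρ² D`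
as `τ s ≥ 1/2`, so `dd x ≤ c`); `W = WW q`. Let `E = exp(-τ₁/(2ρ)) ≥ 2^((|T|-1)D)/2`, `tr` = the
truncation factor, `a = κ W (E - c tr) - dev`, `b = κ W E exp(-w/(2ρ)) + dev + 2`,
`S = {√(τ₀ x) | x ∈ Top}` (`cnt exp(-t/(2ρ)) = exp(-F/(2ρ))` if `cnt ≥ 1`). `a - b ≥
κ W E (1 - exp(-w/(2ρ))) - κ W w/(8ρ) ≥ κ W E w/(8ρ) ≥ θ κ W E ≥ θ a` (`1 - e^(-x) ≥ x/2` on
`[0,1]`, `E ≥ 1`). `|U| ≤ 2^D (10P²)^D (4P)^D κ + κ W`, `W ≥ 1`; `a ≥ κ W E/2`;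
`2^D |U| ≤ 2 (160 P³)^D κ W... ≤ a` because `2560 P^4 ≤ 2^|T|`. `a ≤ κ W E`, `κ ≤ (120 ρ)^D` (A1),
`W ≤ 625^D`, `E = dd x exp(-t/(2ρ)) ≤ c` for the `x ∈ Top` with `F x = τ₁`. -/
def St_D1 : Prop := ∀ (P : ℕ) (T : Finset ℕ), 2560 * P ^ 4 ≤ 2 ^ T.card → 1 ≤ P →
  (∀ l ∈ T, 1 ≤ l) → ∀ ε : ℝ, 0 < ε → ε ≤ 1 / 16 →
  ∃ C ρ₁ : ℝ, 1 ≤ C ∧ 1 ≤ ρ₁ ∧ ∀ ρ₂ : ℝ, ρ₁ ≤ ρ₂ → ∃ m₀ : ℕ, ∀ (m : ℕ) (L : Type) [Field L]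
    [NumberField L], m₀ ≤ m → RF P T (2 ^ (m + 1)) L → ∀ ρ : ℝ, ρ₁ ≤ ρ → ρ ≤ ρ₂ → ∀ R : ℕ,
    (R : ℝ) ≤ (ρ ^ (1 - 4 * ε) / C) ^ 2 ^ (m + 1) →
    Av (2 ^ (m + 1)) ((1 / 2) ^ 2 ^ m) (2 ^ 2 ^ (m + 1)) ((C * ρ ^ (1 + 4 * ε)) ^ 2 ^ (m + 1)) R

/-- the theorem -/
def St_Main : Prop := ∀ η : ℝ, 0 < η → ∃ δ : ℝ, 0 < δ ∧ ∃ n₀ : ℕ, ∀ n : ℕ, n₀ ≤ n →
  ∀ r : ℕ, 1 ≤ r → (r : ℝ) ≤ (n : ℝ) ^ (1 - η) → (n : ℝ) ^ (1 + δ) ≤ M r n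

/-- [E3] Conclusion.
PROOF. `UDT.st_T14` with `lam = 2560`: `P = P₁`, `T`, fields for all `m`, which satisfy `RF`
(`natAbs disc ∣ P^(2^m)`, squared `≤ P^(2^(m+1))`). `ε = min (η/11) (1/16)`; D1: `C, ρ₁`;
`c₀ = max (C^(1/ε)) (ρ₁^2) ≥ 2`, `ρ₂ = c₀^2`. For large `n` let `m` be maximal with
`c₀^(2^(m+1)) ≤ n`, `D = 2^(m+1)`: `c₀ ≤ n^(1/D) < c₀²`, `m ≥ m₀`. `ρ = n^((1-6ε)/D)`: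
`ρ₁ ≤ c₀^(1-6ε) ≤ ρ ≤ ρ₂`. `C^D ≤ n^ε`. Rank: `(ρ^(1-4ε)/C)^D ≥ n^((1-6ε)(1-4ε)-ε) ≥ n^(1-11ε) ≥ r`.
`A = (C ρ^(1+4ε))^D ≤ n^(ε+(1-6ε)(1+4ε)) ≤ n^(1-ε)`. E2 (`R = r`): `k ≤ 2D + 4D(1 + log n)`,
`D ≤ log n/log 2`, so `4k ≤ n^ε` for large `n`, and `4 k A ≤ n ≤ θ n G` (`θ G = 2^(D/2)`); E1:
`M_r(n) ≥ n 2^(D/2)/(8k)` and `2^D ≥ n^(log 2/(2 log c₀))` (`n < c₀^(2D)`);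
`δ = log 2/(8 log c₀)`. -/
def St_E3 : Prop := St_D1 → St_E1 → St_E2 → St_Main

end Pool.Agent.RNK
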